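import Pool.Agent.NH13.UV.Stm

/-!
# UV-27: the averaged identity
-/

set_option autoImplicit false

open Complex MeasureTheory Filter Topology Set
open scoped ComplexConjugate

namespace Pool.Agent.NH13.UV

namespace Aq73

theorem card_divisors_le (k : ℕ) : k.divisors.card ≤ 2 * Nat.sqrt k := by
  classical
  rcases Nat.eq_zero_or_pos k with rfl | hk
  · simp
  have h1 : k.divisors ⊆ (Finset.Icc 1 (Nat.sqrt k)) ∪
      (Finset.Icc 1 (Nat.sqrt k)).image (fun d => k / d) := by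
    intro d hd
    have hdk := Nat.dvd_of_mem_divisors hd
    have hd0 := Nat.pos_of_mem_divisors hd
    rw [Finset.mem_union]
    by_cases h : d ≤ Nat.sqrt k
    · left; rw [Finset.mem_Icc]; exact ⟨hd0, h⟩
    · right
      rw [Finset.mem_image]
      refine ⟨k / d, ?_, Nat.div_div_self hdk hk.ne'⟩
      rw [Finset.mem_Icc]
      constructor
      · exact Nat.div_pos (Nat.le_of_dvd hk hdk) hd0
      · by_contra hcon
        push Not at h hcon
        have h2 : d * (k / d) = k := Nat.mul_div_cancel' hdk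
        have h3 := Nat.lt_succ_sqrt k
        have h4 : (Nat.sqrt k + 1) * (Nat.sqrt k + 1) ≤ d * (k / d) := Nat.mul_le_mul h hcon
        rw [h2] at h4
        exact absurd h3 (not_lt.mpr h4)
  calc k.divisors.card ≤ ((Finset.Icc 1 (Nat.sqrt k)) ∪
      (Finset.Icc 1 (Nat.sqrt k)).image (fun d => k / d)).card := Finset.card_le_card h1
    _ ≤ (Finset.Icc 1 (Nat.sqrt k)).card +
      ((Finset.Icc 1 (Nat.sqrt k)).image (fun d => k / d)).card := Finset.card_union_le _ _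
    _ ≤ Nat.sqrt k + Nat.sqrt k := by
        apply add_le_add
        · simp
        · exact Finset.card_image_le.trans (by simp)
    _ = 2 * Nat.sqrt k := by ring

theorem sqrt_le_totient (k : ℕ) (hk : 1 ≤ k) : Real.sqrt k ≤ 2 * Nat.totient k := by
  have h1 : k ≤ k.divisors.card * Nat.totient k := by
    calc k = ∑ e ∈ k.divisors, Nat.totient e := (Nat.sum_totient k).symm
      _ ≤ ∑ _e ∈ k.divisors, Nat.totient k := by
          apply Finset.sum_le_sum
          intro e he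
          exact Nat.le_of_dvd (Nat.totient_pos.mpr (by omega))
            (Nat.totient_dvd_of_dvd (Nat.dvd_of_mem_divisors he))
      _ = k.divisors.card * Nat.totient k := by rw [Finset.sum_const, smul_eq_mul]
  have h2 := card_divisors_le k
  have h3 : k ≤ 2 * Nat.sqrt k * Nat.totient k := h1.trans (Nat.mul_le_mul_right _ h2)
  have h4 : (k : ℝ) ≤ 2 * (Nat.sqrt k : ℝ) * Nat.totient k := by exact_mod_cast h3
  have h5 : (Nat.sqrt k : ℝ) ≤ Real.sqrt k := Real.nat_sqrt_le_real_sqrt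
  have h6 : 0 < Real.sqrt k := Real.sqrt_pos.mpr (by exact_mod_cast (by omega : 0 < k))
  have h7 : Real.sqrt k * Real.sqrt k = k := Real.mul_self_sqrt (by positivity)
  have h8 : (0 : ℝ) ≤ Nat.totient k := by positivity
  have h9 : Real.sqrt k * Real.sqrt k ≤ Real.sqrt k * (2 * Nat.totient k) := by
    rw [h7]
    refine h4.trans ?_
    nlinarith
  exact le_of_mul_le_mul_left h9 h6


lemma card_NT (q : ℕ) [NeZero q] : ((NT q).card : ℝ) = q.totient - 1 := by
  classical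
  have h1 : Fintype.card (DirichletCharacter ℂ q) = q.totient := by
    rw [← Nat.card_eq_fintype_card]
    exact DirichletCharacter.card_eq_totient_of_hasEnoughRootsOfUnity ℂ q
  have h2 : (NT q).card + 1 = q.totient := by
    have h3 : NT q = Finset.univ.erase (1 : DirichletCharacter ℂ q) := by
      ext χ
      rw [mem_NT, Finset.mem_erase]
      simp
    rw [h3, Finset.card_erase_add_one (Finset.mem_univ _), Finset.card_univ, h1]
  have h4 : ((NT q).card : ℝ) + 1 = q.totient := by exact_mod_cast h2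
  linarith

/-- one character -/
lemma one (B : ℂ) (l L δ : ℝ) (hl : l = L / 2) (hL : 0 ≤ L) (hδ : 0 < δ) :
    |(B ^ 2).re + 2 * l * B.re - l ^ 2 - 2 * l ^ 2| ≤
      δ * L ^ 2 + (1 / δ + 1) * ‖B - (l : ℂ)‖ ^ 2 := by
  set D := B - (l : ℂ) with hD
  have hB : B = l + D := by rw [hD]; ring
  have h1 : (B ^ 2).re + 2 * l * B.re - l ^ 2 - 2 * l ^ 2 = 4 * l * D.re + (D ^ 2).re := by
    rw [hB]
    simp only [pow_two, Complex.mul_re, Complex.add_re, Complex.ofReal_re, Complex.add_im,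
      Complex.ofReal_im]
    ring
  rw [h1]
  have h2 : |4 * l * D.re| ≤ 2 * L * ‖D‖ := by
    rw [abs_mul, hl, abs_of_nonneg (by linarith : (0 : ℝ) ≤ 4 * (L / 2))]
    have := Complex.abs_re_le_norm D
    nlinarith
  have h3 : |(D ^ 2).re| ≤ ‖D‖ ^ 2 := by
    have := Complex.abs_re_le_norm (D ^ 2)
    rwa [norm_pow] at this
  have h4 : 2 * L * ‖D‖ ≤ δ * L ^ 2 + (1 / δ) * ‖D‖ ^ 2 := by
    have h5 : 0 ≤ (δ * L - ‖D‖) ^ 2 / δ := by positivity
    have h6 : (δ * L - ‖D‖) ^ 2 / δ = δ * L ^ 2 + (1 / δ) * ‖D‖ ^ 2 - 2 * L * ‖D‖ := by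
      field_simp
      ring
    linarith
  have h7 := abs_add_le (4 * l * D.re) ((D ^ 2).re)
  nlinarith

end Aq73

open Aq73 in
/-- **UV-27.** -/
theorem t_A (h3 : S_K1) (h26 : S_Bp) : S_A := by
  intro κ ε hκ hε
  set δ : ℝ := min 1 (ε / 12) with hδ
  have hδ0 : 0 < δ := lt_min one_pos (by linarith)
  have hδ1 : δ ≤ 1 := min_le_left _ _
  have hδε : δ ≤ ε / 12 := min_le_right _ _
  obtain ⟨q0, hq0⟩ := h26 κ (δ ^ 2) hκ (by positivity)
  -- large q
  have hlog : Tendsto (fun q : ℕ => Real.log (q : ℝ)) atTop atTop :=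
    Real.tendsto_log_atTop.comp tendsto_natCast_atTop_atTop
  have hsq : Tendsto (fun q : ℕ => Real.sqrt (q : ℝ)) atTop atTop :=
    Real.tendsto_sqrt_atTop.comp tendsto_natCast_atTop_atTop
  obtain ⟨q1, hq1⟩ := eventually_atTop.1 (hlog.eventually_ge_atTop (8 * κ / ε + 1))
  obtain ⟨q2, hq2⟩ := eventually_atTop.1 (hsq.eventually_ge_atTop (8 / ε))
  refine ⟨max q0 (max q1 q2), ?_⟩
  intro q _ hq hHD
  have hqq0 : q0 ≤ q := (le_max_left _ _).trans hq
  have hqq1 : q1 ≤ q := ((le_max_left _ _).trans (le_max_right _ _)).trans hq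
  have hqq2 : q2 ≤ q := ((le_max_right _ _).trans (le_max_right _ _)).trans hq
  have hq1' := hq1 q hqq1
  have hq2' := hq2 q hqq2
  have hsum := hq0 q hqq0
  obtain ⟨L, hLdef⟩ : ∃ L, Real.log (q : ℝ) = L := ⟨_, rfl⟩
  rw [hLdef] at hq1' hsum hHD ⊢
  have hIr : Ir q κ = 2 / (Real.pi * (L ^ 2 * q.totient)) * ∑ χ ∈ NT q,
      ∫ t : ℝ, (Bq χ (pt (κ / L) t)).re ^ 2 * wt (κ / L) t := by
    unfold Ir
    rw [hLdef]
  rw [hIr]
  have h8 : 0 < 8 * κ / ε := by positivity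
  have hL0 : 0 < L := by linarith
  have hq1n : 1 ≤ q := NeZero.one_le
  have hφ0 : (0 : ℝ) < q.totient := by
    have : 0 < q.totient := Nat.totient_pos.2 hq1n
    exact_mod_cast this
  have hφ : 4 / ε ≤ q.totient := by
    have h1 := sqrt_le_totient q hq1n
    have h2 : 8 / ε = 2 * (4 / ε) := by ring
    linarith
  set x : ℝ := κ / L with hx
  have hx0 : 0 < x := by positivity
  have hxε : 2 * x ≤ ε / 4 := by
    rw [hx]
    have h1 : 8 * κ / ε ≤ L := by linarith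
    rw [div_le_iff₀ hε] at h1
    rw [← mul_div_assoc, div_le_iff₀ hL0]
    nlinarith
  -- the identity for each character
  have hid : ∀ χ ∈ NT q, ∫ t : ℝ, ‖Bq χ (pt x t) - ((L / 2 : ℝ) : ℂ)‖ ^ 2 * wt x t =
      2 * (∫ t : ℝ, (Bq χ (pt x t)).re ^ 2 * wt x t) - Real.pi / (1 / 2 + x) *
        (((Bq χ ((1 / 2 + 2 * x : ℝ) : ℂ)) ^ 2).re +
          2 * (L / 2) * (Bq χ ((1 / 2 + 2 * x : ℝ) : ℂ)).re - (L / 2) ^ 2) := by
    intro χ hχ
    obtain ⟨h, hh, ι, a, m, hd⟩ := hHD χ hχ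
    have h1 := (h3 (Bq χ) h ι a m hd x hh (L / 2)).2.2
    rw [h1]
    ring
  rw [Finset.sum_congr rfl hid, Finset.sum_sub_distrib, ← Finset.mul_sum, ← Finset.mul_sum]
  set Z1 := ∑ χ ∈ NT q, ∫ t : ℝ, (Bq χ (pt x t)).re ^ 2 * wt x t with hZ1
  set Z2 := ∑ χ ∈ NT q, (((Bq χ ((1 / 2 + 2 * x : ℝ) : ℂ)) ^ 2).re +
          2 * (L / 2) * (Bq χ ((1 / 2 + 2 * x : ℝ) : ℂ)).re - (L / 2) ^ 2) with hZ2
  have hpi := Real.pi_pos
  have hσ : (0 : ℝ) < 1 / 2 + x := by linarith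
  have e1 : 1 / (Real.pi * (L ^ 2 * q.totient)) * (2 * Z1 - Real.pi / (1 / 2 + x) * Z2) -
      (2 / (Real.pi * (L ^ 2 * q.totient)) * Z1 - 1) =
      1 - Z2 / ((1 / 2 + x) * (L ^ 2 * q.totient)) := by
    field_simp
    ring
  rw [e1]
  have hZ : |Z2 - (L ^ 2 / 2) * (q.totient - 1)| ≤ 3 * δ * (L ^ 2 * q.totient) := by
    have h1 : Z2 - (L ^ 2 / 2) * (q.totient - 1) =
        ∑ χ ∈ NT q, (((Bq χ ((1 / 2 + 2 * x : ℝ) : ℂ)) ^ 2).re +
          2 * (L / 2) * (Bq χ ((1 / 2 + 2 * x : ℝ) : ℂ)).re - (L / 2) ^ 2 - 2 * (L / 2) ^ 2) := by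
      rw [hZ2, ← card_NT q]
      simp only [Finset.sum_sub_distrib, Finset.sum_const, nsmul_eq_mul]
      ring
    rw [h1]
    refine (Finset.abs_sum_le_sum_abs _ _).trans ?_
    refine (Finset.sum_le_sum fun χ _ => one (Bq χ ((1 / 2 + 2 * x : ℝ) : ℂ)) (L / 2) L δ rfl
      hL0.le hδ0).trans ?_
    rw [Finset.sum_add_distrib, Finset.sum_const, nsmul_eq_mul, ← Finset.mul_sum, card_NT]
    have h2 : (1 / δ + 1) * ∑ χ ∈ NT q, ‖Bq χ ((1 / 2 + 2 * x : ℝ) : ℂ) - ((L / 2 : ℝ) : ℂ)‖ ^ 2 ≤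
        (1 / δ + 1) * (δ ^ 2 * (L ^ 2 * q.totient)) :=
      mul_le_mul_of_nonneg_left hsum (by positivity)
    have h4 : (1 / δ + 1) * (δ ^ 2 * (L ^ 2 * q.totient)) =
        (δ + δ ^ 2) * (L ^ 2 * q.totient) := by
      field_simp
    rw [h4] at h2
    have h5 : 0 < L ^ 2 * q.totient := by positivity
    have h6 : δ ^ 2 ≤ δ := by nlinarith
    have h7 : (δ + δ ^ 2) * (L ^ 2 * q.totient) ≤ (2 * δ) * (L ^ 2 * q.totient) :=
      mul_le_mul_of_nonneg_right (by linarith) h5.le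
    have h9 : ((q.totient : ℝ) - 1) * (δ * L ^ 2) ≤ δ * (L ^ 2 * q.totient) := by
      have : 0 ≤ δ * L ^ 2 := by positivity
      nlinarith
    linarith
  -- the end
  set W := L ^ 2 * (q.totient : ℝ) with hW
  have hW0 : 0 < W := by positivity
  have e2 : 1 - Z2 / ((1 / 2 + x) * W) =
      (2 * x + 1 / q.totient) / (1 + 2 * x) -
        (Z2 - (L ^ 2 / 2) * (q.totient - 1)) / ((1 / 2 + x) * W) := by
    have hφne : (q.totient : ℝ) ≠ 0 := hφ0.ne'
    have h1 : (L ^ 2 / 2) * ((q.totient : ℝ) - 1) / ((1 / 2 + x) * W) =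
        (1 - 1 / q.totient) / (1 + 2 * x) := by
      rw [hW, div_eq_div_iff (by positivity) (by positivity)]
      field_simp
    rw [sub_div, h1]
    have h2 : (1 : ℝ) = (1 + 2 * x) / (1 + 2 * x) := (div_self (by positivity)).symm
    have h3 : (2 * x + 1 / q.totient) / (1 + 2 * x) + (1 - 1 / q.totient) / (1 + 2 * x) =
        (1 : ℝ) := by
      rw [← add_div]
      rw [div_eq_one_iff_eq (by positivity)]
      ring
    linarith
  rw [e2]
  have h10 : |(2 * x + 1 / (q.totient : ℝ)) / (1 + 2 * x)| ≤ 2 * x + 1 / q.totient := by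
    have h11 : (0 : ℝ) ≤ 2 * x + 1 / q.totient := by positivity
    rw [abs_of_nonneg (by positivity)]
    exact div_le_self h11 (by linarith)
  have h12 : 1 / (q.totient : ℝ) ≤ ε / 4 := by
    rw [div_le_iff₀ hφ0]
    rw [div_le_iff₀ hε] at hφ
    nlinarith
  have h13 : |(Z2 - (L ^ 2 / 2) * (q.totient - 1)) / ((1 / 2 + x) * W)| ≤ 6 * δ := by
    rw [abs_div, abs_of_pos (by positivity : (0 : ℝ) < (1 / 2 + x) * W),
      div_le_iff₀ (by positivity)]
    refine hZ.trans ?_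
    have h14 : 0 < δ * W := by positivity
    nlinarith
  calc |(2 * x + 1 / (q.totient : ℝ)) / (1 + 2 * x) -
        (Z2 - (L ^ 2 / 2) * (q.totient - 1)) / ((1 / 2 + x) * W)|
      ≤ |(2 * x + 1 / (q.totient : ℝ)) / (1 + 2 * x)| +
        |(Z2 - (L ^ 2 / 2) * (q.totient - 1)) / ((1 / 2 + x) * W)| := abs_sub _ _
    _ ≤ (ε / 4 + ε / 4) + 6 * (ε / 12) := by linarith
    _ = ε := by ring

end Pool.Agent.NH13.UV
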