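import Pool.Agent.NH13.UV.Stm

/-!
# Plan UV: the final assembly, from the statements of the jobs
-/

set_option autoImplicit false

open Complex MeasureTheory Filter Topology Set
open scoped ComplexConjugate

namespace Pool.Agent.NH13.UV

/-- the generalized Riemann hypothesis for all Dirichlet characters -/
def GRHall : Prop := ∀ (q : ℕ) [NeZero q] (χ : DirichletCharacter ℂ q) (s : ℂ),
  1 / 2 < s.re → s ≠ 1 → DirichletCharacter.LFunction χ s ≠ 0

namespace Asm

theorem two_le_of {q : ℕ} [NeZero q] {χ : DirichletCharacter ℂ q} (h : χ ≠ 1) : 2 ≤ q := by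
  by_contra hq
  have h1 : q = 1 := by
    have := NeZero.ne q
    omega
  subst h1
  exact h (DirichletCharacter.level_one χ)

theorem log_pos' {q : ℕ} (hq : 2 ≤ q) : 0 < Real.log q :=
  Real.log_pos (by exact_mod_cast (by omega : 1 < q))

theorem Gv_lt (hA : AllFin) {q : ℕ} (hq : 2 ≤ q) {κ : ℝ} (hκ : 0 < κ) : Gv q κ < ⊤ := by
  have hl := log_pos' hq
  unfold Gv
  exact ENNReal.div_lt_top (hA q (by omega) _ (by positivity)).ne
    (ENNReal.ofReal_pos.2 (by positivity)).ne'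

theorem grh1 (hMe : S_Me) (hG : S_GG) (hA : AllFin) : GRH1 := by
  intro q _ χ hχ s hs
  have hq := two_le_of hχ
  have hl := log_pos' hq
  obtain ⟨κ, hκ, hκs⟩ : ∃ κ : ℝ, 0 < κ ∧ 1 / 2 + κ / Real.log q < s.re := by
    refine ⟨(s.re - 1 / 2) / 2 * Real.log q, by nlinarith, ?_⟩
    rw [mul_div_assoc, div_self hl.ne', mul_one]
    linarith
  have h1 := (hG.1 q hq κ hκ (Gv_lt hA hq hκ)).1 χ (mem_NT.2 hχ)
  have h2 : (∫⁻ u in Ioi (1 : ℝ), ENNReal.ofReal (‖psi χ u‖ ^ 2 * u ^ (-2 - 2 * (κ / Real.log q)))) < ⊤ := by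
    rwa [← mul_div_assoc]
  exact (hMe q χ hχ _ (by positivity) h2 s hκs).2.1

theorem grhall (h1 : GRH1) (h2 : RiemannHypothesis) : GRHall := by
  intro q _ χ s hs hs1
  by_cases hχ : χ = 1
  · subst hχ
    have h3 := DirichletCharacter.LFunctionTrivChar_eq_mul_riemannZeta (N := q) hs1
    unfold DirichletCharacter.LFunctionTrivChar at h3
    rw [h3]
    refine mul_ne_zero ?_ ?_
    · refine Finset.prod_ne_zero_iff.2 fun p hp => ?_
      have hp2 : 2 ≤ p := (Nat.prime_of_mem_primeFactors hp).two_le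
      intro h
      have h4 : ((p : ℂ) ^ (-s)) = 1 := by linear_combination -h
      have h5 := congrArg norm h4
      rw [Complex.norm_natCast_cpow_of_pos (by omega), norm_one, neg_re] at h5
      have h6 : (p : ℝ) ^ (-s.re) < 1 :=
        Real.rpow_lt_one_of_one_lt_of_neg (by exact_mod_cast (by omega : 1 < p)) (by linarith)
      linarith
    · intro h
      have h4 := h2 s h (by
        rintro ⟨n, hn⟩
        rw [hn] at hs
        simp at hs
        have : (0 : ℝ) ≤ n := Nat.cast_nonneg n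
        linarith) hs1
      linarith
  · exact h1 q χ hχ s hs

theorem win_eq (hcv : S_cv) {q : ℕ} (hq : 2 ≤ q) {a b : ℝ} (hab : a < b) :
    ∫ u in a..b, ff q u = (b - a) * Wv q a b := by
  have hl := log_pos' hq
  have hb : 0 < b - a := by linarith
  rw [hcv.1 q hq a b hab.le]
  unfold Wv
  field_simp

theorem asy_iff (hcv : S_cv) : Asy ↔ ∀ a b : ℝ, 1 ≤ a → a < b →
    Tendsto (fun q : ℕ => ∫ u in a..b, ff q u) atTop (𝓝 (b - a)) := by
  constructor
  · intro h a b ha hab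
    have h1 := (h a b ha hab).const_mul (b - a)
    rw [mul_one] at h1
    refine h1.congr' ?_
    filter_upwards [eventually_ge_atTop 2] with q hq
    rw [win_eq hcv hq hab]
  · intro h a b ha hab
    have hb : b - a ≠ 0 := by linarith
    have h1 := (h a b ha hab).const_mul (b - a)⁻¹
    rw [inv_mul_cancel₀ hb] at h1
    refine h1.congr' ?_
    filter_upwards [eventually_ge_atTop 2] with q hq
    rw [win_eq hcv hq hab, ← mul_assoc, inv_mul_cancel₀ hb, one_mul]

theorem upp_of_asy (h : Asy) : Upp := by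
  intro a b ha hab ε hε
  exact ((h a b ha hab).eventually (gt_mem_nhds (show (1 : ℝ) < 1 + ε by linarith))).mono fun _ h => h.le

theorem bound_of (hcv : S_cv) (hbd : S_bd) (hMe : S_Me) (hG : S_GG) (hRH : S_RH)
    (hpsi : RiemannHypothesis → PsiB) (hA : AllFin) :
    ∃ C : ℝ, ∀ κ : ℝ, 0 < κ → κ ≤ 1 → ∀ᶠ q in atTop, LT (ff q) κ ≤ ENNReal.ofReal (C / κ ^ 2) := by
  obtain ⟨C, hC⟩ := hbd hA (grh1 hMe hG hA) (hpsi (hRH (hA 1 le_rfl)))
  refine ⟨C, fun κ h1 h2 => ?_⟩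
  filter_upwards [hC κ h1 h2, eventually_ge_atTop 2] with q hq hq2
  rwa [hcv.2 q hq2]

theorem asy_of_upp (hcv : S_cv) (hf : S_fam) (hbd : S_bd) (hMe : S_Me) (hG : S_GG) (hRH : S_RH)
    (hpsi : RiemannHypothesis → PsiB) (hfin : S_fin) (hP : S_P) (hT1 : S_T1) (h : Upp) : Asy := by
  have hA := hfin h
  rw [asy_iff hcv]
  refine hT1 ff hf (bound_of hcv hbd hMe hG hRH hpsi hA) ?_ ?_
  · intro κ ε hκ hε
    filter_upwards [hP κ ε hκ hε, eventually_ge_atTop 2] with q hq hq2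
    rwa [hcv.2 q hq2]
  · intro a b ha hab ε hε
    have hb : 0 < b - a := by linarith
    filter_upwards [h a b ha hab (ε / (b - a)) (by positivity), eventually_ge_atTop 2] with q hq hq2
    rw [win_eq hcv hq2 hab]
    calc (b - a) * Wv q a b ≤ (b - a) * (1 + ε / (b - a)) := mul_le_mul_of_nonneg_left hq hb.le
      _ = b - a + ε := by field_simp

theorem abe_of_asy (hcv : S_cv) (hf : S_fam) (hbd : S_bd) (hMe : S_Me) (hG : S_GG) (hRH : S_RH)
    (hpsi : RiemannHypothesis → PsiB) (hfin : S_fin) (hT2 : S_T2) (h : Asy) : Abe := by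
  have hA := hfin (upp_of_asy h)
  have h2 := hT2 ff hf (bound_of hcv hbd hMe hG hRH hpsi hA) ((asy_iff hcv).1 h)
  intro δ hδ
  have h3 := ENNReal.Tendsto.const_mul (a := ENNReal.ofReal (2 * δ)) (h2 δ hδ)
    (Or.inr ENNReal.ofReal_ne_top)
  rw [← ENNReal.ofReal_mul (by positivity)] at h3
  have e : 2 * δ * ((1 - Real.exp (-2 * δ)) / (4 * δ ^ 2)) = (1 - Real.exp (-2 * δ)) / (2 * δ) := by
    field_simp
    ring
  rw [e] at h3
  refine h3.congr' ?_
  filter_upwards [eventually_ge_atTop 2] with q hq2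
  rw [hcv.2 q hq2]
  rfl

theorem asy_of_abe (hcv : S_cv) (hf : S_fam) (hT3 : S_T3) (h : Abe) : Asy := by
  rw [asy_iff hcv]
  refine hT3 ff hf fun κ hκ => ?_
  have h3 := ENNReal.Tendsto.const_mul (a := ENNReal.ofReal ((2 * κ)⁻¹)) (h κ hκ)
    (Or.inr ENNReal.ofReal_ne_top)
  rw [← ENNReal.ofReal_mul (by positivity)] at h3
  have e : (2 * κ)⁻¹ * ((1 - Real.exp (-2 * κ)) / (2 * κ)) = (1 - Real.exp (-2 * κ)) / (4 * κ ^ 2) := by
    field_simp
    ring
  rw [e] at h3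
  refine h3.congr' ?_
  filter_upwards [eventually_ge_atTop 2] with q hq2
  rw [hcv.2 q hq2]
  unfold Mv
  rw [← mul_assoc, ← ENNReal.ofReal_mul (by positivity), inv_mul_cancel₀ (by positivity),
    ENNReal.ofReal_one, one_mul]

theorem lower (hP : S_P) : ∀ δ ε : ℝ, 0 < δ → 0 < ε → ∀ᶠ q : ℕ in atTop,
    ENNReal.ofReal (1 - δ - ε) ≤ Mv q δ := by
  intro δ ε hδ hε
  filter_upwards [hP δ (ε / (2 * δ)) hδ (by positivity)] with q hq
  unfold Mv
  calc ENNReal.ofReal (1 - δ - ε) = ENNReal.ofReal (2 * δ) *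
        ENNReal.ofReal ((1 / δ - 1) / 2 - ε / (2 * δ)) := by
        rw [← ENNReal.ofReal_mul (by positivity)]
        congr 1
        field_simp
    _ ≤ _ := mul_le_mul_right hq _

theorem main (hcv : S_cv) (hf : S_fam) (hbd : S_bd) (hMe : S_Me) (hG : S_GG) (hRH : S_RH)
    (hpsi : RiemannHypothesis → PsiB) (hfin : S_fin) (hP : S_P) (hT1 : S_T1) (hT2 : S_T2)
    (hT3 : S_T3) :
    (∀ δ ε : ℝ, 0 < δ → 0 < ε → ∀ᶠ q : ℕ in atTop, ENNReal.ofReal (1 - δ - ε) ≤ Mv q δ) ∧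
    (Asy ↔ Upp) ∧ (Asy ↔ Abe) ∧ (Asy → GRHall) := by
  refine ⟨lower hP, ⟨upp_of_asy, asy_of_upp hcv hf hbd hMe hG hRH hpsi hfin hP hT1⟩,
    ⟨abe_of_asy hcv hf hbd hMe hG hRH hpsi hfin hT2, asy_of_abe hcv hf hT3⟩, fun h => ?_⟩
  have hA := hfin (upp_of_asy h)
  exact grhall (grh1 hMe hG hA) (hRH (hA 1 le_rfl))

end Asm

end Pool.Agent.NH13.UV
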