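import Pool.Agent.NH13.UV.Stm

/-!
# UV-15: mean square of `L'/L` at `1 + 2 κ / log q`
-/

set_option autoImplicit false

open Complex

namespace Pool.Agent.NH13.UV

namespace Avg94

theorem orth (q : ℕ) [NeZero q] (a b : ZMod q) :
    ∑ χ : DirichletCharacter ℂ q, χ a * (starRingEnd ℂ) (χ b) =
      if a = b ∧ IsUnit b then (q.totient : ℂ) else 0 := by
  by_cases hb : IsUnit b
  · have h1 : ∀ χ : DirichletCharacter ℂ q, (starRingEnd ℂ) (χ b) = χ b⁻¹ := by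
      intro χ
      have h2 : star (χ b) = χ⁻¹ b := MulChar.star_apply' χ b
      have h3 : (starRingEnd ℂ) (χ b) = star (χ b) := rfl
      obtain ⟨u, rfl⟩ := hb
      rw [h3, h2, MulChar.inv_apply, Ring.inverse_unit, ZMod.inv_coe_unit]
    have h4 := DirichletCharacter.sum_char_inv_mul_char_eq ℂ hb a
    calc ∑ χ : DirichletCharacter ℂ q, χ a * (starRingEnd ℂ) (χ b)
        = ∑ χ : DirichletCharacter ℂ q, χ b⁻¹ * χ a :=
          Finset.sum_congr rfl fun χ _ => by rw [h1, mul_comm]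
      _ = if b = a then (q.totient : ℂ) else 0 := h4
      _ = _ := by
        by_cases hab : a = b
        · rw [if_pos hab.symm, if_pos ⟨hab, hb⟩]
        · rw [if_neg (Ne.symm hab), if_neg (fun h => hab h.1)]
  · have h1 : ∀ χ : DirichletCharacter ℂ q, χ b = 0 := fun χ => MulChar.map_nonunit χ hb
    rw [if_neg (fun h => hb h.2)]
    exact Finset.sum_eq_zero fun χ _ => by rw [h1, map_zero, mul_zero]

theorem planch (q : ℕ) [NeZero q] (C : ZMod q → ℂ) :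
    ∑ χ : DirichletCharacter ℂ q, ‖∑ a, χ a * C a‖ ^ 2 ≤ (q.totient : ℝ) * ∑ a, ‖C a‖ ^ 2 := by
  classical
  have h1 : ((∑ χ : DirichletCharacter ℂ q, ‖∑ a, χ a * C a‖ ^ 2 : ℝ) : ℂ) =
      ((∑ a, (if IsUnit a then (q.totient : ℝ) * ‖C a‖ ^ 2 else 0) : ℝ) : ℂ) := by
    have h2 : ∀ χ : DirichletCharacter ℂ q, ((‖∑ a, χ a * C a‖ ^ 2 : ℝ) : ℂ) =
        ∑ a, ∑ b, C a * (starRingEnd ℂ) (C b) * (χ a * (starRingEnd ℂ) (χ b)) := by
      intro χ
      rw [Complex.ofReal_pow, ← Complex.mul_conj', map_sum, Finset.sum_mul_sum]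
      refine Finset.sum_congr rfl fun a _ => Finset.sum_congr rfl fun b _ => ?_
      rw [map_mul]
      ring
    rw [Complex.ofReal_sum]
    simp_rw [h2]
    rw [Finset.sum_comm]
    rw [Complex.ofReal_sum]
    refine Finset.sum_congr rfl fun a _ => ?_
    rw [Finset.sum_comm]
    have h3 : ∀ b, ∑ χ : DirichletCharacter ℂ q, C a * (starRingEnd ℂ) (C b) *
        (χ a * (starRingEnd ℂ) (χ b)) = C a * (starRingEnd ℂ) (C b) *
          (if a = b ∧ IsUnit b then (q.totient : ℂ) else 0) := by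
      intro b
      rw [← Finset.mul_sum, orth]
    rw [Finset.sum_congr rfl fun b _ => h3 b, Finset.sum_eq_single a]
    · by_cases ha : IsUnit a
      · rw [if_pos ⟨rfl, ha⟩, if_pos ha, Complex.mul_conj']
        push_cast
        ring
      · rw [if_neg (fun h => ha h.2), if_neg ha]
        simp
    · intro b _ hb
      rw [if_neg (fun h => hb h.1.symm), mul_zero]
    · intro h
      exact absurd (Finset.mem_univ a) h
  have h2 := Complex.ofReal_injective h1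
  rw [h2, Finset.mul_sum]
  refine Finset.sum_le_sum fun a _ => ?_
  split_ifs
  · exact le_rfl
  · positivity

/-! ### the sums of negative powers -/

lemma step {e : ℝ} (he : 0 < e) (m : ℕ) (hm : 1 ≤ m) :
    ((m : ℝ) + 1) ^ (-(1 + e)) ≤ (1 / e) * ((m : ℝ) ^ (-e) - ((m : ℝ) + 1) ^ (-e)) := by
  have hm0 : (0 : ℝ) < m := by exact_mod_cast hm
  have hm1 : (0 : ℝ) < (m : ℝ) + 1 := by linarith
  -- `m ^ (-e) ≥ (m+1) ^ (-e) * (1 + e / (m+1))`
  have h1 : (m : ℝ) / (m + 1) ≤ Real.exp (-(1 / ((m : ℝ) + 1))) := by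
    have := Real.add_one_le_exp (-(1 / ((m : ℝ) + 1)))
    have h2 : (m : ℝ) / (m + 1) = -(1 / ((m : ℝ) + 1)) + 1 := by
      field_simp
      ring
    rw [h2]
    exact this
  have h2 : (1 + e / ((m : ℝ) + 1)) ≤ ((m : ℝ) / (m + 1)) ^ (-e) := by
    have h3 : (Real.exp (-(1 / ((m : ℝ) + 1)))) ^ (-e) ≤ ((m : ℝ) / (m + 1)) ^ (-e) :=
      Real.rpow_le_rpow_of_nonpos (by positivity) h1 (by linarith)
    have h4 : (Real.exp (-(1 / ((m : ℝ) + 1)))) ^ (-e) = Real.exp (e / ((m : ℝ) + 1)) := by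
      rw [← Real.exp_mul]
      congr 1
      ring
    rw [h4] at h3
    have h5 := Real.add_one_le_exp (e / ((m : ℝ) + 1))
    linarith
  have h3 : (m : ℝ) ^ (-e) = ((m : ℝ) / (m + 1)) ^ (-e) * ((m : ℝ) + 1) ^ (-e) := by
    rw [← Real.mul_rpow (by positivity) hm1.le, div_mul_cancel₀ _ hm1.ne']
  have h4 : ((m : ℝ) + 1) ^ (-(1 + e)) = ((m : ℝ) + 1) ^ (-e) / ((m : ℝ) + 1) := by
    rw [show -(1 + e) = -e - 1 by ring, Real.rpow_sub hm1, Real.rpow_one]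
  have h5 : 0 < ((m : ℝ) + 1) ^ (-e) := Real.rpow_pos_of_pos hm1 _
  rw [h3, h4, div_mul_eq_mul_div, one_mul, div_le_div_iff₀ hm1 he]
  have h6 : e / ((m : ℝ) + 1) * ((m : ℝ) + 1) ^ (-e) ≤
      ((m : ℝ) / (m + 1)) ^ (-e) * ((m : ℝ) + 1) ^ (-e) - ((m : ℝ) + 1) ^ (-e) := by
    nlinarith
  calc ((m : ℝ) + 1) ^ (-e) * e = (e / ((m : ℝ) + 1) * ((m : ℝ) + 1) ^ (-e)) * ((m : ℝ) + 1) := by
        field_simp
    _ ≤ _ := mul_le_mul_of_nonneg_right h6 hm1.le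

lemma part {e : ℝ} (he : 0 < e) (M : ℕ) :
    ∑ m ∈ Finset.range (M + 1), ((m : ℝ) + 1) ^ (-(1 + e)) ≤
      1 + 1 / e * (1 - ((M : ℝ) + 1) ^ (-e)) := by
  induction M with
  | zero => simp
  | succ M ih =>
    rw [Finset.sum_range_succ]
    have h := step he (M + 1) (by omega)
    push_cast at h ⊢
    linarith

lemma zsum {e : ℝ} (he : 0 < e) : Summable (fun m : ℕ => ((m : ℝ) + 1) ^ (-(1 + e))) ∧
    ∑' m : ℕ, ((m : ℝ) + 1) ^ (-(1 + e)) ≤ 1 + 1 / e := by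
  have h0 : ∀ m : ℕ, 0 ≤ ((m : ℝ) + 1) ^ (-(1 + e)) := fun m => by positivity
  have h1 : ∀ M : ℕ, ∑ m ∈ Finset.range M, ((m : ℝ) + 1) ^ (-(1 + e)) ≤ 1 + 1 / e := by
    intro M
    cases M with
    | zero => simp; positivity
    | succ M =>
      refine (part he M).trans ?_
      have : 0 ≤ 1 / e * ((M : ℝ) + 1) ^ (-e) := by positivity
      linarith
  exact ⟨summable_of_sum_range_le h0 h1, Real.tsum_le_of_sum_range_le h0 h1⟩

/-! ### the sums over the classes -/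

/-- the terms -/
noncomputable def g (η : ℝ) (n : ℕ) : ℝ :=
  ArithmeticFunction.vonMangoldt n * (n : ℝ) ^ (-(1 + η))

lemma g_nonneg (η : ℝ) (n : ℕ) : 0 ≤ g η n := by
  unfold g
  have := ArithmeticFunction.vonMangoldt_nonneg (n := n)
  positivity

lemma g_small {η : ℝ} (hη : 0 < η) (r : ℕ) :
    g η r ≤ 4 * (r : ℝ) ^ (-(3 / 4) : ℝ) := by
  unfold g
  rcases Nat.eq_zero_or_pos r with rfl | hr
  · simp
  have hr1 : (1 : ℝ) ≤ r := by exact_mod_cast hr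
  have hr0 : (0 : ℝ) < r := by linarith
  have h1 : ArithmeticFunction.vonMangoldt r ≤ 4 * (r : ℝ) ^ (1 / 4 : ℝ) := by
    refine ArithmeticFunction.vonMangoldt_le_log.trans ?_
    have := Real.log_le_rpow_div hr0.le (show (0 : ℝ) < 1 / 4 by norm_num)
    linarith
  have h2 : (r : ℝ) ^ (-(1 + η)) ≤ (r : ℝ) ^ (-1 : ℝ) :=
    Real.rpow_le_rpow_of_exponent_le hr1 (by linarith)
  calc ArithmeticFunction.vonMangoldt r * (r : ℝ) ^ (-(1 + η))
      ≤ 4 * (r : ℝ) ^ (1 / 4 : ℝ) * (r : ℝ) ^ (-1 : ℝ) := by gcongr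
    _ = 4 * (r : ℝ) ^ (-(3 / 4) : ℝ) := by
      rw [mul_assoc, ← Real.rpow_add hr0]
      norm_num

lemma g_large {η : ℝ} (hη : 0 < η) {q : ℕ} (hq : 2 ≤ q) (r : ℕ) (hr : r < q) (m : ℕ) :
    g η (r + q * (m + 1)) ≤ (2 / η) / q * ((m : ℝ) + 1) ^ (-(1 + η / 2)) := by
  unfold g
  have hq0 : (0 : ℝ) < q := by exact_mod_cast (by omega : 0 < q)
  have hq2 : (2 : ℝ) ≤ q := by exact_mod_cast hq
  have hm : (0 : ℝ) < (m : ℝ) + 1 := by positivity
  set n : ℕ := r + q * (m + 1) with hn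
  have hn1 : (q : ℝ) * ((m : ℝ) + 1) ≤ n := by
    rw [hn]
    push_cast
    have : (0 : ℝ) ≤ r := by positivity
    linarith
  have hn2 : (n : ℝ) ≤ 2 * q * ((m : ℝ) + 1) := by
    rw [hn]
    push_cast
    have h1 : (r : ℝ) ≤ q := by exact_mod_cast hr.le
    nlinarith
  have hn0 : (0 : ℝ) < n := lt_of_lt_of_le (by positivity) hn1
  have h1 : ArithmeticFunction.vonMangoldt n ≤ (2 * q * ((m : ℝ) + 1)) ^ (η / 2) / (η / 2) := by
    refine ArithmeticFunction.vonMangoldt_le_log.trans ?_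
    refine (Real.log_le_log hn0 hn2).trans ?_
    exact Real.log_le_rpow_div (by positivity) (by linarith)
  have h2 : (n : ℝ) ^ (-(1 + η)) ≤ ((q : ℝ) * ((m : ℝ) + 1)) ^ (-(1 + η)) :=
    Real.rpow_le_rpow_of_nonpos (by positivity) hn1 (by linarith)
  have h3 : (2 * q * ((m : ℝ) + 1)) ^ (η / 2) ≤ (q : ℝ) ^ η * ((m : ℝ) + 1) ^ (η / 2) := by
    rw [Real.mul_rpow (by positivity) hm.le]
    gcongr
    calc (2 * (q : ℝ)) ^ (η / 2) ≤ ((q : ℝ) * q) ^ (η / 2) := by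
          apply Real.rpow_le_rpow (by positivity) _ (by linarith)
          nlinarith
      _ = (q : ℝ) ^ η := by
          rw [Real.mul_rpow hq0.le hq0.le, ← Real.rpow_add hq0]
          congr 1
          ring
  calc ArithmeticFunction.vonMangoldt n * (n : ℝ) ^ (-(1 + η))
      ≤ ((q : ℝ) ^ η * ((m : ℝ) + 1) ^ (η / 2)) / (η / 2) *
          ((q : ℝ) * ((m : ℝ) + 1)) ^ (-(1 + η)) := by
        apply mul_le_mul _ h2 (by positivity) (by positivity)
        refine h1.trans ?_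
        gcongr
    _ = (2 / η) * ((q : ℝ) ^ η * (q : ℝ) ^ (-(1 + η))) *
          (((m : ℝ) + 1) ^ (η / 2) * ((m : ℝ) + 1) ^ (-(1 + η))) := by
        rw [Real.mul_rpow hq0.le hm.le]
        field_simp
    _ = (2 / η) / q * ((m : ℝ) + 1) ^ (-(1 + η / 2)) := by
        rw [← Real.rpow_add hq0, ← Real.rpow_add hm, show η + -(1 + η) = -1 by ring,
          show η / 2 + -(1 + η) = -(1 + η / 2) by ring, Real.rpow_neg_one]
        ring

lemma class_le {η : ℝ} (hη : 0 < η) {q : ℕ} (hq : 2 ≤ q) (r : ℕ) (hr : r < q) :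
    ∑' m : ℕ, g η (r + q * m) ≤ 4 * (r : ℝ) ^ (-(3 / 4) : ℝ) + (2 / η) * (1 + 2 / η) / q := by
  have hq0 : (0 : ℝ) < q := by exact_mod_cast (by omega : 0 < q)
  have hz := zsum (show 0 < η / 2 by linarith)
  have hs1 : Summable (fun m : ℕ => (2 / η) / q * ((m : ℝ) + 1) ^ (-(1 + η / 2))) :=
    hz.1.mul_left _
  have hs2 : Summable (fun m : ℕ => g η (r + q * (m + 1))) :=
    Summable.of_nonneg_of_le (fun m => g_nonneg _ _) (fun m => g_large hη hq r hr m) hs1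
  have hs3 : Summable (fun m : ℕ => g η (r + q * m)) :=
    (summable_nat_add_iff (f := fun m : ℕ => g η (r + q * m)) 1).1 hs2
  rw [hs3.tsum_eq_zero_add]
  have h1 : ∑' m : ℕ, g η (r + q * (m + 1)) ≤ (2 / η) * (1 + 2 / η) / q := by
    refine (hs2.tsum_le_tsum (fun m => g_large hη hq r hr m) hs1).trans ?_
    rw [tsum_mul_left]
    calc (2 / η) / q * ∑' m : ℕ, ((m : ℝ) + 1) ^ (-(1 + η / 2)) ≤
        (2 / η) / q * (1 + 1 / (η / 2)) := by
          gcongr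
          exact hz.2
      _ = _ := by
        field_simp
  have h2 := g_small hη r
  rw [mul_zero, add_zero]
  exact add_le_add h2 h1

lemma sum_sq_small (q : ℕ) :
    ∑ r ∈ Finset.range q, (4 * (r : ℝ) ^ (-(3 / 4) : ℝ)) ^ 2 ≤ 48 := by
  have hz := zsum (show (0 : ℝ) < 1 / 2 by norm_num)
  have h1 : ∀ r : ℕ, (4 * ((r + 1 : ℕ) : ℝ) ^ (-(3 / 4) : ℝ)) ^ 2 =
      16 * ((r : ℝ) + 1) ^ (-(1 + 1 / 2) : ℝ) := by
    intro r
    have hr : (0 : ℝ) < (r : ℝ) + 1 := by positivity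
    push_cast
    rw [mul_pow, ← Real.rpow_natCast (((r : ℝ) + 1) ^ (-(3 / 4) : ℝ)) 2, ← Real.rpow_mul hr.le]
    norm_num
  rcases Nat.eq_zero_or_pos q with rfl | hq
  · simp
  obtain ⟨k, rfl⟩ : ∃ k, q = k + 1 := ⟨q - 1, by omega⟩
  rw [Finset.sum_range_succ']
  have h2 : (4 * ((0 : ℕ) : ℝ) ^ (-(3 / 4) : ℝ)) ^ 2 = 0 := by
    rw [Nat.cast_zero, Real.zero_rpow (by norm_num)]
    norm_num
  rw [h2, add_zero, Finset.sum_congr rfl fun r _ => h1 r, ← Finset.mul_sum]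
  have h3 : ∑ r ∈ Finset.range k, ((r : ℝ) + 1) ^ (-(1 + 1 / 2) : ℝ) ≤ 1 + 1 / (1 / 2) :=
    (hz.1.sum_le_tsum _ (fun r _ => by positivity)).trans hz.2
  norm_num at h3 ⊢
  linarith

lemma log4 {q : ℕ} (hq : 1 ≤ q) : Real.log q ^ 4 ≤ 256 * q := by
  have hq1 : (1 : ℝ) ≤ q := by exact_mod_cast hq
  have hq0 : (0 : ℝ) < q := by linarith
  have h1 : Real.log q ≤ 4 * (q : ℝ) ^ (1 / 4 : ℝ) := by
    have := Real.log_le_rpow_div hq0.le (show (0 : ℝ) < 1 / 4 by norm_num)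
    linarith
  have h2 : 0 ≤ Real.log q := Real.log_nonneg hq1
  calc Real.log q ^ 4 ≤ (4 * (q : ℝ) ^ (1 / 4 : ℝ)) ^ 4 := pow_le_pow_left₀ h2 h1 4
    _ = 256 * q := by
      rw [mul_pow, ← Real.rpow_natCast ((q : ℝ) ^ (1 / 4 : ℝ)) 4, ← Real.rpow_mul hq0.le]
      norm_num

/-! ### the logarithmic derivative -/

lemma LD_eq {q : ℕ} [NeZero q] (χ : DirichletCharacter ℂ q) {η : ℝ} (hη : 0 < η) :
    LD χ ((1 + η : ℝ) : ℂ) = -∑ j : ZMod q, χ j * ((∑' m : ℕ, g η (j.val + q * m) : ℝ) : ℂ) := by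
  have hs : 1 < ((1 + η : ℝ) : ℂ).re := by rw [ofReal_re]; linarith
  have h1 := DirichletCharacter.LSeries_twist_vonMangoldt_eq χ hs
  have h2 := DirichletCharacter.LSeriesSummable_twist_vonMangoldt χ hs
  have h3 : LD χ ((1 + η : ℝ) : ℂ) = -LSeries ((fun n : ℕ => χ n) *
      (fun n : ℕ => ((ArithmeticFunction.vonMangoldt n : ℝ) : ℂ))) ((1 + η : ℝ) : ℂ) := by
    rw [h1]
    unfold LD
    rw [logDeriv_apply, DirichletCharacter.deriv_LFunction_eq_deriv_LSeries χ hs,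
      DirichletCharacter.LFunction_eq_LSeries χ hs]
    ring
  rw [h3]
  congr 1
  unfold LSeries
  rw [Nat.sumByResidueClasses h2 q]
  refine Finset.sum_congr rfl fun j _ => ?_
  rw [ofReal_tsum, ← tsum_mul_left]
  refine tsum_congr fun m => ?_
  have hj : (((j.val + q * m : ℕ)) : ZMod q) = j := by
    push_cast
    rw [ZMod.natCast_self, zero_mul, add_zero, ZMod.natCast_zmod_val]
  rcases Nat.eq_zero_or_pos (j.val + q * m) with h0 | h0
  · rw [h0, LSeries.term_zero]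
    unfold g
    simp
  · rw [LSeries.term_of_ne_zero h0.ne', Pi.mul_apply, hj]
    unfold g
    rw [div_eq_mul_inv, ← cpow_neg, ofReal_mul, ofReal_cpow (by positivity)]
    push_cast
    ring

end Avg94

theorem t_avg : S_avg := by
  intro κ hκ
  refine ⟨96 + 512 * (1 / κ * (1 + 1 / κ)) ^ 2, 3, fun q _ hq => ?_⟩
  classical
  have hq0 : (0 : ℝ) < q := by exact_mod_cast (by omega : 0 < q)
  have hq3 : (3 : ℝ) ≤ q := by exact_mod_cast hq
  have hL1 : 1 ≤ Real.log q := by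
    rw [Real.le_log_iff_exp_le hq0]
    exact (Real.exp_one_lt_d9.le.trans (by norm_num)).trans hq3
  set L := Real.log q with hL
  have hL0 : 0 < L := by linarith
  have hη : 0 < 2 * κ / L := by positivity
  set η := 2 * κ / L with hηd
  set Cc : ZMod q → ℝ := fun j => ∑' m : ℕ, Avg94.g η (j.val + q * m) with hCc
  have hC0 : ∀ j, 0 ≤ Cc j := fun j => tsum_nonneg fun m => Avg94.g_nonneg _ _
  have h1 : ∑ χ ∈ NT q, ‖LD χ ((1 + 2 * κ / Real.log q : ℝ) : ℂ)‖ ^ 2 ≤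
      (q.totient : ℝ) * ∑ j, Cc j ^ 2 := by
    calc ∑ χ ∈ NT q, ‖LD χ ((1 + 2 * κ / Real.log q : ℝ) : ℂ)‖ ^ 2
        = ∑ χ ∈ NT q, ‖∑ j, χ j * ((Cc j : ℝ) : ℂ)‖ ^ 2 := by
          refine Finset.sum_congr rfl fun χ _ => ?_
          rw [Avg94.LD_eq χ hη, norm_neg]
      _ ≤ ∑ χ : DirichletCharacter ℂ q, ‖∑ j, χ j * ((Cc j : ℝ) : ℂ)‖ ^ 2 :=
          Finset.sum_le_sum_of_subset_of_nonneg (Finset.subset_univ _) fun _ _ _ => by positivity
      _ ≤ (q.totient : ℝ) * ∑ j, ‖((Cc j : ℝ) : ℂ)‖ ^ 2 := Avg94.planch q _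
      _ = _ := by
          congr 1
          refine Finset.sum_congr rfl fun j _ => ?_
          rw [norm_real, Real.norm_eq_abs, sq_abs]
  refine h1.trans ?_
  rw [mul_comm]
  refine mul_le_mul_of_nonneg_right ?_ (by positivity)
  -- the classes
  obtain ⟨D, hD⟩ : ∃ D : ℝ, D = (2 / η) * (1 + 2 / η) / q := ⟨_, rfl⟩
  have h2 : ∀ j : ZMod q, Cc j ^ 2 ≤ 2 * (4 * ((j.val : ℕ) : ℝ) ^ (-(3 / 4) : ℝ)) ^ 2 + 2 * D ^ 2 := by
    intro j
    have h3 := Avg94.class_le hη (by omega : 2 ≤ q) j.val (ZMod.val_lt j)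
    rw [← hD] at h3
    calc Cc j ^ 2 ≤ (4 * ((j.val : ℕ) : ℝ) ^ (-(3 / 4) : ℝ) + D) ^ 2 :=
          pow_le_pow_left₀ (hC0 j) h3 2
      _ ≤ _ := by
        nlinarith [sq_nonneg (4 * ((j.val : ℕ) : ℝ) ^ (-(3 / 4) : ℝ) - D)]
  have h3 : ∑ j : ZMod q, Cc j ^ 2 ≤
      2 * ∑ r ∈ Finset.range q, (4 * (r : ℝ) ^ (-(3 / 4) : ℝ)) ^ 2 + q * (2 * D ^ 2) := by
    calc ∑ j : ZMod q, Cc j ^ 2 ≤ ∑ j : ZMod q,
        (2 * (4 * ((j.val : ℕ) : ℝ) ^ (-(3 / 4) : ℝ)) ^ 2 + 2 * D ^ 2) :=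
          Finset.sum_le_sum fun j _ => h2 j
      _ = 2 * ∑ j : ZMod q, (4 * ((j.val : ℕ) : ℝ) ^ (-(3 / 4) : ℝ)) ^ 2 + q * (2 * D ^ 2) := by
          rw [Finset.sum_add_distrib, ← Finset.mul_sum, Finset.sum_const, Finset.card_univ,
            ZMod.card, nsmul_eq_mul]
      _ = _ := by
          congr 2
          refine Finset.sum_bij (fun j _ => j.val) (fun j _ => Finset.mem_range.2 (ZMod.val_lt j))
            (fun a _ b _ h => ZMod.val_injective q h) (fun r hr => ?_) (fun j _ => rfl)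
          exact ⟨(r : ZMod q), Finset.mem_univ _, ZMod.val_cast_of_lt (Finset.mem_range.1 hr)⟩
  refine h3.trans ?_
  have h4 := Avg94.sum_sq_small q
  have h5 : (q : ℝ) * (2 * D ^ 2) ≤ 512 * (1 / κ * (1 + 1 / κ)) ^ 2 := by
    have h6 : 2 / η = L * (1 / κ) := by
      rw [hηd]
      field_simp
    have h7 : (2 / η) * (1 + 2 / η) ≤ L ^ 2 * (1 / κ * (1 + 1 / κ)) := by
      rw [h6]
      have h8 : 0 < 1 / κ := by positivity
      have h9 : L * (1 / κ) * 1 ≤ L * (1 / κ) * L := by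
        apply mul_le_mul_of_nonneg_left hL1 (by positivity)
      nlinarith
    have h8 : D ≤ L ^ 2 * (1 / κ * (1 + 1 / κ)) / q := by
      rw [hD]
      gcongr
    have h9 : 0 ≤ D := by
      rw [hD]
      positivity
    calc (q : ℝ) * (2 * D ^ 2) ≤ (q : ℝ) * (2 * (L ^ 2 * (1 / κ * (1 + 1 / κ)) / q) ^ 2) := by
          gcongr
      _ = 2 * (1 / κ * (1 + 1 / κ)) ^ 2 * (L ^ 4 / q) := by
          field_simp
      _ ≤ 2 * (1 / κ * (1 + 1 / κ)) ^ 2 * 256 := by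
          gcongr
          rw [div_le_iff₀ hq0]
          exact Avg94.log4 (by omega)
      _ = _ := by ring
  linarith

end Pool.Agent.NH13.UV
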