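import Pool.Agent.NH13.UV.Stm

/-!
# UV-33: boundedness under GRH (helper49)
-/

set_option autoImplicit false

open Complex MeasureTheory Filter Topology Set
open scoped ComplexConjugate

namespace Pool.Agent.NH13.UV

namespace bd49

theorem Gn_nonneg (q : ℕ) [NeZero q] (κ : ℝ) : 0 ≤ Gn q κ := by
  unfold Gn
  refine mul_nonneg (by positivity) (Finset.sum_nonneg fun χ _ => ?_)
  refine setIntegral_nonneg measurableSet_Ioi fun u hu => ?_
  have : (0 : ℝ) < u := lt_trans one_pos hu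
  positivity

theorem Ir_nonneg (q : ℕ) [NeZero q] (κ : ℝ) : 0 ≤ Ir q κ := by
  unfold Ir
  refine mul_nonneg (by positivity) (Finset.sum_nonneg fun χ _ => ?_)
  refine integral_nonneg fun t => ?_
  refine mul_nonneg (sq_nonneg _) ?_
  unfold wt
  positivity

/-- the integral at the scale `4` against the integral at the scale `1` -/
theorem LT_le {f : ℝ → ℝ} (h0 : ∀ u, 0 ≤ f u) (h1 : ∀ u ∈ Icc (0 : ℝ) 1, |f u - u| ≤ 1 / 100) :
    LT f 4 ≤ ENNReal.ofReal (101 / 100) + ENNReal.ofReal (1 / 64) * LT f 1 := by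
  have hs : Ioi (0 : ℝ) = Ioc 0 1 ∪ Ioi 1 := (Ioc_union_Ioi_eq_Ioi zero_le_one).symm
  unfold LT
  rw [hs]
  refine (lintegral_union_le _ _ _).trans (add_le_add ?_ ?_)
  · have h2 : ∫⁻ u in Ioc (0 : ℝ) 1, ENNReal.ofReal (Real.exp (-2 * 4 * u) * f u) ≤
        ∫⁻ _ in Ioc (0 : ℝ) 1, ENNReal.ofReal (101 / 100) := by
      refine setLIntegral_mono' measurableSet_Ioc fun u hu => ?_
      apply ENNReal.ofReal_le_ofReal
      have h3 := abs_le.1 (h1 u ⟨hu.1.le, hu.2⟩)
      have h4 : Real.exp (-2 * 4 * u) ≤ 1 := by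
        rw [Real.exp_le_one_iff]
        linarith [hu.1]
      have h5 := h0 u
      have h6 := Real.exp_pos (-2 * 4 * u)
      calc Real.exp (-2 * 4 * u) * f u ≤ 1 * f u := mul_le_mul_of_nonneg_right h4 h5
        _ ≤ 101 / 100 := by linarith [h3.2, hu.2]
    refine h2.trans ?_
    rw [setLIntegral_const, Real.volume_Ioc]
    norm_num
  · rw [← hs]
    have h2 : ∫⁻ u in Ioi (1 : ℝ), ENNReal.ofReal (Real.exp (-2 * 4 * u) * f u) ≤
        ∫⁻ u in Ioi (1 : ℝ), ENNReal.ofReal (1 / 64) *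
          ENNReal.ofReal (Real.exp (-2 * 1 * u) * f u) := by
      refine setLIntegral_mono' measurableSet_Ioi fun u hu => ?_
      rw [← ENNReal.ofReal_mul (by norm_num)]
      apply ENNReal.ofReal_le_ofReal
      have hu1 : (1 : ℝ) < u := hu
      have h4 : Real.exp (-2 * 4 * u) = Real.exp (-6 * u) * Real.exp (-2 * 1 * u) := by
        rw [← Real.exp_add]
        congr 1
        ring
      have h5 : Real.exp (-6 * u) ≤ 1 / 64 := by
        have h6 : Real.exp (-6 * u) ≤ Real.exp (-6) := by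
          apply Real.exp_le_exp.2
          linarith
        have h7 : (64 : ℝ) ≤ Real.exp 6 := by
          have h8 : (2 : ℝ) ≤ Real.exp 1 := by
            have := Real.add_one_le_exp (1 : ℝ)
            linarith
          calc (64 : ℝ) = 2 ^ 6 := by norm_num
            _ ≤ Real.exp 1 ^ 6 := pow_le_pow_left₀ (by norm_num) h8 6
            _ = Real.exp 6 := by
              rw [← Real.exp_nat_mul]
              norm_num
        refine h6.trans ?_
        rw [Real.exp_neg, one_div]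
        exact inv_anti₀ (by norm_num) h7
      rw [h4, mul_assoc]
      exact mul_le_mul_of_nonneg_right h5 (mul_nonneg (Real.exp_pos _).le (h0 u))
    refine h2.trans ?_
    rw [lintegral_const_mul' _ _ ENNReal.ofReal_ne_top]
    gcongr
    exact zero_le_one

end bd49

open bd49

theorem t_bd (hr : S_rel) (hd : S_dbl) (hG : S_GG) (hcv : S_cv) (hf : S_fam) : S_bd := by
  intro hA hg hP
  refine ⟨100, fun κ hκ hκ1 => ?_⟩
  obtain ⟨q1, h1⟩ := hr κ (1 / 100) hκ (by norm_num)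
  obtain ⟨q2, h2⟩ := hr 1 (1 / 100) one_pos (by norm_num)
  obtain ⟨q3, h3⟩ := hr 4 (1 / 100) (by norm_num) (by norm_num)
  obtain ⟨q4, h4⟩ := hd hg 1 4 (1 / 100) one_pos (by norm_num) (by norm_num)
  have h5' : ∃ q5 : ℕ, ∀ (q : ℕ) [NeZero q], q5 ≤ q →
      Ir q κ ≤ (1 / κ) ^ 2 * (1 + 1 / 100) * Ir q 1 := by
    rcases hκ1.lt_or_eq with h | h
    · exact hd hg κ 1 (1 / 100) hκ h (by norm_num)
    · refine ⟨0, fun q _ _ => ?_⟩
      rw [h]
      have := Ir_nonneg q 1
      norm_num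
      linarith
  obtain ⟨q5, h5⟩ := h5'
  obtain ⟨q6, h6⟩ := hG.2 hP κ (1 / 100) hκ (by norm_num)
  obtain ⟨q7, h7⟩ := hG.2 hP 1 (1 / 100) one_pos (by norm_num)
  have h8 := hf.small (1 / 100) (by norm_num)
  filter_upwards [h8, eventually_ge_atTop 2, eventually_ge_atTop q1, eventually_ge_atTop q2,
    eventually_ge_atTop q3, eventually_ge_atTop q4, eventually_ge_atTop q5, eventually_ge_atTop q6,
    eventually_ge_atTop q7] with q k8 k0 k1 k2 k3 k4 k5 k6 k7
  have : NeZero q := ⟨by omega⟩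
  have hlog : 0 < Real.log q := Real.log_pos (by exact_mod_cast k0)
  have hfin : ∀ k : ℝ, 0 < k → Gv q k < ⊤ := by
    intro k hk
    unfold Gv
    refine ENNReal.div_lt_top (hA q (by omega) _ (by positivity)).ne ?_
    rw [ne_eq, ENNReal.ofReal_eq_zero, not_le]
    positivity
  have hFi : ∀ k : ℝ, 0 < k → ∃ κ' : ℝ, 0 < κ' ∧ κ' < k ∧ Fi q κ' := fun k hk =>
    ⟨k / 2, by positivity, by linarith, (hG.1 q k0 (k / 2) (by positivity)
      (hfin _ (by positivity))).1⟩
  have r1 := abs_le.1 (h1 q k1 (hFi κ hκ))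
  have r2 := abs_le.1 (h2 q k2 (hFi 1 one_pos))
  have r3 := abs_le.1 (h3 q k3 (hFi 4 (by norm_num)))
  have r4 := h4 q k4
  have r5 := h5 q k5
  have r6 := h6 q k6 (hfin κ hκ)
  have r7 := h7 q k7 (hfin 1 one_pos)
  have n1 := Gn_nonneg q 1
  have n2 := Ir_nonneg q 1
  have n4 := Gn_nonneg q 4
  have n5 := Gn_nonneg q κ
  -- the integrals at `4` and `1`
  have r8 : ENNReal.ofReal (Gn q 4) ≤
      ENNReal.ofReal (101 / 100 + 1 / 64 * (Gn q 1 + 1 / 100)) := by
    refine ((hG.1 q k0 4 (by norm_num) (hfin 4 (by norm_num))).2).trans ?_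
    rw [← hcv.2 q k0 4]
    refine (LT_le (hf.nn q) k8).trans ?_
    rw [ENNReal.ofReal_add (by norm_num) (by positivity), ENNReal.ofReal_mul (by norm_num),
      hcv.2 q k0 1]
    gcongr
  have r9 : Gn q 4 ≤ 101 / 100 + 1 / 64 * (Gn q 1 + 1 / 100) :=
    (ENNReal.ofReal_le_ofReal_iff (by positivity)).1 r8
  have b1 : Ir q 1 ≤ 100 := by
    norm_num at r4
    linarith [r2.2, r3.1, r2.1, r3.2]
  have hκ2 : 1 ≤ 1 / κ ^ 2 := by
    rw [le_div_iff₀ (by positivity), one_mul]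
    nlinarith
  have b2 : Ir q κ ≤ 101 * (1 / κ ^ 2) := by
    refine r5.trans ?_
    have h9 : (1 / κ) ^ 2 = 1 / κ ^ 2 := by rw [div_pow, one_pow]
    rw [h9]
    have h10 : (0 : ℝ) ≤ 1 / κ ^ 2 := by positivity
    nlinarith
  have b3 : Gn q κ + 1 / 100 ≤ 100 / κ ^ 2 := by
    have h9 : 100 / κ ^ 2 = 100 * (1 / κ ^ 2) := by ring
    rw [h9]
    linarith [r1.2, r1.1]
  exact r6.trans (ENNReal.ofReal_le_ofReal b3)

end Pool.Agent.NH13.UV
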