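import Pool.Agent.NH13.UV.Stm

/-!
# Plan UV, job UV-26: the values at `p = 1/2 + 2 κ / log q`
-/

set_option autoImplicit false

open Complex MeasureTheory Filter Topology Set
open scoped ComplexConjugate

namespace Pool.Agent.NH13.UV

namespace bp

theorem card_NT (q : ℕ) [NeZero q] : ((NT q).card : ℝ) ≤ q.totient := by
  classical
  have h : (NT q).card ≤ q.totient := by
    rw [← DirichletCharacter.card_eq_totient_of_hasEnoughRootsOfUnity ℂ q,
      Nat.card_eq_fintype_card]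
    exact Finset.card_le_univ _
  exact_mod_cast h

theorem prim_ne {q : ℕ} [NeZero q] {χ : DirichletCharacter ℂ q} (h : χ ≠ 1) :
    χ.primitiveCharacter ≠ 1 := by
  intro h1
  apply h
  rw [← DirichletCharacter.changeLevel_primitiveCharacter χ, h1, DirichletCharacter.changeLevel_one]

theorem sq_four (a b c d : ℝ) : (a + b + c + d) ^ 2 ≤ 4 * (a ^ 2 + b ^ 2 + c ^ 2 + d ^ 2) := by
  nlinarith [sq_nonneg (a - b), sq_nonneg (a - c), sq_nonneg (a - d), sq_nonneg (b - c),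
    sq_nonneg (b - d), sq_nonneg (c - d)]

end bp

open bp

theorem t_Bp (h9 : S_YYd) (h13 : S_pt) (h14 : S_cond) (h15 : S_avg) : S_Bp := by
  intro κ ε hκ hε
  obtain ⟨C, hC, hpt⟩ := h13 (Real.sqrt ε / 4) (by positivity)
  obtain ⟨q1, hcond⟩ := h14 (ε / 4) (by positivity)
  obtain ⟨C1, q2, havg⟩ := h15 κ hκ
  set C' : ℝ := C * Real.log (3 + 2 * κ) with hC'
  -- the size of `log q`
  have hlim : Tendsto (fun q : ℕ => ε / 4 * Real.log q ^ 2) atTop atTop := by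
    refine Tendsto.const_mul_atTop (by positivity) ?_
    exact (tendsto_pow_atTop (by norm_num)).comp (Real.tendsto_log_atTop.comp tendsto_natCast_atTop_atTop)
  obtain ⟨q3, hq3⟩ := eventually_atTop.1 (hlim.eventually_ge_atTop (4 * C1 + 4 * C' ^ 2))
  refine ⟨max (max q1 q2) (max q3 3), fun q _ hq => ?_⟩
  have hq1 : q1 ≤ q := le_trans (le_trans (le_max_left _ _) (le_max_left _ _)) hq
  have hq2 : q2 ≤ q := le_trans (le_trans (le_max_right _ _) (le_max_left _ _)) hq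
  have hq3' : q3 ≤ q := le_trans (le_trans (le_max_left _ _) (le_max_right _ _)) hq
  have hq4 : 3 ≤ q := le_trans (le_trans (le_max_right _ _) (le_max_right _ _)) hq
  have hL := hq3 q hq3'
  have hlog : 1 ≤ Real.log q := by
    rw [Real.le_log_iff_exp_le (by exact_mod_cast (by omega : 0 < q))]
    have h3 : (3 : ℝ) ≤ q := by exact_mod_cast hq4
    exact (Real.exp_one_lt_d9.le.trans (by norm_num)).trans h3
  set L : ℝ := Real.log q with hLdef
  set z : ℂ := ((1 / 2 + 2 * (κ / L) : ℝ) : ℂ) with hz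
  have hz0 : 0 < κ / L := by positivity
  have hz1 : κ / L ≤ κ := div_le_self hκ.le hlog
  have hzre : z.re = 1 / 2 + 2 * (κ / L) := by rw [hz, Complex.ofReal_re]
  have hznorm : ‖z‖ ≤ 1 + 2 * κ := by
    rw [hz, Complex.norm_real, Real.norm_eq_abs, abs_of_nonneg (by positivity)]
    linarith
  have hzL : (1 / 2 : ℂ) + z = ((1 + 2 * κ / L : ℝ) : ℂ) := by
    rw [hz]
    push_cast
    ring
  have key : ∀ χ ∈ NT q, ‖Bq χ z - ((L / 2 : ℝ) : ℂ)‖ ^ 2 ≤
      4 * (‖LD χ ((1 + 2 * κ / L : ℝ) : ℂ)‖ ^ 2 + (Real.sqrt ε / 4 * L) ^ 2 + C' ^ 2 +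
        ((L - Real.log χ.conductor) / 2) ^ 2) := by
    intro χ hχ
    have hχ1 := mem_NT.1 hχ
    have hne : YY χ.primitiveCharacter z ≠ 0 := by
      intro h0
      have h := (h9 χ.conductor χ.primitiveCharacter χ.primitiveCharacter_isPrimitive
        (prim_ne hχ1)).2.2.2.1 z h0
      rw [hzre, abs_le] at h
      linarith [h.2]
    have h := hpt q χ hχ1 z (by rw [hzre]; positivity) hne
    rw [hzL] at h
    have hlogz : Real.log (2 + ‖z‖) ≤ Real.log (3 + 2 * κ) :=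
      Real.log_le_log (by positivity) (by linarith)
    have hCz : C * Real.log (2 + ‖z‖) ≤ C' := mul_le_mul_of_nonneg_left hlogz hC.le
    have h2 : ‖Bq χ z - ((L / 2 : ℝ) : ℂ)‖ ≤ ‖LD χ ((1 + 2 * κ / L : ℝ) : ℂ)‖ +
        ‖LD χ ((1 + 2 * κ / L : ℝ) : ℂ) - (Bq χ z - ((L / 2 : ℝ) : ℂ))‖ := by
      have e : Bq χ z - ((L / 2 : ℝ) : ℂ) = LD χ ((1 + 2 * κ / L : ℝ) : ℂ) -
        (LD χ ((1 + 2 * κ / L : ℝ) : ℂ) - (Bq χ z - ((L / 2 : ℝ) : ℂ))) := by ring
      calc ‖Bq χ z - ((L / 2 : ℝ) : ℂ)‖ = ‖LD χ ((1 + 2 * κ / L : ℝ) : ℂ) -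
        (LD χ ((1 + 2 * κ / L : ℝ) : ℂ) - (Bq χ z - ((L / 2 : ℝ) : ℂ)))‖ := by rw [← e]
        _ ≤ _ := norm_sub_le _ _
    have h3 : ‖Bq χ z - ((L / 2 : ℝ) : ℂ)‖ ≤ ‖LD χ ((1 + 2 * κ / L : ℝ) : ℂ)‖ +
        Real.sqrt ε / 4 * L + C' + (L - Real.log χ.conductor) / 2 := by linarith
    calc ‖Bq χ z - ((L / 2 : ℝ) : ℂ)‖ ^ 2 ≤ (‖LD χ ((1 + 2 * κ / L : ℝ) : ℂ)‖ +
        Real.sqrt ε / 4 * L + C' + (L - Real.log χ.conductor) / 2) ^ 2 :=
          pow_le_pow_left₀ (norm_nonneg _) h3 2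
      _ ≤ _ := sq_four _ _ _ _
  have hsum := Finset.sum_le_sum key
  refine hsum.trans ?_
  rw [← Finset.mul_sum, Finset.sum_add_distrib, Finset.sum_add_distrib, Finset.sum_add_distrib,
    Finset.sum_const, Finset.sum_const, nsmul_eq_mul, nsmul_eq_mul]
  have hA := havg q hq2
  have hB := hcond q hq1
  have hcard := card_NT q
  have e1 : ∑ χ ∈ NT q, ((L - Real.log χ.conductor) / 2) ^ 2 =
      (∑ χ ∈ NT q, (L - Real.log χ.conductor) ^ 2) / 4 := by
    rw [Finset.sum_div]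
    exact Finset.sum_congr rfl fun χ _ => by ring
  have e2 : (Real.sqrt ε / 4 * L) ^ 2 = ε / 16 * L ^ 2 := by
    rw [mul_pow, div_pow, Real.sq_sqrt hε.le]
    ring
  have hphi : (0 : ℝ) ≤ q.totient := Nat.cast_nonneg _
  have h4 : ((NT q).card : ℝ) * (ε / 16 * L ^ 2) ≤ q.totient * (ε / 16 * L ^ 2) :=
    mul_le_mul_of_nonneg_right hcard (by positivity)
  have h5 : ((NT q).card : ℝ) * C' ^ 2 ≤ q.totient * C' ^ 2 :=
    mul_le_mul_of_nonneg_right hcard (by positivity)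
  have h6 : (q.totient : ℝ) * (4 * C1 + 4 * C' ^ 2) ≤ q.totient * (ε / 4 * L ^ 2) :=
    mul_le_mul_of_nonneg_left hL hphi
  have h7 : (0 : ℝ) ≤ q.totient * (ε * L ^ 2) := by positivity
  rw [e1, e2]
  linarith

end Pool.Agent.NH13.UV
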