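import Pool.Agent.NH13.UV.Defs

/-!
# Plan UV: the statements of the jobs
-/

set_option autoImplicit false

open Complex MeasureTheory Filter Topology Set
open scoped ComplexConjugate

namespace Pool.Agent.NH13.UV

/-! ### A. logarithmic derivatives of functions with zeros in a strip -/

/-- UV-1: growth of `B` to the right of the zeros -/
def S_gr : Prop := ∀ (B : ℂ → ℂ) (h : ℝ) (ι : Type) (a : ι → ℂ) (m : ι → ℕ), HD B h ι a m →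
  ∀ x : ℝ, h < x → ∃ C : ℝ, 0 < C ∧ ∀ z : ℂ, x ≤ z.re → ‖B z‖ ≤ C * Real.log (2 + ‖z‖)

/-- UV-2: Poisson-type formula in a half-plane -/
def S_HP : Prop := ∀ (F : ℂ → ℂ) (x x0 σ : ℝ), x0 < x → 0 < σ →
  DifferentiableOn ℂ F {z | x0 < z.re} →
  (∃ C : ℝ, ∀ z : ℂ, x ≤ z.re → ‖F z‖ ≤ C * (1 + ‖z‖) ^ (1 / 2 : ℝ)) →
  Integrable (fun t : ℝ => F (pt x t) * ((1 / (σ ^ 2 + t ^ 2) : ℝ) : ℂ)) ∧
  ∫ t : ℝ, F (pt x t) * ((1 / (σ ^ 2 + t ^ 2) : ℝ) : ℂ) =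
    ((Real.pi / σ : ℝ) : ℂ) * F ((x + σ : ℝ) : ℂ)

/-- UV-3: the mean square of `B - l` and of `Re B` -/
def S_K1 : Prop := ∀ (B : ℂ → ℂ) (h : ℝ) (ι : Type) (a : ι → ℂ) (m : ι → ℕ), HD B h ι a m →
  ∀ x : ℝ, h < x → ∀ l : ℝ,
  Integrable (fun t : ℝ => ‖B (pt x t) - (l : ℂ)‖ ^ 2 * wt x t) ∧
  Integrable (fun t : ℝ => (B (pt x t)).re ^ 2 * wt x t) ∧
  ∫ t : ℝ, ‖B (pt x t) - (l : ℂ)‖ ^ 2 * wt x t =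
    2 * (∫ t : ℝ, (B (pt x t)).re ^ 2 * wt x t)
      - Real.pi / (1 / 2 + x) * ((B ((1 / 2 + 2 * x : ℝ) : ℂ)) ^ 2).re
      - 2 * l * (Real.pi / (1 / 2 + x)) * (B ((1 / 2 + 2 * x : ℝ) : ℂ)).re
      + l ^ 2 * (Real.pi / (1 / 2 + x))

/-- UV-4: the contribution of one zero -/
def S_SZ : Prop := ∀ b γ σ : ℝ, 0 < b → 1 / 2 ≤ σ →
  Integrable (fun t : ℝ => (b / (b ^ 2 + (t - γ) ^ 2)) ^ 2 * (1 / (σ ^ 2 + t ^ 2))) ∧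
  Real.pi / (2 * b) * (1 - 4 * b ^ 2) / (σ ^ 2 + γ ^ 2) ≤
    ∫ t : ℝ, (b / (b ^ 2 + (t - γ) ^ 2)) ^ 2 * (1 / (σ ^ 2 + t ^ 2))

/-- UV-5: the lower bound for the mean square of `Re B` -/
def S_K2 : Prop := ∀ (B : ℂ → ℂ) (h : ℝ) (ι : Type) (a : ι → ℂ) (m : ι → ℕ), HD B h ι a m →
  ∀ x : ℝ, h < x → x ≤ 1 / 8 → Integrable (fun t : ℝ => (B (pt x t)).re ^ 2 * wt x t) →
  2 * Real.pi / x * (1 - 8 * x) * (B ((1 / 2 + 2 * x : ℝ) : ℂ)).re ≤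
    2 * ∫ t : ℝ, (B (pt x t)).re ^ 2 * wt x t

/-- UV-6: comparison of two lines, zeros on the imaginary axis -/
def S_K3 : Prop := ∀ (B : ℂ → ℂ) (ι : Type) (a : ι → ℂ) (m : ι → ℕ), HD B 0 ι a m →
  ∀ x X : ℝ, 0 < x → x ≤ X → ∀ t : ℝ,
  (B (pt x t)).re ^ 2 * wt x t ≤
    (X / x) ^ 2 * ((1 / 2 + X) / (1 / 2 + x)) ^ 2 * ((B (pt X t)).re ^ 2 * wt X t)

/-- UV-7: the partial fractions of `Y'/Y` -/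
def S_PFC : Prop := ∀ Y : ℂ → ℂ, Differentiable ℂ Y → (∀ z, Y (-(conj z)) = conj (Y z)) → Gr Y →
  (∀ s, Y s = 0 → |s.re| ≤ 1 / 2) → ∀ z w : ℂ, Y z ≠ 0 → Y w ≠ 0 →
  HasSum (fun a : {a : ℂ // Y a = 0} =>
    (analyticOrderNatAt Y (a : ℂ) : ℂ) * (1 / (z - (a : ℂ)) - 1 / (w - (a : ℂ))))
    (logDeriv Y z - logDeriv Y w)

/-- UV-8: from `Y` to the structure `HD` -/
def S_Y : Prop := ∀ (Y : ℂ → ℂ) (h : ℝ), Differentiable ℂ Y → (∀ z, Y (-(conj z)) = conj (Y z)) →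
  Gr Y → 0 ≤ h → h ≤ 1 / 2 → (∀ s, Y s = 0 → |s.re| ≤ h) →
  (∃ C : ℝ, ∀ z : ℂ, 1 ≤ z.re → ‖logDeriv Y z‖ ≤ C * Real.log (2 + ‖z‖)) → HDE (logDeriv Y) h

/-! ### B. Dirichlet characters and primes -/

/-- UV-9: the completed `L`-function -/
def S_YYd : Prop := ∀ (r : ℕ) [NeZero r] (χ : DirichletCharacter ℂ r), χ.IsPrimitive → χ ≠ 1 →
  Differentiable ℂ (YY χ) ∧ Gr (YY χ) ∧
  (∃ c : ℂ, c ≠ 0 ∧ ∀ z, c * YY χ (-(conj z)) = conj (c * YY χ z)) ∧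
  (∀ z, YY χ z = 0 → |z.re| ≤ 1 / 2) ∧
  (∀ z : ℂ, -(1 / 2) < z.re → (YY χ z = 0 ↔ DirichletCharacter.LFunction χ (1 / 2 + z) = 0))

/-- UV-10: `Y'/Y` and `L'/L`, uniformly in the character -/
def S_LD : Prop := ∃ C : ℝ, 0 < C ∧ ∀ (r : ℕ) [NeZero r] (χ : DirichletCharacter ℂ r),
  χ.IsPrimitive → χ ≠ 1 → ∀ z : ℂ, 0 ≤ z.re → YY χ z ≠ 0 →
  ‖logDeriv (YY χ) z - LD χ (1 / 2 + z) - ((Real.log r / 2 : ℝ) : ℂ)‖ ≤ C * Real.log (2 + ‖z‖)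

/-- UV-11: the structure `HD` for the primitive character of `χ` -/
def S_HDq : Prop := ∀ (q : ℕ) [NeZero q] (χ : DirichletCharacter ℂ q), χ ≠ 1 → ∀ h : ℝ, 0 ≤ h →
  h ≤ 1 / 2 → (∀ s : ℂ, 1 / 2 + h < s.re → DirichletCharacter.LFunction χ s ≠ 0) →
  HDE (Bq χ) h ∧ ∀ z : ℂ, h < z.re → YY χ.primitiveCharacter z ≠ 0

/-- UV-12: imprimitive characters -/
def S_imp : Prop := ∀ ε : ℝ, 0 < ε → ∃ C : ℝ, 0 < C ∧ ∀ (q : ℕ) [NeZero q]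
  (χ : DirichletCharacter ℂ q), χ ≠ 1 → ∀ s : ℂ, 1 / 2 ≤ s.re →
  DirichletCharacter.LFunction χ.primitiveCharacter s ≠ 0 →
  ‖LD χ s - LD χ.primitiveCharacter s‖ ≤ ε * Real.log q + C

/-- UV-13: the pointwise comparison -/
def S_pt : Prop := ∀ ε : ℝ, 0 < ε → ∃ C : ℝ, 0 < C ∧ ∀ (q : ℕ) [NeZero q]
  (χ : DirichletCharacter ℂ q), χ ≠ 1 → ∀ z : ℂ, 0 ≤ z.re → YY χ.primitiveCharacter z ≠ 0 →
  ‖LD χ (1 / 2 + z) - (Bq χ z - ((Real.log q / 2 : ℝ) : ℂ))‖ ≤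
    ε * Real.log q + C * Real.log (2 + ‖z‖) + (Real.log q - Real.log χ.conductor) / 2

/-- UV-14: most characters have a large conductor -/
def S_cond : Prop := ∀ ε : ℝ, 0 < ε → ∃ q0 : ℕ, ∀ (q : ℕ) [NeZero q], q0 ≤ q →
  ∑ χ ∈ NT q, (Real.log q - Real.log χ.conductor) ^ 2 ≤ ε * (Real.log q ^ 2 * q.totient)

/-- UV-15: the mean square of `L'/L` at `1 + 2 κ / log q` -/
def S_avg : Prop := ∀ κ : ℝ, 0 < κ → ∃ (C : ℝ) (q0 : ℕ), ∀ (q : ℕ) [NeZero q], q0 ≤ q →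
  ∑ χ ∈ NT q, ‖LD χ ((1 + 2 * κ / Real.log q : ℝ) : ℂ)‖ ^ 2 ≤ C * q.totient

/-- UV-16: from a finite mean square of `ψ(u, χ)` to `L'/L` -/
def S_Me : Prop := ∀ (q : ℕ) [NeZero q] (χ : DirichletCharacter ℂ q), χ ≠ 1 → ∀ x0 : ℝ, 0 < x0 →
  (∫⁻ u in Ioi (1 : ℝ), ENNReal.ofReal (‖psi χ u‖ ^ 2 * u ^ (-2 - 2 * x0))) < ⊤ →
  ∀ s : ℂ, 1 / 2 + x0 < s.re →
    IntegrableOn (fun u : ℝ => psi χ u * (u : ℂ) ^ (-s - 1)) (Ioi 1) ∧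
    DirichletCharacter.LFunction χ s ≠ 0 ∧
    LD χ s = -s * ∫ u in Ioi (1 : ℝ), psi χ u * (u : ℂ) ^ (-s - 1)

/-- UV-17: Plancherel -/
def S_Pl : Prop := ∀ (q : ℕ) [NeZero q] (χ : DirichletCharacter ℂ q), χ ≠ 1 → ∀ x0 : ℝ, 0 < x0 →
  (∫⁻ u in Ioi (1 : ℝ), ENNReal.ofReal (‖psi χ u‖ ^ 2 * u ^ (-2 - 2 * x0))) < ⊤ →
  ∀ x : ℝ, x0 < x →
    IntegrableOn (fun u : ℝ => ‖psi χ u‖ ^ 2 * u ^ (-2 - 2 * x)) (Ioi 1) ∧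
    Integrable (fun t : ℝ => ‖LD χ (1 / 2 + pt x t)‖ ^ 2 * wt x t) ∧
    ∫ u in Ioi (1 : ℝ), ‖psi χ u‖ ^ 2 * u ^ (-2 - 2 * x) =
      1 / (2 * Real.pi) * ∫ t : ℝ, ‖LD χ (1 / 2 + pt x t)‖ ^ 2 * wt x t

/-- UV-18: Parseval over the characters -/
def S_V : Prop := ∀ (q : ℕ) [NeZero q] (x : ℝ), q.totient * VV x q =
  ‖psi (1 : DirichletCharacter ℂ q) x - x‖ ^ 2 + ∑ χ ∈ NT q, ‖psi χ x‖ ^ 2

/-- UV-19: the range `x ≤ q` -/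
def S_small : Prop := ∀ ε : ℝ, 0 < ε → ∃ q0 : ℕ, ∀ q : ℕ, q0 ≤ q → ∀ x : ℝ, 1 ≤ x → x ≤ q →
  |VV x q - x * Real.log x| ≤ ε * (x * Real.log q)

/-- UV-20: a modulus and its multiples by powers of two -/
def S_ref : Prop := ∀ q : ℕ, 1 ≤ q → ∀ (j : ℕ) (x : ℝ), 1 ≤ x →
  VV x q ≤ 2 * ((q * 2 ^ j : ℕ).totient / q.totient) * VV x (q * 2 ^ j) +
    2 * q.totient * (Real.log x + 1) ^ 2

/-- the upper bound in the windows -/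
def Upp : Prop := ∀ a b : ℝ, 1 ≤ a → a < b → ∀ ε : ℝ, 0 < ε →
  ∀ᶠ q : ℕ in atTop, Wv q a b ≤ 1 + ε

/-- the asymptotic formula in the windows -/
def Asy : Prop := ∀ a b : ℝ, 1 ≤ a → a < b → Tendsto (fun q : ℕ => Wv q a b) atTop (𝓝 1)

/-- the asymptotic formula for the Abel means -/
def Abe : Prop := ∀ δ : ℝ, 0 < δ → Tendsto (fun q : ℕ => Mv q δ) atTop
  (𝓝 (ENNReal.ofReal ((1 - Real.exp (-2 * δ)) / (2 * δ))))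

/-- all the integrals are finite -/
def AllFin : Prop := ∀ q : ℕ, 1 ≤ q → ∀ η : ℝ, 0 < η → IV q η < ⊤

/-- UV-21: finiteness -/
def S_fin : Prop := Upp → AllFin

/-- UV-22: the Riemann hypothesis -/
def S_RH : Prop := (∀ η : ℝ, 0 < η → IV 1 η < ⊤) → RiemannHypothesis

/-- the error term of the prime number theorem under RH (as `LV.PsiB`) -/
def PsiB : Prop := ∃ C : ℝ, 0 < C ∧ ∀ x : ℝ, 2 ≤ x →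
  |Chebyshev.psi x - x| ≤ C * (Real.sqrt x * Real.log x ^ 2)

/-- UV-23: the principal character -/
def S_prin : Prop := PsiB → ∀ κ ε : ℝ, 0 < κ → 0 < ε → ∃ q0 : ℕ, ∀ (q : ℕ) [NeZero q], q0 ≤ q →
  ∫⁻ u in Ioi (1 : ℝ), ENNReal.ofReal (‖psi (1 : DirichletCharacter ℂ q) u - u‖ ^ 2 *
    u ^ (-2 - 2 * κ / Real.log q)) ≤ ENNReal.ofReal (ε * (Real.log q ^ 2 * q.totient))

/-! ### C. Assembly -/

/-- finiteness for all nontrivial characters at the scale `κ / log q` -/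
def Fi (q : ℕ) [NeZero q] (κ : ℝ) : Prop := ∀ χ ∈ NT q,
  (∫⁻ u in Ioi (1 : ℝ), ENNReal.ofReal (‖psi χ u‖ ^ 2 * u ^ (-2 - 2 * κ / Real.log q))) < ⊤

/-- UV-24: change of variables -/
def S_cv : Prop :=
  (∀ q : ℕ, 2 ≤ q → ∀ a b : ℝ, a ≤ b →
    ∫ u in a..b, ff q u = (∫ x in ((q : ℝ) ^ a)..((q : ℝ) ^ b), VV x q / x ^ 2) / Real.log q ^ 2) ∧
  (∀ q : ℕ, 2 ≤ q → ∀ κ : ℝ, LT (ff q) κ = Gv q κ)

/-- UV-25: the family `ff` -/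
def S_fam : Prop := Fam ff

/-- UV-26: the values at `p` -/
def S_Bp : Prop := ∀ κ ε : ℝ, 0 < κ → 0 < ε → ∃ q0 : ℕ, ∀ (q : ℕ) [NeZero q], q0 ≤ q →
  ∑ χ ∈ NT q, ‖Bq χ ((1 / 2 + 2 * (κ / Real.log q) : ℝ) : ℂ) - ((Real.log q / 2 : ℝ) : ℂ)‖ ^ 2 ≤
    ε * (Real.log q ^ 2 * q.totient)

/-- UV-27: the average of the identity `S_K1` -/
def S_A : Prop := ∀ κ ε : ℝ, 0 < κ → 0 < ε → ∃ q0 : ℕ, ∀ (q : ℕ) [NeZero q], q0 ≤ q →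
  (∀ χ ∈ NT q, ∃ h : ℝ, h < κ / Real.log q ∧ HDE (Bq χ) h) →
  |1 / (Real.pi * (Real.log q ^ 2 * q.totient)) * (∑ χ ∈ NT q, ∫ t : ℝ,
      ‖Bq χ (pt (κ / Real.log q) t) - ((Real.log q / 2 : ℝ) : ℂ)‖ ^ 2 * wt (κ / Real.log q) t) -
    (Ir q κ - 1)| ≤ ε

/-- UV-28: the relation between the primes and the zeros -/
def S_rel : Prop := ∀ κ ε : ℝ, 0 < κ → 0 < ε → ∃ q0 : ℕ, ∀ (q : ℕ) [NeZero q], q0 ≤ q →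
  (∃ κ' : ℝ, 0 < κ' ∧ κ' < κ ∧ Fi q κ') → |1 + 2 * Gn q κ - Ir q κ| ≤ ε * (1 + Ir q κ)

/-- UV-29: the lower bound for the zeros -/
def S_low : Prop := ∀ κ ε : ℝ, 0 < κ → 0 < ε → ∃ q0 : ℕ, ∀ (q : ℕ) [NeZero q], q0 ≤ q →
  (∃ κ' : ℝ, 0 < κ' ∧ κ' < κ ∧ Fi q κ') → 1 / κ - ε ≤ Ir q κ

/-- the generalized Riemann hypothesis for the nontrivial characters -/
def GRH1 : Prop := ∀ (q : ℕ) [NeZero q] (χ : DirichletCharacter ℂ q), χ ≠ 1 → ∀ s : ℂ,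
  1 / 2 < s.re → DirichletCharacter.LFunction χ s ≠ 0

/-- UV-30: comparison of two scales under GRH -/
def S_dbl : Prop := GRH1 → ∀ κ κ' ε : ℝ, 0 < κ → κ < κ' → 0 < ε → ∃ q0 : ℕ, ∀ (q : ℕ) [NeZero q],
  q0 ≤ q → Ir q κ ≤ (κ' / κ) ^ 2 * (1 + ε) * Ir q κ'

/-- UV-31: the variance and the characters -/
def S_GG : Prop :=
  (∀ (q : ℕ) [NeZero q], 2 ≤ q → ∀ κ : ℝ, 0 < κ → Gv q κ < ⊤ →
    Fi q κ ∧ ENNReal.ofReal (Gn q κ) ≤ Gv q κ) ∧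
  (PsiB → ∀ κ ε : ℝ, 0 < κ → 0 < ε → ∃ q0 : ℕ, ∀ (q : ℕ) [NeZero q], q0 ≤ q →
    Gv q κ < ⊤ → Gv q κ ≤ ENNReal.ofReal (Gn q κ + ε))

/-- UV-32: the unconditional lower bound -/
def S_P : Prop := ∀ κ ε : ℝ, 0 < κ → 0 < ε → ∀ᶠ q : ℕ in atTop,
  ENNReal.ofReal ((1 / κ - 1) / 2 - ε) ≤ Gv q κ

/-- UV-33: boundedness -/
def S_bd : Prop := AllFin → GRH1 → PsiB → ∃ C : ℝ, ∀ κ : ℝ, 0 < κ → κ ≤ 1 →
  ∀ᶠ q : ℕ in atTop, Gv q κ ≤ ENNReal.ofReal (C / κ ^ 2)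

/-- UV-34: from the upper bound to the asymptotic formula -/
def S_T1 : Prop := ∀ f : ℕ → ℝ → ℝ, Fam f →
  (∃ C : ℝ, ∀ κ : ℝ, 0 < κ → κ ≤ 1 → ∀ᶠ q in atTop, LT (f q) κ ≤ ENNReal.ofReal (C / κ ^ 2)) →
  (∀ κ ε : ℝ, 0 < κ → 0 < ε → ∀ᶠ q in atTop, ENNReal.ofReal ((1 / κ - 1) / 2 - ε) ≤ LT (f q) κ) →
  (∀ a b : ℝ, 1 ≤ a → a < b → ∀ ε : ℝ, 0 < ε → ∀ᶠ q in atTop, ∫ u in a..b, f q u ≤ b - a + ε) →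
  ∀ a b : ℝ, 1 ≤ a → a < b → Tendsto (fun q => ∫ u in a..b, f q u) atTop (𝓝 (b - a))

/-- UV-35: from the windows to the Laplace transforms -/
def S_T2 : Prop := ∀ f : ℕ → ℝ → ℝ, Fam f →
  (∃ C : ℝ, ∀ κ : ℝ, 0 < κ → κ ≤ 1 → ∀ᶠ q in atTop, LT (f q) κ ≤ ENNReal.ofReal (C / κ ^ 2)) →
  (∀ a b : ℝ, 1 ≤ a → a < b → Tendsto (fun q => ∫ u in a..b, f q u) atTop (𝓝 (b - a))) →
  ∀ κ : ℝ, 0 < κ → Tendsto (fun q => LT (f q) κ) atTop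
    (𝓝 (ENNReal.ofReal ((1 - Real.exp (-2 * κ)) / (4 * κ ^ 2))))

/-- UV-36: from the Laplace transforms to the windows -/
def S_T3 : Prop := ∀ f : ℕ → ℝ → ℝ, Fam f →
  (∀ κ : ℝ, 0 < κ → Tendsto (fun q => LT (f q) κ) atTop
    (𝓝 (ENNReal.ofReal ((1 - Real.exp (-2 * κ)) / (4 * κ ^ 2))))) →
  ∀ a b : ℝ, 1 ≤ a → a < b → Tendsto (fun q => ∫ u in a..b, f q u) atTop (𝓝 (b - a))

end Pool.Agent.NH13.UV
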