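import Mathlib
import Pool.Agent.NH13.UV.Stm

/-!
# UV-14: most characters modulo `q` have a large conductor
-/

set_option autoImplicit false

namespace Pool.Agent.NH13.UV

open Finset DirichletCharacter ArithmeticFunction

namespace CondAux

open Classical in
/-- the number of characters modulo `q` whose conductor divides `M` -/
theorem card_le {q M : ℕ} [NeZero q] (hM : M ∣ q) :
    ((univ : Finset (DirichletCharacter ℂ q)).filter (fun χ => χ.conductor ∣ M)).card ≤
      M.totient := by
  have : NeZero M := ⟨fun h => NeZero.ne q (Nat.eq_zero_of_zero_dvd (h ▸ hM))⟩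
  rw [← DirichletCharacter.card_eq_totient_of_hasEnoughRootsOfUnity ℂ M,
    Nat.card_eq_fintype_card]
  refine (card_le_card (t := (univ : Finset (DirichletCharacter ℂ M)).image (changeLevel hM))
    ?_).trans (card_image_le.trans (le_of_eq rfl))
  intro χ hχ
  have h := (mem_filter.1 hχ).2
  obtain ⟨h1, χ0, h2⟩ := χ.factorsThrough_conductor
  refine mem_image.2 ⟨changeLevel h χ0, mem_univ _, ?_⟩
  rw [← changeLevel_trans, ← h2]

theorem totient_ge {n : ℕ} (h : IsPrimePow n) : n ≤ 2 * n.totient := by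
  obtain ⟨p, k, hp, hk, rfl⟩ := (isPrimePow_nat_iff n).1 h
  rw [Nat.totient_prime_pow hp hk]
  obtain ⟨j, rfl⟩ : ∃ j, k = j + 1 := ⟨k - 1, by omega⟩
  rw [Nat.add_sub_cancel, pow_succ]
  have := hp.two_le
  have h1 : p ≤ 2 * (p - 1) := by omega
  nlinarith [Nat.mul_le_mul_left (p ^ j) h1]

/-- the sum of the logarithms -/
theorem sum_log (q : ℕ) [NeZero q] :
    ∑ χ : DirichletCharacter ℂ q, (Real.log q - Real.log χ.conductor) ≤
      ∑ d ∈ q.divisors, vonMangoldt d * ((q / d).totient : ℝ) := by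
  classical
  have hq : (q : ℝ) ≠ 0 := Nat.cast_ne_zero.2 (NeZero.ne q)
  have h1 : ∀ χ : DirichletCharacter ℂ q, Real.log q - Real.log χ.conductor =
      ∑ d ∈ q.divisors, if χ.conductor ∣ q / d then vonMangoldt d else 0 := by
    intro χ
    have hr : χ.conductor ∣ q := χ.conductor_dvd_level
    have hr0 : χ.conductor ≠ 0 := χ.conductor_ne_zero
    obtain ⟨m, hm⟩ := hr
    have hm0 : m ≠ 0 := by
      rintro rfl
      exact NeZero.ne q (by rw [hm, mul_zero])
    have h2 : Real.log q - Real.log χ.conductor = Real.log m := by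
      have hmR : (q : ℝ) = (χ.conductor : ℝ) * m := by exact_mod_cast hm
      rw [hmR, Real.log_mul (Nat.cast_ne_zero.2 hr0) (Nat.cast_ne_zero.2 hm0)]
      ring
    rw [h2, ← vonMangoldt_sum, ← sum_filter]
    refine sum_congr ?_ fun _ _ => rfl
    ext d
    rw [Nat.mem_divisors, mem_filter, Nat.mem_divisors]
    constructor
    · rintro ⟨⟨e, he⟩, -⟩
      have hd0 : d ≠ 0 := by
        rintro rfl
        exact hm0 (by rw [he, zero_mul])
      have : q = d * (χ.conductor * e) := by
        conv_lhs => rw [hm, he]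
        ring
      refine ⟨⟨⟨_, this⟩, NeZero.ne q⟩, ?_⟩
      have h3 : q / d = χ.conductor * e := Nat.div_eq_of_eq_mul_right (Nat.pos_of_ne_zero hd0) this
      rw [h3]
      exact dvd_mul_right _ _
    · rintro ⟨⟨⟨e, he⟩, -⟩, h⟩
      have hd0 : d ≠ 0 := by
        rintro rfl
        exact NeZero.ne q (by rw [he, zero_mul])
      rw [Nat.div_eq_of_eq_mul_right (Nat.pos_of_ne_zero hd0) he] at h
      obtain ⟨f, hf⟩ := h
      refine ⟨⟨f, ?_⟩, hm0⟩
      have : χ.conductor * m = χ.conductor * (d * f) := by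
        rw [← hm]
        conv_lhs => rw [he, hf]
        ring
      exact Nat.eq_of_mul_eq_mul_left (Nat.pos_of_ne_zero hr0) this
  rw [sum_congr rfl fun χ _ => h1 χ, sum_comm]
  refine sum_le_sum fun d hd => ?_
  have hdq : d ∣ q := (Nat.mem_divisors.1 hd).1
  rw [← sum_filter, sum_const, nsmul_eq_mul, mul_comm]
  refine mul_le_mul_of_nonneg_left ?_ vonMangoldt_nonneg
  exact_mod_cast card_le (Nat.div_dvd_of_dvd hdq)

theorem term_le {q d : ℕ} (hq : q ≠ 0) (hd : d ∣ q) :
    vonMangoldt d * ((q / d).totient : ℝ) ≤ 2 * q.totient * (vonMangoldt d / d) := by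
  by_cases h : IsPrimePow d
  · have hd0 : (0 : ℝ) < d := Nat.cast_pos.2 h.pos
    have h1 : d ≤ 2 * d.totient := totient_ge h
    have h2 : d.totient * (q / d).totient ≤ q.totient := by
      have := Nat.totient_super_multiplicative d (q / d)
      rwa [Nat.mul_div_cancel' hd] at this
    have h3 : (d : ℝ) * ((q / d).totient : ℝ) ≤ 2 * q.totient := by
      have h4 : d * (q / d).totient ≤ 2 * q.totient := by nlinarith
      exact_mod_cast h4
    have h5 : ((q / d).totient : ℝ) ≤ 2 * q.totient / d := by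
      rw [le_div_iff₀ hd0]
      linarith
    calc vonMangoldt d * ((q / d).totient : ℝ) ≤ vonMangoldt d * (2 * q.totient / d) :=
          mul_le_mul_of_nonneg_left h5 vonMangoldt_nonneg
      _ = _ := by ring
  · have : vonMangoldt d = 0 := by
      by_contra h'
      exact h (vonMangoldt_ne_zero_iff.1 h')
    rw [this]
    simp

theorem sum_div_le (q D : ℕ) (hq : q ≠ 0) (hD : 0 < D) :
    ∑ d ∈ q.divisors, vonMangoldt d / d ≤ (D + 1) * Real.log D + Real.log q / D := by
  have hD' : (0 : ℝ) < D := Nat.cast_pos.2 hD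
  have hD1 : (1 : ℝ) ≤ D := by exact_mod_cast hD
  have h1 : ∀ d ∈ q.divisors, vonMangoldt d / d ≤
      (if d ∈ range (D + 1) then Real.log D else 0) + vonMangoldt d / D := by
    intro d hd
    have hd0 : 0 < d := Nat.pos_of_mem_divisors hd
    have hd1 : (1 : ℝ) ≤ d := by exact_mod_cast hd0
    have h0 : (0 : ℝ) ≤ vonMangoldt d := vonMangoldt_nonneg
    split_ifs with h
    · have h2 : (d : ℝ) ≤ D := by exact_mod_cast Nat.lt_succ_iff.1 (mem_range.1 h)
      have h3 : vonMangoldt d ≤ Real.log D :=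
        vonMangoldt_le_log.trans (Real.log_le_log (by linarith) h2)
      have h4 : vonMangoldt d / d ≤ vonMangoldt d := div_le_self h0 hd1
      have h5 : 0 ≤ vonMangoldt d / (D : ℝ) := by positivity
      linarith
    · have h2 : D ≤ d := by
        by_contra h'
        exact h (mem_range.2 (by omega))
      have h3 : (D : ℝ) ≤ d := by exact_mod_cast h2
      rw [zero_add]
      exact div_le_div_of_nonneg_left h0 hD' h3
  refine (sum_le_sum h1).trans ?_
  rw [sum_add_distrib, ← sum_div, vonMangoldt_sum]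
  refine add_le_add ?_ le_rfl
  rw [← sum_filter, sum_const, nsmul_eq_mul]
  refine mul_le_mul_of_nonneg_right ?_ (Real.log_nonneg hD1)
  have : (filter (fun d => d ∈ range (D + 1)) q.divisors).card ≤ D + 1 := by
    calc _ ≤ (range (D + 1)).card := card_le_card fun d hd => (mem_filter.1 hd).2
      _ = D + 1 := card_range _
  exact_mod_cast this

end CondAux

open CondAux

theorem t_cond : S_cond := by
  intro ε hε
  obtain ⟨D, hD⟩ := exists_nat_gt (4 / ε)
  have hD0 : (0 : ℝ) < D := (by positivity : (0 : ℝ) < 4 / ε).trans hD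
  have hDn : 0 < D := Nat.cast_pos.1 hD0
  obtain ⟨q0, hq0⟩ := exists_nat_gt (Real.exp (4 * ((D + 1) * Real.log D) / ε))
  refine ⟨q0, fun q _ hq => ?_⟩
  have hqn : q ≠ 0 := NeZero.ne q
  have hq1 : (1 : ℝ) ≤ q := by exact_mod_cast Nat.pos_of_ne_zero hqn
  have hL0 : 0 ≤ Real.log q := Real.log_nonneg hq1
  have hL : 4 * ((D + 1) * Real.log D) / ε ≤ Real.log q := by
    rw [Real.le_log_iff_exp_le (by linarith)]
    have : (q0 : ℝ) ≤ q := by exact_mod_cast hq
    linarith
  have hφ : (0 : ℝ) ≤ q.totient := Nat.cast_nonneg _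
  have h0 : ∀ χ : DirichletCharacter ℂ q, 0 ≤ Real.log q - Real.log χ.conductor ∧
      Real.log q - Real.log χ.conductor ≤ Real.log q := by
    intro χ
    have h1 : (1 : ℝ) ≤ χ.conductor := by
      exact_mod_cast Nat.pos_of_ne_zero χ.conductor_ne_zero
    have h2 : (χ.conductor : ℝ) ≤ q := by
      exact_mod_cast Nat.le_of_dvd (Nat.pos_of_ne_zero hqn) χ.conductor_dvd_level
    exact ⟨sub_nonneg.2 (Real.log_le_log (by linarith) h2), by
      linarith [Real.log_nonneg h1]⟩
  have h1 : ∑ χ ∈ NT q, (Real.log q - Real.log χ.conductor) ^ 2 ≤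
      Real.log q * ∑ χ : DirichletCharacter ℂ q, (Real.log q - Real.log χ.conductor) := by
    rw [mul_sum]
    refine (sum_le_sum_of_subset_of_nonneg (subset_univ _) fun χ _ _ => sq_nonneg _).trans
      (sum_le_sum fun χ _ => ?_)
    obtain ⟨a, b⟩ := h0 χ
    nlinarith
  have h2 : ∑ χ : DirichletCharacter ℂ q, (Real.log q - Real.log χ.conductor) ≤
      2 * q.totient * ((D + 1) * Real.log D + Real.log q / D) := by
    refine (sum_log q).trans ((sum_le_sum fun d hd =>
      term_le hqn (Nat.mem_divisors.1 hd).1).trans ?_)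
    rw [← mul_sum]
    exact mul_le_mul_of_nonneg_left (sum_div_le q D hqn hDn) (by positivity)
  have h3 : (D + 1) * Real.log D ≤ ε / 4 * Real.log q := by
    rw [div_le_iff₀ hε] at hL
    linarith
  have h4 : Real.log q / D ≤ ε / 4 * Real.log q := by
    rw [div_le_iff₀ hD0]
    rw [div_lt_iff₀ hε] at hD
    nlinarith
  calc ∑ χ ∈ NT q, (Real.log q - Real.log χ.conductor) ^ 2
      ≤ Real.log q * (2 * q.totient * ((D + 1) * Real.log D + Real.log q / D)) :=
        h1.trans (mul_le_mul_of_nonneg_left h2 hL0)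
    _ ≤ Real.log q * (2 * q.totient * (ε / 4 * Real.log q + ε / 4 * Real.log q)) := by
        gcongr
    _ = ε * (Real.log q ^ 2 * q.totient) := by ring

end Pool.Agent.NH13.UV
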