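import Pool.Agent.NH13.UV.Stm

/-!
# UV-24: the change of variables `x = q ^ u`
-/

set_option autoImplicit false

open Complex MeasureTheory Filter Topology Set
open scoped ComplexConjugate

namespace Pool.Agent.NH13.UV

namespace cv

theorem hasDeriv {q : ℕ} (hq : 2 ≤ q) (s : Set ℝ) (u : ℝ) :
    HasDerivWithinAt (fun u : ℝ => (q : ℝ) ^ u) (Real.log q * (q : ℝ) ^ u) s u := by
  have hq0 : (0 : ℝ) < q := by exact_mod_cast (by omega : 0 < q)
  have h := (Real.hasStrictDerivAt_const_rpow hq0 u).hasDerivAt.hasDerivWithinAt (s := s)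
  rwa [mul_comm] at h

theorem logpos {q : ℕ} (hq : 2 ≤ q) : 0 < Real.log q :=
  Real.log_pos (by exact_mod_cast (by omega : 1 < q))

theorem strictMono {q : ℕ} (hq : 2 ≤ q) : StrictMono (fun u : ℝ => (q : ℝ) ^ u) :=
  Real.strictMono_rpow_of_base_gt_one (by exact_mod_cast (by omega : 1 < q))

theorem im_Icc {q : ℕ} (hq : 2 ≤ q) {a b : ℝ} :
    (fun u : ℝ => (q : ℝ) ^ u) '' Icc a b = Icc ((q : ℝ) ^ a) ((q : ℝ) ^ b) := by
  have hq0 : (0 : ℝ) < q := by exact_mod_cast (by omega : 0 < q)
  ext x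
  constructor
  · rintro ⟨u, hu, rfl⟩
    exact ⟨(strictMono hq).monotone hu.1, (strictMono hq).monotone hu.2⟩
  · intro hx
    have hx0 : 0 < x := lt_of_lt_of_le (Real.rpow_pos_of_pos hq0 a) hx.1
    have hL := logpos hq
    have e : (q : ℝ) ^ (Real.log x / Real.log q) = x := by
      rw [Real.rpow_def_of_pos hq0, mul_div_cancel₀ _ hL.ne', Real.exp_log hx0]
    refine ⟨Real.log x / Real.log q, ⟨?_, ?_⟩, e⟩
    · refine (strictMono hq).le_iff_le.1 ?_
      simp only [e]
      exact hx.1
    · refine (strictMono hq).le_iff_le.1 ?_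
      simp only [e]
      exact hx.2

theorem im_Ioi {q : ℕ} (hq : 2 ≤ q) :
    (fun u : ℝ => (q : ℝ) ^ u) '' Ioi (0 : ℝ) = Ioi (1 : ℝ) := by
  have hq0 : (0 : ℝ) < q := by exact_mod_cast (by omega : 0 < q)
  ext x
  constructor
  · rintro ⟨u, hu, rfl⟩
    have := strictMono hq (mem_Ioi.1 hu)
    simp only [Real.rpow_zero] at this
    exact this
  · intro hx
    have hx0 : 0 < x := lt_trans one_pos (mem_Ioi.1 hx)
    have hL := logpos hq
    have e : (q : ℝ) ^ (Real.log x / Real.log q) = x := by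
      rw [Real.rpow_def_of_pos hq0, mul_div_cancel₀ _ hL.ne', Real.exp_log hx0]
    exact ⟨Real.log x / Real.log q, div_pos (Real.log_pos (mem_Ioi.1 hx)) hL, e⟩

end cv

open cv in
theorem t_cv : S_cv := by
  refine ⟨?_, ?_⟩
  · intro q hq a b hab
    have hq0 : (0 : ℝ) < q := by exact_mod_cast (by omega : 0 < q)
    have hL := logpos hq
    have hle : (q : ℝ) ^ a ≤ (q : ℝ) ^ b := (strictMono hq).monotone hab
    rw [intervalIntegral.integral_of_le hab, intervalIntegral.integral_of_le hle,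
      ← integral_Icc_eq_integral_Ioc, ← integral_Icc_eq_integral_Ioc, ← im_Icc hq,
      integral_image_eq_integral_abs_deriv_smul measurableSet_Icc
        (fun u _ => hasDeriv hq _ u) (strictMono hq).injective.injOn, ← integral_div]
    refine integral_congr_ae (Eventually.of_forall fun u => ?_)
    have hpos : 0 < (q : ℝ) ^ u := Real.rpow_pos_of_pos hq0 u
    simp only [smul_eq_mul]
    unfold ff
    rw [abs_of_pos (mul_pos hL hpos)]
    field_simp
  · intro q hq κ
    have hq0 : (0 : ℝ) < q := by exact_mod_cast (by omega : 0 < q)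
    have hL := logpos hq
    have hL2 : ENNReal.ofReal (Real.log q ^ 2) ≠ 0 := by
      rw [ne_eq, ENNReal.ofReal_eq_zero, not_le]
      positivity
    unfold Gv
    rw [ENNReal.eq_div_iff hL2 ENNReal.ofReal_ne_top]
    unfold IV LT
    rw [← lintegral_const_mul' _ _ ENNReal.ofReal_ne_top, ← im_Ioi hq,
      lintegral_image_eq_lintegral_abs_deriv_mul measurableSet_Ioi
        (fun u _ => hasDeriv hq _ u) (strictMono hq).injective.injOn]
    refine lintegral_congr fun u => ?_
    have hpos : 0 < (q : ℝ) ^ u := Real.rpow_pos_of_pos hq0 u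
    rw [← ENNReal.ofReal_mul (by positivity), ← ENNReal.ofReal_mul (abs_nonneg _)]
    congr 1
    rw [abs_of_pos (mul_pos hL hpos)]
    have e1 : ((q : ℝ) ^ u) ^ (-2 - 2 * κ / Real.log q) =
        Real.exp (-2 * κ * u) / ((q : ℝ) ^ u) ^ 2 := by
      rw [Real.rpow_sub hpos, Real.rpow_neg hpos.le]
      have e2 : ((q : ℝ) ^ u) ^ (2 * κ / Real.log q) = Real.exp (2 * κ * u) := by
        rw [← Real.rpow_mul hq0.le, Real.rpow_def_of_pos hq0]
        congr 1
        field_simp
      rw [e2]
      have e3 : Real.exp (-2 * κ * u) = (Real.exp (2 * κ * u))⁻¹ := by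
        rw [← Real.exp_neg]
        congr 1
        ring
      rw [e3]
      have e4 : ((q : ℝ) ^ u) ^ (2 : ℝ) = ((q : ℝ) ^ u) ^ 2 := by
        rw [← Real.rpow_natCast]
        norm_num
      rw [e4]
      field_simp
    rw [e1]
    unfold ff
    field_simp

end Pool.Agent.NH13.UV
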