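import Pool.Agent.NH13.UV.Stm

/-!
# Plan UV, job UV-30: comparison of two scales under GRH
-/

set_option autoImplicit false

open Complex MeasureTheory Filter Topology Set
open scoped ComplexConjugate

namespace Pool.Agent.NH13.UV

namespace Dbl

theorem wt_nonneg (x t : ℝ) : 0 ≤ wt x t := by
  unfold wt
  positivity

theorem one (hK3 : S_K3) (hK1 : S_K1) {B : ℂ → ℂ} (hB : HDE B 0) {x X : ℝ} (hx : 0 < x)
    (hX : x ≤ X) :
    ∫ t : ℝ, (B (pt x t)).re ^ 2 * wt x t ≤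
      (X / x) ^ 2 * ((1 / 2 + X) / (1 / 2 + x)) ^ 2 * ∫ t : ℝ, (B (pt X t)).re ^ 2 * wt X t := by
  obtain ⟨ι, a, m, h⟩ := hB
  have h1 := (hK1 B 0 ι a m h x hx 0).2.1
  have h2 := (hK1 B 0 ι a m h X (hx.trans_le hX) 0).2.1
  rw [← integral_const_mul]
  exact integral_mono h1 (h2.const_mul _) fun t => hK3 B ι a m h x X hx hX t

theorem ev (κ' ε : ℝ) (hε : 0 < ε) :
    ∀ᶠ q : ℕ in atTop, (1 + 2 * (κ' / Real.log q)) ^ 2 ≤ 1 + ε := by
  have h1 : Tendsto (fun q : ℕ => κ' / Real.log q) atTop (𝓝 0) :=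
    (Real.tendsto_log_atTop.comp tendsto_natCast_atTop_atTop).const_div_atTop κ'
  have h2 : Tendsto (fun q : ℕ => (1 + 2 * (κ' / Real.log q)) ^ 2) atTop
      (𝓝 ((1 + 2 * 0) ^ 2)) := ((h1.const_mul 2).const_add 1).pow 2
  have h3 : ((1 : ℝ) + 2 * 0) ^ 2 < 1 + ε := by norm_num; exact hε
  filter_upwards [h2.eventually_lt_const h3] with q hq
  exact hq.le

end Dbl

theorem t_dbl (hK3 : S_K3) (hK1 : S_K1) (hD : S_HDq) : S_dbl := by
  intro hG κ κ' ε hκ hκκ hε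
  obtain ⟨q0, hq0⟩ := ((Dbl.ev κ' ε hε).and (eventually_ge_atTop 2)).exists_forall_of_atTop
  refine ⟨q0, fun q _ hq => ?_⟩
  obtain ⟨hq1, hq2⟩ := hq0 q hq
  have hq2' : (1 : ℝ) < q := by exact_mod_cast (by omega : 1 < q)
  have hL : 0 < Real.log q := Real.log_pos hq2'
  have hκ' : 0 < κ' := hκ.trans hκκ
  have hx : 0 < κ / Real.log q := div_pos hκ hL
  have hX : 0 < κ' / Real.log q := div_pos hκ' hL
  have hxX : κ / Real.log q ≤ κ' / Real.log q := div_le_div_of_nonneg_right hκκ.le hL.le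
  have hc : ((κ' / Real.log q) / (κ / Real.log q)) ^ 2 *
      ((1 / 2 + κ' / Real.log q) / (1 / 2 + κ / Real.log q)) ^ 2 ≤ (κ' / κ) ^ 2 * (1 + ε) := by
    have e1 : (κ' / Real.log q) / (κ / Real.log q) = κ' / κ := by
      field_simp
    rw [e1]
    refine mul_le_mul_of_nonneg_left ?_ (by positivity)
    refine le_trans (pow_le_pow_left₀ (by positivity) ?_ 2) hq1
    rw [div_le_iff₀ (by positivity)]
    nlinarith [mul_pos hX hx]
  have hsum : ∑ χ ∈ NT q, ∫ t : ℝ, (Bq χ (pt (κ / Real.log q) t)).re ^ 2 *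
        wt (κ / Real.log q) t ≤ (κ' / κ) ^ 2 * (1 + ε) *
      ∑ χ ∈ NT q, ∫ t : ℝ, (Bq χ (pt (κ' / Real.log q) t)).re ^ 2 * wt (κ' / Real.log q) t := by
    rw [Finset.mul_sum]
    refine Finset.sum_le_sum fun χ hχ => ?_
    have hne : χ ≠ 1 := mem_NT.mp hχ
    have hB : HDE (Bq χ) 0 := (hD q χ hne 0 le_rfl (by norm_num) (by
      intro s hs
      rw [add_zero] at hs
      exact hG q χ hne s hs)).1
    refine (Dbl.one hK3 hK1 hB hx hxX).trans ?_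
    refine mul_le_mul_of_nonneg_right hc ?_
    exact integral_nonneg fun t => mul_nonneg (sq_nonneg _) (Dbl.wt_nonneg _ _)
  unfold Ir
  have hnn : 0 ≤ 2 / (Real.pi * (Real.log q ^ 2 * q.totient)) := by positivity
  calc 2 / (Real.pi * (Real.log q ^ 2 * q.totient)) * ∑ χ ∈ NT q,
        ∫ t : ℝ, (Bq χ (pt (κ / Real.log q) t)).re ^ 2 * wt (κ / Real.log q) t
      ≤ 2 / (Real.pi * (Real.log q ^ 2 * q.totient)) * ((κ' / κ) ^ 2 * (1 + ε) * ∑ χ ∈ NT q,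
        ∫ t : ℝ, (Bq χ (pt (κ' / Real.log q) t)).re ^ 2 * wt (κ' / Real.log q) t) :=
        mul_le_mul_of_nonneg_left hsum hnn
    _ = (κ' / κ) ^ 2 * (1 + ε) * (2 / (Real.pi * (Real.log q ^ 2 * q.totient)) * ∑ χ ∈ NT q,
        ∫ t : ℝ, (Bq χ (pt (κ' / Real.log q) t)).re ^ 2 * wt (κ' / Real.log q) t) := by ring

end Pool.Agent.NH13.UV
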