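import Mathlib

/-!
# Plan UV: the sharp constant for the variance of the primes in the classes of one modulus

Definitions (light imports; `psi`, `psiAP`, `VV` are those of `NH13.PWin` and `NH13.Classes`).
Notation of the paper proof: `L = log q`, `x = κ / L`, `σ = 1/2 + x`, `p = x + σ = 1/2 + 2 x`
(so `s = 1/2 + p = 1 + 2 x`), `wt x t = 1 / (σ² + t²)`.
-/

set_option autoImplicit false

open Complex MeasureTheory Filter Topology Set
open scoped ComplexConjugate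

namespace Pool.Agent.NH13.UV

/-! ### primes -/

/-- `ψ(x, χ)` -/
noncomputable def psi {q : ℕ} (χ : DirichletCharacter ℂ q) (x : ℝ) : ℂ :=
  ∑ n ∈ Finset.Icc 1 ⌊x⌋₊, (ArithmeticFunction.vonMangoldt n : ℂ) * χ (n : ZMod q)

/-- `ψ(x; q, a)` -/
noncomputable def psiAP (x : ℝ) (q a : ℕ) : ℝ :=
  ∑ n ∈ (Finset.Icc 1 ⌊x⌋₊).filter (fun n => n % q = a), ArithmeticFunction.vonMangoldt n

/-- the sum of the squares of the errors over the reduced classes -/
noncomputable def VV (x : ℝ) (q : ℕ) : ℝ :=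
  ∑ a ∈ (Finset.range q).filter (fun a => a.Coprime q), (psiAP x q a - x / q.totient) ^ 2

/-- `∫_1^∞ V(x, q) x^(-2-η) dx` -/
noncomputable def IV (q : ℕ) (η : ℝ) : ENNReal :=
  ∫⁻ x in Ioi (1 : ℝ), ENNReal.ofReal (VV x q * x ^ (-2 - η))

/-- the normalised form, at the scale `κ / log q` -/
noncomputable def Gv (q : ℕ) (κ : ℝ) : ENNReal :=
  IV q (2 * κ / Real.log q) / ENNReal.ofReal (Real.log q ^ 2)

/-- the Abel mean of `V(x,q) / (x log q)` with respect to `dx / x` -/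
noncomputable def Mv (q : ℕ) (δ : ℝ) : ENNReal := ENNReal.ofReal (2 * δ) * Gv q δ

/-- the logarithmic mean of `V(x,q) / (x log q)` over `q^a ≤ x ≤ q^b` -/
noncomputable def Wv (q : ℕ) (a b : ℝ) : ℝ :=
  (∫ x in ((q : ℝ) ^ a)..((q : ℝ) ^ b), VV x q / x ^ 2) / ((b - a) * Real.log q ^ 2)

/-- `V(q^u, q) / (q^u log q)` -/
noncomputable def ff (q : ℕ) (u : ℝ) : ℝ := VV ((q : ℝ) ^ u) q / ((q : ℝ) ^ u * Real.log q)

/-- a Laplace transform -/
noncomputable def LT (f : ℝ → ℝ) (κ : ℝ) : ENNReal :=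
  ∫⁻ u in Ioi (0 : ℝ), ENNReal.ofReal (Real.exp (-2 * κ * u) * f u)

/-! ### characters -/

instance condNeZero {q : ℕ} [NeZero q] (χ : DirichletCharacter ℂ q) : NeZero χ.conductor :=
  ⟨χ.conductor_ne_zero⟩

/-- the nontrivial characters modulo `q` -/
noncomputable def NT (q : ℕ) [NeZero q] : Finset (DirichletCharacter ℂ q) := by
  classical exact Finset.univ.filter (fun χ => χ ≠ 1)

lemma mem_NT {q : ℕ} [NeZero q] {χ : DirichletCharacter ℂ q} : χ ∈ NT q ↔ χ ≠ 1 := by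
  classical
  unfold NT
  simp

/-- the completed `L`-function, normalised, with the origin at `1/2` -/
noncomputable def YY {r : ℕ} [NeZero r] (χ : DirichletCharacter ℂ r) (z : ℂ) : ℂ :=
  (r : ℂ) ^ (z / 2) * DirichletCharacter.completedLFunction χ (1 / 2 + z)

/-- its logarithmic derivative, for the primitive character which induces `χ` -/
noncomputable def Bq {q : ℕ} [NeZero q] (χ : DirichletCharacter ℂ q) (z : ℂ) : ℂ :=
  logDeriv (YY χ.primitiveCharacter) z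

/-- `L'/L(s, χ)` -/
noncomputable def LD {q : ℕ} [NeZero q] (χ : DirichletCharacter ℂ q) (s : ℂ) : ℂ :=
  logDeriv (DirichletCharacter.LFunction χ) s

/-- the weight -/
noncomputable def wt (x t : ℝ) : ℝ := 1 / ((1 / 2 + x) ^ 2 + t ^ 2)

/-- the point `x + i t` -/
noncomputable def pt (x t : ℝ) : ℂ := (x : ℂ) + (t : ℂ) * I

/-- the normalised sum over the nontrivial characters of `∫ |ψ(u,χ)|² u^(-2-2x) du` -/
noncomputable def Gn (q : ℕ) [NeZero q] (κ : ℝ) : ℝ :=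
  1 / (Real.log q ^ 2 * q.totient) * ∑ χ ∈ NT q,
    ∫ u in Ioi (1 : ℝ), ‖psi χ u‖ ^ 2 * u ^ (-2 - 2 * κ / Real.log q)

/-- the normalised sum over the nontrivial characters of `∫ (Re B)² wt` -/
noncomputable def Ir (q : ℕ) [NeZero q] (κ : ℝ) : ℝ :=
  2 / (Real.pi * (Real.log q ^ 2 * q.totient)) * ∑ χ ∈ NT q,
    ∫ t : ℝ, (Bq χ (pt (κ / Real.log q) t)).re ^ 2 * wt (κ / Real.log q) t

/-! ### logarithmic derivatives of functions with zeros in a strip -/

/-- an entire function of order at most `3/2` (as in `R362.Near`) -/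
def Gr (Y : ℂ → ℂ) : Prop :=
  ∃ K : ℝ, 0 < K ∧ ∀ z : ℂ, ‖Y z‖ ≤ Real.exp (K * (1 + ‖z‖) ^ (3 / 2 : ℝ))

/-- `B` is the logarithmic derivative of a function with the zeros `a i` of multiplicity `m i`,
symmetric with respect to the imaginary axis, in the strip `|Re| ≤ h` -/
structure HD (B : ℂ → ℂ) (h : ℝ) (ι : Type) (a : ι → ℂ) (m : ι → ℕ) : Prop where
  h0 : 0 ≤ h
  h1 : h ≤ 1 / 2
  strip : ∀ i, |(a i).re| ≤ h
  sym : ∃ e : ι ≃ ι, ∀ i, a (e i) = -(conj (a i)) ∧ m (e i) = m i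
  sum : ∀ z w : ℂ, h < z.re → h < w.re →
    HasSum (fun i => (m i : ℂ) * (1 / (z - a i) - 1 / (w - a i))) (B z - B w)
  re : ∀ z : ℂ, h < z.re → HasSum (fun i => (m i : ℝ) * (1 / (z - a i)).re) (B z).re
  diff : DifferentiableOn ℂ B {z | h < z.re}
  gr : ∃ C : ℝ, ∀ z : ℂ, 1 ≤ z.re → ‖B z‖ ≤ C * Real.log (2 + ‖z‖)

/-- the same with unnamed zeros -/
def HDE (B : ℂ → ℂ) (h : ℝ) : Prop := ∃ (ι : Type) (a : ι → ℂ) (m : ι → ℕ), HD B h ι a m

/-- a family of functions as `ff` -/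
structure Fam (f : ℕ → ℝ → ℝ) : Prop where
  nn : ∀ q u, 0 ≤ f q u
  meas : ∀ q, Measurable (f q)
  loc : ∀ (q : ℕ) (b : ℝ), ∃ M : ℝ, ∀ u ∈ Icc (0 : ℝ) b, f q u ≤ M
  small : ∀ ε : ℝ, 0 < ε → ∀ᶠ q in atTop, ∀ u ∈ Icc (0 : ℝ) 1, |f q u - u| ≤ ε

end Pool.Agent.NH13.UV
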