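import Pool.Agent.NH13.UV.Stm

/-!
# UV-25: the family `ff`
-/

set_option autoImplicit false

open Complex MeasureTheory Filter Topology Set
open scoped ComplexConjugate

namespace Pool.Agent.NH13.UV

namespace Fa39

lemma psiAP_meas (q a : ℕ) : Measurable (fun x : ℝ => psiAP x q a) := by
  have h : Measurable (fun m : ℕ => ∑ n ∈ (Finset.Icc 1 m).filter (fun n => n % q = a),
      ArithmeticFunction.vonMangoldt n) := measurable_from_nat
  exact h.comp Nat.measurable_floor

lemma VV_meas (q : ℕ) : Measurable (fun x : ℝ => VV x q) := by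
  unfold VV
  apply Finset.measurable_sum
  intro a _
  exact ((psiAP_meas q a).sub (measurable_id.div_const _)).pow_const 2

lemma VV_nonneg (x : ℝ) (q : ℕ) : 0 ≤ VV x q := Finset.sum_nonneg fun _ _ => sq_nonneg _

lemma VV_le (q : ℕ) (Y : ℝ) : ∃ D : ℝ, 0 ≤ D ∧ ∀ t : ℝ, 0 ≤ t → t ≤ Y → VV t q ≤ D := by
  obtain ⟨D, hD⟩ : ∃ D, D = ∑ n ∈ Finset.Icc 1 ⌊Y⌋₊, ArithmeticFunction.vonMangoldt n := ⟨_, rfl⟩
  refine ⟨q * (D + |Y|) ^ 2, by positivity, fun t ht0 htY => ?_⟩
  unfold VV
  have h2 : ∀ a ∈ (Finset.range q).filter (fun a => a.Coprime q),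
      (psiAP t q a - t / q.totient) ^ 2 ≤ (D + |Y|) ^ 2 := by
    intro a _
    have h3 : 0 ≤ psiAP t q a := Finset.sum_nonneg fun _ _ =>
      ArithmeticFunction.vonMangoldt_nonneg
    have h4 : psiAP t q a ≤ D := by
      rw [hD]
      unfold psiAP
      apply Finset.sum_le_sum_of_subset_of_nonneg
      · intro n hn
        rw [Finset.mem_filter] at hn
        exact Finset.Icc_subset_Icc_right (Nat.floor_mono htY) hn.1
      · intro n _ _
        exact ArithmeticFunction.vonMangoldt_nonneg
    have h5 : 0 ≤ t / q.totient := by positivity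
    have h6 : t / q.totient ≤ |Y| := by
      rcases Nat.eq_zero_or_pos q.totient with h | h
      · rw [h]; simp
      · have : (1 : ℝ) ≤ q.totient := by exact_mod_cast h
        exact (div_le_self ht0 this).trans (htY.trans (le_abs_self _))
    apply sq_le_sq'
    · linarith
    · linarith [abs_nonneg Y]
  refine (Finset.sum_le_card_nsmul _ _ _ h2).trans ?_
  rw [nsmul_eq_mul]
  apply mul_le_mul_of_nonneg_right _ (sq_nonneg _)
  have := Finset.card_filter_le (Finset.range q) (fun a => a.Coprime q)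
  rw [Finset.card_range] at this
  exact_mod_cast this

end Fa39

open Fa39 in
theorem t_fam (h : S_small) : S_fam where
  nn q u := div_nonneg (VV_nonneg _ _)
    (mul_nonneg (Real.rpow_nonneg (Nat.cast_nonneg q) u) (Real.log_natCast_nonneg q))
  meas q := by
    have h1 : Measurable (fun u : ℝ => (q : ℝ) ^ u) := measurable_const.pow measurable_id
    exact ((VV_meas q).comp h1).div (h1.mul_const _)
  loc q b := by
    obtain ⟨D, hD0, hD⟩ := VV_le q (1 + (q : ℝ) ^ b)
    refine ⟨D / Real.log q, fun u hu => ?_⟩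
    have hq0 : (0 : ℝ) ≤ (q : ℝ) ^ u := Real.rpow_nonneg (Nat.cast_nonneg q) u
    have hqb : (0 : ℝ) ≤ (q : ℝ) ^ b := Real.rpow_nonneg (Nat.cast_nonneg q) b
    unfold ff
    rcases Nat.lt_or_ge q 2 with h2 | h2
    · have : Real.log q = 0 := by
        interval_cases q <;> simp
      rw [this, mul_zero, div_zero, div_zero]
    · have hq1 : (1 : ℝ) ≤ q := by exact_mod_cast (by omega : 1 ≤ q)
      have hlog : 0 < Real.log q := Real.log_pos (by exact_mod_cast (by omega : 1 < q))
      have h3 : (1 : ℝ) ≤ (q : ℝ) ^ u := Real.one_le_rpow hq1 hu.1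
      have h4 : (q : ℝ) ^ u ≤ (q : ℝ) ^ b := Real.rpow_le_rpow_of_exponent_le hq1 hu.2
      have h5 := hD _ hq0 (by linarith)
      refine div_le_div₀ hD0 h5 hlog ?_
      nlinarith
  small ε hε := by
    obtain ⟨q0, hq0⟩ := h ε hε
    filter_upwards [eventually_ge_atTop (max q0 2)] with q hq u hu
    have h1 : q0 ≤ q := (le_max_left _ _).trans hq
    have h2 : 2 ≤ q := (le_max_right _ _).trans hq
    have hq1 : (1 : ℝ) ≤ q := by exact_mod_cast (by omega : 1 ≤ q)
    have hqp : (0 : ℝ) < q := by linarith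
    have hlog : 0 < Real.log q := Real.log_pos (by exact_mod_cast (by omega : 1 < q))
    have h3 : (1 : ℝ) ≤ (q : ℝ) ^ u := Real.one_le_rpow hq1 hu.1
    have h4 : (q : ℝ) ^ u ≤ q := by
      have := Real.rpow_le_rpow_of_exponent_le hq1 hu.2
      rwa [Real.rpow_one] at this
    have h5 := hq0 q h1 _ h3 h4
    rw [Real.log_rpow hqp] at h5
    have hpos : 0 < (q : ℝ) ^ u * Real.log q := by positivity
    have e : ff q u - u = (VV ((q : ℝ) ^ u) q - (q : ℝ) ^ u * (u * Real.log q)) /
        ((q : ℝ) ^ u * Real.log q) := by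
      unfold ff
      rw [sub_div]
      congr 1
      field_simp
    rw [e, abs_div, abs_of_pos hpos, div_le_iff₀ hpos]
    exact h5

end Pool.Agent.NH13.UV
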