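import Pool.Agent.NH13.UV.Stm

/-!
# UV-1: growth of the logarithmic derivative to the right of its zeros (helper58)
-/

set_option autoImplicit false

open Complex MeasureTheory Filter Topology Set
open scoped ComplexConjugate

namespace Pool.Agent.NH13.UV.gr1

/-- the comparison of one term -/
lemma term {w : ℂ} {δ : ℝ} (hδ : 0 < δ) (hw : δ ≤ w.re) :
    ‖1 / w - 1 / (w + 1)‖ ≤ (1 + 1 / δ) * (1 / (w + 1)).re := by
  have hw0 : w ≠ 0 := by
    rintro rfl
    simp at hw
    linarith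
  have hw1 : w + 1 ≠ 0 := by
    intro h
    have := congrArg Complex.re h
    simp at this
    linarith
  have n0 : 0 < ‖w‖ := norm_pos_iff.2 hw0
  have n1 : 0 < ‖w + 1‖ := norm_pos_iff.2 hw1
  have hδw : δ ≤ ‖w‖ := hw.trans (Complex.re_le_norm w)
  have h1 : ‖w + 1‖ ≤ (1 + 1 / δ) * ‖w‖ := by
    have h2 : ‖w + 1‖ ≤ ‖w‖ + 1 := by
      have := norm_add_le w 1
      rwa [norm_one] at this
    have h3 : 1 ≤ 1 / δ * ‖w‖ := by
      rw [one_div, inv_mul_eq_div, le_div_iff₀ hδ, one_mul]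
      exact hδw
    linarith
  have e1 : 1 / w - 1 / (w + 1) = 1 / (w * (w + 1)) := by
    field_simp
    ring
  have e2 : (1 / (w + 1)).re = (w.re + 1) / ‖w + 1‖ ^ 2 := by
    rw [one_div, Complex.inv_re, Complex.normSq_eq_norm_sq]
    simp
  rw [e1, e2, norm_div, norm_one, norm_mul]
  have h4 : 1 / ‖w + 1‖ ^ 2 ≤ (w.re + 1) / ‖w + 1‖ ^ 2 := by
    apply div_le_div_of_nonneg_right _ (by positivity)
    linarith
  have hK : 0 ≤ 1 + 1 / δ := by positivity
  calc 1 / (‖w‖ * ‖w + 1‖) ≤ (1 + 1 / δ) * (1 / ‖w + 1‖ ^ 2) := by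
        rw [mul_one_div, div_le_div_iff₀ (by positivity) (by positivity)]
        have := mul_le_mul_of_nonneg_right h1 n1.le
        nlinarith
    _ ≤ _ := mul_le_mul_of_nonneg_left h4 hK

end Pool.Agent.NH13.UV.gr1

namespace Pool.Agent.NH13.UV

open gr1

theorem t_gr : S_gr := by
  intro B h ι a m H x hx
  obtain ⟨C0, hC0⟩ := H.gr
  have hδ : 0 < x - h := by linarith
  set K : ℝ := 1 + 1 / (x - h) with hK
  have hK0 : 0 < K := by positivity
  set C1 : ℝ := |C0| with hC1
  have h1 : ∀ z : ℂ, 1 ≤ z.re → ‖B z‖ ≤ C1 * Real.log (2 + ‖z‖) := by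
    intro z hz
    refine (hC0 z hz).trans (mul_le_mul_of_nonneg_right (le_abs_self _) ?_)
    exact Real.log_nonneg (by linarith [norm_nonneg z])
  have hC1' : 0 ≤ C1 := abs_nonneg _
  refine ⟨2 * (K + 1) * C1 + 1, by positivity, fun z hz => ?_⟩
  have hl : 0 ≤ Real.log (2 + ‖z‖) := Real.log_nonneg (by linarith [norm_nonneg z])
  rcases le_or_gt 1 z.re with h2 | h2
  · refine (h1 z h2).trans (mul_le_mul_of_nonneg_right ?_ hl)
    nlinarith
  · have hz1 : 1 ≤ (z + 1).re := by
      simp only [Complex.add_re, Complex.one_re]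
      linarith [H.h0]
    have hzh : h < z.re := by linarith
    have hzh1 : h < (z + 1).re := by linarith [H.h1]
    have hf := H.sum z (z + 1) hzh hzh1
    have hg := (H.re (z + 1) hzh1).mul_left K
    have h3 : ‖B z - B (z + 1)‖ ≤ K * (B (z + 1)).re := by
      refine hf.norm_le_of_bounded hg fun i => ?_
      have h4 : x - h ≤ (z - a i).re := by
        have := abs_le.1 (H.strip i)
        simp only [Complex.sub_re]
        linarith
      have h5 := term hδ h4
      have e : z + 1 - a i = z - a i + 1 := by ring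
      rw [norm_mul, Complex.norm_natCast, e]
      calc (m i : ℝ) * ‖1 / (z - a i) - 1 / (z - a i + 1)‖
          ≤ (m i : ℝ) * (K * (1 / (z - a i + 1)).re) :=
            mul_le_mul_of_nonneg_left h5 (Nat.cast_nonneg _)
        _ = K * ((m i : ℝ) * (1 / (z - a i + 1)).re) := by ring
    have h6 : ‖B z‖ ≤ (K + 1) * ‖B (z + 1)‖ := by
      have h7 : ‖B z‖ ≤ ‖B z - B (z + 1)‖ + ‖B (z + 1)‖ := by
        have := norm_add_le (B z - B (z + 1)) (B (z + 1))
        rwa [sub_add_cancel] at this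
      have h8 : K * (B (z + 1)).re ≤ K * ‖B (z + 1)‖ :=
        mul_le_mul_of_nonneg_left (Complex.re_le_norm _) hK0.le
      linarith
    have h9 : Real.log (2 + ‖z + 1‖) ≤ 2 * Real.log (2 + ‖z‖) := by
      have e : 2 * Real.log (2 + ‖z‖) = Real.log ((2 + ‖z‖) ^ 2) := by
        rw [Real.log_pow]
        norm_num
      rw [e]
      apply Real.log_le_log (by linarith [norm_nonneg (z + 1)])
      have := norm_add_le z 1
      rw [norm_one] at this
      nlinarith [norm_nonneg z]
    calc ‖B z‖ ≤ (K + 1) * ‖B (z + 1)‖ := h6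
      _ ≤ (K + 1) * (C1 * Real.log (2 + ‖z + 1‖)) :=
          mul_le_mul_of_nonneg_left (h1 _ hz1) (by linarith)
      _ ≤ (K + 1) * (C1 * (2 * Real.log (2 + ‖z‖))) :=
          mul_le_mul_of_nonneg_left (mul_le_mul_of_nonneg_left h9 hC1') (by linarith)
      _ ≤ (2 * (K + 1) * C1 + 1) * Real.log (2 + ‖z‖) := by nlinarith

end Pool.Agent.NH13.UV
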