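import Pool.Agent.NH13.UV.Stm

/-! Project UV, job UV-11: the structure `HD` for the primitive character (helper86). -/

set_option autoImplicit false

open Complex MeasureTheory Filter Topology Set
open scoped ComplexConjugate

namespace Pool.Agent.NH13.UV

namespace HDQ

open ArithmeticFunction (vonMangoldt)

/-- `L'/L` is bounded in `Re s ≥ 3/2` -/
lemma LD_bound {r : ℕ} [NeZero r] (χ : DirichletCharacter ℂ r) :
    ∃ D : ℝ, 0 ≤ D ∧ ∀ s : ℂ, 3 / 2 ≤ s.re → ‖LD χ s‖ ≤ D := by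
  have hs0 : LSeriesSummable (fun n => (vonMangoldt n : ℂ)) ((3 / 2 : ℝ) : ℂ) :=
    ArithmeticFunction.LSeriesSummable_vonMangoldt (by
      rw [Complex.ofReal_re]; norm_num)
  have hsum : Summable fun n => ‖LSeries.term (fun n => (vonMangoldt n : ℂ)) ((3 / 2 : ℝ) : ℂ) n‖ :=
    hs0.norm
  refine ⟨∑' n, ‖LSeries.term (fun n => (vonMangoldt n : ℂ)) ((3 / 2 : ℝ) : ℂ) n‖,
    tsum_nonneg fun _ => norm_nonneg _, fun s hs => ?_⟩
  have hs1 : 1 < s.re := by linarith
  have h1 : LD χ s = -LSeries (fun n => χ (n : ZMod r) * (vonMangoldt n : ℂ)) s := by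
    unfold LD
    rw [logDeriv_apply, DirichletCharacter.deriv_LFunction_eq_deriv_LSeries χ hs1,
      DirichletCharacter.LFunction_eq_LSeries χ hs1]
    have h2 := DirichletCharacter.LSeries_twist_vonMangoldt_eq χ hs1
    have h3 : LSeries (fun n => χ (n : ZMod r) * (vonMangoldt n : ℂ)) s =
        -deriv (LSeries fun n => χ (n : ZMod r)) s / LSeries (fun n => χ (n : ZMod r)) s := h2
    rw [h3]
    ring
  rw [h1, norm_neg]
  have hle : ∀ n, ‖LSeries.term (fun n => χ (n : ZMod r) * (vonMangoldt n : ℂ)) s n‖ ≤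
      ‖LSeries.term (fun n => (vonMangoldt n : ℂ)) ((3 / 2 : ℝ) : ℂ) n‖ := by
    intro n
    refine le_trans ?_ (LSeries.norm_term_le_of_re_le_re _
      (s := ((3 / 2 : ℝ) : ℂ)) (s' := s) (by rw [Complex.ofReal_re]; exact hs) n)
    apply LSeries.norm_term_le
    rw [norm_mul]
    exact mul_le_of_le_one_left (norm_nonneg _) (DirichletCharacter.norm_le_one χ _)
  have hsum2 : Summable fun n =>
      ‖LSeries.term (fun n => χ (n : ZMod r) * (vonMangoldt n : ℂ)) s n‖ :=
    Summable.of_nonneg_of_le (fun _ => norm_nonneg _) hle hsum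
  exact (norm_tsum_le_tsum_norm hsum2).trans (hsum2.tsum_le_tsum hle hsum)

lemma Gr.const_mul {Y : ℂ → ℂ} (h : Gr Y) (c : ℂ) : Gr (fun z => c * Y z) := by
  obtain ⟨K, hK, hY⟩ := h
  refine ⟨K + ‖c‖, by positivity, fun z => ?_⟩
  have h1 : (1 : ℝ) ≤ (1 + ‖z‖) ^ (3 / 2 : ℝ) :=
    Real.one_le_rpow (by linarith [norm_nonneg z]) (by norm_num)
  have h2 : ‖c‖ ≤ Real.exp (‖c‖ * (1 + ‖z‖) ^ (3 / 2 : ℝ)) := by
    have h3 := Real.add_one_le_exp ‖c‖
    have h4 : Real.exp ‖c‖ ≤ Real.exp (‖c‖ * (1 + ‖z‖) ^ (3 / 2 : ℝ)) := by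
      apply Real.exp_le_exp.2
      exact le_mul_of_one_le_right (norm_nonneg _) h1
    linarith
  rw [norm_mul, add_mul, Real.exp_add, mul_comm (Real.exp (K * _))]
  exact mul_le_mul h2 (hY z) (norm_nonneg _) (Real.exp_pos _).le

end HDQ

open HDQ in
theorem t_HDq (h8 : S_Y) (h9 : S_YYd) (h10 : S_LD) : S_HDq := by
  intro q _ χ hχ h hh0 hh1 hL
  set r := χ.conductor with hr
  set ψ := χ.primitiveCharacter with hψ
  have hprim : ψ.IsPrimitive := χ.primitiveCharacter_isPrimitive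
  have hne : ψ ≠ 1 := by
    intro h1
    apply hχ
    rw [← χ.changeLevel_primitiveCharacter, ← hψ, h1]
    exact (DirichletCharacter.changeLevel_eq_one_iff _).2 rfl
  obtain ⟨hd, hg, ⟨c, hc0, hc⟩, hz1, hz2⟩ := h9 χ.conductor ψ hprim hne
  -- zeros
  have hLp : ∀ s : ℂ, 1 / 2 + h < s.re → DirichletCharacter.LFunction ψ s ≠ 0 := by
    intro s hs h0
    apply hL s hs
    have h1 := DirichletCharacter.LFunction_changeLevel χ.conductor_dvd_level ψ (s := s)
      (Or.inl hne)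
    rw [hψ, χ.changeLevel_primitiveCharacter, ← hψ, h0, zero_mul] at h1
    exact h1
  have hnz : ∀ z : ℂ, h < z.re → YY ψ z ≠ 0 := by
    intro z hz h0
    have h1 := (hz2 z (by linarith)).1 h0
    refine hLp (1 / 2 + z) ?_ h1
    have : (1 / 2 + z).re = 1 / 2 + z.re := by simp
    rw [this]
    linarith
  have hstrip : ∀ z : ℂ, YY ψ z = 0 → |z.re| ≤ h := by
    intro z hz
    rw [abs_le]
    constructor
    · by_contra hcon
      push Not at hcon
      have h1 := hc z
      rw [hz, mul_zero, map_zero] at h1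
      have h2 : YY ψ (-(conj z)) = 0 := (mul_eq_zero.1 h1).resolve_left hc0
      refine hnz _ ?_ h2
      simp only [Complex.neg_re, Complex.conj_re]
      linarith
    · by_contra hcon
      push Not at hcon
      exact hnz z hcon hz
  refine ⟨?_, hnz⟩
  -- growth
  obtain ⟨C, hC, hCb⟩ := h10
  obtain ⟨D, hD, hDb⟩ := LD_bound ψ
  have hlog2 : 0 < Real.log 2 := Real.log_pos (by norm_num)
  have hgrow : ∃ C' : ℝ, ∀ z : ℂ, 1 ≤ z.re → ‖logDeriv (YY ψ) z‖ ≤ C' * Real.log (2 + ‖z‖) := by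
    refine ⟨C + (D + |Real.log χ.conductor / 2|) / Real.log 2, fun z hz => ?_⟩
    have h1 := hCb χ.conductor ψ hprim hne z (by linarith) (hnz z (by linarith))
    have h2 := hDb (1 / 2 + z) (by
      have : (1 / 2 + z).re = 1 / 2 + z.re := by simp
      rw [this]
      linarith)
    have h3 : ‖((Real.log χ.conductor / 2 : ℝ) : ℂ)‖ = |Real.log χ.conductor / 2| := by
      rw [Complex.norm_real, Real.norm_eq_abs]
    have h4 : ‖logDeriv (YY ψ) z‖ ≤ ‖logDeriv (YY ψ) z - LD ψ (1 / 2 + z) -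
        ((Real.log χ.conductor / 2 : ℝ) : ℂ)‖ + ‖LD ψ (1 / 2 + z)‖ +
        ‖((Real.log χ.conductor / 2 : ℝ) : ℂ)‖ := by
      have e : logDeriv (YY ψ) z = (logDeriv (YY ψ) z - LD ψ (1 / 2 + z) -
        ((Real.log χ.conductor / 2 : ℝ) : ℂ)) + LD ψ (1 / 2 + z) +
        ((Real.log χ.conductor / 2 : ℝ) : ℂ) := by ring
      conv_lhs => rw [e]
      exact (norm_add_le _ _).trans (add_le_add (norm_add_le _ _) le_rfl)
    have h5 : Real.log 2 ≤ Real.log (2 + ‖z‖) :=
      Real.log_le_log (by norm_num) (by linarith [norm_nonneg z])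
    have h6 : D + |Real.log χ.conductor / 2| ≤
        (D + |Real.log χ.conductor / 2|) / Real.log 2 * Real.log (2 + ‖z‖) := by
      rw [div_mul_eq_mul_div, le_div_iff₀ hlog2]
      exact mul_le_mul_of_nonneg_left h5 (by positivity)
    rw [add_mul]
    linarith
  have hlogD : logDeriv (fun z => c * YY ψ z) = logDeriv (YY ψ) := by
    funext z
    exact logDeriv_const_mul z c hc0
  have hfin := h8 (fun z => c * YY ψ z) h (hd.const_mul c) hc (HDQ.Gr.const_mul hg c) hh0 hh1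
    (fun s hs => hstrip s ((mul_eq_zero.1 hs).resolve_left hc0)) (by rw [hlogD]; exact hgrow)
  rw [hlogD] at hfin
  exact hfin

end Pool.Agent.NH13.UV
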