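import Pool.Agent.NH13.UV.Stm

/-!
# UV-2: a Poisson-type formula in a half-plane (helper72)
-/

set_option autoImplicit false

open Complex MeasureTheory Filter Topology Set

namespace Pool.Agent.NH13.UV

namespace hp72

theorem weight_int {σ : ℝ} (hσ : 0 < σ) : Integrable (fun t : ℝ => 1 / (σ ^ 2 + t ^ 2)) ∧
    ∫ t : ℝ, 1 / (σ ^ 2 + t ^ 2) = Real.pi / σ := by
  have e : (fun t : ℝ => 1 / (σ ^ 2 + t ^ 2)) = fun t => (σ ^ 2)⁻¹ * (1 + (t / σ) ^ 2)⁻¹ := by
    funext t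
    field_simp
  rw [e]
  constructor
  · exact (integrable_inv_one_add_sq.comp_div hσ.ne').const_mul _
  · rw [integral_const_mul, MeasureTheory.Measure.integral_comp_div (fun u : ℝ => (1 + u ^ 2)⁻¹) σ,
      integral_univ_inv_one_add_sq, abs_of_pos hσ, smul_eq_mul]
    field_simp

theorem norm_pt_le (x t : ℝ) : ‖pt x t‖ ≤ |x| + |t| := by
  unfold pt
  refine (norm_add_le _ _).trans ?_
  rw [norm_mul, Complex.norm_real, Complex.norm_real, Complex.norm_I, mul_one, Real.norm_eq_abs,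
    Real.norm_eq_abs]

theorem decay {σ : ℝ} (hσ : 0 < σ) {C : ℝ} (hC : 0 ≤ C) (x : ℝ) : ∃ K : ℝ, ∀ t : ℝ,
    C * (1 + ‖pt x t‖) ^ (1 / 2 : ℝ) * (1 / (σ ^ 2 + t ^ 2)) ≤ K * (1 + ‖t‖) ^ (-(3 / 2) : ℝ) := by
  refine ⟨C * (1 + |x|) ^ (1 / 2 : ℝ) * (2 * (1 + 1 / σ ^ 2)), fun t => ?_⟩
  rw [Real.norm_eq_abs]
  have hx0 : 0 ≤ |x| := abs_nonneg x
  have ht0 : 0 ≤ |t| := abs_nonneg t
  have hσ2 : 0 < σ ^ 2 := by positivity
  have h1 : (1 + ‖pt x t‖) ^ (1 / 2 : ℝ) ≤ (1 + |x|) ^ (1 / 2 : ℝ) * (1 + |t|) ^ (1 / 2 : ℝ) := by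
    rw [← Real.mul_rpow (by positivity) (by positivity)]
    refine Real.rpow_le_rpow (by positivity) ?_ (by norm_num)
    have := norm_pt_le x t
    nlinarith [mul_nonneg hx0 ht0]
  have h2 : 1 / (σ ^ 2 + t ^ 2) ≤ 2 * (1 + 1 / σ ^ 2) * (1 + |t|) ^ (-2 : ℝ) := by
    rw [Real.rpow_neg (by positivity), show ((2 : ℝ)) = ((2 : ℕ) : ℝ) by norm_num,
      Real.rpow_natCast, ← div_eq_mul_inv, div_le_div_iff₀ (by positivity) (by positivity), one_mul]
    have h3 : (1 + |t|) ^ 2 ≤ 2 * (1 + t ^ 2) := by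
      have := sq_abs t
      nlinarith [sq_nonneg (1 - |t|)]
    have h4 : 0 ≤ t ^ 2 / σ ^ 2 := by positivity
    have h5 : ((2 : ℕ) : ℝ) * (1 + 1 / σ ^ 2) * (σ ^ 2 + t ^ 2) =
        2 * (1 + t ^ 2) + 2 * σ ^ 2 + 2 * (t ^ 2 / σ ^ 2) := by
      push_cast
      field_simp
      ring
    rw [h5]
    linarith
  have h6 : (1 + |t|) ^ (-(3 / 2) : ℝ) = (1 + |t|) ^ (1 / 2 : ℝ) * (1 + |t|) ^ (-2 : ℝ) := by
    rw [← Real.rpow_add (by positivity)]
    norm_num
  rw [h6]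
  have h7 : 0 ≤ (1 + |t|) ^ (1 / 2 : ℝ) := by positivity
  have h8 : 0 ≤ (1 + |x|) ^ (1 / 2 : ℝ) := by positivity
  calc C * (1 + ‖pt x t‖) ^ (1 / 2 : ℝ) * (1 / (σ ^ 2 + t ^ 2))
      ≤ C * ((1 + |x|) ^ (1 / 2 : ℝ) * (1 + |t|) ^ (1 / 2 : ℝ)) *
        (2 * (1 + 1 / σ ^ 2) * (1 + |t|) ^ (-2 : ℝ)) := by
        refine mul_le_mul (mul_le_mul_of_nonneg_left h1 hC) h2 (by positivity) (by positivity)
    _ = _ := by ring

/-- the bound on the far sides of the rectangle -/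
theorem far {F : ℂ → ℂ} {x σ C R : ℝ} (hσ : 0 < σ) (hC : 0 ≤ C)
    (hF : ∀ z : ℂ, x ≤ z.re → ‖F z‖ ≤ C * (1 + ‖z‖) ^ (1 / 2 : ℝ)) (hR1 : 1 ≤ R)
    (hR2 : 2 * σ ≤ R) {z : ℂ} (hz : x ≤ z.re) (hn : ‖z‖ ≤ |x| + 2 * R)
    (hfar : R ≤ |z.im| ∨ x + R ≤ z.re) :
    ‖dslope F ((x + σ : ℝ) : ℂ) z / (z - (x : ℂ) + (σ : ℂ))‖ ≤
      2 * ((C * (3 + |x|) ^ (1 / 2 : ℝ) + ‖F ((x + σ : ℝ) : ℂ)‖) * R ^ (1 / 2 : ℝ)) / R ^ 2 := by
  have hR0 : 0 < R := by linarith
  have hx0 : 0 ≤ |x| := abs_nonneg x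
  have h1 : R / 2 ≤ ‖z - ((x + σ : ℝ) : ℂ)‖ := by
    rcases hfar with h | h
    · have := Complex.abs_im_le_norm (z - ((x + σ : ℝ) : ℂ))
      rw [Complex.sub_im, Complex.ofReal_im, sub_zero] at this
      linarith
    · have := Complex.re_le_norm (z - ((x + σ : ℝ) : ℂ))
      rw [Complex.sub_re, Complex.ofReal_re] at this
      linarith
  have h2 : R ≤ ‖z - (x : ℂ) + (σ : ℂ)‖ := by
    rcases hfar with h | h
    · have := Complex.abs_im_le_norm (z - (x : ℂ) + (σ : ℂ))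
      rw [Complex.add_im, Complex.sub_im, Complex.ofReal_im, Complex.ofReal_im, sub_zero,
        add_zero] at this
      linarith
    · have := Complex.re_le_norm (z - (x : ℂ) + (σ : ℂ))
      rw [Complex.add_re, Complex.sub_re, Complex.ofReal_re, Complex.ofReal_re] at this
      linarith
  have hne : z ≠ ((x + σ : ℝ) : ℂ) := by
    intro h
    rw [h, sub_self, norm_zero] at h1
    linarith
  have h3 : ‖F z‖ ≤ C * (3 + |x|) ^ (1 / 2 : ℝ) * R ^ (1 / 2 : ℝ) := by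
    refine (hF z hz).trans ?_
    rw [mul_assoc, ← Real.mul_rpow (by positivity) hR0.le]
    refine mul_le_mul_of_nonneg_left ?_ hC
    refine Real.rpow_le_rpow (by positivity) ?_ (by norm_num)
    nlinarith
  have h4 : (1 : ℝ) ≤ R ^ (1 / 2 : ℝ) := Real.one_le_rpow hR1 (by norm_num)
  have h5 : ‖F z - F ((x + σ : ℝ) : ℂ)‖ ≤
      (C * (3 + |x|) ^ (1 / 2 : ℝ) + ‖F ((x + σ : ℝ) : ℂ)‖) * R ^ (1 / 2 : ℝ) := by
    refine (norm_sub_le _ _).trans ?_
    have := norm_nonneg (F ((x + σ : ℝ) : ℂ))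
    nlinarith
  rw [dslope_of_ne _ hne, slope_def_module, norm_div, norm_smul, norm_inv]
  have h6 : ‖z - ((x + σ : ℝ) : ℂ)‖⁻¹ ≤ 2 / R := by
    rw [inv_le_comm₀ (by linarith) (by positivity), inv_div]
    exact h1
  have h7 : ‖z - ((x + σ : ℝ) : ℂ)‖⁻¹ * ‖F z - F ((x + σ : ℝ) : ℂ)‖ ≤
      2 / R * ((C * (3 + |x|) ^ (1 / 2 : ℝ) + ‖F ((x + σ : ℝ) : ℂ)‖) * R ^ (1 / 2 : ℝ)) :=
    mul_le_mul h6 h5 (norm_nonneg _) (by positivity)
  calc ‖z - ((x + σ : ℝ) : ℂ)‖⁻¹ * ‖F z - F ((x + σ : ℝ) : ℂ)‖ / ‖z - (x : ℂ) + (σ : ℂ)‖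
      ≤ (2 / R * ((C * (3 + |x|) ^ (1 / 2 : ℝ) + ‖F ((x + σ : ℝ) : ℂ)‖) * R ^ (1 / 2 : ℝ))) / R :=
        div_le_div₀ (by positivity) h7 hR0 h2
    _ = _ := by
        field_simp

end hp72

open hp72 in
theorem t_HP : S_HP := by
  intro F x x0 σ hx hσ hd hg
  obtain ⟨C, hF⟩ := hg
  have hC : 0 ≤ C := by
    have h1 := (norm_nonneg _).trans (hF (x : ℂ) (by simp))
    have h2 : 0 < (1 + ‖(x : ℂ)‖) ^ (1 / 2 : ℝ) := by positivity
    by_contra hcon
    push Not at hcon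
    have := mul_neg_of_neg_of_pos hcon h2
    linarith
  obtain ⟨w1, w2⟩ := weight_int hσ
  have hopen : IsOpen {z : ℂ | x0 < z.re} := isOpen_lt continuous_const Complex.continuous_re
  have hptre : ∀ t, (pt x t).re = x := by
    intro t
    simp [pt]
  have hcpt : Continuous (fun t : ℝ => pt x t) := by
    unfold pt
    fun_prop
  have hcont : Continuous (fun t : ℝ => F (pt x t)) := by
    rw [continuous_iff_continuousAt]
    intro t
    have h1 : DifferentiableAt ℂ F (pt x t) :=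
      hd.differentiableAt (hopen.mem_nhds (by rw [Set.mem_ofPred_eq, hptre]; exact hx))
    exact ContinuousAt.comp (f := fun t : ℝ => pt x t) h1.continuousAt hcpt.continuousAt
  have hcw : Continuous (fun t : ℝ => (1 / (σ ^ 2 + t ^ 2) : ℝ)) := by
    refine continuous_const.div (by fun_prop) fun t => ?_
    positivity
  -- integrability
  have hint : Integrable (fun t : ℝ => F (pt x t) * ((1 / (σ ^ 2 + t ^ 2) : ℝ) : ℂ)) := by
    obtain ⟨K, hK⟩ := decay hσ hC x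
    have h1 : Integrable (fun t : ℝ => K * (1 + ‖t‖) ^ (-(3 / 2) : ℝ)) :=
      (integrable_one_add_norm (E := ℝ) (by norm_num)).const_mul K
    refine h1.mono' ?_ (Eventually.of_forall fun t => ?_)
    · exact (hcont.mul (Complex.continuous_ofReal.comp hcw)).aestronglyMeasurable
    · rw [norm_mul, Complex.norm_real, Real.norm_eq_abs, abs_of_nonneg (by positivity)]
      refine le_trans ?_ (hK t)
      exact mul_le_mul_of_nonneg_right (hF _ (by rw [hptre])) (by positivity)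
  refine ⟨hint, ?_⟩
  obtain ⟨p, hp⟩ : ∃ p : ℂ, p = ((x + σ : ℝ) : ℂ) := ⟨_, rfl⟩
  obtain ⟨G, hG⟩ : ∃ G : ℂ → ℂ, ∀ z, G z = dslope F p z / (z - (x : ℂ) + (σ : ℂ)) :=
    ⟨fun z => dslope F p z / (z - (x : ℂ) + (σ : ℂ)), fun z => rfl⟩
  have hwC : Integrable (fun t : ℝ => ((1 / (σ ^ 2 + t ^ 2) : ℝ) : ℂ)) := w1.ofReal
  -- `G` on the line
  have hline : ∀ t : ℝ, G (pt x t) = -(F (pt x t) * ((1 / (σ ^ 2 + t ^ 2) : ℝ) : ℂ) -
      F p * ((1 / (σ ^ 2 + t ^ 2) : ℝ) : ℂ)) := by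
    intro t
    have hne : pt x t ≠ p := by
      intro h
      have := congrArg Complex.re h
      rw [hptre, hp, Complex.ofReal_re] at this
      linarith
    rw [hG, dslope_of_ne _ hne, slope_def_module, smul_eq_mul]
    have h1 : (pt x t - p) * (pt x t - (x : ℂ) + (σ : ℂ)) = -(((σ ^ 2 + t ^ 2 : ℝ)) : ℂ) := by
      rw [hp]
      unfold pt
      push_cast
      have := Complex.I_sq
      linear_combination (t : ℂ) ^ 2 * this
    have h2 : ((σ ^ 2 + t ^ 2 : ℝ) : ℂ) ≠ 0 := by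
      have : 0 < σ ^ 2 + t ^ 2 := by positivity
      exact_mod_cast this.ne'
    have h3 : pt x t - (x : ℂ) + (σ : ℂ) ≠ 0 := by
      intro h
      rw [h, mul_zero] at h1
      exact h2 (neg_eq_zero.1 h1.symm)
    have h4 : pt x t - p ≠ 0 := sub_ne_zero.2 hne
    have h5 : ((1 / (σ ^ 2 + t ^ 2) : ℝ) : ℂ) = 1 / ((σ ^ 2 + t ^ 2 : ℝ) : ℂ) := by
      push_cast
      rfl
    rw [h5]
    have h6 : (pt x t - p)⁻¹ * (F (pt x t) - F p) / (pt x t - (x : ℂ) + (σ : ℂ)) =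
        (F (pt x t) - F p) / ((pt x t - p) * (pt x t - (x : ℂ) + (σ : ℂ))) := by
      field_simp
    rw [h6, h1]
    field_simp
  have hGint : Integrable (fun t : ℝ => G (pt x t)) := by
    simp only [hline]
    exact (hint.sub (hwC.const_mul (F p))).neg
  -- analyticity
  have hGd : DifferentiableOn ℂ G {z : ℂ | max x0 (x - σ) < z.re} := by
    have h1 : DifferentiableOn ℂ (dslope F p) {z : ℂ | x0 < z.re} := by
      rw [Complex.differentiableOn_dslope]
      · exact hd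
      · refine hopen.mem_nhds ?_
        rw [Set.mem_ofPred_eq, hp, Complex.ofReal_re]
        linarith
    have h2 : DifferentiableOn ℂ (fun z => dslope F p z / (z - (x : ℂ) + (σ : ℂ)))
        {z : ℂ | max x0 (x - σ) < z.re} := by
      refine (h1.mono fun z hz => ?_).div (by fun_prop) fun z hz => ?_
      · have hz' : max x0 (x - σ) < z.re := hz
        exact (le_max_left _ _).trans_lt hz'
      · intro h
        have hz' : max x0 (x - σ) < z.re := hz
        have h3 := congrArg Complex.re h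
        rw [Complex.add_re, Complex.sub_re, Complex.ofReal_re, Complex.ofReal_re,
          Complex.zero_re] at h3
        have h4 : x - σ < z.re := (le_max_right _ _).trans_lt hz'
        linarith
    exact h2.congr fun z _ => hG z
  -- the rectangle
  obtain ⟨A, hA⟩ : ∃ A : ℝ, A = C * (3 + |x|) ^ (1 / 2 : ℝ) + ‖F ((x + σ : ℝ) : ℂ)‖ := ⟨_, rfl⟩
  have hA0 : 0 ≤ A := by
    rw [hA]
    positivity
  have hrect : ∀ R : ℝ, 1 ≤ R → 2 * σ ≤ R →
      ‖∫ y in (-R)..R, G (pt x y)‖ ≤ 8 * A * R ^ (-(1 / 2) : ℝ) := by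
    intro R hR1 hR2
    have hR0 : 0 < R := by linarith
    have hrb := Complex.integral_boundary_rect_eq_zero_of_differentiableOn G ⟨x, -R⟩ ⟨x + R, R⟩
      (hGd.mono fun z hz => by
        rw [Complex.mem_reProdIm] at hz
        have h1 := hz.1
        simp only at h1
        rw [Set.uIcc_of_le (by linarith)] at h1
        rw [Set.mem_ofPred_eq]
        exact (max_lt hx (by linarith)).trans_le h1.1)
    simp only at hrb
    have hb : ∀ z : ℂ, x ≤ z.re → z.re ≤ x + R → |z.im| ≤ R → (R ≤ |z.im| ∨ x + R ≤ z.re) →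
        ‖G z‖ ≤ 2 * (A * R ^ (1 / 2 : ℝ)) / R ^ 2 := by
      intro z h1 h2 h3 h4
      rw [hG, hp, hA]
      refine far hσ hC hF hR1 hR2 h1 ?_ h4
      have h5 := Complex.norm_le_abs_re_add_abs_im z
      have h6 : |z.re| ≤ |x| + R := by
        rw [abs_le]
        have h7 := neg_abs_le x
        have h8 := le_abs_self x
        have h9 := abs_nonneg x
        constructor <;> linarith
      linarith
    have hB1 : ‖∫ u : ℝ in x..(x + R), G ((u : ℂ) + ((-R : ℝ) : ℂ) * I)‖ ≤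
        2 * (A * R ^ (1 / 2 : ℝ)) / R ^ 2 * |x + R - x| := by
      refine intervalIntegral.norm_integral_le_of_norm_le_const fun u hu => ?_
      rw [Set.uIoc_of_le (by linarith)] at hu
      refine hb _ ?_ ?_ ?_ ?_
      · simpa using hu.1.le
      · simpa using hu.2
      · simp [abs_of_pos hR0]
      · left
        simp [abs_of_pos hR0]
    have hB2 : ‖∫ u : ℝ in x..(x + R), G ((u : ℂ) + ((R : ℝ) : ℂ) * I)‖ ≤
        2 * (A * R ^ (1 / 2 : ℝ)) / R ^ 2 * |x + R - x| := by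
      refine intervalIntegral.norm_integral_le_of_norm_le_const fun u hu => ?_
      rw [Set.uIoc_of_le (by linarith)] at hu
      refine hb _ ?_ ?_ ?_ ?_
      · simpa using hu.1.le
      · simpa using hu.2
      · simp [abs_of_pos hR0]
      · left
        simp [abs_of_pos hR0]
    have hB3 : ‖∫ y : ℝ in (-R)..R, G (((x + R : ℝ) : ℂ) + (y : ℂ) * I)‖ ≤
        2 * (A * R ^ (1 / 2 : ℝ)) / R ^ 2 * |R - -R| := by
      refine intervalIntegral.norm_integral_le_of_norm_le_const fun y hy => ?_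
      rw [Set.uIoc_of_le (by linarith)] at hy
      refine hb _ ?_ ?_ ?_ ?_
      · simp
        linarith
      · simp
      · simp only [Complex.add_im, Complex.ofReal_im, Complex.mul_im, Complex.ofReal_re,
          Complex.I_im, Complex.I_re]
        rw [abs_le]
        constructor <;> linarith [hy.1, hy.2]
      · right
        simp
    have hI : I • (∫ y : ℝ in (-R)..R, G (pt x y)) =
        (∫ u : ℝ in x..(x + R), G ((u : ℂ) + ((-R : ℝ) : ℂ) * I)) -
        (∫ u : ℝ in x..(x + R), G ((u : ℂ) + ((R : ℝ) : ℂ) * I)) +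
        I • (∫ y : ℝ in (-R)..R, G (((x + R : ℝ) : ℂ) + (y : ℂ) * I)) := by
      rw [sub_eq_zero] at hrb
      exact hrb.symm
    have hn : ‖∫ y : ℝ in (-R)..R, G (pt x y)‖ = ‖I • (∫ y : ℝ in (-R)..R, G (pt x y))‖ := by
      rw [norm_smul, Complex.norm_I, one_mul]
    rw [hn, hI]
    have h9 : ‖(∫ u : ℝ in x..(x + R), G ((u : ℂ) + ((-R : ℝ) : ℂ) * I)) -
        (∫ u : ℝ in x..(x + R), G ((u : ℂ) + ((R : ℝ) : ℂ) * I)) +
        I • (∫ y : ℝ in (-R)..R, G (((x + R : ℝ) : ℂ) + (y : ℂ) * I))‖ ≤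
        2 * (A * R ^ (1 / 2 : ℝ)) / R ^ 2 * |x + R - x| +
        2 * (A * R ^ (1 / 2 : ℝ)) / R ^ 2 * |x + R - x| +
        2 * (A * R ^ (1 / 2 : ℝ)) / R ^ 2 * |R - -R| := by
      refine (norm_add_le _ _).trans (add_le_add ((norm_sub_le _ _).trans (add_le_add hB1 hB2)) ?_)
      rw [norm_smul, Complex.norm_I, one_mul]
      exact hB3
    refine h9.trans (le_of_eq ?_)
    rw [show x + R - x = R by ring, show R - -R = 2 * R by ring, abs_of_pos hR0,
      abs_of_pos (by linarith : (0 : ℝ) < 2 * R), Real.rpow_neg hR0.le]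
    have h10 : R ^ (1 / 2 : ℝ) * R ^ (1 / 2 : ℝ) = R := by
      rw [← Real.rpow_add hR0]
      norm_num
    have h11 : R ^ (1 / 2 : ℝ) ≠ 0 := by positivity
    field_simp
    linear_combination (8 * A) * h10
  -- the limit
  have hlim1 : Tendsto (fun R : ℝ => ∫ y in (-R)..R, G (pt x y)) atTop
      (𝓝 (∫ y, G (pt x y))) :=
    intervalIntegral_tendsto_integral hGint tendsto_neg_atTop_atBot tendsto_id
  have hlim2 : Tendsto (fun R : ℝ => ∫ y in (-R)..R, G (pt x y)) atTop (𝓝 0) := by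
    have h1 : Tendsto (fun R : ℝ => 8 * A * R ^ (-(1 / 2) : ℝ)) atTop (𝓝 0) := by
      have := (tendsto_rpow_neg_atTop (y := 1 / 2) (by norm_num)).const_mul (8 * A)
      simpa using this
    refine squeeze_zero_norm' ?_ h1
    filter_upwards [eventually_ge_atTop 1, eventually_ge_atTop (2 * σ)] with R h2 h3
    exact hrect R h2 h3
  have hzero := tendsto_nhds_unique hlim1 hlim2
  simp only [hline] at hzero
  rw [integral_neg, neg_eq_zero, integral_sub hint (hwC.const_mul _), integral_const_mul,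
    sub_eq_zero] at hzero
  rw [hzero, ← hp, mul_comm]
  congr 1
  rw [← w2]
  exact integral_complex_ofReal (f := fun t : ℝ => 1 / (σ ^ 2 + t ^ 2))

end Pool.Agent.NH13.UV
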