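import Pool.Agent.NH13.UV.Stm

set_option autoImplicit false

open Complex Filter Topology Set

namespace Pool.Agent.NH13.UV.Imp

theorem prim_ne_one {q : ℕ} [NeZero q] {χ : DirichletCharacter ℂ q} (h : χ ≠ 1) :
    χ.primitiveCharacter ≠ 1 := by
  intro h'
  apply h
  rw [← χ.changeLevel_primitiveCharacter, h', DirichletCharacter.changeLevel_one]

theorem L_eq {q : ℕ} [NeZero q] {χ : DirichletCharacter ℂ q} (h : χ ≠ 1) :
    DirichletCharacter.LFunction χ = fun s => DirichletCharacter.LFunction χ.primitiveCharacter s *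
      ∏ p ∈ q.primeFactors, (1 - χ.primitiveCharacter (p : ZMod χ.conductor) * (p : ℂ) ^ (-s)) := by
  funext s
  have := DirichletCharacter.LFunction_changeLevel χ.conductor_dvd_level χ.primitiveCharacter
    (s := s) (Or.inl (prim_ne_one h))
  rw [χ.changeLevel_primitiveCharacter] at this
  exact this

/-- the bound for one prime -/
noncomputable def cc (p : ℕ) : ℝ := Real.log p / (Real.sqrt p - 1)

theorem sqrt_gt {p : ℕ} (hp : p.Prime) : 1 < Real.sqrt p := by
  rw [Real.lt_sqrt (by norm_num)]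
  have : (1 : ℝ) < p := by exact_mod_cast hp.one_lt
  linarith

theorem norm_pp {p : ℕ} (hp : p.Prime) {c : ℂ} (hc : ‖c‖ ≤ 1) {s : ℂ} (hs : 1 / 2 ≤ s.re) :
    ‖c * (p : ℂ) ^ (-s)‖ ≤ 1 / Real.sqrt p := by
  have h1 : ‖(p : ℂ) ^ (-s)‖ ≤ 1 / Real.sqrt p := by
    rw [Complex.norm_natCast_cpow_of_pos hp.pos, Complex.neg_re, Real.sqrt_eq_rpow, one_div,
      ← Real.rpow_neg (Nat.cast_nonneg _)]
    apply Real.rpow_le_rpow_of_exponent_le
    · exact_mod_cast hp.one_lt.le
    · linarith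
  rw [norm_mul]
  calc ‖c‖ * ‖(p : ℂ) ^ (-s)‖ ≤ 1 * ‖(p : ℂ) ^ (-s)‖ := by gcongr
    _ ≤ _ := by rw [one_mul]; exact h1

theorem factor {p : ℕ} (hp : p.Prime) {c : ℂ} (hc : ‖c‖ ≤ 1) {s : ℂ} (hs : 1 / 2 ≤ s.re) :
    (1 - c * (p : ℂ) ^ (-s) ≠ 0) ∧ DifferentiableAt ℂ (fun s : ℂ => 1 - c * (p : ℂ) ^ (-s)) s ∧
    ‖logDeriv (fun s : ℂ => 1 - c * (p : ℂ) ^ (-s)) s‖ ≤ cc p := by
  have hp0 : (p : ℂ) ≠ 0 := by exact_mod_cast hp.ne_zero
  have hn := norm_pp hp hc hs
  have hsq := sqrt_gt hp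
  have hlt : 1 / Real.sqrt p < 1 := by
    rw [div_lt_one (by linarith)]
    exact hsq
  have hlow : 1 - 1 / Real.sqrt p ≤ ‖1 - c * (p : ℂ) ^ (-s)‖ := by
    have := norm_sub_norm_le (1 : ℂ) (c * (p : ℂ) ^ (-s))
    rw [norm_one] at this
    linarith
  have hne : 1 - c * (p : ℂ) ^ (-s) ≠ 0 := by
    intro h
    rw [h, norm_zero] at hlow
    linarith
  have hd : HasDerivAt (fun s : ℂ => 1 - c * (p : ℂ) ^ (-s))
      (c * ((p : ℂ) ^ (-s) * Complex.log p)) s := by
    have h1 : HasDerivAt (fun s : ℂ => -s) (-1) s := (hasDerivAt_id s).neg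
    have h2 := (h1.const_cpow (c := (p : ℂ)) (Or.inl hp0)).const_mul c
    have h3 := h2.const_sub 1
    rw [show c * ((p : ℂ) ^ (-s) * Complex.log p) =
      -(c * ((p : ℂ) ^ (-s) * Complex.log p * -1)) by ring]
    exact h3
  refine ⟨hne, hd.differentiableAt, ?_⟩
  rw [logDeriv_apply, hd.deriv, norm_div, ← mul_assoc, norm_mul, Complex.natCast_log.symm,
    Complex.norm_real, Real.norm_of_nonneg (Real.log_natCast_nonneg p)]
  have hlog := Real.log_natCast_nonneg p
  have hpos : 0 < ‖1 - c * (p : ℂ) ^ (-s)‖ := norm_pos_iff.2 hne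
  unfold cc
  rw [div_le_div_iff₀ hpos (by linarith)]
  have hs0 : 0 < Real.sqrt p := by linarith
  calc ‖c * (p : ℂ) ^ (-s)‖ * Real.log p * (Real.sqrt p - 1)
      ≤ 1 / Real.sqrt p * Real.log p * (Real.sqrt p - 1) := by
        have : 0 ≤ Real.sqrt p - 1 := by linarith
        gcongr
    _ = Real.log p * (1 - 1 / Real.sqrt p) := by
        field_simp
    _ ≤ _ := by gcongr

theorem sum_log (q : ℕ) [NeZero q] : ∑ p ∈ q.primeFactors, Real.log p ≤ Real.log q := by
  rw [← Real.log_prod]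
  · have h1 : (∏ p ∈ q.primeFactors, p) ≤ q :=
      Nat.le_of_dvd (NeZero.pos q) (Nat.prod_primeFactors_dvd q)
    have h1' : ((∏ p ∈ q.primeFactors, p : ℕ) : ℝ) ≤ q := Nat.cast_le.2 h1
    rw [Nat.cast_prod] at h1'
    have h2 : (0 : ℝ) < ∏ p ∈ q.primeFactors, (p : ℝ) := by
      apply Finset.prod_pos
      intro p hp
      exact_mod_cast (Nat.prime_of_mem_primeFactors hp).pos
    exact Real.log_le_log h2 h1'
  · intro p hp
    exact_mod_cast (Nat.prime_of_mem_primeFactors hp).ne_zero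

theorem sum_cc (ε : ℝ) (hε : 0 < ε) : ∃ C : ℝ, 0 < C ∧ ∀ (q : ℕ) [NeZero q],
    ∑ p ∈ q.primeFactors, cc p ≤ ε * Real.log q + C := by
  obtain ⟨P, hP⟩ := exists_nat_ge ((1 / ε + 1) ^ 2)
  refine ⟨∑ p ∈ Finset.range (P + 1), |cc p| + 1, by positivity, ?_⟩
  intro q _
  have h1 : ∀ p ∈ q.primeFactors, cc p ≤ ε * Real.log p + if p ∈ Finset.range (P + 1) then |cc p|
      else 0 := by
    intro p hp
    have hpp := Nat.prime_of_mem_primeFactors hp
    have hlog := Real.log_natCast_nonneg p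
    split_ifs with h
    · have := le_abs_self (cc p)
      have : 0 ≤ ε * Real.log p := by positivity
      linarith
    · rw [add_zero]
      have hlt : (P : ℝ) ≤ p := by
        rw [Finset.mem_range] at h
        exact_mod_cast (by omega : P ≤ p)
      have h3 : 1 / ε + 1 ≤ Real.sqrt p := by
        apply Real.le_sqrt_of_sq_le
        linarith
      have hsq := sqrt_gt hpp
      unfold cc
      rw [div_le_iff₀ (by linarith)]
      have h4 : 1 ≤ ε * (Real.sqrt p - 1) := by
        have : ε * (1 / ε) ≤ ε * (Real.sqrt p - 1) := by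
          apply mul_le_mul_of_nonneg_left _ hε.le
          linarith
        rwa [mul_one_div_cancel hε.ne'] at this
      nlinarith
  calc ∑ p ∈ q.primeFactors, cc p
      ≤ ∑ p ∈ q.primeFactors, (ε * Real.log p + if p ∈ Finset.range (P + 1) then |cc p| else 0) :=
        Finset.sum_le_sum h1
    _ = ε * ∑ p ∈ q.primeFactors, Real.log p +
        ∑ p ∈ q.primeFactors.filter (fun p => p ∈ Finset.range (P + 1)), |cc p| := by
        rw [Finset.sum_add_distrib, Finset.mul_sum, Finset.sum_filter]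
    _ ≤ ε * Real.log q + ∑ p ∈ Finset.range (P + 1), |cc p| := by
        apply add_le_add
        · exact mul_le_mul_of_nonneg_left (sum_log q) hε.le
        · apply Finset.sum_le_sum_of_subset_of_nonneg
          · intro p hp
            exact (Finset.mem_filter.1 hp).2
          · intro p _ _
            exact abs_nonneg _
    _ ≤ _ := by linarith

end Pool.Agent.NH13.UV.Imp

namespace Pool.Agent.NH13.UV

open Imp

theorem t_imp : S_imp := by
  intro ε hε
  obtain ⟨C, hC, hsum⟩ := sum_cc ε hε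
  refine ⟨C, hC, ?_⟩
  intro q _ χ hχ s hs hL
  have hfac : ∀ p ∈ q.primeFactors, _ := fun p hp =>
    factor (Nat.prime_of_mem_primeFactors hp)
      (DirichletCharacter.norm_le_one χ.primitiveCharacter (p : ZMod χ.conductor)) hs
  have hG : (∏ p ∈ q.primeFactors,
      (1 - χ.primitiveCharacter (p : ZMod χ.conductor) * (p : ℂ) ^ (-s))) ≠ 0 :=
    Finset.prod_ne_zero_iff.2 fun p hp => (hfac p hp).1
  have hGd : DifferentiableAt ℂ (fun s : ℂ => ∏ p ∈ q.primeFactors,
      (1 - χ.primitiveCharacter (p : ZMod χ.conductor) * (p : ℂ) ^ (-s))) s := by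
    apply DifferentiableAt.fun_finset_prod
    intro p hp
    exact (hfac p hp).2.1
  have hLd : DifferentiableAt ℂ (DirichletCharacter.LFunction χ.primitiveCharacter) s :=
    (DirichletCharacter.differentiable_LFunction (prim_ne_one hχ)) s
  have h1 : LD χ s - LD χ.primitiveCharacter s = ∑ p ∈ q.primeFactors,
      logDeriv (fun s : ℂ => 1 - χ.primitiveCharacter (p : ZMod χ.conductor) * (p : ℂ) ^ (-s)) s := by
    unfold LD
    rw [L_eq hχ, logDeriv_mul s hL hG hLd hGd, add_sub_cancel_left,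
      logDeriv_prod (fun p hp => (hfac p hp).1) (fun p hp => (hfac p hp).2.1)]
  rw [h1]
  calc ‖∑ p ∈ q.primeFactors, logDeriv (fun s : ℂ =>
        1 - χ.primitiveCharacter (p : ZMod χ.conductor) * (p : ℂ) ^ (-s)) s‖
      ≤ ∑ p ∈ q.primeFactors, cc p := norm_sum_le_of_le _ fun p hp => (hfac p hp).2.2
    _ ≤ _ := hsum q

end Pool.Agent.NH13.UV
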