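import Pool.Agent.NH13.UV.Stm

/-!
# Plan UV, job UV-3: the mean squares of `B - l` and of `Re B` on a line
-/

set_option autoImplicit false

open Complex MeasureTheory Filter Topology Set
open scoped ComplexConjugate

namespace Pool.Agent.NH13.UV

namespace K1

lemma pt_re (x t : ℝ) : (pt x t).re = x := by simp [pt]

lemma pt_cont (x : ℝ) : Continuous (fun t : ℝ => pt x t) := by
  unfold pt
  fun_prop

lemma log_le (n : ℝ) (hn : 0 ≤ n) : Real.log (2 + n) ≤ 8 * (1 + n) ^ (1 / 4 : ℝ) := by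
  have h1 : Real.log (2 + n) ≤ (2 + n) ^ (1 / 4 : ℝ) / (1 / 4) :=
    Real.log_le_rpow_div (by linarith) (by norm_num)
  have h2 : (2 + n) ^ (1 / 4 : ℝ) ≤ (2 * (1 + n)) ^ (1 / 4 : ℝ) :=
    Real.rpow_le_rpow (by linarith) (by linarith) (by norm_num)
  have h3 : (2 * (1 + n)) ^ (1 / 4 : ℝ) = 2 ^ (1 / 4 : ℝ) * (1 + n) ^ (1 / 4 : ℝ) :=
    Real.mul_rpow (by norm_num) (by linarith)
  have h4 : (2 : ℝ) ^ (1 / 4 : ℝ) ≤ 2 := by
    conv_rhs => rw [← Real.rpow_one (2 : ℝ)]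
    exact Real.rpow_le_rpow_of_exponent_le (by norm_num) (by norm_num)
  have h5 : 0 ≤ (1 + n) ^ (1 / 4 : ℝ) := Real.rpow_nonneg (by linarith) _
  have h6 := mul_le_mul_of_nonneg_right h4 h5
  linarith

lemma wt_eq (x t : ℝ) : wt x t = 1 / ((1 / 2 + x) ^ 2 + t ^ 2) := rfl

lemma wt_nonneg (x t : ℝ) : 0 ≤ wt x t := by
  rw [wt_eq]
  positivity

end K1

open K1 in
/-- UV-3: the mean square of `B - l` and of `Re B` -/
theorem t_K1 (h1 : S_gr) (h2 : S_HP) : S_K1 := by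
  intro B h ι a m H x hx l
  have hx0 : 0 ≤ x := H.h0.trans hx.le
  have hs : 0 < 1 / 2 + x := by linarith
  obtain ⟨C, hC, hB⟩ := h1 B h ι a m H x hx
  -- the three applications of the formula
  have b1 : ∀ z : ℂ, x ≤ z.re → ‖B z‖ ≤ C * 8 * (1 + ‖z‖) ^ (1 / 4 : ℝ) := by
    intro z hz
    refine (hB z hz).trans ?_
    rw [mul_assoc]
    exact mul_le_mul_of_nonneg_left (log_le _ (norm_nonneg z)) hC.le
  have g1 : ∃ C : ℝ, ∀ z : ℂ, x ≤ z.re → ‖B z‖ ≤ C * (1 + ‖z‖) ^ (1 / 2 : ℝ) := by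
    refine ⟨C * 8, fun z hz => (b1 z hz).trans ?_⟩
    refine mul_le_mul_of_nonneg_left ?_ (by positivity)
    exact Real.rpow_le_rpow_of_exponent_le (by linarith [norm_nonneg z]) (by norm_num)
  have g2 : ∃ C : ℝ, ∀ z : ℂ, x ≤ z.re → ‖(fun z => B z ^ 2) z‖ ≤ C * (1 + ‖z‖) ^ (1 / 2 : ℝ) := by
    refine ⟨(C * 8) ^ 2, fun z hz => ?_⟩
    have e : (1 + ‖z‖) ^ (1 / 2 : ℝ) = ((1 + ‖z‖) ^ (1 / 4 : ℝ)) ^ 2 := by
      rw [← Real.rpow_natCast, ← Real.rpow_mul (by linarith [norm_nonneg z])]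
      norm_num
    show ‖B z ^ 2‖ ≤ _
    rw [norm_pow, e, ← mul_pow]
    exact pow_le_pow_left₀ (norm_nonneg _) (b1 z hz) 2
  have g3 : ∃ C : ℝ, ∀ z : ℂ, x ≤ z.re → ‖(fun _ : ℂ => (1 : ℂ)) z‖ ≤ C * (1 + ‖z‖) ^ (1 / 2 : ℝ) := by
    refine ⟨1, fun z _ => ?_⟩
    show ‖(1 : ℂ)‖ ≤ _
    rw [norm_one, one_mul]
    exact Real.one_le_rpow (by linarith [norm_nonneg z]) (by norm_num)
  have f1 := h2 B x h (1 / 2 + x) hx hs H.diff g1
  have f2 := h2 (fun z => B z ^ 2) x h (1 / 2 + x) hx hs (H.diff.pow 2) g2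
  have f3 := h2 (fun _ => 1) x h (1 / 2 + x) hx hs (differentiableOn_const _) g3
  obtain ⟨i1, e1⟩ := f1
  obtain ⟨i2, e2⟩ := f2
  obtain ⟨i3, e3⟩ := f3
  have hp : x + (1 / 2 + x) = 1 / 2 + 2 * x := by ring
  rw [hp] at e1 e2
  -- real parts
  have r1 : Integrable (fun t : ℝ => (B (pt x t)).re * wt x t) := by
    have := i1.re
    refine this.congr (Filter.Eventually.of_forall fun t => ?_)
    show (B (pt x t) * ((1 / ((1 / 2 + x) ^ 2 + t ^ 2) : ℝ) : ℂ)).re = _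
    rw [Complex.re_mul_ofReal]
    rfl
  have r2 : Integrable (fun t : ℝ => ((B (pt x t)) ^ 2).re * wt x t) := by
    have := i2.re
    refine this.congr (Filter.Eventually.of_forall fun t => ?_)
    show ((B (pt x t)) ^ 2 * ((1 / ((1 / 2 + x) ^ 2 + t ^ 2) : ℝ) : ℂ)).re = _
    rw [Complex.re_mul_ofReal]
    rfl
  have r3 : Integrable (fun t : ℝ => wt x t) := by
    have := i3.re
    refine this.congr (Filter.Eventually.of_forall fun t => ?_)
    show ((1 : ℂ) * ((1 / ((1 / 2 + x) ^ 2 + t ^ 2) : ℝ) : ℂ)).re = _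
    rw [Complex.re_mul_ofReal, Complex.one_re, one_mul]
    rfl
  have v1 : ∫ t : ℝ, (B (pt x t)).re * wt x t =
      Real.pi / (1 / 2 + x) * (B ((1 / 2 + 2 * x : ℝ) : ℂ)).re := by
    have h3 := congrArg Complex.re e1
    rw [Complex.re_ofReal_mul] at h3
    rw [← h3]
    have h4 := integral_re i1
    refine Eq.trans (integral_congr_ae (Filter.Eventually.of_forall fun t => ?_)) h4
    show _ = (B (pt x t) * ((1 / ((1 / 2 + x) ^ 2 + t ^ 2) : ℝ) : ℂ)).re
    rw [Complex.re_mul_ofReal]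
    rfl
  have v2 : ∫ t : ℝ, ((B (pt x t)) ^ 2).re * wt x t =
      Real.pi / (1 / 2 + x) * ((B ((1 / 2 + 2 * x : ℝ) : ℂ)) ^ 2).re := by
    have h3 := congrArg Complex.re e2
    rw [Complex.re_ofReal_mul] at h3
    rw [← h3]
    have h4 := integral_re i2
    refine Eq.trans (integral_congr_ae (Filter.Eventually.of_forall fun t => ?_)) h4
    show _ = ((B (pt x t)) ^ 2 * ((1 / ((1 / 2 + x) ^ 2 + t ^ 2) : ℝ) : ℂ)).re
    rw [Complex.re_mul_ofReal]
    rfl
  have v3 : ∫ t : ℝ, wt x t = Real.pi / (1 / 2 + x) := by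
    have h3 := congrArg Complex.re e3
    rw [mul_one, Complex.ofReal_re] at h3
    rw [← h3]
    have h4 := integral_re i3
    refine Eq.trans (integral_congr_ae (Filter.Eventually.of_forall fun t => ?_)) h4
    show _ = ((1 : ℂ) * ((1 / ((1 / 2 + x) ^ 2 + t ^ 2) : ℝ) : ℂ)).re
    rw [Complex.re_mul_ofReal, Complex.one_re, one_mul]
    rfl
  -- the square of the real part
  have hBc : Continuous (fun t : ℝ => B (pt x t)) := by
    refine H.diff.continuousOn.comp_continuous (pt_cont x) fun t => ?_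
    show h < (pt x t).re
    rw [pt_re]
    exact hx
  have r4 : Integrable (fun t : ℝ => (B (pt x t)).re ^ 2 * wt x t) := by
    refine Integrable.mono i2 ?_ (Filter.Eventually.of_forall fun t => ?_)
    · refine Continuous.aestronglyMeasurable ?_
      refine ((Complex.continuous_re.comp hBc).pow 2).mul ?_
      unfold wt
      refine continuous_const.div (by fun_prop) fun t => ?_
      positivity
    · rw [norm_mul, norm_mul, norm_pow, norm_pow]
      have e4 : ‖((1 / ((1 / 2 + x) ^ 2 + t ^ 2) : ℝ) : ℂ)‖ = ‖wt x t‖ := by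
        rw [Complex.norm_real, wt_eq]
      rw [e4]
      refine mul_le_mul_of_nonneg_right ?_ (norm_nonneg _)
      exact pow_le_pow_left₀ (norm_nonneg _) (Complex.abs_re_le_norm _) 2
  have key : ∀ t : ℝ, ‖B (pt x t) - (l : ℂ)‖ ^ 2 * wt x t =
      2 * ((B (pt x t)).re ^ 2 * wt x t) - ((B (pt x t)) ^ 2).re * wt x t -
        2 * l * ((B (pt x t)).re * wt x t) + l ^ 2 * wt x t := by
    intro t
    have e5 : ‖B (pt x t) - (l : ℂ)‖ ^ 2 = ((B (pt x t)).re - l) ^ 2 + (B (pt x t)).im ^ 2 := by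
      rw [← Complex.normSq_eq_norm_sq, Complex.normSq_apply]
      simp only [Complex.sub_re, Complex.sub_im, Complex.ofReal_re, Complex.ofReal_im, sub_zero]
      ring
    have e6 : ((B (pt x t)) ^ 2).re = (B (pt x t)).re ^ 2 - (B (pt x t)).im ^ 2 := by
      rw [sq, Complex.mul_re]
      ring
    rw [e5, e6]
    ring
  have r5 : Integrable (fun t : ℝ => ‖B (pt x t) - (l : ℂ)‖ ^ 2 * wt x t) := by
    refine ((((r4.const_mul 2).sub r2).sub (r1.const_mul (2 * l))).add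
      (r3.const_mul (l ^ 2))).congr (Filter.Eventually.of_forall fun t => ?_)
    exact (key t).symm
  refine ⟨r5, r4, ?_⟩
  have k1 : ∫ t : ℝ, ‖B (pt x t) - (l : ℂ)‖ ^ 2 * wt x t = ∫ t : ℝ,
      (2 * ((B (pt x t)).re ^ 2 * wt x t) - ((B (pt x t)) ^ 2).re * wt x t -
        2 * l * ((B (pt x t)).re * wt x t) + l ^ 2 * wt x t) :=
    integral_congr_ae (Filter.Eventually.of_forall key)
  have q1 : Integrable (fun t : ℝ => 2 * ((B (pt x t)).re ^ 2 * wt x t) -
      ((B (pt x t)) ^ 2).re * wt x t) := (r4.const_mul 2).sub r2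
  have q2 : Integrable (fun t : ℝ => 2 * ((B (pt x t)).re ^ 2 * wt x t) -
      ((B (pt x t)) ^ 2).re * wt x t - 2 * l * ((B (pt x t)).re * wt x t)) :=
    q1.sub (r1.const_mul (2 * l))
  rw [k1, integral_add q2 (r3.const_mul (l ^ 2)), integral_sub q1 (r1.const_mul (2 * l)),
    integral_sub (r4.const_mul 2) r2, integral_const_mul, integral_const_mul,
    integral_const_mul, v1, v2, v3]
  ring

end Pool.Agent.NH13.UV
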