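import Pool.Agent.NH13.UV.Stm

/-!
# UV-5: the lower bound for the mean square of `Re B`
-/

set_option autoImplicit false

open Complex MeasureTheory Filter Topology Set
open scoped ComplexConjugate

namespace Pool.Agent.NH13.UV

namespace K2

theorem re_inv (z a : ℂ) : (1 / (z - a)).re =
    (z.re - a.re) / ((z.re - a.re) ^ 2 + (z.im - a.im) ^ 2) := by
  rw [one_div, Complex.inv_re, Complex.normSq_apply, Complex.sub_re, Complex.sub_im]
  congr 1
  ring

theorem pt_re (x t : ℝ) : (pt x t).re = x := by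
  unfold pt
  simp

theorem pt_im (x t : ℝ) : (pt x t).im = t := by
  unfold pt
  simp

theorem sum_sq_le {ι : Type} (s : Finset ι) (f : ι → ℝ) (hf : ∀ i ∈ s, 0 ≤ f i) :
    ∑ i ∈ s, f i ^ 2 ≤ (∑ i ∈ s, f i) ^ 2 := by
  rw [pow_two (∑ i ∈ s, f i), Finset.sum_mul]
  refine Finset.sum_le_sum fun i hi => ?_
  rw [pow_two]
  exact mul_le_mul_of_nonneg_left (Finset.single_le_sum hf hi) (hf i hi)

end K2

open K2 in
theorem t_K2 (hS : S_SZ) : S_K2 := by
  intro B h ι a m hB x hx hx8 hint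
  have hx0 : 0 < x := lt_of_le_of_lt hB.h0 hx
  obtain ⟨e, he⟩ := hB.sym
  obtain ⟨σ, hσ⟩ : ∃ σ, σ = 1 / 2 + x := ⟨_, rfl⟩
  have hσ2 : 1 / 2 ≤ σ := by rw [hσ]; linarith
  have hσ0 : 0 < σ := by linarith
  have hβ : ∀ i, -x < (a i).re ∧ (a i).re < x := fun i =>
    ⟨by have := (abs_le.1 (hB.strip i)).1; linarith, by have := (abs_le.1 (hB.strip i)).2; linarith⟩
  obtain ⟨b, hb⟩ : ∃ b : ι → ℝ, ∀ i, b i = x - (a i).re := ⟨_, fun _ => rfl⟩
  have hb0 : ∀ i, 0 < b i := fun i => by rw [hb]; linarith [(hβ i).2]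
  have hb2 : ∀ i, b i ≤ 2 * x := fun i => by rw [hb]; linarith [(hβ i).1]
  obtain ⟨c, hc⟩ : ∃ c : ι → ℝ, ∀ i, c i = (m i : ℝ) / (σ ^ 2 + (a i).im ^ 2) := ⟨_, fun _ => rfl⟩
  have hden : ∀ i, 0 < σ ^ 2 + (a i).im ^ 2 := fun i => by positivity
  have hc0 : ∀ i, 0 ≤ c i := fun i => by
    rw [hc]
    exact div_nonneg (Nat.cast_nonneg _) (hden i).le
  obtain ⟨I, hI⟩ : ∃ I, I = ∫ t : ℝ, (B (pt x t)).re ^ 2 * wt x t := ⟨_, rfl⟩
  have hpi := Real.pi_pos
  have h16 : 0 < 1 - 16 * x ^ 2 := by nlinarith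
  -- step A
  have hA : ∀ s : Finset ι, ∑ i ∈ s, c i / b i ≤ I * 2 / (Real.pi * (1 - 16 * x ^ 2)) := by
    intro s
    have hpt : ∀ t : ℝ, ∑ i ∈ s, (m i : ℝ) *
        ((b i / (b i ^ 2 + (t - (a i).im) ^ 2)) ^ 2 * (1 / (σ ^ 2 + t ^ 2))) ≤
        (B (pt x t)).re ^ 2 * wt x t := by
      intro t
      have h1 := hB.re (pt x t) (by rw [pt_re]; exact hx)
      have hP : ∀ i, (1 / (pt x t - a i)).re = b i / (b i ^ 2 + (t - (a i).im) ^ 2) := by
        intro i
        rw [re_inv, pt_re, pt_im, ← hb]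
      simp only [hP] at h1
      have hP0 : ∀ i, 0 ≤ b i / (b i ^ 2 + (t - (a i).im) ^ 2) := fun i =>
        div_nonneg (hb0 i).le (by positivity)
      have h2 : ∑ i ∈ s, (m i : ℝ) * (b i / (b i ^ 2 + (t - (a i).im) ^ 2)) ≤ (B (pt x t)).re :=
        sum_le_hasSum s (fun i _ => mul_nonneg (Nat.cast_nonneg _) (hP0 i)) h1
      have h3 : 0 ≤ ∑ i ∈ s, (m i : ℝ) * (b i / (b i ^ 2 + (t - (a i).im) ^ 2)) :=
        Finset.sum_nonneg fun i _ => mul_nonneg (Nat.cast_nonneg _) (hP0 i)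
      have h4 : ∑ i ∈ s, (m i : ℝ) * (b i / (b i ^ 2 + (t - (a i).im) ^ 2)) ^ 2 ≤
          (B (pt x t)).re ^ 2 := by
        refine le_trans ?_ (pow_le_pow_left₀ h3 h2 2)
        refine le_trans ?_ (sum_sq_le s _ fun i _ => mul_nonneg (Nat.cast_nonneg _) (hP0 i))
        refine Finset.sum_le_sum fun i _ => ?_
        rw [mul_pow]
        refine mul_le_mul_of_nonneg_right ?_ (sq_nonneg _)
        have : (m i : ℝ) ≤ (m i : ℝ) ^ 2 := by
          have h5 : m i ≤ m i ^ 2 := Nat.le_self_pow (by norm_num) _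
          exact_mod_cast h5
        exact this
      have hw : wt x t = 1 / (σ ^ 2 + t ^ 2) := by
        unfold wt
        rw [hσ]
      rw [hw]
      have hw0 : 0 ≤ 1 / (σ ^ 2 + t ^ 2) := by positivity
      refine le_trans (le_of_eq ?_) (mul_le_mul_of_nonneg_right h4 hw0)
      rw [Finset.sum_mul]
      refine Finset.sum_congr rfl fun i _ => ?_
      ring
    have hi : ∀ i ∈ s, Integrable (fun t : ℝ => (m i : ℝ) *
        ((b i / (b i ^ 2 + (t - (a i).im) ^ 2)) ^ 2 * (1 / (σ ^ 2 + t ^ 2)))) := fun i _ =>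
      ((hS (b i) (a i).im σ (hb0 i) hσ2).1).const_mul _
    have h6 := integral_mono (integrable_finsetSum s hi) hint hpt
    rw [integral_finsetSum s hi, ← hI] at h6
    have h7 : ∑ i ∈ s, (Real.pi * (1 - 16 * x ^ 2) / 2) * (c i / b i) ≤ I := by
      refine le_trans (Finset.sum_le_sum fun i _ => ?_) h6
      rw [integral_const_mul]
      have h8 := (hS (b i) (a i).im σ (hb0 i) hσ2).2
      have h9 : Real.pi / (2 * b i) * (1 - 16 * x ^ 2) / (σ ^ 2 + (a i).im ^ 2) ≤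
          Real.pi / (2 * b i) * (1 - 4 * b i ^ 2) / (σ ^ 2 + (a i).im ^ 2) := by
        refine div_le_div_of_nonneg_right ?_ (hden i).le
        refine mul_le_mul_of_nonneg_left ?_ (div_nonneg hpi.le (by linarith [hb0 i]))
        have := hb2 i
        have := hb0 i
        nlinarith
      have h10 := mul_le_mul_of_nonneg_left (h9.trans h8) (Nat.cast_nonneg (α := ℝ) (m i))
      refine le_trans (le_of_eq ?_) h10
      rw [hc]
      have := (hb0 i).ne'
      have := (hden i).ne'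
      field_simp
    rw [← Finset.mul_sum] at h7
    rw [le_div_iff₀ (mul_pos hpi h16)]
    linarith
  -- summability
  have hs1 : Summable fun i => c i / b i :=
    summable_of_sum_le (fun i => div_nonneg (hc0 i) (hb0 i).le) hA
  have hD := hs1.tsum_le_of_sum_le hA
  have hs2 : Summable c := by
    refine Summable.of_nonneg_of_le hc0 (fun i => ?_) (hs1.mul_left (2 * x))
    have h1 : c i = b i * (c i / b i) := by
      have := (hb0 i).ne'
      field_simp
    conv_lhs => rw [h1]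
    exact mul_le_mul_of_nonneg_right (hb2 i) (div_nonneg (hc0 i) (hb0 i).le)
  -- symmetry
  have hce : ∀ i, c (e i) = c i := by
    intro i
    rw [hc, hc, (he i).1, (he i).2]
    simp
  have hbe : ∀ i, b (e i) = x + (a i).re := by
    intro i
    rw [hb, (he i).1]
    simp
  have hs3 : Summable fun i => c i / (x + (a i).re) := by
    have h1 := (e.summable_iff (f := fun i => c i / b i)).2 hs1
    refine h1.congr fun i => ?_
    simp only [Function.comp_apply]
    rw [hce, hbe]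
  have hE : ∑' i, c i / (x + (a i).re) = ∑' i, c i / b i := by
    rw [← e.tsum_eq (fun i => c i / b i)]
    refine tsum_congr fun i => ?_
    rw [hce, hbe]
  have hSx : (∑' i, c i) * (2 / x) ≤ 2 * ∑' i, c i / b i := by
    have h1 : (2 : ℝ) * ∑' i, c i / b i = ∑' i, (c i / b i + c i / (x + (a i).re)) := by
      rw [hs1.tsum_add hs3, hE]
      ring
    rw [h1, ← tsum_mul_right]
    refine Summable.tsum_le_tsum (fun i => ?_) (hs2.mul_right _) (hs1.add hs3)
    rw [hb]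
    have h2 : 0 < x - (a i).re := by linarith [(hβ i).2]
    have h3 : 0 < x + (a i).re := by linarith [(hβ i).1]
    have h4 : 2 / x ≤ 1 / (x - (a i).re) + 1 / (x + (a i).re) := by
      have e1 : 1 / (x - (a i).re) + 1 / (x + (a i).re) =
          2 * x / ((x - (a i).re) * (x + (a i).re)) := by
        field_simp
        ring
      rw [e1, div_le_div_iff₀ hx0 (mul_pos h2 h3)]
      nlinarith [sq_nonneg (a i).re]
    have h5 := mul_le_mul_of_nonneg_left h4 (hc0 i)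
    refine h5.trans (le_of_eq ?_)
    ring
  -- the value at `p`
  have hT := hB.re ((1 / 2 + 2 * x : ℝ) : ℂ) (by rw [Complex.ofReal_re]; linarith)
  obtain ⟨T, hTd⟩ : ∃ T, T = (B ((1 / 2 + 2 * x : ℝ) : ℂ)).re := ⟨_, rfl⟩
  rw [← hTd] at hT
  have hv : ∀ i, (m i : ℝ) * (1 / (((1 / 2 + 2 * x : ℝ) : ℂ) - a i)).re ≤ (1 / 2 + 3 * x) * c i := by
    intro i
    rw [re_inv, Complex.ofReal_re, Complex.ofReal_im, hc]
    have h1 : σ ≤ 1 / 2 + 2 * x - (a i).re := by rw [hσ]; linarith [(hβ i).2]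
    have h2 : 1 / 2 + 2 * x - (a i).re ≤ 1 / 2 + 3 * x := by linarith [(hβ i).1]
    have h3 : (1 / 2 + 2 * x - (a i).re) / ((1 / 2 + 2 * x - (a i).re) ^ 2 + (0 - (a i).im) ^ 2) ≤
        (1 / 2 + 3 * x) / (σ ^ 2 + (a i).im ^ 2) := by
      refine div_le_div₀ (by linarith) h2 (hden i) ?_
      nlinarith
    have h4 := mul_le_mul_of_nonneg_left h3 (Nat.cast_nonneg (α := ℝ) (m i))
    refine h4.trans (le_of_eq ?_)
    ring
  have hT1 : T ≤ (1 / 2 + 3 * x) * ∑' i, c i :=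
    hasSum_le hv hT (hs2.hasSum.mul_left _)
  have hS0 : 0 ≤ ∑' i, c i := tsum_nonneg hc0
  -- conclusion
  rw [← hTd, ← hI]
  obtain ⟨S, hSd⟩ : ∃ S, S = ∑' i, c i := ⟨_, rfl⟩
  rw [← hSd] at hT1 hS0 hSx
  have h1 : Real.pi * (1 - 16 * x ^ 2) * S ≤ 2 * I * x := by
    have h2 : S * (2 / x) ≤ 2 * (I * 2 / (Real.pi * (1 - 16 * x ^ 2))) := by linarith
    have h3 : 0 < Real.pi * (1 - 16 * x ^ 2) := mul_pos hpi h16
    have h4 : S * (2 / x) * (x * (Real.pi * (1 - 16 * x ^ 2))) ≤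
        2 * (I * 2 / (Real.pi * (1 - 16 * x ^ 2))) * (x * (Real.pi * (1 - 16 * x ^ 2))) :=
      mul_le_mul_of_nonneg_right h2 (by positivity)
    have h5 : S * (2 / x) * (x * (Real.pi * (1 - 16 * x ^ 2))) =
        2 * (Real.pi * (1 - 16 * x ^ 2) * S) := by
      field_simp
    have h6 : 2 * (I * 2 / (Real.pi * (1 - 16 * x ^ 2))) * (x * (Real.pi * (1 - 16 * x ^ 2))) =
        2 * (2 * I * x) := by
      field_simp
    rw [h5, h6] at h4
    linarith
  have h2 : (1 - 8 * x) * T ≤ 1 / 2 * (1 - 16 * x ^ 2) * S := by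
    have h3 := mul_le_mul_of_nonneg_left hT1 (by linarith : 0 ≤ 1 - 8 * x)
    refine h3.trans ?_
    have h4 : (1 - 8 * x) * (1 / 2 + 3 * x) ≤ 1 / 2 * (1 - 16 * x ^ 2) := by nlinarith
    have h5 := mul_le_mul_of_nonneg_right h4 hS0
    linarith
  have h3 : 2 * Real.pi / x * (1 - 8 * x) * T = 2 * Real.pi * ((1 - 8 * x) * T) / x := by
    field_simp
  rw [h3, div_le_iff₀ hx0]
  have h4 : 2 * Real.pi * ((1 - 8 * x) * T) ≤ 2 * Real.pi * (1 / 2 * (1 - 16 * x ^ 2) * S) :=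
    mul_le_mul_of_nonneg_left h2 (by positivity)
  linarith

end Pool.Agent.NH13.UV
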