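import Pool.Agent.NH13.UV.Stm
import Pool.Agent.H370R2.Digamma

/-!
# Plan UV, job UV-10: `Y'/Y` and `L'/L`, uniformly in the character
-/

set_option autoImplicit false

open Complex Filter Topology Set
open scoped ComplexConjugate

namespace Pool.Agent.NH13.UV.LDg

lemma ne_neg_nat {w : ℂ} (hw : 0 < w.re) (m : ℕ) : w ≠ -m := by
  intro h
  have h1 := congrArg Complex.re h
  simp only [neg_re, natCast_re] at h1
  have : (0 : ℝ) ≤ m := Nat.cast_nonneg m
  linarith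

lemma hasDerivAt_Gammaℝ {z : ℂ} (hz : 0 < z.re) :
    HasDerivAt Gammaℝ ((-(Real.log Real.pi : ℂ) / 2 + 1 / 2 * logDeriv Gamma (z / 2)) *
      Gammaℝ z) z := by
  have hz2 : 0 < (z / 2).re := by
    have : (z / 2).re = z.re / 2 := by simp
    rw [this]
    positivity
  have hpi : (Real.pi : ℂ) ≠ 0 := ofReal_ne_zero.mpr Real.pi_ne_zero
  have d1 : HasDerivAt (fun z : ℂ => (Real.pi : ℂ) ^ (-z / 2))
      ((Real.pi : ℂ) ^ (-z / 2) * log (Real.pi : ℂ) * (-1 / 2)) z := by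
    have h1 : HasDerivAt (fun z : ℂ => -z / 2) (-1 / 2) z := by
      simpa using ((hasDerivAt_id z).neg).div_const 2
    exact h1.const_cpow (Or.inl hpi)
  have d2 : HasDerivAt (fun z : ℂ => Gamma (z / 2)) (deriv Gamma (z / 2) * (1 / 2)) z := by
    have h1 : HasDerivAt (fun z : ℂ => z / 2) (1 / 2) z := by
      simpa using (hasDerivAt_id z).div_const 2
    exact HasDerivAt.comp z (differentiableAt_Gamma _ (ne_neg_nat hz2)).hasDerivAt h1
  have hG : Gammaℝ = fun z : ℂ => (Real.pi : ℂ) ^ (-z / 2) * Gamma (z / 2) := by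
    funext z
    rw [Gammaℝ_def]
  have d3 := d1.mul d2
  have hΓ : Gamma (z / 2) ≠ 0 := Gamma_ne_zero (ne_neg_nat hz2)
  rw [hG]
  refine HasDerivAt.congr_deriv (f := fun z : ℂ => (Real.pi : ℂ) ^ (-z / 2) * Gamma (z / 2)) d3 ?_
  rw [logDeriv_apply, ← Complex.ofReal_log Real.pi_pos.le]
  field_simp

/-- the shift -/
noncomputable def sh {r : ℕ} (χ : DirichletCharacter ℂ r) : ℝ := by
  classical
  exact if χ.Even then 0 else 1

lemma sh_nonneg {r : ℕ} (χ : DirichletCharacter ℂ r) : 0 ≤ sh χ := by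
  unfold sh
  split_ifs <;> norm_num

lemma sh_le {r : ℕ} (χ : DirichletCharacter ℂ r) : sh χ ≤ 1 := by
  unfold sh
  split_ifs <;> norm_num

lemma gammaFactor_eq {r : ℕ} (χ : DirichletCharacter ℂ r) (s : ℂ) :
    DirichletCharacter.gammaFactor χ s = Gammaℝ (s + sh χ) := by
  unfold DirichletCharacter.gammaFactor sh
  split_ifs <;> simp

/-- the bound for the digamma function -/
lemma digamma_le : ∃ C : ℝ, 0 < C ∧ ∀ w : ℂ, 1 / 4 ≤ w.re →
    ‖logDeriv Gamma w‖ ≤ Real.log (2 + ‖w‖) + C := by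
  refine ⟨Real.pi + 4 + 1 + ∑' n : ℕ, 1 / ((n : ℝ) + 1) ^ 2, ?_, ?_⟩
  · have : 0 ≤ ∑' n : ℕ, 1 / ((n : ℝ) + 1) ^ 2 := tsum_nonneg fun n => by positivity
    have := Real.pi_pos
    linarith
  intro w hw
  have hs : 0 < w.re := by linarith
  have hn1 : 1 / 4 ≤ ‖w‖ := hw.trans (re_le_norm w)
  have hn2 : 1 ≤ ‖w + 1‖ := by
    refine le_trans ?_ (re_le_norm (w + 1))
    simp only [add_re, one_re]
    linarith
  have hn3 : 2 ≤ ‖w + 2‖ := by
    refine le_trans ?_ (re_le_norm (w + 2))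
    simp only [add_re, re_ofNat]
    linarith
  have hn4 : ‖w + 2‖ ≤ 2 + ‖w‖ := by
    refine (norm_add_le _ _).trans ?_
    simp only [Complex.norm_ofNat]
    linarith
  have b1 : ‖1 / w‖ ≤ 4 := by
    rw [norm_div, norm_one, div_le_iff₀ (by linarith)]
    linarith
  have b2 : ‖1 / (w + 1)‖ ≤ 1 := by
    rw [norm_div, norm_one, div_le_iff₀ (by linarith)]
    linarith
  have b3 : ‖log (w + 2)‖ ≤ Real.log (2 + ‖w‖) + Real.pi := by
    have e : log (w + 2) = ((Real.log ‖w + 2‖ : ℝ) : ℂ) + (arg (w + 2) : ℂ) * I := rfl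
    rw [e]
    refine (norm_add_le _ _).trans (add_le_add ?_ ?_)
    · rw [Complex.norm_real, Real.norm_eq_abs, abs_of_nonneg (Real.log_nonneg (by linarith))]
      exact Real.log_le_log (by linarith) hn4
    · rw [norm_mul, norm_I, mul_one, Complex.norm_real, Real.norm_eq_abs]
      exact abs_arg_le_pi _
  rw [H370.DG.logDeriv_Gamma' hs]
  have b4 := H370.DG.norm_tsum_er hs
  calc _ ≤ ‖log (w + 2) - 1 / w - 1 / (w + 1)‖ + ‖∑' n, H370.DG.er n w‖ := norm_add_le _ _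
    _ ≤ (‖log (w + 2) - 1 / w‖ + ‖1 / (w + 1)‖) + ‖∑' n, H370.DG.er n w‖ := by
        gcongr
        exact norm_sub_le _ _
    _ ≤ ((‖log (w + 2)‖ + ‖1 / w‖) + ‖1 / (w + 1)‖) + ‖∑' n, H370.DG.er n w‖ := by
        gcongr
        exact norm_sub_le _ _
    _ ≤ (((Real.log (2 + ‖w‖) + Real.pi) + 4) + 1) + ∑' n : ℕ, 1 / ((n : ℝ) + 1) ^ 2 := by
        gcongr
    _ = _ := by ring

/-- the completed function to the right of `0` -/
lemma completed_eq {r : ℕ} [NeZero r] {χ : DirichletCharacter ℂ r} (hχ : χ ≠ 1) {s : ℂ}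
    (hs : 0 < s.re) : DirichletCharacter.completedLFunction χ s =
      Gammaℝ (s + sh χ) * DirichletCharacter.LFunction χ s := by
  have hne : Gammaℝ (s + sh χ) ≠ 0 := by
    apply Gammaℝ_ne_zero_of_re_pos
    simp only [add_re, ofReal_re]
    linarith [sh_nonneg χ]
  have hr : r ≠ 1 := by
    rintro rfl
    exact hχ (DirichletCharacter.level_one χ)
  rw [DirichletCharacter.LFunction_eq_completed_div_gammaFactor χ s (Or.inr hr), gammaFactor_eq]
  field_simp

/-- the logarithmic derivative of `YY` -/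
lemma logDeriv_YY {r : ℕ} [NeZero r] {χ : DirichletCharacter ℂ r} (hχ : χ ≠ 1) {z : ℂ}
    (hz : 0 ≤ z.re) (h0 : YY χ z ≠ 0) :
    logDeriv (YY χ) z = ((Real.log r / 2 : ℝ) : ℂ) + (-(Real.log Real.pi : ℂ) / 2 +
      1 / 2 * logDeriv Gamma ((1 / 2 + z + sh χ) / 2)) + LD χ (1 / 2 + z) := by
  have hre : 0 < (1 / 2 + z).re := by
    have : (1 / 2 + z).re = 1 / 2 + z.re := by simp
    rw [this]
    linarith
  have hre2 : 0 < (1 / 2 + z + (sh χ : ℂ)).re := by
    rw [add_re, ofReal_re]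
    linarith [sh_nonneg χ]
  have hr0 : (r : ℂ) ≠ 0 := by exact_mod_cast NeZero.ne r
  -- the three factors
  have d1 : HasDerivAt (fun z : ℂ => (r : ℂ) ^ (z / 2)) ((r : ℂ) ^ (z / 2) * log (r : ℂ) * (1 / 2))
      z := by
    have h1 : HasDerivAt (fun z : ℂ => z / 2) (1 / 2) z := by
      simpa using (hasDerivAt_id z).div_const 2
    exact h1.const_cpow (Or.inl hr0)
  have d2 : HasDerivAt (fun z : ℂ => Gammaℝ (1 / 2 + z + sh χ))
      ((-(Real.log Real.pi : ℂ) / 2 + 1 / 2 * logDeriv Gamma ((1 / 2 + z + sh χ) / 2)) *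
        Gammaℝ (1 / 2 + z + sh χ)) z := by
    have h1 : HasDerivAt (fun z : ℂ => 1 / 2 + z + (sh χ : ℂ)) 1 z :=
      ((hasDerivAt_id z).const_add _).add_const _
    have := HasDerivAt.comp z (hasDerivAt_Gammaℝ hre2) h1
    rw [mul_one] at this
    exact this
  have d3 : HasDerivAt (fun z : ℂ => DirichletCharacter.LFunction χ (1 / 2 + z))
      (deriv (DirichletCharacter.LFunction χ) (1 / 2 + z)) z := by
    have h1 : HasDerivAt (fun z : ℂ => 1 / 2 + z) 1 z := (hasDerivAt_id z).const_add _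
    have := HasDerivAt.comp z
      (DirichletCharacter.differentiable_LFunction hχ (1 / 2 + z)).hasDerivAt h1
    rw [mul_one] at this
    exact this
  have d4 := d1.mul (d2.mul d3)
  have hev : YY χ =ᶠ[𝓝 z] fun z : ℂ => (r : ℂ) ^ (z / 2) * (Gammaℝ (1 / 2 + z + sh χ) *
      DirichletCharacter.LFunction χ (1 / 2 + z)) := by
    have : {y : ℂ | 0 < (1 / 2 + y).re} ∈ 𝓝 z :=
      (isOpen_lt continuous_const (by fun_prop)).mem_nhds hre
    filter_upwards [this] with y hy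
    unfold YY
    rw [completed_eq hχ hy]
  have hz' : YY χ z = (r : ℂ) ^ (z / 2) * (Gammaℝ (1 / 2 + z + sh χ) *
      DirichletCharacter.LFunction χ (1 / 2 + z)) := hev.self_of_nhds
  have hL : DirichletCharacter.LFunction χ (1 / 2 + z) ≠ 0 := by
    intro h
    apply h0
    rw [hz', h, mul_zero, mul_zero]
  have hG : Gammaℝ (1 / 2 + z + sh χ) ≠ 0 := Gammaℝ_ne_zero_of_re_pos hre2
  have hrz : (r : ℂ) ^ (z / 2) ≠ 0 := by
    rw [Ne, cpow_eq_zero_iff]
    exact fun h => hr0 h.1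
  have hlog : log (r : ℂ) = (Real.log r : ℂ) := by
    rw [Complex.ofReal_log (Nat.cast_nonneg r)]
    simp
  rw [logDeriv_apply, hev.deriv_eq, hz']
  have d5 : deriv (fun z : ℂ => (r : ℂ) ^ (z / 2) * (Gammaℝ (1 / 2 + z + sh χ) *
      DirichletCharacter.LFunction χ (1 / 2 + z))) z = _ := d4.deriv
  rw [d5]
  unfold LD
  rw [logDeriv_apply (DirichletCharacter.LFunction χ), hlog]
  simp only [Pi.mul_apply]
  push_cast
  generalize logDeriv Gamma ((1 / 2 + z + sh χ) / 2) = G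
  generalize deriv (DirichletCharacter.LFunction χ) (1 / 2 + z) = D
  clear d5 d4 d3 d2 d1 hev hz' h0
  generalize DirichletCharacter.LFunction χ (1 / 2 + z) = B at hL ⊢
  generalize Gammaℝ (1 / 2 + z + sh χ) = A at hG ⊢
  generalize (r : ℂ) ^ (z / 2) = E at hrz ⊢
  field_simp
  ring

end LDg

/-- UV-10 -/
theorem t_LD : S_LD := by
  obtain ⟨C, hC0, hC⟩ := LDg.digamma_le
  have hl2 : 0 < Real.log 2 := Real.log_pos (by norm_num)
  have hlpi : 0 < Real.log Real.pi := Real.log_pos (by linarith [Real.pi_gt_three])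
  refine ⟨(Real.log Real.pi / 2 + C / 2) / Real.log 2 + 1, by positivity, ?_⟩
  intro r _ χ _ hχ z hz h0
  rw [LDg.logDeriv_YY hχ hz h0]
  have e : ((Real.log r / 2 : ℝ) : ℂ) + (-(Real.log Real.pi : ℂ) / 2 +
      1 / 2 * logDeriv Gamma ((1 / 2 + z + LDg.sh χ) / 2)) + LD χ (1 / 2 + z) - LD χ (1 / 2 + z) -
      ((Real.log r / 2 : ℝ) : ℂ) = -((Real.log Real.pi / 2 : ℝ) : ℂ) +
      1 / 2 * logDeriv Gamma ((1 / 2 + z + LDg.sh χ) / 2) := by
    push_cast
    ring
  rw [e]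
  have hre : ((1 / 2 + z + (LDg.sh χ : ℂ)) / 2).re = (1 / 2 + z.re + LDg.sh χ) / 2 := by
    simp
  have h1 := hC ((1 / 2 + z + LDg.sh χ) / 2) (by
    rw [hre]
    linarith [LDg.sh_nonneg χ])
  have hn : ‖(1 / 2 + z + (LDg.sh χ : ℂ)) / 2‖ ≤ ‖z‖ + 1 := by
    rw [norm_div, Complex.norm_ofNat]
    have h2 : ‖1 / 2 + z + (LDg.sh χ : ℂ)‖ ≤ 1 / 2 + ‖z‖ + 1 := by
      refine (norm_add_le _ _).trans (add_le_add ((norm_add_le _ _).trans ?_) ?_)
      · gcongr
        simp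
      · rw [Complex.norm_real, Real.norm_eq_abs, abs_of_nonneg (LDg.sh_nonneg χ)]
        exact LDg.sh_le χ
    have := norm_nonneg z
    linarith
  have hz0 := norm_nonneg z
  have h3 : Real.log (2 + ‖(1 / 2 + z + (LDg.sh χ : ℂ)) / 2‖) ≤ 2 * Real.log (2 + ‖z‖) := by
    have : (2 : ℝ) * Real.log (2 + ‖z‖) = Real.log ((2 + ‖z‖) ^ 2) := by
      rw [Real.log_pow]
      norm_num
    rw [this]
    apply Real.log_le_log (by positivity)
    nlinarith
  have h4 : Real.log 2 ≤ Real.log (2 + ‖z‖) := Real.log_le_log (by norm_num) (by linarith)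
  have h5 : Real.log Real.pi / 2 + C / 2 ≤
      (Real.log Real.pi / 2 + C / 2) / Real.log 2 * Real.log (2 + ‖z‖) := by
    rw [div_mul_eq_mul_div, le_div_iff₀ hl2]
    exact mul_le_mul_of_nonneg_left h4 (by positivity)
  calc _ ≤ ‖-((Real.log Real.pi / 2 : ℝ) : ℂ)‖ +
        ‖1 / 2 * logDeriv Gamma ((1 / 2 + z + LDg.sh χ) / 2)‖ := norm_add_le _ _
    _ = Real.log Real.pi / 2 + 1 / 2 * ‖logDeriv Gamma ((1 / 2 + z + LDg.sh χ) / 2)‖ := by
        rw [norm_neg, Complex.norm_real, Real.norm_eq_abs, abs_of_nonneg (by positivity), norm_mul]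
        congr 2
        simp
    _ ≤ Real.log Real.pi / 2 + 1 / 2 * (2 * Real.log (2 + ‖z‖) + C) := by
        have := h1.trans (add_le_add_left h3 C)
        gcongr
    _ = (Real.log Real.pi / 2 + C / 2) + Real.log (2 + ‖z‖) := by ring
    _ ≤ _ := by
        rw [add_mul, one_mul]
        linarith

end Pool.Agent.NH13.UV
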