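import Pool.Agent.NH13.UV.Stm
import Pool.Agent.Y640.FM.Totient

/-!
# Plan UV, job UV-29: the lower bound for the zeros
-/

set_option autoImplicit false

open Complex MeasureTheory Filter Topology Set
open scoped ComplexConjugate

namespace Pool.Agent.NH13.UV

namespace lowP

lemma card_NT (q : ℕ) [NeZero q] : ((NT q).card : ℝ) = q.totient - 1 := by
  classical
  have h1 : (NT q).card + 1 = q.totient := by
    rw [← DirichletCharacter.card_eq_totient_of_hasEnoughRootsOfUnity ℂ q, Nat.card_eq_fintype_card]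
    have h2 : NT q = Finset.univ.erase (1 : DirichletCharacter ℂ q) := by
      ext χ
      rw [mem_NT, Finset.mem_erase]
      simp
    rw [h2, Finset.card_erase_add_one (Finset.mem_univ _), Finset.card_univ]
  have : ((NT q).card : ℝ) + 1 = q.totient := by exact_mod_cast h1
  linarith

/-- one character -/
lemma one (hK2 : S_K2) (hK1 : S_K1) (hMe : S_Me) (hD : S_HDq) {q : ℕ} [NeZero q] {κ κ' : ℝ}
    (hL : 0 < Real.log q) (hκ' : 0 < κ') (hκκ : κ' < κ) (hx : κ / Real.log q ≤ 1 / 8)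
    (hFi : Fi q κ') (χ : DirichletCharacter ℂ q) (hχ : χ ∈ NT q) :
    2 * Real.pi / (κ / Real.log q) * (1 - 8 * (κ / Real.log q)) *
      (Bq χ ((1 / 2 + 2 * (κ / Real.log q) : ℝ) : ℂ)).re ≤
      2 * ∫ t : ℝ, (Bq χ (pt (κ / Real.log q) t)).re ^ 2 * wt (κ / Real.log q) t := by
  have hχ1 : χ ≠ 1 := mem_NT.1 hχ
  have hx0 : 0 < κ' / Real.log q := div_pos hκ' hL
  have hxx : κ' / Real.log q < κ / Real.log q := div_lt_div_of_pos_right hκκ hL
  have hF := hFi χ hχ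
  have e1 : (-2 - 2 * κ' / Real.log q : ℝ) = -2 - 2 * (κ' / Real.log q) := by ring
  rw [e1] at hF
  have hne : ∀ s : ℂ, 1 / 2 + κ' / Real.log q < s.re → DirichletCharacter.LFunction χ s ≠ 0 :=
    fun s hs => (hMe q χ hχ1 _ hx0 hF s hs).2.1
  obtain ⟨⟨ι, a, m, hHD⟩, -⟩ := hD q χ hχ1 (κ' / Real.log q) hx0.le (by linarith) hne
  exact hK2 _ _ ι a m hHD _ hxx hx (hK1 _ _ ι a m hHD _ hxx 0).2.1

end lowP

theorem t_low (hK2 : S_K2) (hK1 : S_K1) (hBp : S_Bp) (hMe : S_Me) (hD : S_HDq) : S_low := by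
  intro κ ε hκ hε
  have hη : 0 < κ * ε / 6 := by positivity
  set η : ℝ := κ * ε / 6 with hηd
  obtain ⟨q1, hq1⟩ := hBp κ (η ^ 2) hκ (by positivity)
  have hlog : Tendsto (fun q : ℕ => Real.log q) atTop atTop :=
    Real.tendsto_log_atTop.comp tendsto_natCast_atTop_atTop
  obtain ⟨q2, hq2⟩ := eventually_atTop.1 (hlog.eventually_ge_atTop (max (max 1 (8 * κ)) (24 / ε)))
  obtain ⟨q3, hq3⟩ := eventually_atTop.1 ((tendsto_natCast_atTop_atTop (R := ℝ)).eventually_ge_atTop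
    (2 * (3 / (κ * ε)) ^ 2))
  refine ⟨max q1 (max q2 q3), ?_⟩
  intro q _ hq ⟨κ', hκ'0, hκ', hFi⟩
  have g1 := hq1 q (le_trans (le_max_left _ _) hq)
  have g2 := hq2 q (le_trans (le_trans (le_max_left _ _) (le_max_right _ _)) hq)
  have g3 := hq3 q (le_trans (le_trans (le_max_right _ _) (le_max_right _ _)) hq)
  have hL1 : 1 ≤ Real.log q := le_trans (le_trans (le_max_left _ _) (le_max_left _ _)) g2
  have hL8 : 8 * κ ≤ Real.log q := le_trans (le_trans (le_max_right _ _) (le_max_left _ _)) g2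
  have hLε : 24 / ε ≤ Real.log q := le_trans (le_max_right _ _) g2
  set L : ℝ := Real.log q with hLd
  have hL : 0 < L := by linarith
  have hx8 : κ / L ≤ 1 / 8 := by
    rw [div_le_iff₀ hL]; linarith
  have hx0 : 0 < κ / L := div_pos hκ hL
  have hxs : 8 * (κ / L) ≤ κ * ε / 3 := by
    have h1 : 24 ≤ L * ε := by rwa [div_le_iff₀ hε] at hLε
    rw [mul_div_assoc', div_le_iff₀ hL]
    nlinarith
  -- the totient
  have hqp : 0 < q := Nat.pos_of_ne_zero (NeZero.ne q)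
  have hφ : 0 < (q.totient : ℝ) := by exact_mod_cast Nat.totient_pos.2 hqp
  have hφ3 : 3 / (κ * ε) ≤ (q.totient : ℝ) := by
    have h1 : (q : ℝ) ≤ 2 * (q.totient : ℝ) ^ 2 := by exact_mod_cast Pool.Agent.Y640.FM.le_totient q
    have h2 : (3 / (κ * ε)) ^ 2 ≤ (q.totient : ℝ) ^ 2 := by linarith
    exact le_of_sq_le_sq h2 hφ.le
  have hφi : 1 / (q.totient : ℝ) ≤ κ * ε / 3 := by
    rw [div_le_iff₀ hφ]
    have h1 : 3 ≤ (q.totient : ℝ) * (κ * ε) := by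
      rwa [div_le_iff₀ (by positivity)] at hφ3
    linarith
  set φ : ℝ := (q.totient : ℝ) with hφd
  set B : DirichletCharacter ℂ q → ℂ := fun χ => Bq χ ((1 / 2 + 2 * (κ / L) : ℝ) : ℂ) with hB
  have hcard := lowP.card_NT q
  -- Cauchy-Schwarz
  have hT : ∑ χ ∈ NT q, ‖B χ - ((L / 2 : ℝ) : ℂ)‖ ≤ η * L * φ := by
    have h1 := sq_sum_le_card_mul_sum_sq (s := NT q) (f := fun χ => ‖B χ - ((L / 2 : ℝ) : ℂ)‖)
    have h2 : (∑ χ ∈ NT q, ‖B χ - ((L / 2 : ℝ) : ℂ)‖) ^ 2 ≤ (η * L * φ) ^ 2 := by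
      refine h1.trans ?_
      have h3 : ((NT q).card : ℝ) ≤ φ := by rw [hcard]; linarith
      have h4 : 0 ≤ ∑ χ ∈ NT q, ‖B χ - ((L / 2 : ℝ) : ℂ)‖ ^ 2 :=
        Finset.sum_nonneg fun _ _ => by positivity
      calc ((NT q).card : ℝ) * ∑ χ ∈ NT q, ‖B χ - ((L / 2 : ℝ) : ℂ)‖ ^ 2
          ≤ φ * (η ^ 2 * (L ^ 2 * φ)) := mul_le_mul h3 g1 h4 hφ.le
        _ = (η * L * φ) ^ 2 := by ring
    exact le_of_sq_le_sq h2 (by positivity)
  have hS : (φ - 1) * (L / 2) - η * L * φ ≤ ∑ χ ∈ NT q, (B χ).re := by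
    have h1 : ∑ χ ∈ NT q, (L / 2 - (B χ).re) ≤ ∑ χ ∈ NT q, ‖B χ - ((L / 2 : ℝ) : ℂ)‖ := by
      refine Finset.sum_le_sum fun χ _ => ?_
      have h2 := Complex.abs_re_le_norm (B χ - ((L / 2 : ℝ) : ℂ))
      rw [Complex.sub_re, Complex.ofReal_re] at h2
      have h3 := neg_abs_le ((B χ).re - L / 2)
      linarith
    rw [Finset.sum_sub_distrib, Finset.sum_const, nsmul_eq_mul, hcard] at h1
    linarith
  -- the integrals
  have hI : Real.pi / (κ / L) * (1 - 8 * (κ / L)) * ∑ χ ∈ NT q, (B χ).re ≤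
      ∑ χ ∈ NT q, ∫ t : ℝ, (Bq χ (pt (κ / L) t)).re ^ 2 * wt (κ / L) t := by
    rw [Finset.mul_sum]
    refine Finset.sum_le_sum fun χ hχ => ?_
    have h1 := lowP.one hK2 hK1 hMe hD hL hκ'0 hκ' hx8 hFi χ hχ
    have h2 : 2 * Real.pi / (κ / L) * (1 - 8 * (κ / L)) * (B χ).re =
      2 * (Real.pi / (κ / L) * (1 - 8 * (κ / L)) * (B χ).re) := by ring
    have h3 : 2 * (Real.pi / (κ / L) * (1 - 8 * (κ / L)) * (B χ).re) ≤
        2 * ∫ t : ℝ, (Bq χ (pt (κ / L) t)).re ^ 2 * wt (κ / L) t := by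
      rw [← h2]; exact h1
    linarith
  have hx1 : 0 ≤ 1 - 8 * (κ / L) := by linarith
  have hfin : 2 / (Real.pi * (L ^ 2 * φ)) * (Real.pi / (κ / L) * (1 - 8 * (κ / L)) *
      ((φ - 1) * (L / 2) - η * L * φ)) ≤ Ir q κ := by
    unfold Ir
    refine mul_le_mul_of_nonneg_left (le_trans ?_ hI) (by positivity)
    exact mul_le_mul_of_nonneg_left hS (mul_nonneg (by positivity) hx1)
  have hpi := Real.pi_ne_zero
  have e2 : 2 / (Real.pi * (L ^ 2 * φ)) * (Real.pi / (κ / L) * (1 - 8 * (κ / L)) *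
      ((φ - 1) * (L / 2) - η * L * φ)) = 1 / κ * ((1 - 8 * (κ / L)) * (1 - 1 / φ - 2 * η)) := by
    field_simp
  rw [e2] at hfin
  refine le_trans ?_ hfin
  have h5 : 1 - κ * ε ≤ (1 - 8 * (κ / L)) * (1 - 1 / φ - 2 * η) := by
    have h6 : 0 ≤ 1 / φ + 2 * η := by positivity
    have h7 : 0 ≤ (8 * (κ / L)) * (1 / φ + 2 * η) := by positivity
    have h8 : 2 * η = κ * ε / 3 := by rw [hηd]; ring
    nlinarith
  calc 1 / κ - ε = 1 / κ * (1 - κ * ε) := by field_simp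
    _ ≤ _ := mul_le_mul_of_nonneg_left h5 (by positivity)

end Pool.Agent.NH13.UV
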