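import Pool.Agent.NH13.UV.Stm

/-!
# Plan UV-16: from a finite mean square of `ψ(u, χ)` to `L'/L`
-/

set_option autoImplicit false

open Complex MeasureTheory Filter Topology Set

namespace Pool.Agent.NH13.UV

namespace Me

variable {q : ℕ} (χ : DirichletCharacter ℂ q)

lemma psi_measurable : Measurable (psi χ) := by
  have h : Measurable (fun m : ℕ => ∑ n ∈ Finset.Icc 1 m,
      (ArithmeticFunction.vonMangoldt n : ℂ) * χ (n : ZMod q)) := measurable_from_nat
  exact h.comp Nat.measurable_floor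

lemma psi_norm_le (x : ℝ) : ‖psi χ x‖ ≤ Chebyshev.psi x := by
  unfold psi
  refine (norm_sum_le _ _).trans ?_
  have h1 : ∀ n ∈ Finset.Icc 1 ⌊x⌋₊,
      ‖(ArithmeticFunction.vonMangoldt n : ℂ) * χ (n : ZMod q)‖ ≤
        ArithmeticFunction.vonMangoldt n := by
    intro n _
    rw [norm_mul, norm_real, Real.norm_of_nonneg ArithmeticFunction.vonMangoldt_nonneg]
    have := χ.norm_le_one (n : ZMod q)
    have h0 : (0 : ℝ) ≤ ArithmeticFunction.vonMangoldt n := ArithmeticFunction.vonMangoldt_nonneg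
    nlinarith
  refine (Finset.sum_le_sum h1).trans (le_of_eq ?_)
  unfold Chebyshev.psi
  refine Finset.sum_congr ?_ fun _ _ => rfl
  ext k
  simp only [Finset.mem_Icc, Finset.mem_Ioc]
  omega

/-- the kernel -/
noncomputable def K (s : ℂ) (u : ℝ) : ℂ := psi χ u * (u : ℂ) ^ (-s - 1)

lemma K_meas (s : ℂ) : Measurable (K χ s) :=
  (psi_measurable χ).mul (Complex.measurable_ofReal.pow_const _)

lemma K_norm (s : ℂ) {u : ℝ} (hu : 0 < u) : ‖K χ s u‖ = ‖psi χ u‖ * u ^ (-s.re - 1) := by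
  unfold K
  rw [norm_mul, Complex.norm_cpow_eq_rpow_re_of_pos hu]
  simp

variable {χ} {x0 : ℝ}

/-- the hypothesis as an integrability statement -/
lemma int_sq (h : (∫⁻ u in Ioi (1 : ℝ), ENNReal.ofReal (‖psi χ u‖ ^ 2 * u ^ (-2 - 2 * x0))) < ⊤) :
    IntegrableOn (fun u : ℝ => ‖psi χ u‖ ^ 2 * u ^ (-2 - 2 * x0)) (Ioi 1) := by
  refine ⟨?_, ?_⟩
  · exact (((psi_measurable χ).norm.pow_const 2).mul
      (measurable_id.pow_const _)).aestronglyMeasurable
  · rw [hasFiniteIntegral_iff_norm]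
    refine lt_of_le_of_lt (le_of_eq ?_) h
    refine lintegral_congr_ae ?_
    refine (ae_restrict_mem measurableSet_Ioi).mono fun u hu => ?_
    have hu0 : (0 : ℝ) < u := lt_trans one_pos hu
    beta_reduce
    rw [Real.norm_of_nonneg (by positivity)]

lemma int_real (h : IntegrableOn (fun u : ℝ => ‖psi χ u‖ ^ 2 * u ^ (-2 - 2 * x0)) (Ioi 1)) {σ : ℝ}
    (hσ : 1 / 2 + x0 < σ) : IntegrableOn (fun u : ℝ => ‖psi χ u‖ * u ^ (-σ - 1)) (Ioi 1) := by
  have h2 : IntegrableOn (fun u : ℝ => u ^ (2 * x0 - 2 * σ)) (Ioi 1) :=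
    integrableOn_Ioi_rpow_of_lt (by linarith) one_pos
  refine Integrable.mono' (h.add h2) ?_ ?_
  · exact (((psi_measurable χ).norm).mul (measurable_id.pow_const _)).aestronglyMeasurable
  · refine (ae_restrict_mem measurableSet_Ioi).mono fun u hu => ?_
    have hu0 : (0 : ℝ) < u := lt_trans one_pos hu
    rw [Real.norm_of_nonneg (by positivity)]
    simp only [Pi.add_apply]
    have e1 : u ^ (-2 - 2 * x0) = (u ^ (-1 - x0)) ^ 2 := by
      rw [← Real.rpow_natCast, ← Real.rpow_mul hu0.le]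
      congr 1
      push_cast
      ring
    have e2 : u ^ (2 * x0 - 2 * σ) = (u ^ (x0 - σ)) ^ 2 := by
      rw [← Real.rpow_natCast, ← Real.rpow_mul hu0.le]
      congr 1
      push_cast
      ring
    have e3 : u ^ (-σ - 1) = u ^ (-1 - x0) * u ^ (x0 - σ) := by
      rw [← Real.rpow_add hu0]
      congr 1
      ring
    rw [e1, e2, e3]
    have p1 : 0 < u ^ (-1 - x0) := Real.rpow_pos_of_pos hu0 _
    have p2 : 0 < u ^ (x0 - σ) := Real.rpow_pos_of_pos hu0 _
    have p3 := norm_nonneg (psi χ u)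
    nlinarith [sq_nonneg (‖psi χ u‖ * u ^ (-1 - x0) - u ^ (x0 - σ)), mul_pos p1 p2,
      sq_nonneg (‖psi χ u‖ * u ^ (-1 - x0)), sq_nonneg (u ^ (x0 - σ))]

lemma int_K (h : IntegrableOn (fun u : ℝ => ‖psi χ u‖ ^ 2 * u ^ (-2 - 2 * x0)) (Ioi 1)) {s : ℂ}
    (hs : 1 / 2 + x0 < s.re) : IntegrableOn (K χ s) (Ioi 1) := by
  refine Integrable.mono' (int_real h hs) (K_meas χ s).aestronglyMeasurable ?_
  refine (ae_restrict_mem measurableSet_Ioi).mono fun u hu => ?_
  rw [K_norm χ s (lt_trans one_pos hu)]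

/-- the Mellin transform -/
noncomputable def Ph (χ : DirichletCharacter ℂ q) (s : ℂ) : ℂ := ∫ u in Ioi (1 : ℝ), K χ s u

lemma diff_Ph (h : IntegrableOn (fun u : ℝ => ‖psi χ u‖ ^ 2 * u ^ (-2 - 2 * x0)) (Ioi 1)) {s : ℂ}
    (hs : 1 / 2 + x0 < s.re) : DifferentiableAt ℂ (Ph χ) s := by
  obtain ⟨σ1, h1, h2⟩ := exists_between hs
  obtain ⟨σ2, h3, h4⟩ := exists_between h1
  have hnhds : {z : ℂ | σ1 < z.re} ∈ 𝓝 s :=
    (isOpen_lt continuous_const Complex.continuous_re).mem_nhds h2
  have hb := (int_real h h3).const_mul (1 / (σ1 - σ2))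
  have key := hasDerivAt_integral_of_dominated_loc_of_deriv_le (μ := volume.restrict (Ioi (1 : ℝ)))
    (F := K χ) (x₀ := s) (F' := fun z u => K χ z u * (-(Real.log u : ℂ))) hnhds
    (Eventually.of_forall fun z => (K_meas χ z).aestronglyMeasurable) (int_K h hs)
    (((K_meas χ s).mul
      (Complex.measurable_ofReal.comp Real.measurable_log).neg).aestronglyMeasurable)
    (bound := fun u => 1 / (σ1 - σ2) * (‖psi χ u‖ * u ^ (-σ2 - 1))) ?_ hb ?_
  · exact key.2.differentiableAt
  · refine (ae_restrict_mem measurableSet_Ioi).mono fun u hu z hz => ?_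
    have hu1 : (1 : ℝ) < u := hu
    have hu0 : (0 : ℝ) < u := lt_trans one_pos hu
    have hz' : σ1 < z.re := hz
    rw [norm_mul, K_norm χ z hu0, norm_neg, Complex.norm_real, Real.norm_of_nonneg
      (Real.log_nonneg hu1.le)]
    have hlog := Real.log_le_rpow_div hu0.le (sub_pos.2 h4)
    have e1 : u ^ (-z.re - 1) ≤ u ^ (-σ1 - 1) :=
      Real.rpow_le_rpow_of_exponent_le hu1.le (by linarith)
    have e2 : u ^ (-σ1 - 1) * u ^ (σ1 - σ2) = u ^ (-σ2 - 1) := by
      rw [← Real.rpow_add hu0]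
      congr 1
      ring
    have hd : 0 < σ1 - σ2 := sub_pos.2 h4
    calc ‖psi χ u‖ * u ^ (-z.re - 1) * Real.log u
        ≤ ‖psi χ u‖ * u ^ (-σ1 - 1) * (u ^ (σ1 - σ2) / (σ1 - σ2)) := by
          have := Real.log_nonneg hu1.le
          have p1 := Real.rpow_nonneg hu0.le (-σ1 - 1)
          gcongr
      _ = 1 / (σ1 - σ2) * (‖psi χ u‖ * u ^ (-σ2 - 1)) := by
          rw [← e2]
          field_simp
  · refine (ae_restrict_mem measurableSet_Ioi).mono fun u hu z hz => ?_
    have hu0 : (0 : ℝ) < u := lt_trans one_pos hu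
    have hu1 : (u : ℂ) ≠ 0 := by exact_mod_cast hu0.ne'
    have h5 : HasDerivAt (fun z : ℂ => -z - 1) (-1) z := (hasDerivAt_id z).neg.sub_const 1
    have h6 := (h5.const_cpow (c := (u : ℂ)) (Or.inl hu1)).const_mul (psi χ u)
    refine h6.congr_deriv ?_
    unfold K
    rw [Complex.ofReal_log hu0.le]
    ring

/-- the formula in the half plane of absolute convergence -/
lemma formula [NeZero q] (χ : DirichletCharacter ℂ q) {s : ℂ} (hs : 1 < s.re) :
    s * Ph χ s * DirichletCharacter.LFunction χ s =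
      -deriv (DirichletCharacter.LFunction χ) s := by
  have hL : LSeries (fun n => χ n) s ≠ 0 := by
    rw [← χ.LFunction_eq_LSeries hs]
    refine χ.LFunction_ne_zero_of_one_le_re (Or.inr ?_) hs.le
    rintro rfl
    simp at hs
  have hO : (fun n : ℕ => ∑ k ∈ Finset.Icc 1 n, ((fun n : ℕ => χ n) *
      fun n : ℕ => ((ArithmeticFunction.vonMangoldt n : ℝ) : ℂ)) k) =O[atTop]
      fun n : ℕ => (n : ℝ) ^ (1 : ℝ) := by
    refine Asymptotics.IsBigO.of_bound (Real.log 4 + 4) (Eventually.of_forall fun n => ?_)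
    have h1 := psi_norm_le χ (n : ℝ)
    have h2 := Chebyshev.psi_le_const_mul_self (x := (n : ℝ)) (Nat.cast_nonneg n)
    unfold psi at h1
    rw [Nat.floor_natCast] at h1
    rw [Real.rpow_one, Real.norm_of_nonneg (Nat.cast_nonneg n)]
    refine le_trans (le_of_eq ?_) (h1.trans h2)
    congr 1
    refine Finset.sum_congr rfl fun k _ => ?_
    simp only [Pi.mul_apply]
    ring
  have h1 := LSeries_eq_mul_integral _ zero_le_one hs (χ.LSeriesSummable_twist_vonMangoldt hs) hO
  rw [χ.LSeries_twist_vonMangoldt_eq hs] at h1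
  have h2 : Ph χ s = ∫ (t : ℝ) in Set.Ioi 1, (∑ k ∈ Finset.Icc 1 ⌊t⌋₊, ((fun n : ℕ => χ n) *
      fun n : ℕ => ((ArithmeticFunction.vonMangoldt n : ℝ) : ℂ)) k) * (t : ℂ) ^ (-(s + 1)) := by
    unfold Ph
    refine integral_congr_ae (ae_of_all _ fun x => ?_)
    simp only [K, psi]
    rw [show -s - 1 = -(s + 1) by ring]
    congr 1
    refine Finset.sum_congr rfl fun k _ => ?_
    simp only [Pi.mul_apply]
    ring
  rw [h2, ← h1, χ.LFunction_eq_LSeries hs, χ.deriv_LFunction_eq_deriv_LSeries hs]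
  field_simp

/-- an entire function with `L' = g L` in a half plane has no zeros there -/
lemma no_zero {L g : ℂ → ℂ} {c : ℝ} (hL : Differentiable ℂ L)
    (hg : ∀ s : ℂ, c < s.re → AnalyticAt ℂ g s)
    (h : ∀ s : ℂ, c < s.re → deriv L s = g s * L s) {s₂ : ℂ} (h2 : L s₂ ≠ 0) {s₁ : ℂ}
    (hs : c < s₁.re) : L s₁ ≠ 0 := by
  intro h0
  have ha : AnalyticAt ℂ L s₁ := hL.analyticAt s₁
  have hne : analyticOrderAt L s₁ ≠ ⊤ := by
    intro htop
    rw [analyticOrderAt_eq_top] at htop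
    have h3 : AnalyticOnNhd ℂ L univ := fun z _ => hL.analyticAt z
    have h4 := h3.eqOn_of_preconnected_of_eventuallyEq (g := fun _ => (0 : ℂ))
      (fun z _ => analyticAt_const) isPreconnected_univ (mem_univ s₁) htop
    exact h2 (h4 (mem_univ s₂))
  have e1 : analyticOrderAt (deriv L) s₁ + 1 = analyticOrderAt L s₁ := by
    rw [ha.analyticOrderAt_deriv_add_one, h0]
    simp
  have e2 : analyticOrderAt (deriv L) s₁ = analyticOrderAt g s₁ + analyticOrderAt L s₁ := by
    rw [← analyticOrderAt_mul (hg s₁ hs) ha]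
    refine analyticOrderAt_congr ?_
    have h3 : {z : ℂ | c < z.re} ∈ 𝓝 s₁ :=
      (isOpen_lt continuous_const Complex.continuous_re).mem_nhds hs
    filter_upwards [h3] with z hz
    exact h z hz
  have e3 : analyticOrderAt (deriv L) s₁ ≠ ⊤ := by
    intro ht
    rw [ht] at e1
    exact hne e1.symm
  obtain ⟨n, hn⟩ := ENat.ne_top_iff_exists.1 e3
  rw [← hn] at e1 e2
  have e4 : analyticOrderAt L s₁ ≤ (n : ℕ∞) := by
    rw [e2]
    exact le_add_self
  rw [← e1] at e4
  exact absurd e4 (by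
    rw [not_le]
    exact_mod_cast Nat.lt_succ_self n)

end Me

open Me

/-- **UV-16** -/
theorem t_Me : S_Me := by
  intro q _ χ hχ x0 hx0 h s hs
  have hi := int_sq h
  obtain ⟨U, hU⟩ : ∃ U : Set ℂ, U = {s : ℂ | 1 / 2 + x0 < s.re} := ⟨_, rfl⟩
  have hUo : IsOpen U := by rw [hU]; exact isOpen_lt continuous_const Complex.continuous_re
  have hUc : IsPreconnected U := by
    rw [hU]
    exact (convex_halfSpace_re_gt (1 / 2 + x0)).isPreconnected
  have hL : Differentiable ℂ (DirichletCharacter.LFunction χ) :=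
    DirichletCharacter.differentiable_LFunction hχ
  have hA : DifferentiableOn ℂ (fun s => s * Ph χ s * DirichletCharacter.LFunction χ s) U := by
    intro z hz
    rw [hU] at hz
    exact ((differentiableAt_id.mul (diff_Ph hi hz)).mul (hL z)).differentiableWithinAt
  have hB : DifferentiableOn ℂ (fun s => -deriv (DirichletCharacter.LFunction χ) s) U := by
    intro z _
    exact (hL.analyticAt z).deriv.differentiableAt.neg.differentiableWithinAt
  have hmem : (((2 + x0 : ℝ) : ℂ)) ∈ U := by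
    rw [hU]
    simp only [mem_ofPred_eq, Complex.ofReal_re]
    linarith
  have hev : (fun s => s * Ph χ s * DirichletCharacter.LFunction χ s) =ᶠ[𝓝 ((2 + x0 : ℝ) : ℂ)]
      fun s => -deriv (DirichletCharacter.LFunction χ) s := by
    have h3 : {s : ℂ | 1 < s.re} ∈ 𝓝 ((2 + x0 : ℝ) : ℂ) :=
      (isOpen_lt continuous_const Complex.continuous_re).mem_nhds (by
        simp only [mem_ofPred_eq, Complex.ofReal_re]
        linarith)
    filter_upwards [h3] with z hz
    exact formula χ hz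
  have hEq := (hA.analyticOnNhd hUo).eqOn_of_preconnected_of_eventuallyEq
    (hB.analyticOnNhd hUo) hUc hmem hev
  have hode : ∀ z : ℂ, 1 / 2 + x0 < z.re → deriv (DirichletCharacter.LFunction χ) z =
      (-z * Ph χ z) * DirichletCharacter.LFunction χ z := by
    intro z hz
    have h1 : z * Ph χ z * DirichletCharacter.LFunction χ z =
        -deriv (DirichletCharacter.LFunction χ) z := hEq (by rw [hU]; exact hz)
    linear_combination h1
  have hg : ∀ z : ℂ, 1 / 2 + x0 < z.re → AnalyticAt ℂ (fun z => -z * Ph χ z) z := by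
    intro z hz
    rw [Complex.analyticAt_iff_eventually_differentiableAt]
    have h3 : {s : ℂ | 1 / 2 + x0 < s.re} ∈ 𝓝 z :=
      (isOpen_lt continuous_const Complex.continuous_re).mem_nhds hz
    filter_upwards [h3] with w hw
    exact differentiableAt_id.neg.mul (diff_Ph hi hw)
  have h2 : DirichletCharacter.LFunction χ 2 ≠ 0 :=
    χ.LFunction_ne_zero_of_one_le_re (Or.inl hχ) (by norm_num)
  have hne := no_zero hL hg hode h2 hs
  refine ⟨int_K hi hs, hne, ?_⟩
  unfold LD
  rw [logDeriv_apply, hode s hs, mul_div_assoc, div_self hne, mul_one]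
  rfl

end Pool.Agent.NH13.UV
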