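import Pool.Agent.NH13.UV.Stm
import Pool.Agent.R362.NearHad
import Pool.Agent.Y275.GL.Had1

/-!
# Plan UV, UV-7: the partial fractions of `Y'/Y`
-/

set_option autoImplicit false

open Complex MeasureTheory Filter Topology Set
open scoped ComplexConjugate

namespace Pool.Agent.NH13.UV

namespace PFC

open Pool.Agent.R362.Near (ord_ne_top ord_zero_of_ne div_set logDeriv_ge)

/-! ### orders (as in `Pool/Agent/R362/NearOrd2.lean`) -/

lemma diff_cc {f : ℂ → ℂ} (hf : Differentiable ℂ f) :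
    Differentiable ℂ fun s => conj (f (conj s)) := by
  intro s
  have h := (hf (conj s)).conj_conj
  rw [Complex.conj_conj] at h
  exact h

lemma ord_conj {f : ℂ → ℂ} (hf : Differentiable ℂ f) (hne : ∃ z, f z ≠ 0) (a : ℂ) :
    analyticOrderNatAt (fun z => conj (f (conj z))) (conj a) = analyticOrderNatAt f a := by
  have h1 := ord_ne_top hf hne a
  obtain ⟨n, hn⟩ : ∃ n : ℕ, n = analyticOrderNatAt f a := ⟨_, rfl⟩
  have h2 : analyticOrderAt f a = (n : ℕ∞) := by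
    rw [hn]
    exact (Nat.cast_analyticOrderNatAt h1).symm
  obtain ⟨g, hg, hga, hev⟩ := ((hf.analyticAt a).analyticOrderAt_eq_natCast).1 h2
  have hcont : Tendsto (fun z : ℂ => conj z) (𝓝 (conj a)) (𝓝 a) := by
    have h3 := (Complex.continuous_conj.tendsto (conj a))
    rwa [Complex.conj_conj] at h3
  have h3 : analyticOrderAt (fun z => conj (f (conj z))) (conj a) = (n : ℕ∞) := by
    refine ((diff_cc hf).analyticAt _).analyticOrderAt_eq_natCast.2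
      ⟨fun z => conj (g (conj z)), ?_, ?_, ?_⟩
    · rw [Complex.analyticAt_iff_eventually_differentiableAt] at hg ⊢
      filter_upwards [hcont.eventually hg] with z hz
      have h4 := hz.conj_conj
      rw [Complex.conj_conj] at h4
      exact h4
    · show conj (g (conj (conj a))) ≠ 0
      rw [Complex.conj_conj, Ne, map_eq_zero]
      exact hga
    · filter_upwards [hcont.eventually hev] with z hz
      rw [hz, smul_eq_mul, smul_eq_mul, map_mul, map_pow, map_sub, Complex.conj_conj]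
  rw [← hn]
  unfold analyticOrderNatAt
  rw [h3]
  rfl

lemma ord_neg {Y : ℂ → ℂ} (a : ℂ) :
    analyticOrderNatAt (fun z => Y (-z)) a = analyticOrderNatAt Y (-a) := by
  have hg : AnalyticAt ℂ (fun z : ℂ => -z) a := by fun_prop
  have h1 : analyticOrderAt (Y ∘ fun z => -z) a = analyticOrderAt Y (-a) := by
    refine analyticOrderAt_comp_of_deriv_ne_zero hg ?_
    have h2 : HasDerivAt (fun z : ℂ => -z) (-1) a := (hasDerivAt_id a).neg
    rw [h2.deriv]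
    norm_num
  unfold analyticOrderNatAt
  rw [← h1]
  rfl

lemma sym_ord {Y : ℂ → ℂ} (hY : Differentiable ℂ Y) (hne : ∃ z, Y z ≠ 0)
    (hs : ∀ z : ℂ, Y (-(conj z)) = conj (Y z)) (z : ℂ) :
    analyticOrderNatAt Y (-(conj z)) = analyticOrderNatAt Y z := by
  have h1 : Differentiable ℂ (fun z => Y (-z)) := hY.comp (by fun_prop)
  have h2 := ord_conj h1 (by
    obtain ⟨w, hw⟩ := hne
    exact ⟨-w, by rw [neg_neg]; exact hw⟩) (-z)
  have h3 : (fun w => conj ((fun z => Y (-z)) (conj w))) = Y := by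
    funext w
    show conj (Y (-(conj w))) = Y w
    rw [hs, Complex.conj_conj]
  rw [h3, map_neg, ord_neg, neg_neg] at h2
  exact h2

/-- zeros have positive order -/
lemma ord_pos {Y : ℂ → ℂ} (hY : Differentiable ℂ Y) (hne : ∃ z, Y z ≠ 0) {a : ℂ} (ha : Y a = 0) :
    1 ≤ analyticOrderNatAt Y a := by
  have h1 := ord_ne_top hY hne a
  have h2 : analyticOrderAt Y a ≠ 0 := fun h =>
    ((hY.analyticAt a).analyticOrderAt_eq_zero.1 h) ha
  rw [Nat.one_le_iff_ne_zero]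
  intro h3
  apply h2
  rw [← Nat.cast_analyticOrderNatAt h1, h3]
  rfl

/-- the zeros in `S` are removed -/
lemma quot_ne {Y g : ℂ → ℂ} (hY : Differentiable ℂ Y) (hne : ∃ z, Y z ≠ 0)
    (hg : Differentiable ℂ g) (S : Finset ℂ)
    (heq : ∀ z, Y z = (∏ a ∈ S, (z - a) ^ analyticOrderNatAt Y a) * g z) {a : ℂ} (ha : a ∈ S) :
    g a ≠ 0 := by
  classical
  intro h0
  obtain ⟨n, hn⟩ : ∃ n : ℕ, n = analyticOrderNatAt Y a := ⟨_, rfl⟩
  have h1 : analyticOrderAt Y a = (n : ℕ∞) := by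
    rw [hn]
    exact (Nat.cast_analyticOrderNatAt (ord_ne_top hY hne a)).symm
  obtain ⟨r, hr⟩ : ∃ r : ℂ → ℂ,
      r = fun z => (∏ b ∈ S.erase a, (z - b) ^ analyticOrderNatAt Y b) * g z := ⟨_, rfl⟩
  have hrd : Differentiable ℂ r := by
    rw [hr]
    fun_prop
  have e : Y = (fun z => (z - a) ^ n) * r := by
    funext z
    rw [heq z, hr, Pi.mul_apply, ← Finset.mul_prod_erase S _ ha, hn]
    ring
  have hpa : AnalyticAt ℂ (fun z : ℂ => (z - a) ^ n) a := by fun_prop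
  have h2 : analyticOrderAt (fun z : ℂ => (z - a) ^ n) a = n := by
    refine (hpa.analyticOrderAt_eq_natCast).2 ⟨fun _ => 1, analyticAt_const, one_ne_zero, ?_⟩
    filter_upwards with z
    simp
  have h3 := analyticOrderAt_mul hpa (hrd.analyticAt a)
  rw [← e, h1, h2] at h3
  have h4 : analyticOrderAt r a = 0 := by
    by_contra hx
    have h5 : (1 : ℕ∞) ≤ analyticOrderAt r a := Order.one_le_iff_ne_zero.2 hx
    have h6 : (n : ℕ∞) + 1 ≤ n + analyticOrderAt r a := by gcongr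
    rw [← h3] at h6
    have h7 : n + 1 ≤ n := by exact_mod_cast h6
    omega
  have h5 : r a ≠ 0 := (hrd.analyticAt a).analyticOrderAt_eq_zero.1 h4
  apply h5
  rw [hr]
  simp [h0]

/-- the size of the quotient -/
lemma quot_bound {Y g : ℂ → ℂ} (hg : Differentiable ℂ g) (S : Finset ℂ) (m : ℂ → ℕ)
    (heq : ∀ z, Y z = (∏ a ∈ S, (z - a) ^ m a) * g z) {R B : ℝ} (hR : 0 < R)
    (hS : ∀ a ∈ S, ‖a - 1‖ ≤ R) (hB : ∀ u : ℂ, ‖u‖ ≤ 2 * R → ‖Y (1 + u)‖ ≤ B) {u : ℂ}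
    (hu : ‖u‖ ≤ 2 * R) : ‖g (1 + u)‖ * ‖Y 1‖ ≤ B * ‖g 1‖ := by
  have hd : Differentiable ℂ (fun v => g (1 + v) * Y 1) := by fun_prop
  have hmax := Complex.norm_le_of_forall_mem_frontier_norm_le (f := fun v => g (1 + v) * Y 1)
    (U := Metric.ball (0 : ℂ) (2 * R)) (C := B * ‖g 1‖) Metric.isBounded_ball hd.diffContOnCl ?_
    (z := u) ?_
  · rw [norm_mul] at hmax
    exact hmax
  · intro v hv
    rw [frontier_ball _ (by positivity), mem_sphere_zero_iff_norm] at hv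
    rw [norm_mul]
    have h1 : ‖Y 1‖ = (∏ a ∈ S, ‖1 - a‖ ^ m a) * ‖g 1‖ := by
      rw [heq 1, norm_mul, norm_prod]
      simp only [norm_pow]
    have h2 : ‖Y (1 + v)‖ = (∏ a ∈ S, ‖1 + v - a‖ ^ m a) * ‖g (1 + v)‖ := by
      rw [heq (1 + v), norm_mul, norm_prod]
      simp only [norm_pow]
    have h3 : ∏ a ∈ S, ‖1 - a‖ ^ m a ≤ ∏ a ∈ S, ‖1 + v - a‖ ^ m a := by
      refine Finset.prod_le_prod (fun _ _ => by positivity) fun a ha => ?_
      refine pow_le_pow_left₀ (norm_nonneg _) ?_ _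
      have h4 := hS a ha
      have h5 : ‖v‖ ≤ ‖1 + v - a‖ + ‖a - 1‖ := by
        have e : v = (1 + v - a) + (a - 1) := by ring
        calc ‖v‖ = ‖(1 + v - a) + (a - 1)‖ := by rw [← e]
          _ ≤ _ := norm_add_le _ _
      rw [norm_sub_rev] at h4
      rw [norm_sub_rev a 1] at h5
      linarith
    have h4 := hB v hv.le
    rw [h2] at h4
    rw [h1]
    calc ‖g (1 + v)‖ * ((∏ a ∈ S, ‖1 - a‖ ^ m a) * ‖g 1‖)
        = ((∏ a ∈ S, ‖1 - a‖ ^ m a) * ‖g (1 + v)‖) * ‖g 1‖ := by ring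
      _ ≤ ((∏ a ∈ S, ‖1 + v - a‖ ^ m a) * ‖g (1 + v)‖) * ‖g 1‖ := by gcongr
      _ ≤ B * ‖g 1‖ := by gcongr
  · rw [closure_ball _ (by positivity), mem_closedBall_zero_iff]
    exact hu

/-- growth around `1` -/
lemma gr_one {Y : ℂ → ℂ} (hgr : Gr Y) : ∃ K : ℝ, 0 ≤ K ∧
    ∀ (u : ℂ), ‖Y (1 + u)‖ ≤ Real.exp (K * (1 + ‖u‖) ^ (3 / 2 : ℝ)) := by
  obtain ⟨K, hK, h⟩ := hgr
  refine ⟨K * 2 ^ (3 / 2 : ℝ), by positivity, fun u => (h (1 + u)).trans (Real.exp_le_exp.2 ?_)⟩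
  rw [mul_assoc, ← Real.mul_rpow (by norm_num) (by positivity)]
  refine mul_le_mul_of_nonneg_left (Real.rpow_le_rpow (by positivity) ?_ (by norm_num)) hK.le
  have h1 : ‖1 + u‖ ≤ 1 + ‖u‖ := by
    refine (norm_add_le _ _).trans ?_
    rw [norm_one]
  linarith [norm_nonneg u]

/-- the zeros are square summable -/
lemma summ_one {Y : ℂ → ℂ} (hY : Differentiable ℂ Y) (hs : ∀ z, Y (-(conj z)) = conj (Y z))
    (hgr : Gr Y) (hst : ∀ s, Y s = 0 → |s.re| ≤ 1 / 2) :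
    Summable (fun a : {a : ℂ // Y a = 0} =>
      (analyticOrderNatAt Y (a : ℂ) : ℝ) / ‖1 - (a : ℂ)‖ ^ 2) := by
  classical
  have hY1 : Y 1 ≠ 0 := fun h0 => by
    have := hst 1 h0
    norm_num at this
  have hne : ∃ z, Y z ≠ 0 := ⟨1, hY1⟩
  refine summable_of_sum_le (c := 2 * (logDeriv Y 1).re) (fun a => by positivity) fun u => ?_
  obtain ⟨S0, hS0⟩ : ∃ S0 : Finset ℂ, S0 = u.map (Function.Embedding.subtype _) := ⟨_, rfl⟩
  obtain ⟨S, hS⟩ : ∃ S : Finset ℂ, S = S0 ∪ S0.image (fun a => -(conj a)) := ⟨_, rfl⟩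
  have hS0z : ∀ a ∈ S0, Y a = 0 := by
    intro a ha
    rw [hS0, Finset.mem_map] at ha
    obtain ⟨b, -, rfl⟩ := ha
    exact b.2
  have hSz : ∀ a ∈ S, Y a = 0 := by
    intro a ha
    rw [hS, Finset.mem_union, Finset.mem_image] at ha
    rcases ha with ha | ⟨b, hb, rfl⟩
    · exact hS0z a ha
    · rw [hs, hS0z b hb, map_zero]
  have hSc : ∀ a ∈ S, -(conj a) ∈ S := by
    intro a ha
    rw [hS, Finset.mem_union, Finset.mem_image] at ha ⊢
    rcases ha with ha | ⟨b, hb, rfl⟩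
    · exact Or.inr ⟨a, ha, rfl⟩
    · left
      rw [map_neg, Complex.conj_conj, neg_neg]
      exact hb
  have h1S : (1 : ℂ) ∉ S := fun h => hY1 (hSz 1 h)
  have key := logDeriv_ge hY hs hgr hst S hSc (sym_ord hY hne hs) (z := 1) (by norm_num) h1S
  calc ∑ a ∈ u, (analyticOrderNatAt Y (a : ℂ) : ℝ) / ‖1 - (a : ℂ)‖ ^ 2
      = ∑ a ∈ S0, (analyticOrderNatAt Y a : ℝ) / ‖1 - a‖ ^ 2 := by
        rw [hS0, Finset.sum_map]
        rfl
    _ ≤ ∑ a ∈ S, (analyticOrderNatAt Y a : ℝ) / ‖1 - a‖ ^ 2 :=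
        Finset.sum_le_sum_of_subset_of_nonneg (by rw [hS]; exact Finset.subset_union_left)
          (fun _ _ _ => by positivity)
    _ ≤ ∑ a ∈ S, 2 * ((analyticOrderNatAt Y a : ℝ) * (1 / (1 - a)).re) := by
        refine Finset.sum_le_sum fun a ha => ?_
        have h1 := (abs_le.1 (hst a (hSz a ha))).2
        have h2 : 0 < ‖1 - a‖ ^ 2 := by
          have h3 : (1 : ℂ) - a ≠ 0 := sub_ne_zero.2 fun h => h1S (h ▸ ha)
          have := norm_pos_iff.2 h3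
          positivity
        have h3 : (1 / (1 - a)).re = (1 - a.re) / ‖1 - a‖ ^ 2 := by
          rw [one_div, Complex.inv_re, Complex.normSq_eq_norm_sq, Complex.sub_re, Complex.one_re]
        rw [h3, ← mul_div_assoc, ← mul_div_assoc]
        refine div_le_div_of_nonneg_right ?_ h2.le
        have h4 : (0 : ℝ) ≤ analyticOrderNatAt Y a := Nat.cast_nonneg _
        nlinarith
    _ = 2 * ∑ a ∈ S, (analyticOrderNatAt Y a : ℝ) * (1 / (1 - a)).re := by rw [Finset.mul_sum]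
    _ ≤ 2 * (logDeriv Y 1).re := by linarith

/-- finitely many zeros in a disc -/
lemma fin_disc {Y : ℂ → ℂ} (hY : Differentiable ℂ Y) (hY1 : Y 1 ≠ 0)
    (hsum : Summable (fun a : {a : ℂ // Y a = 0} =>
      (analyticOrderNatAt Y (a : ℂ) : ℝ) / ‖1 - (a : ℂ)‖ ^ 2)) (R : ℝ) (hR : 0 < R) :
    {a : {a : ℂ // Y a = 0} | ‖(a : ℂ) - 1‖ ≤ R}.Finite := by
  have h1 := hsum.tendsto_cofinite_zero.eventually (gt_mem_nhds (show (0 : ℝ) < 1 / R ^ 2 by positivity))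
  rw [eventually_cofinite] at h1
  refine h1.subset fun a ha => ?_
  rw [mem_ofPred_eq] at ha ⊢
  rw [not_lt]
  have h2 : 0 < ‖1 - (a : ℂ)‖ := norm_pos_iff.2 (sub_ne_zero.2 fun h => hY1 (by rw [h]; exact a.2))
  rw [norm_sub_rev] at ha
  have h3 : (1 : ℝ) ≤ analyticOrderNatAt Y (a : ℂ) := by exact_mod_cast ord_pos hY ⟨1, hY1⟩ a.2
  have h4 : ‖1 - (a : ℂ)‖ ^ 2 ≤ R ^ 2 := pow_le_pow_left₀ h2.le ha 2
  rw [div_le_div_iff₀ (by positivity) (by positivity)]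
  nlinarith [sq_nonneg R]

/-- the terms are summable -/
lemma summ_t {Y : ℂ → ℂ} (hY : Differentiable ℂ Y) (hY1 : Y 1 ≠ 0)
    (hsum : Summable (fun a : {a : ℂ // Y a = 0} =>
      (analyticOrderNatAt Y (a : ℂ) : ℝ) / ‖1 - (a : ℂ)‖ ^ 2)) {z w : ℂ} (hz : Y z ≠ 0)
    (hw : Y w ≠ 0) :
    Summable (fun a : {a : ℂ // Y a = 0} =>
      (analyticOrderNatAt Y (a : ℂ) : ℂ) * (1 / (z - (a : ℂ)) - 1 / (w - (a : ℂ)))) := by
  obtain ⟨R, hR⟩ : ∃ R : ℝ, R = 2 * (‖z - 1‖ + ‖w - 1‖) + 1 := ⟨_, rfl⟩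
  have hR0 : 0 < R := by rw [hR]; positivity
  refine Summable.of_norm_bounded_eventually (hsum.mul_left (4 * ‖w - z‖)) ?_
  rw [eventually_cofinite]
  refine (fin_disc hY hY1 hsum R hR0).subset fun a ha => ?_
  rw [mem_ofPred_eq] at ha ⊢
  by_contra hcon
  apply ha
  rw [not_le, hR] at hcon
  have h0 : 0 < ‖1 - (a : ℂ)‖ := norm_pos_iff.2 (sub_ne_zero.2 fun h => hY1 (by rw [h]; exact a.2))
  have hza : z - (a : ℂ) ≠ 0 := sub_ne_zero.2 fun h => hz (by rw [h]; exact a.2)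
  have hwa : w - (a : ℂ) ≠ 0 := sub_ne_zero.2 fun h => hw (by rw [h]; exact a.2)
  rw [norm_sub_rev (a : ℂ) 1] at hcon
  have h1 : ‖1 - (a : ℂ)‖ / 2 ≤ ‖z - (a : ℂ)‖ := by
    have h2 : ‖1 - (a : ℂ)‖ ≤ ‖z - (a : ℂ)‖ + ‖z - 1‖ := by
      have e : 1 - (a : ℂ) = (z - a) - (z - 1) := by ring
      rw [e]
      exact norm_sub_le _ _
    have := norm_nonneg (w - 1)
    linarith
  have h2 : ‖1 - (a : ℂ)‖ / 2 ≤ ‖w - (a : ℂ)‖ := by
    have h2 : ‖1 - (a : ℂ)‖ ≤ ‖w - (a : ℂ)‖ + ‖w - 1‖ := by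
      have e : 1 - (a : ℂ) = (w - a) - (w - 1) := by ring
      rw [e]
      exact norm_sub_le _ _
    have := norm_nonneg (z - 1)
    linarith
  have e : 1 / (z - (a : ℂ)) - 1 / (w - (a : ℂ)) = (w - z) / ((z - a) * (w - a)) := by
    rw [div_sub_div _ _ hza hwa]
    congr 1
    ring
  rw [e, norm_mul, norm_div, norm_mul, Complex.norm_natCast]
  have h3 : 0 < ‖1 - (a : ℂ)‖ / 2 * (‖1 - (a : ℂ)‖ / 2) := by positivity
  have h4 : ‖1 - (a : ℂ)‖ / 2 * (‖1 - (a : ℂ)‖ / 2) ≤ ‖z - (a : ℂ)‖ * ‖w - (a : ℂ)‖ := by gcongr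
  calc (analyticOrderNatAt Y (a : ℂ) : ℝ) * (‖w - z‖ / (‖z - (a : ℂ)‖ * ‖w - (a : ℂ)‖))
      ≤ (analyticOrderNatAt Y (a : ℂ) : ℝ) *
        (‖w - z‖ / (‖1 - (a : ℂ)‖ / 2 * (‖1 - (a : ℂ)‖ / 2))) := by gcongr
    _ = 4 * ‖w - z‖ * ((analyticOrderNatAt Y (a : ℂ) : ℝ) / ‖1 - (a : ℂ)‖ ^ 2) := by
        field_simp
        ring

/-- the logarithmic derivative of the quotient -/
lemma logDeriv_quot {Y g : ℂ → ℂ} (hg : Differentiable ℂ g) (S : Finset ℂ) (m : ℂ → ℕ)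
    (heq : ∀ z, Y z = (∏ a ∈ S, (z - a) ^ m a) * g z) {z : ℂ} (hz : Y z ≠ 0) (hzS : z ∉ S) :
    g z ≠ 0 ∧ logDeriv Y z = ∑ a ∈ S, (m a : ℂ) * (1 / (z - a)) + logDeriv g z := by
  classical
  obtain ⟨P, hP⟩ : ∃ P : ℂ → ℂ, P = fun z => ∏ a ∈ S, (z - a) ^ m a := ⟨_, rfl⟩
  have hY2 : ∀ z, Y z = P z * g z := fun z => by rw [hP]; exact heq z
  have hPd : Differentiable ℂ P := by
    rw [hP]
    fun_prop
  have hgz : g z ≠ 0 := by
    intro h
    apply hz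
    rw [hY2, h, mul_zero]
  have hPz : P z ≠ 0 := by
    intro h
    apply hz
    rw [hY2, h, zero_mul]
  have h3 : logDeriv Y z = logDeriv P z + logDeriv g z := by
    have e : Y = fun z => P z * g z := funext hY2
    rw [e]
    exact logDeriv_mul z hPz hgz (hPd z) (hg z)
  have h4 : logDeriv P z = ∑ a ∈ S, (m a : ℂ) * (1 / (z - a)) := by
    rw [hP, logDeriv_prod]
    · refine Finset.sum_congr rfl fun a ha => ?_
      have hza : z - a ≠ 0 := sub_ne_zero.2 fun h => hzS (h ▸ ha)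
      rw [logDeriv_fun_pow (by fun_prop)]
      congr 1
      rw [logDeriv_apply]
      simp
    · intro a ha
      exact pow_ne_zero _ (sub_ne_zero.2 fun h => hzS (h ▸ ha))
    · intro a _
      fun_prop
  exact ⟨hgz, by rw [h3, h4]⟩

/-- the logarithmic derivative of the translated and twisted function -/
lemma logDeriv_tw {g : ℂ → ℂ} (hg : Differentiable ℂ g) {c : ℂ} (hc : c ≠ 0) (β u : ℂ)
    (hu : g (1 + u) ≠ 0) :
    logDeriv (fun u => g (1 + u) / c * cexp (-β * u)) u = logDeriv g (1 + u) - β := by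
  have h1 : HasDerivAt (fun u => g (1 + u)) (deriv g (1 + u)) u :=
    HasDerivAt.comp_const_add 1 u (hg (1 + u)).hasDerivAt
  have h2 : HasDerivAt (fun u : ℂ => cexp (-β * u)) (cexp (-β * u) * (-β)) u := by
    have h3 : HasDerivAt (fun u : ℂ => -β * u) (-β) u := by
      simpa using (hasDerivAt_id u).const_mul (-β)
    exact h3.cexp
  have h3 := (h1.div_const c).mul h2
  have h4 : deriv (fun u => g (1 + u) / c * cexp (-β * u)) u =
      deriv g (1 + u) / c * cexp (-β * u) + g (1 + u) / c * (cexp (-β * u) * (-β)) := h3.deriv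
  rw [logDeriv_apply, logDeriv_apply, h4]
  have h5 := Complex.exp_ne_zero (-β * u)
  field_simp
  ring

/-- the partial sums over the zeros in discs converge -/
lemma main_lim {Y : ℂ → ℂ} (hY : Differentiable ℂ Y) (hY1 : Y 1 ≠ 0) {K : ℝ} (hK : 0 ≤ K)
    (hgr : ∀ u : ℂ, ‖Y (1 + u)‖ ≤ Real.exp (K * (1 + ‖u‖) ^ (3 / 2 : ℝ)))
    (S : ℕ → Finset ℂ) (hS : ∀ N a, a ∈ S N ↔ Y a = 0 ∧ ‖a - 1‖ ≤ (N : ℝ) + 1) {z w : ℂ}
    (hz : Y z ≠ 0) (hw : Y w ≠ 0) :
    Tendsto (fun N => ∑ a ∈ S N, (analyticOrderNatAt Y a : ℂ) * (1 / (z - a) - 1 / (w - a))) atTop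
      (𝓝 (logDeriv Y z - logDeriv Y w)) := by
  have hne : ∃ z, Y z ≠ 0 := ⟨1, hY1⟩
  choose g hg heq _ using fun N => div_set hY hne (S N)
  have hgne : ∀ (N : ℕ) (a : ℂ), ‖a - 1‖ ≤ (N : ℝ) + 1 → g N a ≠ 0 := by
    intro N a ha
    by_cases h : Y a = 0
    · exact quot_ne hY hne (hg N) (S N) (heq N) ((hS N a).2 ⟨h, ha⟩)
    · intro h0
      apply h
      rw [heq N a, h0, mul_zero]
  have hg1 : ∀ N, g N 1 ≠ 0 := fun N => hgne N 1 (by rw [sub_self, norm_zero]; positivity)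
  have hY1n : 0 < ‖Y 1‖ := norm_pos_iff.2 hY1
  obtain ⟨G, hG⟩ : ∃ G : ℕ → ℂ → ℂ, G = fun N u => g N (1 + u) / g N 1 := ⟨_, rfl⟩
  have hGd : ∀ N, Differentiable ℂ (G N) := by
    intro N
    rw [hG]
    have := hg N
    fun_prop
  have hG0 : ∀ N, G N 0 = 1 := by
    intro N
    rw [hG]
    simp [hg1 N]
  have hb : ∀ (N : ℕ) (u : ℂ), ‖u‖ ≤ 2 * ((N : ℝ) + 1) →
      ‖G N u‖ ≤ Real.exp (K * (1 + 2 * ((N : ℝ) + 1)) ^ (3 / 2 : ℝ) - Real.log ‖Y 1‖) := by
    intro N u hu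
    have h1 := quot_bound (hg N) (S N) _ (heq N) (R := (N : ℝ) + 1)
      (B := Real.exp (K * (1 + 2 * ((N : ℝ) + 1)) ^ (3 / 2 : ℝ))) (by positivity)
      (fun a ha => ((hS N a).1 ha).2) (fun v hv => (hgr v).trans (Real.exp_le_exp.2 (by gcongr))) hu
    have h2 : 0 < ‖g N 1‖ := norm_pos_iff.2 (hg1 N)
    rw [Real.exp_sub, Real.exp_log hY1n, hG, norm_div, div_le_div_iff₀ h2 hY1n]
    exact h1
  have hbase := fun N : ℕ => Pool.Agent.Y275.GL.base1 (hGd N) (ρ := (N : ℝ) + 1)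
    (M := K * (1 + 2 * ((N : ℝ) + 1)) ^ (3 / 2 : ℝ) - Real.log ‖Y 1‖) (by positivity)
    (fun u hu => by
      rw [hG]
      refine div_ne_zero (hgne N _ ?_) (hg1 N)
      rw [add_sub_cancel_left]
      exact (mem_ball_zero_iff.1 hu).le)
    (fun u hu => hb N u (by
      have := mem_ball_zero_iff.1 hu
      have h0 : (0 : ℝ) ≤ (N : ℝ) + 1 := by positivity
      linarith))
  choose hM E hE using hbase
  obtain ⟨β, hβ⟩ : ∃ β : ℕ → ℂ, β = fun N => deriv (G N) 0 / G N 0 := ⟨_, rfl⟩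
  obtain ⟨H, hH⟩ : ∃ H : ℕ → ℂ → ℂ, H = fun N u => g N (1 + u) / g N 1 * cexp (-β N * u) := ⟨_, rfl⟩
  have hHE : ∀ (N : ℕ) (u : ℂ), ‖u‖ < ((N : ℝ) + 1) / 2 → H N u = cexp (E N u) := by
    intro N u hu
    have h1 := (hE N u hu).1
    rw [hG0, one_mul] at h1
    have h2 : H N u = G N u * cexp (-β N * u) := by rw [hH, hG]
    rw [h2, h1, ← Complex.exp_add, hβ]
    simp only [hG0]
    congr 1
    ring
  have hlu : TendstoLocallyUniformlyOn H (fun _ => 1) atTop univ := by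
    rw [tendstoLocallyUniformlyOn_univ, Metric.tendstoLocallyUniformly_iff]
    intro ε hε x
    obtain ⟨r, hr⟩ : ∃ r : ℝ, r = ‖x‖ + 1 := ⟨_, rfl⟩
    have hr0 : 0 < r := by rw [hr]; positivity
    refine ⟨Metric.ball 0 r, ?_, ?_⟩
    · apply Metric.isOpen_ball.mem_nhds
      rw [mem_ball_zero_iff, hr]
      linarith
    · have hδ : 0 < min 1 (ε / 2) := by positivity
      filter_upwards [Pool.Agent.Y275.GL.lim1 hK hr0 (abs_nonneg (Real.log ‖Y 1‖)) hδ] with N hN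
      intro y hy
      have hyr : ‖y‖ < r := mem_ball_zero_iff.1 hy
      obtain ⟨hN1, hN2⟩ := hN
      have h1 := (hE N y (hyr.trans hN1)).2
      have hN0 : 0 < (N : ℝ) + 1 := by positivity
      have h5 : (‖y‖ / ((N : ℝ) + 1)) ^ 2 ≤ (r / ((N : ℝ) + 1)) ^ 2 :=
        pow_le_pow_left₀ (by positivity) (div_le_div_of_nonneg_right hyr.le hN0.le) 2
      have h7 : ‖E N y‖ < min 1 (ε / 2) := by
        refine lt_of_le_of_lt (h1.trans ?_) hN2
        have h8 := hM N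
        rw [hG0, norm_one, Real.log_one, sub_zero] at h8 ⊢
        have h9 : K * (1 + 2 * ((N : ℝ) + 1)) ^ (3 / 2 : ℝ) - Real.log ‖Y 1‖ ≤
            K * (1 + 2 * ((N : ℝ) + 1)) ^ (3 / 2 : ℝ) + |Real.log ‖Y 1‖| := by
          linarith [neg_abs_le (Real.log ‖Y 1‖)]
        have h10 : 0 < 1 / ((N : ℝ) + 1) := by positivity
        calc 16 * (K * (1 + 2 * ((N : ℝ) + 1)) ^ (3 / 2 : ℝ) - Real.log ‖Y 1‖) *
              (‖y‖ / ((N : ℝ) + 1)) ^ 2
            ≤ 16 * (K * (1 + 2 * ((N : ℝ) + 1)) ^ (3 / 2 : ℝ) + |Real.log ‖Y 1‖|) *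
              (r / ((N : ℝ) + 1)) ^ 2 := by gcongr
          _ ≤ _ := by linarith
      rw [dist_comm, dist_eq_norm, hHE N y (hyr.trans hN1)]
      calc ‖cexp (E N y) - 1‖ ≤ 2 * ‖E N y‖ :=
            Complex.norm_exp_sub_one_le (h7.trans_le (min_le_left _ _)).le
        _ < 2 * (ε / 2) := by
            have := h7.trans_le (min_le_right _ _)
            linarith
        _ = ε := by ring
  have hHd : ∀ N, Differentiable ℂ (H N) := by
    intro N
    rw [hH]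
    have := hg N
    fun_prop
  have hld : ∀ u : ℂ, Tendsto (fun N => logDeriv (H N) u) atTop (𝓝 0) := by
    intro u
    have h1 := Complex.logDeriv_tendsto isOpen_univ (mem_univ u) hlu
      (Eventually.of_forall fun N => (hHd N).differentiableOn) one_ne_zero
    have h2 : logDeriv (fun _ : ℂ => (1 : ℂ)) u = 0 := by
      rw [logDeriv_apply]
      simp
    rwa [h2] at h1
  have hid : ∀ N, ∑ a ∈ S N, (analyticOrderNatAt Y a : ℂ) * (1 / (z - a) - 1 / (w - a)) =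
      (logDeriv Y z - logDeriv Y w) - (logDeriv (H N) (z - 1) - logDeriv (H N) (w - 1)) := by
    intro N
    have key : ∀ v : ℂ, Y v ≠ 0 → ∑ a ∈ S N, (analyticOrderNatAt Y a : ℂ) * (1 / (v - a)) =
        logDeriv Y v - (logDeriv (H N) (v - 1) + β N) := by
      intro v hv
      obtain ⟨h1, h2⟩ := logDeriv_quot (hg N) (S N) _ (heq N) hv fun h => hv ((hS N v).1 h).1
      have h3 := logDeriv_tw (hg N) (hg1 N) (β N) (v - 1) (by rw [add_sub_cancel]; exact h1)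
      rw [add_sub_cancel] at h3
      rw [h2, hH]
      simp only
      rw [h3]
      ring
    have h1 := key z hz
    have h2 := key w hw
    simp only [mul_sub, Finset.sum_sub_distrib]
    rw [h1, h2]
    ring
  simp only [hid]
  have h3 := tendsto_const_nhds (x := logDeriv Y z - logDeriv Y w) (f := (atTop : Filter ℕ))
  have h4 := h3.sub ((hld (z - 1)).sub (hld (w - 1)))
  rw [sub_zero, sub_zero] at h4
  exact h4

end PFC

/-- **UV-7** -/
theorem t_PFC : S_PFC := by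
  intro Y hY hs hgr hst z w hz hw
  classical
  have hY1 : Y 1 ≠ 0 := fun h0 => by
    have := hst 1 h0
    norm_num at this
  have hsum := PFC.summ_one hY hs hgr hst
  have hT := PFC.summ_t hY hY1 hsum hz hw
  obtain ⟨K, hK, hKb⟩ := PFC.gr_one hgr
  have hfin : ∀ N : ℕ, {a : {a : ℂ // Y a = 0} | ‖(a : ℂ) - 1‖ ≤ (N : ℝ) + 1}.Finite :=
    fun N => PFC.fin_disc hY hY1 hsum _ (by positivity)
  obtain ⟨S', hS'⟩ : ∃ S' : ℕ → Finset {a : ℂ // Y a = 0}, S' = fun N => (hfin N).toFinset := ⟨_, rfl⟩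
  have hmem : ∀ N a, a ∈ S' N ↔ ‖(a : ℂ) - 1‖ ≤ (N : ℝ) + 1 := by
    intro N a
    rw [hS', Set.Finite.mem_toFinset]
    exact Iff.rfl
  have hlim := PFC.main_lim hY hY1 hK hKb (fun N => (S' N).map (Function.Embedding.subtype _)) (by
    intro N a
    rw [Finset.mem_map]
    constructor
    · rintro ⟨b, hb, rfl⟩
      exact ⟨b.2, (hmem N b).1 hb⟩
    · rintro ⟨h1, h2⟩
      exact ⟨⟨a, h1⟩, (hmem N ⟨a, h1⟩).2 h2, rfl⟩) hz hw
  have htop : Tendsto S' atTop atTop := by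
    refine tendsto_atTop_finset_of_monotone ?_ ?_
    · intro M N hMN a ha
      have h1 := (hmem M a).1 ha
      refine (hmem N a).2 (h1.trans ?_)
      have : (M : ℝ) ≤ N := by exact_mod_cast hMN
      linarith
    · intro a
      obtain ⟨N, hN⟩ := exists_nat_ge ‖(a : ℂ) - 1‖
      exact ⟨N, (hmem N a).2 (by linarith)⟩
  have h1 := hT.hasSum
  have h2 : Tendsto (fun N => ∑ a ∈ S' N, (analyticOrderNatAt Y (a : ℂ) : ℂ) *
      (1 / (z - (a : ℂ)) - 1 / (w - (a : ℂ)))) atTop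
      (𝓝 (∑' a : {a : ℂ // Y a = 0}, (analyticOrderNatAt Y (a : ℂ) : ℂ) *
        (1 / (z - (a : ℂ)) - 1 / (w - (a : ℂ))))) := by
    have h4 := h1
    rw [HasSum, SummationFilter.unconditional_filter] at h4
    exact h4.comp htop
  have h3 : Tendsto (fun N => ∑ a ∈ S' N, (analyticOrderNatAt Y (a : ℂ) : ℂ) *
      (1 / (z - (a : ℂ)) - 1 / (w - (a : ℂ)))) atTop (𝓝 (logDeriv Y z - logDeriv Y w)) := by
    refine hlim.congr fun N => ?_
    rw [Finset.sum_map]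
    rfl
  rw [tendsto_nhds_unique h2 h3] at h1
  exact h1

end Pool.Agent.NH13.UV
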