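import Pool.Agent.NH13.UV.Stm

/-!
# Plan UV: the unconditional lower bound, with the nonprincipal characters only
-/

set_option autoImplicit false

open Complex MeasureTheory Filter Topology Set

namespace Pool.Agent.NH13.UV

namespace PPn

/-- the lower integral of one character -/
noncomputable def Jl {q : ℕ} (χ : DirichletCharacter ℂ q) (κ : ℝ) : ENNReal :=
  ∫⁻ u in Ioi (1 : ℝ), ENNReal.ofReal (‖psi χ u‖ ^ 2 * u ^ (-2 - 2 * κ / Real.log q))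

lemma Jl_anti {q : ℕ} (hq : 1 ≤ q) (χ : DirichletCharacter ℂ q) {κ κ' : ℝ} (h : κ ≤ κ') :
    Jl χ κ' ≤ Jl χ κ := by
  refine setLIntegral_mono' measurableSet_Ioi fun x hx => ?_
  have hx1 : (1 : ℝ) ≤ x := le_of_lt hx
  have hL : 0 ≤ Real.log q := Real.log_natCast_nonneg q
  have h2 : 2 * κ / Real.log q ≤ 2 * κ' / Real.log q := div_le_div_of_nonneg_right (by linarith) hL
  exact ENNReal.ofReal_le_ofReal (mul_le_mul_of_nonneg_left
    (Real.rpow_le_rpow_of_exponent_le hx1 (by linarith)) (sq_nonneg _))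

lemma int_le {q : ℕ} (χ : DirichletCharacter ℂ q) (κ : ℝ) :
    ENNReal.ofReal (∫ u in Ioi (1 : ℝ), ‖psi χ u‖ ^ 2 * u ^ (-2 - 2 * κ / Real.log q)) ≤ Jl χ κ := by
  by_cases hi : IntegrableOn (fun u : ℝ => ‖psi χ u‖ ^ 2 * u ^ (-2 - 2 * κ / Real.log q)) (Ioi 1)
  · rw [ofReal_integral_eq_lintegral_ofReal hi]
    · rfl
    · refine (ae_restrict_mem measurableSet_Ioi).mono fun u hu => ?_
      have hu0 : (0 : ℝ) ≤ u := le_trans zero_le_one (le_of_lt hu)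
      exact mul_nonneg (sq_nonneg _) (Real.rpow_nonneg hu0 _)
  · rw [integral_undef hi]
    simp

lemma int_nn {q : ℕ} (χ : DirichletCharacter ℂ q) (κ : ℝ) :
    0 ≤ ∫ u in Ioi (1 : ℝ), ‖psi χ u‖ ^ 2 * u ^ (-2 - 2 * κ / Real.log q) := by
  refine setIntegral_nonneg measurableSet_Ioi fun u hu => ?_
  have hu0 : (0 : ℝ) ≤ u := le_trans zero_le_one (le_of_lt hu)
  exact mul_nonneg (sq_nonneg _) (Real.rpow_nonneg hu0 _)

end PPn

open PPn in
/-- the lower bound for the sum over the nonprincipal characters -/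
theorem t_Pn (hr : S_rel) (hl : S_low) : ∀ κ ε : ℝ, 0 < κ → 0 < ε → ∃ q0 : ℕ,
    ∀ (q : ℕ) [NeZero q], q0 ≤ q →
      ENNReal.ofReal (((1 / κ - 1) / 2 - ε) * (Real.log q ^ 2 * q.totient)) ≤
        ∑ χ ∈ NT q, ∫⁻ u in Ioi (1 : ℝ), ENNReal.ofReal (‖psi χ u‖ ^ 2 *
          u ^ (-2 - 2 * κ / Real.log q)) := by
  intro κ ε hκ hε
  set κ1 : ℝ := κ * (1 + ε * κ) with hκ1
  have hεκ : 0 < ε * κ := mul_pos hε hκ
  have hlt : κ < κ1 := by
    rw [hκ1]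
    nlinarith
  have hκ1p : 0 < κ1 := hκ.trans hlt
  have hinv1 : 1 / κ - ε ≤ 1 / κ1 := by
    rw [hκ1, div_sub' hκ.ne', div_le_div_iff₀ hκ (mul_pos hκ (by linarith))]
    nlinarith [mul_pos hκ (mul_pos hεκ hεκ)]
  have hinv2 : 1 / κ1 ≤ 1 / κ := one_div_le_one_div_of_le hκ hlt.le
  have hden : 0 < 2 + 1 / κ := by positivity
  set e : ℝ := min (1 / 2) (ε / (2 + 1 / κ)) with he
  have he0 : 0 < e := lt_min (by norm_num) (div_pos hε hden)
  have he1 : e ≤ 1 / 2 := min_le_left _ _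
  have he2 : e * (2 + 1 / κ) ≤ ε := by
    have h1 : e ≤ ε / (2 + 1 / κ) := min_le_right _ _
    rwa [le_div_iff₀ hden] at h1
  obtain ⟨q0, hq0⟩ := hr κ1 e hκ1p he0
  obtain ⟨q1, hq1⟩ := hl κ1 e hκ1p he0
  refine ⟨max (max q0 q1) 2, fun q _ hq => ?_⟩
  have hq0' : q0 ≤ q := (le_max_left _ _).trans ((le_max_left _ _).trans hq)
  have hq1' : q1 ≤ q := (le_max_right _ _).trans ((le_max_left _ _).trans hq)
  have hq2 : 2 ≤ q := (le_max_right _ _).trans hq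
  have hL : 0 < Real.log q := Real.log_pos (by exact_mod_cast (by omega : 1 < q))
  have hφ : 0 < (q.totient : ℝ) := by exact_mod_cast Nat.totient_pos.2 (by omega)
  have hD : 0 < Real.log q ^ 2 * q.totient := by positivity
  show ENNReal.ofReal (((1 / κ - 1) / 2 - ε) * (Real.log q ^ 2 * q.totient)) ≤ ∑ χ ∈ NT q, Jl χ κ
  by_cases hF : Fi q κ
  · have hex : ∃ κ' : ℝ, 0 < κ' ∧ κ' < κ1 ∧ Fi q κ' := ⟨κ, hκ, hlt, hF⟩
    have h1 := (abs_le.1 (hq0 q hq0' hex)).1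
    have h2 := hq1 q hq1' hex
    have h4 : (1 - e) * (1 / κ1 - e) ≤ (1 - e) * Ir q κ1 :=
      mul_le_mul_of_nonneg_left h2 (by linarith)
    have h5 : e * (1 / κ1) ≤ e * (1 / κ) := mul_le_mul_of_nonneg_left hinv2 he0.le
    have h6 : (1 / κ - 1) / 2 - ε ≤ Gn q κ1 := by nlinarith [sq_nonneg e]
    have h7 : Gn q κ1 * (Real.log q ^ 2 * q.totient) = ∑ χ ∈ NT q,
        ∫ u in Ioi (1 : ℝ), ‖psi χ u‖ ^ 2 * u ^ (-2 - 2 * κ1 / Real.log q) := by
      unfold Gn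
      field_simp
    calc ENNReal.ofReal (((1 / κ - 1) / 2 - ε) * (Real.log q ^ 2 * q.totient))
        ≤ ENNReal.ofReal (Gn q κ1 * (Real.log q ^ 2 * q.totient)) :=
          ENNReal.ofReal_le_ofReal (mul_le_mul_of_nonneg_right h6 hD.le)
      _ = ∑ χ ∈ NT q, ENNReal.ofReal
          (∫ u in Ioi (1 : ℝ), ‖psi χ u‖ ^ 2 * u ^ (-2 - 2 * κ1 / Real.log q)) := by
          rw [h7, ENNReal.ofReal_sum_of_nonneg fun χ _ => int_nn χ κ1]
      _ ≤ ∑ χ ∈ NT q, Jl χ κ := Finset.sum_le_sum fun χ _ =>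
          (int_le χ κ1).trans (Jl_anti (by omega) χ hlt.le)
  · unfold Fi at hF
    push Not at hF
    obtain ⟨χ, hχ, h⟩ := hF
    have h1 : Jl χ κ = ⊤ := top_le_iff.1 h
    have h2 : Jl χ κ ≤ ∑ χ ∈ NT q, Jl χ κ := 
      Finset.single_le_sum (f := fun χ => Jl χ κ) (fun _ _ => bot_le) hχ
    rw [h1, top_le_iff] at h2
    rw [h2]
    exact le_top

end Pool.Agent.NH13.UV
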