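import Pool.Agent.NH13.UV.Stm

/-!
# Plan UV, UV-13: pointwise comparison. Written by helper71.
-/

set_option autoImplicit false

open Complex MeasureTheory Filter Topology Set
open scoped ComplexConjugate

namespace Pool.Agent.NH13.UV

theorem t_pt (h9 : S_YYd) (h10 : S_LD) (h12 : S_imp) : S_pt := by
  intro ε hε
  obtain ⟨C1, hC1, h10⟩ := h10
  obtain ⟨C2, hC2, h12⟩ := h12 ε hε
  have hl2 : 0 < Real.log 2 := Real.log_pos (by norm_num)
  refine ⟨C1 + C2 / Real.log 2, by positivity, ?_⟩
  intro q _ χ hχ z hz hY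
  have hprim : χ.primitiveCharacter.IsPrimitive := χ.primitiveCharacter_isPrimitive
  have hne : χ.primitiveCharacter ≠ 1 := by
    intro h1
    apply hχ
    rw [← χ.changeLevel_primitiveCharacter, h1, map_one]
  have hL : DirichletCharacter.LFunction χ.primitiveCharacter (1 / 2 + z) ≠ 0 := by
    intro h0
    exact hY (((h9 χ.conductor χ.primitiveCharacter hprim hne).2.2.2.2 z (by linarith)).2 h0)
  have e1 := h10 χ.conductor χ.primitiveCharacter hprim hne z hz hY
  have hs : 1 / 2 ≤ (1 / 2 + z).re := by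
    rw [Complex.add_re]
    norm_num
    exact hz
  have e2 := h12 q χ hχ (1 / 2 + z) hs hL
  have hcq : χ.conductor ≤ q := Nat.le_of_dvd (Nat.pos_of_ne_zero (NeZero.ne q))
    χ.conductor_dvd_level
  have hc0 : 0 < χ.conductor := Nat.pos_of_ne_zero (NeZero.ne _)
  have hlog : Real.log χ.conductor ≤ Real.log q :=
    Real.log_le_log (by exact_mod_cast hc0) (by exact_mod_cast hcq)
  have key : LD χ (1 / 2 + z) - (Bq χ z - ((Real.log q / 2 : ℝ) : ℂ)) =
      (LD χ (1 / 2 + z) - LD χ.primitiveCharacter (1 / 2 + z)) -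
      (logDeriv (YY χ.primitiveCharacter) z - LD χ.primitiveCharacter (1 / 2 + z) -
        ((Real.log χ.conductor / 2 : ℝ) : ℂ)) +
      (((Real.log q - Real.log χ.conductor) / 2 : ℝ) : ℂ) := by
    unfold Bq
    push_cast
    ring
  rw [key]
  have hn : ‖(((Real.log q - Real.log χ.conductor) / 2 : ℝ) : ℂ)‖ =
      (Real.log q - Real.log χ.conductor) / 2 := by
    rw [Complex.norm_real, Real.norm_of_nonneg]
    linarith
  have hlz : Real.log 2 ≤ Real.log (2 + ‖z‖) :=
    Real.log_le_log (by norm_num) (by linarith [norm_nonneg z])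
  have hC2' : C2 ≤ C2 / Real.log 2 * Real.log (2 + ‖z‖) := by
    rw [div_mul_eq_mul_div, le_div_iff₀ hl2]
    exact mul_le_mul_of_nonneg_left hlz hC2.le
  calc _ ≤ ‖(LD χ (1 / 2 + z) - LD χ.primitiveCharacter (1 / 2 + z)) -
      (logDeriv (YY χ.primitiveCharacter) z - LD χ.primitiveCharacter (1 / 2 + z) -
        ((Real.log χ.conductor / 2 : ℝ) : ℂ))‖ +
        ‖(((Real.log q - Real.log χ.conductor) / 2 : ℝ) : ℂ)‖ := norm_add_le _ _
    _ ≤ (‖LD χ (1 / 2 + z) - LD χ.primitiveCharacter (1 / 2 + z)‖ +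
      ‖logDeriv (YY χ.primitiveCharacter) z - LD χ.primitiveCharacter (1 / 2 + z) -
        ((Real.log χ.conductor / 2 : ℝ) : ℂ)‖) +
        ‖(((Real.log q - Real.log χ.conductor) / 2 : ℝ) : ℂ)‖ := by
          gcongr
          exact norm_sub_le _ _
    _ ≤ ((ε * Real.log q + C2) + C1 * Real.log (2 + ‖z‖)) +
        (Real.log q - Real.log χ.conductor) / 2 := by
          rw [hn]
          gcongr
    _ ≤ _ := by
          rw [add_mul]
          linarith

end Pool.Agent.NH13.UV
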