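import Pool.Agent.NH13.UV.Stm

/-!
# Plan UV, UV-28: the relation between the primes and the zeros
-/

set_option autoImplicit false

open Complex MeasureTheory Filter Topology Set
open scoped ComplexConjugate

namespace Pool.Agent.NH13.UV

namespace rel99

/-- the majorant -/
noncomputable def gj (t : ℝ) : ℝ := 512 * (1 + ‖t‖ ^ 2) ^ (-(7 / 4 : ℝ) / 2)

theorem gj_int : Integrable gj := by
  unfold gj
  refine (integrable_rpow_neg_one_add_norm_sq ?_).const_mul _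
  rw [Module.finrank_self]
  norm_num

theorem gj_nonneg (t : ℝ) : 0 ≤ gj t := by
  unfold gj
  positivity

theorem one_le (t : ℝ) : 1 ≤ 1 + ‖t‖ ^ 2 := by
  have := sq_nonneg ‖t‖
  linarith

theorem wt_le {x : ℝ} (hx : 0 ≤ x) (t : ℝ) : wt x t ≤ 4 * (1 + ‖t‖ ^ 2) ^ (-1 : ℝ) := by
  have h1 : 0 < 1 + ‖t‖ ^ 2 := by linarith [one_le t]
  rw [Real.rpow_neg_one, wt, ← div_eq_mul_inv, div_le_div_iff₀ (by positivity) h1,
    Real.norm_eq_abs, sq_abs]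
  nlinarith [sq_nonneg t]

theorem wt_nonneg (x t : ℝ) : 0 ≤ wt x t := by
  unfold wt
  positivity

theorem wt_le_gj {x : ℝ} (hx : 0 ≤ x) (t : ℝ) : wt x t ≤ gj t := by
  refine (wt_le hx t).trans ?_
  unfold gj
  have h1 : (1 + ‖t‖ ^ 2) ^ (-1 : ℝ) ≤ (1 + ‖t‖ ^ 2) ^ (-(7 / 4 : ℝ) / 2) :=
    Real.rpow_le_rpow_of_exponent_le (one_le t) (by norm_num)
  have h2 : 0 ≤ (1 + ‖t‖ ^ 2) ^ (-1 : ℝ) := by positivity
  linarith

theorem log_le {x : ℝ} (hx : 0 ≤ x) (hx1 : x ≤ 1) (t : ℝ) :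
    Real.log (2 + ‖pt x t‖) ^ 2 * wt x t ≤ gj t := by
  set P : ℝ := 1 + ‖t‖ ^ 2 with hP
  have hP1 : 1 ≤ P := one_le t
  have hP0 : 0 < P := by linarith
  set u : ℝ := 2 + ‖pt x t‖ with hu
  have hu0 : 0 ≤ ‖pt x t‖ := norm_nonneg _
  have hu2 : 2 ≤ u := by linarith
  have h1 : u ≤ 3 + |t| := by
    have : ‖pt x t‖ ≤ |x| + |t| := by
      unfold pt
      refine (norm_add_le _ _).trans ?_
      rw [norm_mul, Complex.norm_I, mul_one, Complex.norm_real, Complex.norm_real,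
        Real.norm_eq_abs, Real.norm_eq_abs]
    rw [abs_of_nonneg hx] at this
    linarith
  have h2 : u ^ 2 ≤ 18 * P := by
    have h3 : u ^ 2 ≤ (3 + |t|) ^ 2 := pow_le_pow_left₀ (by linarith) h1 2
    rw [hP, Real.norm_eq_abs, sq_abs]
    nlinarith [sq_nonneg (3 - |t|), sq_abs t]
  have h3 : Real.log u ^ 2 ≤ 64 * (u ^ 2) ^ (1 / 8 : ℝ) := by
    have h4 : Real.log u ≤ u ^ (1 / 8 : ℝ) / (1 / 8) :=
      Real.log_le_rpow_div (by linarith) (by norm_num)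
    have h5 : 0 ≤ Real.log u := Real.log_nonneg (by linarith)
    have h6 : (u ^ (1 / 8 : ℝ)) ^ 2 = (u ^ 2) ^ (1 / 8 : ℝ) := by
      rw [← Real.rpow_natCast, ← Real.rpow_natCast, ← Real.rpow_mul (by linarith),
        ← Real.rpow_mul (by linarith), mul_comm]
    calc Real.log u ^ 2 ≤ (u ^ (1 / 8 : ℝ) / (1 / 8)) ^ 2 := pow_le_pow_left₀ h5 h4 2
      _ = 64 * (u ^ (1 / 8 : ℝ)) ^ 2 := by ring
      _ = 64 * (u ^ 2) ^ (1 / 8 : ℝ) := by rw [h6]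
  have h4 : (u ^ 2) ^ (1 / 8 : ℝ) ≤ 2 * P ^ (1 / 8 : ℝ) := by
    have h5 : (256 : ℝ) ^ (1 / 8 : ℝ) = 2 := by
      rw [show (256 : ℝ) = 2 ^ (8 : ℝ) by norm_num, ← Real.rpow_mul (by norm_num)]
      norm_num
    calc (u ^ 2) ^ (1 / 8 : ℝ) ≤ (256 * P) ^ (1 / 8 : ℝ) :=
          Real.rpow_le_rpow (by positivity) (by linarith) (by norm_num)
      _ = 2 * P ^ (1 / 8 : ℝ) := by rw [Real.mul_rpow (by norm_num) hP0.le, h5]
  have h5 : P ^ (1 / 8 : ℝ) * P ^ (-1 : ℝ) = P ^ (-(7 / 4 : ℝ) / 2) := by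
    rw [← Real.rpow_add hP0]
    norm_num
  have h6 : Real.log u ^ 2 ≤ 128 * P ^ (1 / 8 : ℝ) := by linarith
  calc Real.log u ^ 2 * wt x t ≤ (128 * P ^ (1 / 8 : ℝ)) * (4 * P ^ (-1 : ℝ)) :=
        mul_le_mul h6 (wt_le hx t) (wt_nonneg x t) (by positivity)
    _ = 512 * (P ^ (1 / 8 : ℝ) * P ^ (-1 : ℝ)) := by ring
    _ = gj t := by rw [h5]; rfl

theorem sq_split (a b : ℂ) {d : ℝ} (hd : 0 < d) :
    ‖a‖ ^ 2 ≤ (1 + d) * ‖b‖ ^ 2 + (1 + 1 / d) * ‖a - b‖ ^ 2 := by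
  have h1 : ‖a‖ ≤ ‖b‖ + ‖a - b‖ := by
    have := norm_add_le b (a - b)
    rwa [add_sub_cancel] at this
  have h2 : ‖a‖ ^ 2 ≤ (‖b‖ + ‖a - b‖) ^ 2 := pow_le_pow_left₀ (norm_nonneg _) h1 2
  have h3 : 2 * ‖b‖ * ‖a - b‖ ≤ d * ‖b‖ ^ 2 + 1 / d * ‖a - b‖ ^ 2 := by
    have h4 : 0 ≤ 1 / d * (d * ‖b‖ - ‖a - b‖) ^ 2 := by positivity
    have h5 : 1 / d * (d * ‖b‖ - ‖a - b‖) ^ 2 =
        d * ‖b‖ ^ 2 + 1 / d * ‖a - b‖ ^ 2 - 2 * ‖b‖ * ‖a - b‖ := by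
      field_simp
      ring
    linarith
  nlinarith

theorem int_split {u v : ℝ → ℂ} {w g : ℝ → ℝ} (hw : ∀ t, 0 ≤ w t) (hg : Integrable g)
    (hu : Integrable (fun t => ‖u t‖ ^ 2 * w t)) (hv : Integrable (fun t => ‖v t‖ ^ 2 * w t))
    {c d : ℝ} (hd : 0 < d) (h : ∀ t, ‖u t - v t‖ ^ 2 * w t ≤ c * g t) :
    ∫ t, ‖u t‖ ^ 2 * w t ≤ (1 + d) * (∫ t, ‖v t‖ ^ 2 * w t) + (1 + 1 / d) * (c * ∫ t, g t) := by
  have h1 : ∫ t, ‖u t‖ ^ 2 * w t ≤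
      ∫ t, ((1 + d) * (‖v t‖ ^ 2 * w t) + (1 + 1 / d) * (c * g t)) := by
    apply integral_mono hu ((hv.const_mul _).add ((hg.const_mul _).const_mul _))
    intro t
    have h2 := mul_le_mul_of_nonneg_right (sq_split (u t) (v t) hd) (hw t)
    have h3 : 0 ≤ 1 + 1 / d := by positivity
    have h4 := mul_le_mul_of_nonneg_left (h t) h3
    show ‖u t‖ ^ 2 * w t ≤ (1 + d) * (‖v t‖ ^ 2 * w t) + (1 + 1 / d) * (c * g t)
    linarith
  rw [integral_add (hv.const_mul _) ((hg.const_mul _).const_mul _), integral_const_mul,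
    integral_const_mul, integral_const_mul] at h1
  exact h1

theorem card_NT (q : ℕ) [NeZero q] : ((NT q).card : ℝ) ≤ q.totient := by
  classical
  have h1 : (NT q).card ≤ Fintype.card (DirichletCharacter ℂ q) := Finset.card_le_univ _
  have h2 : Nat.card (DirichletCharacter ℂ q) = q.totient :=
    DirichletCharacter.card_eq_totient_of_hasEnoughRootsOfUnity ℂ q
  rw [Nat.card_eq_fintype_card] at h2
  rw [h2] at h1
  exact_mod_cast h1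

/-- the final inequality -/
theorem final {G N I R e3 d e : ℝ} (hI : 0 ≤ I) (h1 : 2 * G ≤ (1 + d) * N + R)
    (h2 : N ≤ (1 + d) * (2 * G) + R) (h3 : |N - (I - 1)| ≤ e3) (hd : 0 < d) (hd1 : d ≤ 1)
    (hde : d ≤ e) (hR : 0 ≤ R) (he3 : 0 ≤ e3) (hs : 2 * e3 + R ≤ e) :
    |1 + 2 * G - I| ≤ e * (1 + I) := by
  obtain ⟨h4, h5⟩ := abs_le.1 h3
  rw [abs_le]
  constructor
  · -- lower bound
    have h6 : I - 1 - e3 - R ≤ (1 + d) * (2 * G) := by linarith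
    have h7 : -(d * I + e3 + R) ≤ (1 + d) * (1 + 2 * G - I) := by nlinarith
    have h8 : 0 ≤ d * I + e3 + R := by positivity
    have h9 : -(d * I + e3 + R) ≤ 1 + 2 * G - I := by
      by_contra hc
      push Not at hc
      nlinarith
    have h10 : d * I ≤ e * I := mul_le_mul_of_nonneg_right hde hI
    nlinarith
  · have h6 : (1 + d) * N ≤ (1 + d) * (I - 1 + e3) :=
      mul_le_mul_of_nonneg_left (by linarith) (by linarith)
    have h10 : d * I ≤ e * I := mul_le_mul_of_nonneg_right hde hI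
    have h11 : d * e3 ≤ e3 := by nlinarith
    nlinarith

theorem sq3 (a b c : ℝ) : (a + b + c) ^ 2 ≤ 3 * (a ^ 2 + b ^ 2 + c ^ 2) := by
  nlinarith [sq_nonneg (a - b), sq_nonneg (b - c), sq_nonneg (a - c)]

/-- the comparison for one character -/
theorem one (hPl : S_Pl) (hMe : S_Me) (hD : S_HDq) (hK1 : S_K1) {ε1 C : ℝ} (hε1 : 0 < ε1)
    (hC : 0 < C) (hpt' : ∀ (q : ℕ) [NeZero q]
      (χ : DirichletCharacter ℂ q), χ ≠ 1 → ∀ z : ℂ, 0 ≤ z.re → YY χ.primitiveCharacter z ≠ 0 →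
      ‖LD χ (1 / 2 + z) - (Bq χ z - ((Real.log q / 2 : ℝ) : ℂ))‖ ≤
        ε1 * Real.log q + C * Real.log (2 + ‖z‖) + (Real.log q - Real.log χ.conductor) / 2)
    (q : ℕ) [NeZero q] (χ : DirichletCharacter ℂ q) (hχ : χ ≠ 1) {x0 x d : ℝ} (hx0 : 0 < x0)
    (hx : x0 < x) (hx1 : x ≤ 1 / 2) (hL : 0 ≤ Real.log q) (hd : 0 < d)
    (hfin : (∫⁻ u in Ioi (1 : ℝ), ENNReal.ofReal (‖psi χ u‖ ^ 2 * u ^ (-2 - 2 * x0))) < ⊤) :
    HDE (Bq χ) x0 ∧
    (∫ u in Ioi (1 : ℝ), ‖psi χ u‖ ^ 2 * u ^ (-2 - 2 * x) =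
      1 / (2 * Real.pi) * ∫ t : ℝ, ‖LD χ (1 / 2 + pt x t)‖ ^ 2 * wt x t) ∧
    (∫ t : ℝ, ‖LD χ (1 / 2 + pt x t)‖ ^ 2 * wt x t) ≤
      (1 + d) * (∫ t : ℝ, ‖Bq χ (pt x t) - ((Real.log q / 2 : ℝ) : ℂ)‖ ^ 2 * wt x t) +
      (1 + 1 / d) * ((3 * (ε1 ^ 2 * Real.log q ^ 2 + C ^ 2 +
        (Real.log q - Real.log χ.conductor) ^ 2 / 4)) * ∫ t, gj t) ∧
    (∫ t : ℝ, ‖Bq χ (pt x t) - ((Real.log q / 2 : ℝ) : ℂ)‖ ^ 2 * wt x t) ≤
      (1 + d) * (∫ t : ℝ, ‖LD χ (1 / 2 + pt x t)‖ ^ 2 * wt x t) +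
      (1 + 1 / d) * ((3 * (ε1 ^ 2 * Real.log q ^ 2 + C ^ 2 +
        (Real.log q - Real.log χ.conductor) ^ 2 / 4)) * ∫ t, gj t) := by
  obtain ⟨hH, hYY⟩ := hD q χ hχ x0 hx0.le (by linarith)
    (fun s hs => (hMe q χ hχ x0 hx0 hfin s hs).2.1)
  obtain ⟨_, hI2, hI3⟩ := hPl q χ hχ x0 hx0 hfin x hx
  obtain ⟨ι, a, m, hHD⟩ := hH
  obtain ⟨hK, _⟩ := hK1 (Bq χ) x0 ι a m hHD x hx (Real.log q / 2)
  have hx' : 0 < x := by linarith
  have hre : ∀ t : ℝ, (pt x t).re = x := fun t => by simp [pt]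
  have hE : ∀ t : ℝ, ‖LD χ (1 / 2 + pt x t) - (Bq χ (pt x t) - ((Real.log q / 2 : ℝ) : ℂ))‖ ^ 2 *
      wt x t ≤ (3 * (ε1 ^ 2 * Real.log q ^ 2 + C ^ 2 +
        (Real.log q - Real.log χ.conductor) ^ 2 / 4)) * gj t := by
    intro t
    have h1 := hpt' q χ hχ (pt x t) (by rw [hre]; exact hx'.le) (hYY _ (by rw [hre]; exact hx))
    have h2 := (pow_le_pow_left₀ (norm_nonneg _) h1 2).trans (sq3 _ _ _)
    have h3 := mul_le_mul_of_nonneg_right h2 (wt_nonneg x t)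
    refine h3.trans ?_
    have h4 := wt_le_gj hx'.le t
    have h5 := log_le hx'.le (by linarith) t
    have h6 : (ε1 * Real.log q) ^ 2 * wt x t ≤ (ε1 * Real.log q) ^ 2 * gj t :=
      mul_le_mul_of_nonneg_left h4 (sq_nonneg _)
    have h7 : ((Real.log q - Real.log χ.conductor) / 2) ^ 2 * wt x t ≤
        ((Real.log q - Real.log χ.conductor) / 2) ^ 2 * gj t :=
      mul_le_mul_of_nonneg_left h4 (sq_nonneg _)
    have h8 : C ^ 2 * (Real.log (2 + ‖pt x t‖) ^ 2 * wt x t) ≤ C ^ 2 * gj t :=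
      mul_le_mul_of_nonneg_left h5 (sq_nonneg _)
    calc 3 * ((ε1 * Real.log q) ^ 2 + (C * Real.log (2 + ‖pt x t‖)) ^ 2 +
          ((Real.log q - Real.log χ.conductor) / 2) ^ 2) * wt x t
        = 3 * ((ε1 * Real.log q) ^ 2 * wt x t + C ^ 2 * (Real.log (2 + ‖pt x t‖) ^ 2 * wt x t) +
          ((Real.log q - Real.log χ.conductor) / 2) ^ 2 * wt x t) := by ring
      _ ≤ 3 * ((ε1 * Real.log q) ^ 2 * gj t + C ^ 2 * gj t +
          ((Real.log q - Real.log χ.conductor) / 2) ^ 2 * gj t) := by linarith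
      _ = _ := by ring
  refine ⟨⟨ι, a, m, hHD⟩, hI3, ?_, ?_⟩
  · exact int_split (u := fun t => LD χ (1 / 2 + pt x t))
      (v := fun t => Bq χ (pt x t) - ((Real.log q / 2 : ℝ) : ℂ)) (wt_nonneg x) gj_int hI2 hK hd hE
  · exact int_split (u := fun t => Bq χ (pt x t) - ((Real.log q / 2 : ℝ) : ℂ))
      (v := fun t => LD χ (1 / 2 + pt x t)) (wt_nonneg x) gj_int hK hI2 hd
      (fun t => by rw [norm_sub_rev]; exact hE t)

end rel99

open rel99 in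
theorem t_rel (hA : S_A) (hPl : S_Pl) (hMe : S_Me) (hpt : S_pt) (hc : S_cond) (hD : S_HDq)
    (hK1 : S_K1) : S_rel := by
  intro κ ε hκ hε
  obtain ⟨J, hJ⟩ : ∃ J, J = ∫ t, gj t := ⟨_, rfl⟩
  have hJ0 : 0 ≤ J := by rw [hJ]; exact integral_nonneg gj_nonneg
  obtain ⟨d, hd⟩ : ∃ d, d = min ε 1 := ⟨_, rfl⟩
  have hd0 : 0 < d := by rw [hd]; exact lt_min hε one_pos
  have hd1 : d ≤ 1 := by rw [hd]; exact min_le_right _ _
  have hde : d ≤ ε := by rw [hd]; exact min_le_left _ _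
  obtain ⟨M, hM⟩ : ∃ M, M = (1 + 1 / d) * (3 * J / Real.pi) + 1 := ⟨_, rfl⟩
  have hM0 : 0 < M := by rw [hM]; positivity
  obtain ⟨ρ, hρ⟩ : ∃ ρ, ρ = ε / (6 * M) := ⟨_, rfl⟩
  have hρ0 : 0 < ρ := by rw [hρ]; positivity
  obtain ⟨ε1, hε1⟩ : ∃ ε1, ε1 = min 1 ρ := ⟨_, rfl⟩
  have hε10 : 0 < ε1 := by rw [hε1]; exact lt_min one_pos hρ0
  have hε11 : ε1 ^ 2 ≤ ρ := by
    have h1 : ε1 ≤ 1 := by rw [hε1]; exact min_le_left _ _
    have h2 : ε1 ≤ ρ := by rw [hε1]; exact min_le_right _ _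
    nlinarith
  obtain ⟨C, hC, hpt'⟩ := hpt ε1 hε10
  obtain ⟨q1, hq1⟩ := hA κ (ε / 4) hκ (by positivity)
  obtain ⟨q2, hq2⟩ := hc (4 * ρ) (by positivity)
  obtain ⟨q3, hq3⟩ : ∃ q3 : ℕ, ∀ q : ℕ, q3 ≤ q → 2 * κ ≤ Real.log q ∧ 1 ≤ Real.log q ∧
      C ^ 2 ≤ ρ * Real.log q ^ 2 := by
    have h1 : Tendsto (fun q : ℕ => Real.log q) atTop atTop :=
      Real.tendsto_log_atTop.comp tendsto_natCast_atTop_atTop
    obtain ⟨q3, h3⟩ := eventually_atTop.1 (h1.eventually_ge_atTop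
      (max (max (2 * κ) 1) (C / √ρ)))
    refine ⟨q3, fun q hq => ?_⟩
    have h4 := h3 q hq
    have h5 : 2 * κ ≤ Real.log q := (le_max_left _ _).trans ((le_max_left _ _).trans h4)
    have h6 : 1 ≤ Real.log q := (le_max_right _ _).trans ((le_max_left _ _).trans h4)
    have h7 : C / √ρ ≤ Real.log q := (le_max_right _ _).trans h4
    refine ⟨h5, h6, ?_⟩
    have h8 : 0 < √ρ := Real.sqrt_pos.2 hρ0
    rw [div_le_iff₀ h8] at h7
    have h9 := pow_le_pow_left₀ hC.le h7 2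
    rw [mul_pow, Real.sq_sqrt hρ0.le] at h9
    linarith
  refine ⟨max (max q1 q2) (max q3 2), fun q _ hq hF => ?_⟩
  obtain ⟨κ', hκ'0, hκ'κ, hFi⟩ := hF
  have hqq1 : q1 ≤ q := (le_max_left _ _).trans ((le_max_left _ _).trans hq)
  have hqq2 : q2 ≤ q := (le_max_right _ _).trans ((le_max_left _ _).trans hq)
  have hqq3 : q3 ≤ q := (le_max_left _ _).trans ((le_max_right _ _).trans hq)
  obtain ⟨hL1, hL2, hL3⟩ := hq3 q hqq3
  have hL0 : 0 < Real.log q := by linarith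
  have hφ0 : 0 < (q.totient : ℝ) := by
    rw [Nat.cast_pos, Nat.totient_pos]
    exact Nat.pos_of_ne_zero (NeZero.ne q)
  have hx0 : 0 < κ' / Real.log q := by positivity
  have hx0x : κ' / Real.log q < κ / Real.log q := div_lt_div_of_pos_right hκ'κ hL0
  have hx1 : κ / Real.log q ≤ 1 / 2 := by
    rw [div_le_div_iff₀ hL0 (by norm_num)]
    linarith
  have hone : ∀ χ ∈ NT q, _ := fun χ hχ => one hPl hMe hD hK1 hε10 hC hpt' q χ (mem_NT.1 hχ)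
    hx0 hx0x hx1 hL0.le hd0 (by
      have h1 := hFi χ hχ
      rw [show 2 * κ' / Real.log q = 2 * (κ' / Real.log q) from mul_div_assoc _ _ _] at h1
      exact h1)
  rw [← hJ] at hone
  have hN := hq1 q hqq1 fun χ hχ => ⟨_, hx0x, (hone χ hχ).1⟩
  -- the sums
  obtain ⟨SA, hSA⟩ : ∃ SA, SA = ∑ χ ∈ NT q,
    ∫ t : ℝ, ‖LD χ (1 / 2 + pt (κ / Real.log q) t)‖ ^ 2 * wt (κ / Real.log q) t := ⟨_, rfl⟩
  obtain ⟨SB, hSB⟩ : ∃ SB, SB = ∑ χ ∈ NT q, ∫ t : ℝ,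
      ‖Bq χ (pt (κ / Real.log q) t) - ((Real.log q / 2 : ℝ) : ℂ)‖ ^ 2 * wt (κ / Real.log q) t :=
    ⟨_, rfl⟩
  obtain ⟨SC, hSC⟩ : ∃ SC, SC = ∑ χ ∈ NT q, (3 * (ε1 ^ 2 * Real.log q ^ 2 + C ^ 2 +
        (Real.log q - Real.log χ.conductor) ^ 2 / 4)) := ⟨_, rfl⟩
  rw [← hSB] at hN
  have hG : 2 * Gn q κ = 1 / (Real.pi * (Real.log q ^ 2 * q.totient)) * SA := by
    have h1 : ∑ χ ∈ NT q, ∫ u in Ioi (1 : ℝ), ‖psi χ u‖ ^ 2 * u ^ (-2 - 2 * κ / Real.log q) =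
        1 / (2 * Real.pi) * SA := by
      rw [hSA, Finset.mul_sum]
      apply Finset.sum_congr rfl
      intro χ hχ
      rw [← (hone χ hχ).2.1,
        show 2 * κ / Real.log q = 2 * (κ / Real.log q) from mul_div_assoc _ _ _]
    unfold Gn
    rw [h1]
    have := Real.pi_pos
    field_simp
  have hAB : SA ≤ (1 + d) * SB + (1 + 1 / d) * (SC * J) := by
    rw [hSA, hSB, hSC, Finset.sum_mul, Finset.mul_sum, Finset.mul_sum, ← Finset.sum_add_distrib]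
    exact Finset.sum_le_sum fun χ hχ => (hone χ hχ).2.2.1
  have hBA : SB ≤ (1 + d) * SA + (1 + 1 / d) * (SC * J) := by
    rw [hSA, hSB, hSC, Finset.sum_mul, Finset.mul_sum, Finset.mul_sum, ← Finset.sum_add_distrib]
    exact Finset.sum_le_sum fun χ hχ => (hone χ hχ).2.2.2
  have hSC' : SC ≤ 9 * ρ * (Real.log q ^ 2 * q.totient) := by
    have h1 := hq2 q hqq2
    have h2 := card_NT q
    have h3 : SC = 3 * ((NT q).card * (ε1 ^ 2 * Real.log q ^ 2) + (NT q).card * C ^ 2 +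
        (∑ χ ∈ NT q, (Real.log q - Real.log χ.conductor) ^ 2) / 4) := by
      rw [hSC, ← Finset.mul_sum, Finset.sum_add_distrib, Finset.sum_add_distrib, Finset.sum_const,
        Finset.sum_const, Finset.sum_div, nsmul_eq_mul, nsmul_eq_mul]
    have h4 : ((NT q).card : ℝ) * (ε1 ^ 2 * Real.log q ^ 2) ≤
        q.totient * (ρ * Real.log q ^ 2) :=
      mul_le_mul h2 (mul_le_mul_of_nonneg_right hε11 (sq_nonneg _)) (by positivity) hφ0.le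
    have h5 : ((NT q).card : ℝ) * C ^ 2 ≤ q.totient * (ρ * Real.log q ^ 2) :=
      mul_le_mul h2 hL3 (by positivity) hφ0.le
    rw [h3]
    linarith
  obtain ⟨c, hcc⟩ : ∃ c, c = 1 / (Real.pi * (Real.log q ^ 2 * q.totient)) := ⟨_, rfl⟩
  have hc0 : 0 < c := by rw [hcc]; positivity
  rw [← hcc] at hN hG
  have hR : (1 + 1 / d) * (c * SC * J) ≤ ε / 2 := by
    have h1 : c * SC ≤ 9 * ρ / Real.pi := by
      have h2 := mul_le_mul_of_nonneg_left hSC' hc0.le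
      refine h2.trans (le_of_eq ?_)
      rw [hcc]
      field_simp
    have h3 : (1 + 1 / d) * (c * SC * J) ≤ (1 + 1 / d) * (9 * ρ / Real.pi * J) :=
      mul_le_mul_of_nonneg_left (mul_le_mul_of_nonneg_right h1 hJ0) (by positivity)
    refine h3.trans ?_
    have h4 : (1 + 1 / d) * (9 * ρ / Real.pi * J) = (M - 1) * (3 * ρ) := by
      rw [hM]
      ring
    have h5 : M * ρ = ε / 6 := by
      rw [hρ]
      field_simp
    rw [h4]
    nlinarith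
  have hR0 : 0 ≤ (1 + 1 / d) * (c * SC * J) := by
    have : 0 ≤ SC := by
      rw [hSC]
      exact Finset.sum_nonneg fun χ _ => by positivity
    positivity
  have hI : 0 ≤ Ir q κ := by
    unfold Ir
    apply mul_nonneg
    · positivity
    · exact Finset.sum_nonneg fun χ _ => integral_nonneg fun t =>
        mul_nonneg (sq_nonneg _) (wt_nonneg _ _)
  refine final (N := c * SB) (R := (1 + 1 / d) * (c * SC * J)) (e3 := ε / 4) hI ?_ ?_ hN hd0 hd1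
    hde hR0 (by positivity) (by linarith)
  · rw [hG]
    have := mul_le_mul_of_nonneg_left hAB hc0.le
    calc c * SA ≤ c * ((1 + d) * SB + (1 + 1 / d) * (SC * J)) := this
      _ = _ := by ring
  · rw [hG]
    have := mul_le_mul_of_nonneg_left hBA hc0.le
    calc c * SB ≤ c * ((1 + d) * SA + (1 + 1 / d) * (SC * J)) := this
      _ = _ := by ring

end Pool.Agent.NH13.UV
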