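import Pool.Agent.NH13.UV.Stm

/-!
# Plan UV-4: the contribution of one zero
-/

set_option autoImplicit false

open Complex MeasureTheory Filter Topology Set

namespace Pool.Agent.NH13.UV

namespace SZ

/-- the kernel -/
noncomputable def K (b u : ℝ) : ℝ := (b / (b ^ 2 + u ^ 2)) ^ 2

lemma contK {b : ℝ} (hb : 0 < b) : Continuous (K b) := by
  unfold K
  refine (continuous_const.div (by fun_prop) ?_).pow 2
  intro x
  positivity

lemma int0 {b : ℝ} (hb : 0 < b) : Integrable (fun u : ℝ => (b ^ 2 + u ^ 2)⁻¹) := by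
  have h := (integrable_inv_one_add_sq.comp_div hb.ne').const_mul (1 / b ^ 2)
  refine h.congr (Eventually.of_forall fun u => ?_)
  have h1 : (b ^ 2 + u ^ 2) ≠ 0 := by positivity
  have h2 : (1 + (u / b) ^ 2) ≠ 0 := by positivity
  show 1 / b ^ 2 * (1 + (u / b) ^ 2)⁻¹ = (b ^ 2 + u ^ 2)⁻¹
  field_simp

lemma intK {b : ℝ} (hb : 0 < b) : Integrable (K b) := by
  refine (int0 hb).mono' (contK hb).aestronglyMeasurable (Eventually.of_forall fun u => ?_)
  have h1 : 0 < (b ^ 2 + u ^ 2) := by positivity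
  rw [Real.norm_eq_abs, abs_of_nonneg (by unfold K; positivity)]
  unfold K
  rw [div_pow, inv_eq_one_div, div_le_div_iff₀ (by positivity) h1]
  nlinarith [mul_nonneg h1.le (sq_nonneg u)]

lemma intK1 {b : ℝ} (hb : 0 < b) : Integrable (fun u => u * K b u) := by
  refine ((int0 hb).const_mul (b / 2)).mono' (continuous_id.mul (contK hb)).aestronglyMeasurable
    (Eventually.of_forall fun u => ?_)
  have h1 : 0 < (b ^ 2 + u ^ 2) := by positivity
  have h3 : |u| * (2 * b) ≤ b ^ 2 + u ^ 2 := by nlinarith [sq_nonneg (|u| - b), sq_abs u]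
  rw [Real.norm_eq_abs, abs_mul, abs_of_nonneg (a := K b u) (by unfold K; positivity)]
  unfold K
  rw [div_pow, ← mul_div_assoc, ← div_eq_mul_inv, div_le_div_iff₀ (by positivity) h1]
  have := mul_le_mul_of_nonneg_left h3 (show 0 ≤ b * (b ^ 2 + u ^ 2) / 2 by positivity)
  nlinarith [this]

lemma intK2 {b : ℝ} (hb : 0 < b) : Integrable (fun u => u ^ 2 * K b u) := by
  refine ((int0 hb).const_mul (b ^ 2)).mono' ((continuous_pow 2).mul (contK hb)).aestronglyMeasurable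
    (Eventually.of_forall fun u => ?_)
  have h1 : 0 < (b ^ 2 + u ^ 2) := by positivity
  rw [Real.norm_eq_abs, abs_of_nonneg (by unfold K; positivity)]
  unfold K
  rw [div_pow, ← mul_div_assoc, ← div_eq_mul_inv, div_le_div_iff₀ (by positivity) h1]
  nlinarith [mul_nonneg (sq_nonneg b) (mul_nonneg h1.le (sq_nonneg b))]

lemma tr {b : ℝ} (hb : 0 < b) {l : Filter ℝ} (hl : Tendsto (fun u : ℝ => |u|) l atTop) :
    Tendsto (fun u : ℝ => u / (b ^ 2 + u ^ 2)) l (𝓝 0) := by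
  have h := tendsto_inv_atTop_zero.comp hl
  refine squeeze_zero_norm' ?_ h
  filter_upwards [hl.eventually_gt_atTop 0] with u hu
  have h1 : 0 < (b ^ 2 + u ^ 2) := by positivity
  simp only [Function.comp, Real.norm_eq_abs]
  rw [abs_div, abs_of_pos h1, inv_eq_one_div, div_le_div_iff₀ h1 hu]
  nlinarith [sq_abs u, sq_nonneg b]

lemma tr0 {b : ℝ} (hb : 0 < b) {l : Filter ℝ} (hl : Tendsto (fun u : ℝ => |u|) l atTop) :
    Tendsto (fun u : ℝ => (b ^ 2 + u ^ 2)⁻¹) l (𝓝 0) := by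
  refine tendsto_inv_atTop_zero.comp ?_
  refine tendsto_atTop_add_const_left _ _ ?_
  have h := (tendsto_pow_atTop (two_ne_zero)).comp hl
  refine h.congr fun u => ?_
  simp

lemma ta {b : ℝ} (hb : 0 < b) : Tendsto (fun u : ℝ => Real.arctan (u / b)) atTop
    (𝓝 (Real.pi / 2)) :=
  (Real.tendsto_arctan_atTop.mono_right nhdsWithin_le_nhds).comp (tendsto_id.atTop_div_const hb)

lemma tb {b : ℝ} (hb : 0 < b) : Tendsto (fun u : ℝ => Real.arctan (u / b)) atBot
    (𝓝 (-(Real.pi / 2))) :=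
  (Real.tendsto_arctan_atBot.mono_right nhdsWithin_le_nhds).comp (tendsto_id.atBot_div_const hb)

lemma dA {b : ℝ} (hb : 0 < b) (u : ℝ) : HasDerivAt (fun u : ℝ => Real.arctan (u / b))
    (b / (b ^ 2 + u ^ 2)) u := by
  have h := ((hasDerivAt_id' u).div_const b).arctan
  refine h.congr_deriv ?_
  have h1 : (b ^ 2 + u ^ 2) ≠ 0 := by positivity
  have h2 : (1 + (u / b) ^ 2) ≠ 0 := by positivity
  field_simp

lemma dB {b : ℝ} (hb : 0 < b) (u : ℝ) : HasDerivAt (fun u : ℝ => u / (b ^ 2 + u ^ 2))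
    ((b ^ 2 - u ^ 2) / (b ^ 2 + u ^ 2) ^ 2) u := by
  have h1 : (b ^ 2 + u ^ 2) ≠ 0 := by positivity
  have h := (hasDerivAt_id' u).div (((hasDerivAt_id' u).pow 2).const_add (b ^ 2)) h1
  refine h.congr_deriv ?_
  congr 1
  simp only [Pi.pow_apply]
  push_cast
  ring

lemma dC {b : ℝ} (hb : 0 < b) (u : ℝ) : HasDerivAt (fun u : ℝ => (b ^ 2 + u ^ 2)⁻¹)
    (-(2 * u) / (b ^ 2 + u ^ 2) ^ 2) u := by
  have h1 : (b ^ 2 + u ^ 2) ≠ 0 := by positivity
  have h := (((hasDerivAt_id' u).pow 2).const_add (b ^ 2)).inv h1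
  refine h.congr_deriv ?_
  congr 1
  push_cast
  ring

lemma I0 {b : ℝ} (hb : 0 < b) : ∫ u, K b u = Real.pi / (2 * b) := by
  have h := integral_of_hasDerivAt_of_tendsto (f := fun u : ℝ =>
    1 / 2 * (u / (b ^ 2 + u ^ 2)) + 1 / (2 * b) * Real.arctan (u / b)) (f' := K b)
    (m := 1 / 2 * 0 + 1 / (2 * b) * (-(Real.pi / 2))) (n := 1 / 2 * 0 + 1 / (2 * b) * (Real.pi / 2))
    (fun u => by
      refine (((dB hb u).const_mul (1 / 2)).add ((dA hb u).const_mul (1 / (2 * b)))).congr_deriv ?_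
      unfold K
      have h1 : (b ^ 2 + u ^ 2) ≠ 0 := by positivity
      field_simp
      ring) (intK hb)
    (((tr hb tendsto_abs_atBot_atTop).const_mul _).add ((tb hb).const_mul _))
    (((tr hb tendsto_abs_atTop_atTop).const_mul _).add ((ta hb).const_mul _))
  rw [h]
  field_simp
  ring

lemma I1 {b : ℝ} (hb : 0 < b) : ∫ u, u * K b u = 0 := by
  have h := integral_of_hasDerivAt_of_tendsto (f := fun u : ℝ =>
    (-(b ^ 2 / 2)) * (b ^ 2 + u ^ 2)⁻¹) (f' := fun u => u * K b u)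
    (m := (-(b ^ 2 / 2)) * 0) (n := (-(b ^ 2 / 2)) * 0)
    (fun u => by
      refine ((dC hb u).const_mul (-(b ^ 2 / 2))).congr_deriv ?_
      unfold K
      have h1 : (b ^ 2 + u ^ 2) ≠ 0 := by positivity
      field_simp) (intK1 hb)
    ((tr0 hb tendsto_abs_atBot_atTop).const_mul _)
    ((tr0 hb tendsto_abs_atTop_atTop).const_mul _)
  rw [h]
  ring

lemma I2 {b : ℝ} (hb : 0 < b) : ∫ u, u ^ 2 * K b u = Real.pi * b / 2 := by
  have h := integral_of_hasDerivAt_of_tendsto (f := fun u : ℝ =>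
    (-(b ^ 2 / 2)) * (u / (b ^ 2 + u ^ 2)) + b / 2 * Real.arctan (u / b))
    (f' := fun u => u ^ 2 * K b u)
    (m := (-(b ^ 2 / 2)) * 0 + b / 2 * (-(Real.pi / 2)))
    (n := (-(b ^ 2 / 2)) * 0 + b / 2 * (Real.pi / 2))
    (fun u => by
      refine (((dB hb u).const_mul (-(b ^ 2 / 2))).add ((dA hb u).const_mul (b / 2))).congr_deriv ?_
      unfold K
      have h1 : (b ^ 2 + u ^ 2) ≠ 0 := by positivity
      field_simp
      ring) (intK2 hb)
    (((tr hb tendsto_abs_atBot_atTop).const_mul _).add ((tb hb).const_mul _))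
    (((tr hb tendsto_abs_atTop_atTop).const_mul _).add ((ta hb).const_mul _))
  rw [h]
  ring

end SZ

open SZ

theorem t_SZ : S_SZ := by
  intro b γ σ hb hσ
  have hc4 : 1 / 4 ≤ σ ^ 2 + γ ^ 2 := by nlinarith [sq_nonneg γ]
  have hc : 0 < σ ^ 2 + γ ^ 2 := by linarith
  have hσ0 : 0 < σ := by linarith
  have hint : Integrable (fun t : ℝ => (b / (b ^ 2 + (t - γ) ^ 2)) ^ 2 *
      (1 / (σ ^ 2 + t ^ 2))) := by
    have h1 := ((intK hb).comp_sub_right γ).mul_const (1 / σ ^ 2)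
    have hcont : Continuous (fun t : ℝ => (b / (b ^ 2 + (t - γ) ^ 2)) ^ 2 *
      (1 / (σ ^ 2 + t ^ 2))) := by
      refine ((contK hb).comp (continuous_id.sub continuous_const)).mul
        (continuous_const.div (by fun_prop) ?_)
      intro x
      positivity
    refine h1.mono' hcont.aestronglyMeasurable (Eventually.of_forall fun t => ?_)
    rw [Real.norm_eq_abs, abs_of_nonneg (by positivity)]
    show K b (t - γ) * (1 / (σ ^ 2 + t ^ 2)) ≤ K b (t - γ) * (1 / σ ^ 2)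
    refine mul_le_mul_of_nonneg_left ?_ (by unfold K; positivity)
    refine one_div_le_one_div_of_le (by positivity) ?_
    nlinarith [sq_nonneg t]
  refine ⟨hint, ?_⟩
  set c : ℝ := σ ^ 2 + γ ^ 2 with hcdef
  have hg : Integrable (fun u : ℝ => 1 / c * K b u + (-(2 * γ / c ^ 2)) * (u * K b u)
      + (-(1 / c ^ 2)) * (u ^ 2 * K b u)) :=
    (((intK hb).const_mul _).add ((intK1 hb).const_mul _)).add ((intK2 hb).const_mul _)
  have hI : ∫ u : ℝ, (1 / c * K b u + (-(2 * γ / c ^ 2)) * (u * K b u)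
      + (-(1 / c ^ 2)) * (u ^ 2 * K b u)) = 1 / c * (Real.pi / (2 * b))
        + (-(1 / c ^ 2)) * (Real.pi * b / 2) := by
    have e1 := integral_add (((intK hb).const_mul (1 / c)).add
      ((intK1 hb).const_mul (-(2 * γ / c ^ 2)))) ((intK2 hb).const_mul (-(1 / c ^ 2)))
    have e2 := integral_add ((intK hb).const_mul (1 / c)) ((intK1 hb).const_mul (-(2 * γ / c ^ 2)))
    simp only [Pi.add_apply] at e1
    rw [e1, e2, integral_const_mul, integral_const_mul, integral_const_mul, I0 hb, I1 hb, I2 hb]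
    ring
  have hle : Real.pi / (2 * b) * (1 - 4 * b ^ 2) / c ≤
      1 / c * (Real.pi / (2 * b)) + (-(1 / c ^ 2)) * (Real.pi * b / 2) := by
    have h1 : 1 / c ≤ 4 := by
      rw [div_le_iff₀ hc]
      linarith
    have h2 : 0 ≤ Real.pi * b / 2 * (1 / c) := by positivity
    have h3 := mul_le_mul_of_nonneg_left h1 h2
    have e1 : Real.pi / (2 * b) * (1 - 4 * b ^ 2) / c =
        1 / c * (Real.pi / (2 * b)) - Real.pi * b / 2 * (1 / c) * 4 := by
      field_simp
    have e2 : (-(1 / c ^ 2)) * (Real.pi * b / 2) = - (Real.pi * b / 2 * (1 / c) * (1 / c)) := by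
      field_simp
    rw [e1, e2]
    linarith
  refine hle.trans ?_
  rw [← hI, ← integral_sub_right_eq_self _ γ]
  refine integral_mono (hg.comp_sub_right γ) hint fun t => ?_
  show 1 / c * K b (t - γ) + (-(2 * γ / c ^ 2)) * ((t - γ) * K b (t - γ))
      + (-(1 / c ^ 2)) * ((t - γ) ^ 2 * K b (t - γ)) ≤ K b (t - γ) * (1 / (σ ^ 2 + t ^ 2))
  have hy : 0 < σ ^ 2 + t ^ 2 := by positivity
  have hK : 0 ≤ K b (t - γ) := by unfold K; positivity
  have h1 : 1 / c + (-(2 * γ / c ^ 2)) * (t - γ) + (-(1 / c ^ 2)) * (t - γ) ^ 2 ≤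
      1 / (σ ^ 2 + t ^ 2) := by
    have e : 1 / (σ ^ 2 + t ^ 2) - (1 / c + (-(2 * γ / c ^ 2)) * (t - γ)
        + (-(1 / c ^ 2)) * (t - γ) ^ 2) = (c - (σ ^ 2 + t ^ 2)) ^ 2 / ((σ ^ 2 + t ^ 2) * c ^ 2) := by
      have hc' : c ≠ 0 := hc.ne'
      have hy' := hy.ne'
      have hσc : σ ^ 2 = c - γ ^ 2 := by rw [hcdef]; ring
      rw [hσc] at hy' ⊢
      field_simp
      ring
    have : 0 ≤ (c - (σ ^ 2 + t ^ 2)) ^ 2 / ((σ ^ 2 + t ^ 2) * c ^ 2) := by positivity
    linarith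
  have h2 := mul_le_mul_of_nonneg_left h1 hK
  linarith

end Pool.Agent.NH13.UV
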