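import Pool.Agent.NH13.UV.Stm

/-!
From an entire function with the symmetry `Y(-conj z) = conj (Y z)` to the structure `HD`.
-/

set_option autoImplicit false

open Complex Filter Topology Set
open scoped ComplexConjugate

namespace Pool.Agent.NH13.UV

namespace yh

/-- the reflection of functions -/
lemma hasDerivAt_rf {g : ℂ → ℂ} {s g' : ℂ} (h : HasDerivAt g g' (-(conj s))) :
    HasDerivAt (fun z => conj (g (-(conj z)))) (-(conj g')) s := by
  have h1 : HasDerivAt (fun w => g (-w)) (-g') (conj s) := by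
    have h2 := HasDerivAt.comp (h₂ := g) (h := fun w : ℂ => -w) (conj s) h (hasDerivAt_neg (conj s))
    rw [mul_neg, mul_one] at h2
    exact h2
  have h3 := h1.conj_conj
  rw [Complex.conj_conj, map_neg] at h3
  exact h3

lemma cont_rf : Continuous (fun z : ℂ => -(conj z)) := continuous_conj.neg

lemma analyticAt_rf {g : ℂ → ℂ} {s : ℂ} (h : AnalyticAt ℂ g (-(conj s))) :
    AnalyticAt ℂ (fun z => conj (g (-(conj z)))) s := by
  rw [analyticAt_iff_eventually_differentiableAt] at h ⊢
  have h2 := (cont_rf.tendsto s).eventually h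
  filter_upwards [h2] with z hz
  exact (hasDerivAt_rf hz.hasDerivAt).differentiableAt

lemma order_rf {Y : ℂ → ℂ} (hY : Differentiable ℂ Y) (hs : ∀ z, Y (-(conj z)) = conj (Y z)) (a : ℂ) :
    analyticOrderAt Y (-(conj a)) = analyticOrderAt Y a := by
  have hs' : ∀ z, Y z = conj (Y (-(conj z))) := fun z => by rw [hs z, Complex.conj_conj]
  have hcc : -(conj (-(conj a))) = a := by rw [map_neg, Complex.conj_conj, neg_neg]
  have ht : Tendsto (fun z : ℂ => -(conj z)) (𝓝 (-(conj a))) (𝓝 a) := by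
    have h2 := cont_rf.tendsto (-(conj a))
    rwa [hcc] at h2
  rcases eq_or_ne (analyticOrderAt Y a) ⊤ with h0 | h0
  · rw [h0, analyticOrderAt_eq_top]
    rw [analyticOrderAt_eq_top] at h0
    filter_upwards [ht.eventually h0] with z hz
    rw [hs' z, hz, map_zero]
  · obtain ⟨n, hn⟩ := ENat.ne_top_iff_exists.mp h0
    rw [← hn]
    obtain ⟨g, hg, hg0, hfg⟩ := ((hY.analyticAt a).analyticOrderAt_eq_natCast).mp hn.symm
    rw [(hY.analyticAt (-(conj a))).analyticOrderAt_eq_natCast]
    have hg' : AnalyticAt ℂ g (-(conj (-(conj a)))) := by rw [hcc]; exact hg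
    refine ⟨fun z => (-1) ^ n * conj (g (-(conj z))), analyticAt_const.mul (analyticAt_rf hg'), ?_, ?_⟩
    · show (-1) ^ n * conj (g (-(conj (-(conj a))))) ≠ 0
      rw [hcc]
      exact mul_ne_zero (pow_ne_zero _ (by norm_num))
        ((map_ne_zero_iff _ (starRingEnd ℂ).injective).2 hg0)
    · filter_upwards [ht.eventually hfg] with z hz
      rw [hs' z, hz]
      simp only [smul_eq_mul, map_mul, map_pow, map_sub, map_neg, Complex.conj_conj]
      rw [← mul_assoc, ← mul_pow]
      congr 2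
      ring

lemma logDeriv_rf {Y : ℂ → ℂ} (hY : Differentiable ℂ Y) (hs : ∀ z, Y (-(conj z)) = conj (Y z))
    (z : ℂ) : logDeriv Y (-(conj z)) = -(conj (logDeriv Y z)) := by
  have hs' : (fun z => conj (Y (-(conj z)))) = Y := by
    funext w
    rw [hs w, Complex.conj_conj]
  have h1 := hasDerivAt_rf (hY (-(conj z))).hasDerivAt
  rw [hs'] at h1
  have h2 : deriv Y (-(conj z)) = -(conj (deriv Y z)) := by
    rw [h1.deriv, map_neg, Complex.conj_conj, neg_neg]
  rw [logDeriv_apply, logDeriv_apply, h2, hs, map_div₀, neg_div]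

end yh

theorem t_Y (h : S_PFC) : S_Y := by
  intro Y h' hY hs hgr h0 h1 hz hg
  have hne : ∀ z : ℂ, h' < z.re → Y z ≠ 0 := by
    intro z hz1 hz2
    have h3 := hz z hz2
    have h4 := le_abs_self z.re
    linarith
  have hP := h Y hY hs hgr (fun s hs' => (hz s hs').trans h1)
  have hsym : ∀ a : ℂ, Y a = 0 → Y (-(conj a)) = 0 := fun a ha => by rw [hs, ha, map_zero]
  obtain ⟨e, he⟩ : ∃ e : {a : ℂ // Y a = 0} ≃ {a : ℂ // Y a = 0},
      ∀ i, ((e i : {a : ℂ // Y a = 0}) : ℂ) = -(conj (i : ℂ)) :=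
    ⟨⟨fun a => ⟨-(conj (a : ℂ)), hsym _ a.2⟩, fun a => ⟨-(conj (a : ℂ)), hsym _ a.2⟩,
      fun a => Subtype.ext (by simp), fun a => Subtype.ext (by simp)⟩, fun i => rfl⟩
  have hord : ∀ i, analyticOrderNatAt Y ((e i : {a : ℂ // Y a = 0}) : ℂ) =
      analyticOrderNatAt Y (i : ℂ) := by
    intro i
    rw [he]
    unfold analyticOrderNatAt
    rw [yh.order_rf hY hs]
  refine ⟨{a : ℂ // Y a = 0}, Subtype.val, fun i => analyticOrderNatAt Y (i : ℂ), ?_⟩
  refine ⟨h0, h1, fun i => hz _ i.2, ⟨e, fun i => ⟨he i, hord i⟩⟩, ?_, ?_, ?_, hg⟩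
  · intro z w hz1 hw1
    exact hP z w (hne z hz1) (hne w hw1)
  · intro z hz1
    have hw : Y (-(conj z)) ≠ 0 := by
      rw [hs]
      exact (map_ne_zero_iff _ (starRingEnd ℂ).injective).2 (hne z hz1)
    have h2 := hP z (-(conj z)) (hne z hz1) hw
    rw [yh.logDeriv_rf hY hs] at h2
    have h3 := Complex.reCLM.hasSum h2
    obtain ⟨r, hr⟩ : ∃ r : {a : ℂ // Y a = 0} → ℝ, ∀ i, r i = (1 / (z - (i : ℂ))).re :=
      ⟨fun i => (1 / (z - (i : ℂ))).re, fun i => rfl⟩
    have hr0 : ∀ i, 0 ≤ r i := by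
      intro i
      rw [hr, one_div, Complex.inv_re]
      refine div_nonneg ?_ (Complex.normSq_nonneg _)
      rw [Complex.sub_re]
      have h4 := hz _ i.2
      have h5 := le_abs_self (i : ℂ).re
      linarith
    have hre : ∀ i : {a : ℂ // Y a = 0}, (1 / (-(conj z) - (i : ℂ))).re = -r (e i) := by
      intro i
      rw [hr, he]
      have h6 : (1 : ℂ) / (-(conj z) - (i : ℂ)) = -(conj (1 / (z - -(conj (i : ℂ))))) := by
        rw [map_div₀, map_one, map_sub, map_neg, Complex.conj_conj, ← div_neg]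
        congr 1
        ring
      rw [h6, Complex.neg_re, Complex.conj_re]
    have h7 : HasSum (fun i : {a : ℂ // Y a = 0} =>
        (analyticOrderNatAt Y (i : ℂ) : ℝ) * r i + (analyticOrderNatAt Y (i : ℂ) : ℝ) * r (e i))
        (2 * (logDeriv Y z).re) := by
      have h8 : (Complex.reCLM (logDeriv Y z - -(conj (logDeriv Y z)))) = 2 * (logDeriv Y z).re := by
        rw [Complex.reCLM_apply, Complex.sub_re, Complex.neg_re, Complex.conj_re]
        ring
      rw [h8] at h3
      refine h3.congr_fun ?_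
      intro i
      rw [Complex.reCLM_apply]
      have h9 : ((analyticOrderNatAt Y (i : ℂ) : ℕ) : ℂ) =
          (((analyticOrderNatAt Y (i : ℂ) : ℕ) : ℝ) : ℂ) := by push_cast; rfl
      rw [h9, Complex.re_ofReal_mul, Complex.sub_re, hre, ← hr]
      ring
    have hs1 : Summable (fun i : {a : ℂ // Y a = 0} => (analyticOrderNatAt Y (i : ℂ) : ℝ) * r i) :=
      Summable.of_nonneg_of_le (fun i => mul_nonneg (Nat.cast_nonneg _) (hr0 i))
        (fun i => le_add_of_nonneg_right (mul_nonneg (Nat.cast_nonneg _) (hr0 (e i)))) h7.summable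
    have hs2 := hs1.hasSum
    have hs3 := (Equiv.hasSum_iff e).2 hs2
    have hs4 : HasSum (fun i : {a : ℂ // Y a = 0} =>
        (analyticOrderNatAt Y (i : ℂ) : ℝ) * r (e i))
        (∑' i : {a : ℂ // Y a = 0}, (analyticOrderNatAt Y (i : ℂ) : ℝ) * r i) := by
      refine hs3.congr_fun ?_
      intro i
      simp only [Function.comp_apply]
      rw [hord]
    have h10 := (hs2.add hs4).unique h7
    have h11 : (∑' i : {a : ℂ // Y a = 0}, (analyticOrderNatAt Y (i : ℂ) : ℝ) * r i) =
        (logDeriv Y z).re := by linarith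
    rw [h11] at hs2
    refine hs2.congr_fun ?_
    intro i
    rw [hr]
  · intro z hz1
    have h3 : DifferentiableAt ℂ (logDeriv Y) z := by
      have h4 : DifferentiableAt ℂ (deriv Y) z := (hY.analyticAt z).deriv.differentiableAt
      exact h4.div (hY z) (hne z hz1)
    exact h3.differentiableWithinAt

end Pool.Agent.NH13.UV
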