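import Pool.Agent.NH13.UV.Stm
import Pool.Agent.H370R2.DirGood
import Pool.Agent.R311.CenFE

/-!
# UV-9: the completed Dirichlet `L`-function: symmetry, growth, zeros
-/

set_option autoImplicit false

open Complex MeasureTheory Filter Topology Set
open scoped ComplexConjugate

namespace Pool.Agent.NH13.UV.yd

/-! ### the Gamma function -/

lemma norm_Gamma_le {s : ℂ} (hs : 0 < s.re) : ‖Complex.Gamma s‖ ≤ Real.Gamma s.re := by
  rw [Complex.Gamma_eq_integral hs, Real.Gamma_eq_integral hs, Complex.GammaIntegral]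
  refine (norm_integral_le_integral_norm _).trans (le_of_eq ?_)
  refine setIntegral_congr_fun measurableSet_Ioi fun x hx => ?_
  have hx' : (0 : ℝ) < x := hx
  simp only [norm_mul]
  rw [Complex.norm_cpow_eq_rpow_re_of_pos hx', Complex.norm_real, Real.norm_eq_abs,
    abs_of_pos (Real.exp_pos _)]
  simp

lemma gamma_le2 {x : ℝ} (hx : 2 ≤ x) : Real.Gamma x ≤ Real.exp (2 * (x + 1) ^ (3 / 2 : ℝ)) := by
  have h0 : (x : ℝ) ≤ ⌈x⌉₊ := Nat.le_ceil x
  have h1 : Real.Gamma x ≤ Real.Gamma ((⌈x⌉₊ : ℝ) + 1) := by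
    apply (Real.Gamma_strictMonoOn_Ici).monotoneOn
    · exact hx
    · show (2 : ℝ) ≤ _
      linarith
    · linarith
  rw [Real.Gamma_nat_eq_factorial] at h1
  have h2 : ((⌈x⌉₊.factorial : ℕ) : ℝ) ≤ (⌈x⌉₊ : ℝ) ^ ⌈x⌉₊ := by exact_mod_cast Nat.factorial_le_pow _
  have hp : (0 : ℝ) < ⌈x⌉₊ := by linarith
  have h3 : (⌈x⌉₊ : ℝ) ^ ⌈x⌉₊ = Real.exp (Real.log ⌈x⌉₊ * ⌈x⌉₊) := by
    rw [← Real.rpow_natCast, Real.rpow_def_of_pos hp]
  have h4 : Real.log ⌈x⌉₊ * ⌈x⌉₊ ≤ 2 * (x + 1) ^ (3 / 2 : ℝ) := by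
    have h5 : Real.log ⌈x⌉₊ ≤ (⌈x⌉₊ : ℝ) ^ (1 / 2 : ℝ) / (1 / 2) :=
      Real.log_le_rpow_div hp.le (by norm_num)
    have h6 : (⌈x⌉₊ : ℝ) ^ (3 / 2 : ℝ) = (⌈x⌉₊ : ℝ) ^ (1 / 2 : ℝ) * ⌈x⌉₊ := by
      have h7 : (3 / 2 : ℝ) = 1 / 2 + 1 := by norm_num
      rw [h7, Real.rpow_add hp, Real.rpow_one]
    have h7 : (⌈x⌉₊ : ℝ) ≤ x + 1 := (Nat.ceil_lt_add_one (by linarith)).le
    have h8 : (⌈x⌉₊ : ℝ) ^ (3 / 2 : ℝ) ≤ (x + 1) ^ (3 / 2 : ℝ) :=
      Real.rpow_le_rpow hp.le h7 (by norm_num)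
    nlinarith
  calc Real.Gamma x ≤ Real.exp (Real.log ⌈x⌉₊ * ⌈x⌉₊) := by rw [← h3]; exact h1.trans h2
    _ ≤ _ := Real.exp_le_exp.2 h4

lemma gamma_le {x : ℝ} (hx : 1 / 4 ≤ x) :
    Real.Gamma x ≤ 4 * Real.exp (2 * (x + 3) ^ (3 / 2 : ℝ)) := by
  have h1 : Real.Gamma (x + 1 + 1) = (x + 1) * Real.Gamma (x + 1) :=
    Real.Gamma_add_one (by linarith)
  have h2 : Real.Gamma (x + 1) = x * Real.Gamma x := Real.Gamma_add_one (by linarith)
  have h3 := gamma_le2 (x := x + 1 + 1) (by linarith)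
  rw [h1, h2, show x + 1 + 1 + 1 = x + 3 by ring] at h3
  have h4 : 0 < Real.Gamma x := Real.Gamma_pos_of_pos (by linarith)
  have h5 : (1 / 4 : ℝ) ≤ (x + 1) * x := by nlinarith
  nlinarith

lemma norm_gammaR_le {s : ℂ} (hs : 1 / 2 ≤ s.re) :
    ‖Gammaℝ s‖ ≤ 4 * Real.exp (2 * (s.re / 2 + 3) ^ (3 / 2 : ℝ)) := by
  have e : (s / 2).re = s.re / 2 := by
    rw [show (2 : ℂ) = ((2 : ℝ) : ℂ) by norm_num, Complex.div_ofReal_re]
  have h3 := norm_Gamma_le (s := s / 2) (by rw [e]; linarith)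
  rw [e] at h3
  have h4 := gamma_le (x := s.re / 2) (by linarith)
  rw [Gammaℝ_def, norm_mul, Complex.norm_cpow_eq_rpow_re_of_pos Real.pi_pos]
  have h5 : Real.pi ^ (-s / 2).re ≤ 1 := by
    apply Real.rpow_le_one_of_one_le_of_nonpos (by linarith [Real.pi_gt_three])
    have e2 : (-s / 2).re = -(s.re / 2) := by
      rw [show (2 : ℂ) = ((2 : ℝ) : ℂ) by norm_num, Complex.div_ofReal_re, neg_re]
      ring
    rw [e2]
    linarith
  calc Real.pi ^ (-s / 2).re * ‖Complex.Gamma (s / 2)‖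
      ≤ 1 * (4 * Real.exp (2 * (s.re / 2 + 3) ^ (3 / 2 : ℝ))) :=
        mul_le_mul h5 (h3.trans h4) (norm_nonneg _) zero_le_one
    _ = _ := one_mul _

lemma norm_gammaFactor_le {q : ℕ} (χ : DirichletCharacter ℂ q) {s : ℂ} (hs : 1 / 2 ≤ s.re) :
    ‖DirichletCharacter.gammaFactor χ s‖ ≤
      4 * Real.exp (2 * (s.re / 2 + 4) ^ (3 / 2 : ℝ)) := by
  have key : ∀ a b : ℝ, 0 ≤ a → a ≤ b →
      4 * Real.exp (2 * a ^ (3 / 2 : ℝ)) ≤ 4 * Real.exp (2 * b ^ (3 / 2 : ℝ)) := by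
    intro a b ha hab
    have h1 : a ^ (3 / 2 : ℝ) ≤ b ^ (3 / 2 : ℝ) := Real.rpow_le_rpow ha hab (by norm_num)
    have h2 := Real.exp_le_exp.2 (show 2 * a ^ (3 / 2 : ℝ) ≤ 2 * b ^ (3 / 2 : ℝ) by linarith)
    linarith
  rcases Pool.Agent.R311.gamma_cases χ with h | h
  · rw [h]
    exact (norm_gammaR_le hs).trans (key _ _ (by linarith) (by linarith))
  · rw [h]
    have e : (s + 1).re = s.re + 1 := by simp
    have h1 := norm_gammaR_le (s := s + 1) (by rw [e]; linarith)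
    rw [e] at h1
    exact h1.trans (key _ _ (by linarith) (by linarith))

/-! ### the completed function -/

section

variable {r : ℕ} [NeZero r] {χ : DirichletCharacter ℂ r}

lemma one_lt (h1 : χ ≠ 1) : 1 < r := by
  rcases Nat.lt_or_ge 1 r with h | h
  · exact h
  · exfalso
    have h0 := NeZero.pos r
    have h2 : r = 1 := by omega
    subst h2
    exact h1 (DirichletCharacter.level_one χ)

lemma cast_ne : (r : ℂ) ≠ 0 := Nat.cast_ne_zero.2 (NeZero.ne r)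

/-- the `L`-function in a half-plane -/
lemma YY_eq (h1 : χ ≠ 1) {z : ℂ} (hz : -(1 / 2) < z.re) :
    YY χ z = (r : ℂ) ^ (z / 2) * (DirichletCharacter.gammaFactor χ (1 / 2 + z) *
      DirichletCharacter.LFunction χ (1 / 2 + z)) := by
  unfold YY
  rw [Pool.Agent.R311.completed_eq (one_lt h1) χ (by
    rw [add_re]
    norm_num
    linarith)]

lemma zero_iff (h1 : χ ≠ 1) {z : ℂ} (hz : -(1 / 2) < z.re) :
    YY χ z = 0 ↔ DirichletCharacter.LFunction χ (1 / 2 + z) = 0 := by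
  rw [YY_eq h1 hz]
  have h2 : (r : ℂ) ^ (z / 2) ≠ 0 := by
    rw [Ne, cpow_eq_zero_iff]
    exact fun h => cast_ne h.1
  have h3 : DirichletCharacter.gammaFactor χ (1 / 2 + z) ≠ 0 :=
    Pool.Agent.R311.gammaFactor_ne χ (by
      rw [add_re]
      norm_num
      linarith)
  rw [mul_eq_zero, mul_eq_zero]
  tauto

lemma ne_right (h1 : χ ≠ 1) {z : ℂ} (hz : 1 / 2 < z.re) : YY χ z ≠ 0 := by
  rw [Ne, zero_iff h1 (by linarith)]
  exact DirichletCharacter.LFunction_ne_zero_of_one_le_re χ (Or.inl h1) (by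
    rw [add_re]
    norm_num
    linarith)

/-- the functional equation -/
lemma fe (hχ : χ.IsPrimitive) (h1 : χ ≠ 1) (z : ℂ) :
    YY χ (-(conj z)) = DirichletCharacter.rootNumber χ * conj (YY χ z) := by
  have h2 := hχ.completedLFunction_one_sub (1 / 2 + conj z)
  have h3 := Pool.Agent.R311.completed_conj (one_lt h1) h1 (1 / 2 + z)
  have e1 : conj (1 / 2 + z) = 1 / 2 + conj z := by
    rw [map_add, map_div₀, map_one, show conj (2 : ℂ) = 2 from Complex.conj_ofNat 2]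
  rw [e1] at h3
  rw [h3, show (1 : ℂ) - (1 / 2 + conj z) = 1 / 2 + -(conj z) by ring,
    show (1 / 2 + conj z - 1 / 2 : ℂ) = conj z by ring] at h2
  have e2 : conj ((r : ℂ) ^ (z / 2)) = (r : ℂ) ^ (conj z / 2) := by
    have h4 := cpow_conj (r : ℂ) (z / 2) (by rw [natCast_arg]; exact Real.pi_pos.ne)
    rw [conj_natCast] at h4
    rw [← h4, map_div₀]
    congr 2
    exact Complex.conj_ofNat 2
  unfold YY
  rw [h2, map_mul, e2]
  have e3 : (r : ℂ) ^ (-(conj z) / 2) * (r : ℂ) ^ (conj z) = (r : ℂ) ^ (conj z / 2) := by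
    rw [← cpow_add _ _ cast_ne]
    congr 1
    ring
  rw [← e3]
  ring

lemma root_norm (hχ : χ.IsPrimitive) (h1 : χ ≠ 1) :
    DirichletCharacter.rootNumber χ * conj (DirichletCharacter.rootNumber χ) = 1 := by
  have h2 := fe hχ h1 (1 : ℂ)
  have h3 := fe hχ h1 (-(conj (1 : ℂ)))
  rw [h2, map_neg, conj_conj, neg_neg, map_mul, conj_conj] at h3
  have h4 : YY χ 1 ≠ 0 := ne_right h1 (by norm_num)
  have h5 : (DirichletCharacter.rootNumber χ * conj (DirichletCharacter.rootNumber χ)) * YY χ 1 =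
      1 * YY χ 1 := by
    rw [one_mul, mul_assoc]
    exact h3.symm
  exact mul_right_cancel₀ h4 h5

lemma exists_c (hχ : χ.IsPrimitive) (h1 : χ ≠ 1) :
    ∃ c : ℂ, c ≠ 0 ∧ ∀ z, c * YY χ (-(conj z)) = conj (c * YY χ z) := by
  set w := DirichletCharacter.rootNumber χ with hw
  have hw1 : w * conj w = 1 := root_norm hχ h1
  obtain ⟨c, hc⟩ := IsAlgClosed.exists_pow_nat_eq (conj w) (n := 2) (by norm_num)
  have hc0 : c ≠ 0 := by
    intro h
    rw [h] at hc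
    rw [← hc] at hw1
    norm_num at hw1
  have hn : ‖c‖ = 1 := by
    have h2 : ‖w‖ * ‖w‖ = 1 := by
      have := congrArg norm hw1
      rwa [norm_mul, norm_one, RCLike.norm_conj] at this
    have h3 : ‖w‖ = 1 := by nlinarith [norm_nonneg w]
    have h4 : ‖c‖ ^ 2 = 1 := by
      rw [← norm_pow, hc, RCLike.norm_conj, h3]
    nlinarith [norm_nonneg c]
  have hcc : c * conj c = 1 := by
    rw [mul_conj, normSq_eq_norm_sq, hn]
    norm_num
  have key : c * w = conj c := by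
    have h2 : c * (c * w) = c * conj c := by
      rw [hcc, ← mul_assoc, ← pow_two, hc, mul_comm]
      exact hw1
    exact mul_left_cancel₀ hc0 h2
  refine ⟨c, hc0, fun z => ?_⟩
  rw [fe hχ h1, ← mul_assoc, map_mul, ← hw, key]

lemma norm_symm (hχ : χ.IsPrimitive) (h1 : χ ≠ 1) (z : ℂ) :
    ‖YY χ (-(conj z))‖ = ‖YY χ z‖ := by
  obtain ⟨c, hc, h⟩ := exists_c hχ h1
  have h2 := congrArg norm (h z)
  rw [RCLike.norm_conj, norm_mul, norm_mul] at h2
  exact mul_left_cancel₀ (norm_ne_zero_iff.2 hc) h2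

lemma diff (h1 : χ ≠ 1) : Differentiable ℂ (YY χ) := by
  unfold YY
  apply Differentiable.mul
  · intro z
    exact (differentiableAt_id.div_const 2).const_cpow (Or.inl cast_ne)
  · exact (DirichletCharacter.differentiable_completedLFunction h1).comp
      ((differentiable_const _).add differentiable_id)

lemma norm_L_le (h1 : χ ≠ 1) {s : ℂ} (hs : 1 / 2 ≤ s.re) :
    ‖DirichletCharacter.LFunction χ s‖ ≤ 2 * (r + 1) * ‖s‖ := by
  have hA : ∀ u : ℝ, ‖∑ k ∈ Finset.Icc 1 ⌊u⌋₊, χ (k : ZMod r)‖ ≤ (r + 1 : ℝ) :=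
    fun u => H370.DL.norm_sum_Icc_le h1 _
  rw [H370.DL.L_integral h1 (by linarith), norm_mul]
  have h4 := H370.DL.J_bound hA (s := s) (by linarith)
  have h5 : (r + 1 : ℝ) / s.re ≤ 2 * (r + 1) := by
    rw [div_le_iff₀ (by linarith)]
    have : (0 : ℝ) ≤ r := Nat.cast_nonneg r
    nlinarith
  have h6 := h4.trans h5
  have h7 := mul_le_mul_of_nonneg_left h6 (norm_nonneg s)
  linarith

lemma grow_right (h1 : χ ≠ 1) {z : ℂ} (hz : 0 ≤ z.re) :
    ‖YY χ z‖ ≤ Real.exp ((Real.log r + 2 * (r + 1) + 60) * (1 + ‖z‖) ^ (3 / 2 : ℝ)) := by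
  have hr : (1 : ℝ) < r := by exact_mod_cast one_lt h1
  have hn0 := norm_nonneg z
  have hre : z.re ≤ ‖z‖ := (le_abs_self _).trans (Complex.abs_re_le_norm z)
  have h1z : 1 ≤ 1 + ‖z‖ := by linarith
  obtain ⟨Y, hY⟩ : ∃ Y : ℝ, Y = (1 + ‖z‖) ^ (3 / 2 : ℝ) := ⟨_, rfl⟩
  have hY1 : 1 + ‖z‖ ≤ Y := by
    rw [hY]
    conv_lhs => rw [← Real.rpow_one (1 + ‖z‖)]
    exact Real.rpow_le_rpow_of_exponent_le h1z (by norm_num)
  have hs : (1 / 2 + z).re = 1 / 2 + z.re := by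
    rw [add_re]
    norm_num
  rw [← hY, YY_eq h1 (by linarith), norm_mul, norm_mul]
  have b1 : ‖(r : ℂ) ^ (z / 2)‖ ≤ Real.exp (Real.log r * Y) := by
    have e : (z / 2).re = z.re / 2 := by
      rw [show (2 : ℂ) = ((2 : ℝ) : ℂ) by norm_num, Complex.div_ofReal_re]
    have e2 : (r : ℂ) = ((r : ℝ) : ℂ) := by norm_cast
    rw [e2, Complex.norm_cpow_eq_rpow_re_of_pos (by linarith), e,
      Real.rpow_def_of_pos (by linarith)]
    apply Real.exp_le_exp.2
    apply mul_le_mul_of_nonneg_left _ (Real.log_nonneg hr.le)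
    linarith
  have b2 : ‖DirichletCharacter.gammaFactor χ (1 / 2 + z)‖ ≤ Real.exp (60 * Y) := by
    refine (norm_gammaFactor_le χ (by rw [hs]; linarith)).trans ?_
    rw [hs]
    have h2 : ((1 / 2 + z.re) / 2 + 4 : ℝ) ^ (3 / 2 : ℝ) ≤ (9 * (1 + ‖z‖)) ^ (3 / 2 : ℝ) :=
      Real.rpow_le_rpow (by linarith) (by linarith) (by norm_num)
    have h3 : (9 : ℝ) ^ (3 / 2 : ℝ) = 27 := by
      rw [show (9 : ℝ) = 3 ^ (2 : ℝ) by norm_num, ← Real.rpow_mul (by norm_num)]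
      norm_num
    rw [Real.mul_rpow (by norm_num) (by linarith), h3, ← hY] at h2
    have h4 : (4 : ℝ) ≤ Real.exp (4 * Y) := by
      have := Real.add_one_le_exp (4 * Y)
      linarith
    calc 4 * Real.exp (2 * ((1 / 2 + z.re) / 2 + 4) ^ (3 / 2 : ℝ))
        ≤ Real.exp (4 * Y) * Real.exp (2 * (27 * Y)) :=
          mul_le_mul h4 (Real.exp_le_exp.2 (by linarith)) (Real.exp_pos _).le (Real.exp_pos _).le
      _ = Real.exp (58 * Y) := by
          rw [← Real.exp_add]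
          congr 1
          ring
      _ ≤ Real.exp (60 * Y) := Real.exp_le_exp.2 (by linarith)
  have b3 : ‖DirichletCharacter.LFunction χ (1 / 2 + z)‖ ≤ Real.exp (2 * (r + 1) * Y) := by
    have h2 := norm_L_le h1 (s := 1 / 2 + z) (by rw [hs]; linarith)
    have h3 : ‖1 / 2 + z‖ ≤ Y := by
      refine (norm_add_le _ _).trans ?_
      have : ‖(1 / 2 : ℂ)‖ = 1 / 2 := by norm_num
      rw [this]
      linarith
    have h4 : 2 * ((r : ℝ) + 1) * ‖1 / 2 + z‖ ≤ 2 * (r + 1) * Y :=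
      mul_le_mul_of_nonneg_left h3 (by linarith)
    have h5 := Real.add_one_le_exp (2 * ((r : ℝ) + 1) * Y)
    linarith
  calc ‖(r : ℂ) ^ (z / 2)‖ * (‖DirichletCharacter.gammaFactor χ (1 / 2 + z)‖ *
        ‖DirichletCharacter.LFunction χ (1 / 2 + z)‖)
      ≤ Real.exp (Real.log r * Y) * (Real.exp (60 * Y) * Real.exp (2 * (r + 1) * Y)) := by
        gcongr
    _ = Real.exp ((Real.log r + 2 * (r + 1) + 60) * Y) := by
        rw [← Real.exp_add, ← Real.exp_add]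
        congr 1
        ring

lemma gr (hχ : χ.IsPrimitive) (h1 : χ ≠ 1) : Gr (YY χ) := by
  have hr : (1 : ℝ) < r := by exact_mod_cast one_lt h1
  refine ⟨Real.log r + 2 * (r + 1) + 60, by
    have := Real.log_nonneg hr.le
    linarith, fun z => ?_⟩
  rcases le_or_gt 0 z.re with hz | hz
  · exact grow_right h1 hz
  · rw [← norm_symm hχ h1 z]
    have h2 := grow_right h1 (z := -(conj z)) (by
      rw [neg_re, conj_re]
      linarith)
    rwa [norm_neg, RCLike.norm_conj] at h2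

lemma strip (hχ : χ.IsPrimitive) (h1 : χ ≠ 1) (z : ℂ) (hz : YY χ z = 0) : |z.re| ≤ 1 / 2 := by
  rw [abs_le]
  constructor
  · by_contra h
    push Not at h
    have h2 := ne_right h1 (z := -(conj z)) (by
      rw [neg_re, conj_re]
      linarith)
    apply h2
    rw [fe hχ h1, hz, map_zero, mul_zero]
  · by_contra h
    push Not at h
    exact ne_right h1 h hz

end

end Pool.Agent.NH13.UV.yd

namespace Pool.Agent.NH13.UV

theorem t_YYd : S_YYd := by
  intro r _ χ hχ h1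
  exact ⟨yd.diff h1, yd.gr hχ h1, yd.exists_c hχ h1, yd.strip hχ h1, fun z hz => yd.zero_iff h1 hz⟩

end Pool.Agent.NH13.UV
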