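import Pool.Agent.NH13.UV.Aq
import Pool.Agent.NH13.UV.Avg
import Pool.Agent.NH13.UV.Bp
import Pool.Agent.NH13.UV.Cond
import Pool.Agent.NH13.UV.Gr1
import Pool.Agent.NH13.UV.HDq
import Pool.Agent.NH13.UV.HP
import Pool.Agent.NH13.UV.Imp
import Pool.Agent.NH13.UV.K1
import Pool.Agent.NH13.UV.K2
import Pool.Agent.NH13.UV.LDg
import Pool.Agent.NH13.UV.Low
import Pool.Agent.NH13.UV.Me
import Pool.Agent.NH13.UV.PFC
import Pool.Agent.NH13.UV.PPn
import Pool.Agent.NH13.UV.Pl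
import Pool.Agent.NH13.UV.Pt
import Pool.Agent.NH13.UV.Rel
import Pool.Agent.NH13.UV.SZ
import Pool.Agent.NH13.UV.YH
import Pool.Agent.NH13.UV.YYd

/-!
# Plan UV: the relation between primes and zeros and the unconditional lower bound
-/

set_option autoImplicit false

open Complex MeasureTheory Filter Topology Set

namespace Pool.Agent.NH13.UV.Fin1

theorem gr : S_gr := t_gr
theorem k1 : S_K1 := t_K1 t_gr t_HP
theorem k2 : S_K2 := t_K2 t_SZ
theorem yy : S_Y := t_Y t_PFC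
theorem hdq : S_HDq := t_HDq yy t_YYd t_LD
theorem ptt : S_pt := t_pt t_YYd t_LD t_imp
theorem pl : S_Pl := t_Pl t_Me
theorem bp : S_Bp := t_Bp t_YYd ptt t_cond t_avg
theorem aq : S_A := t_A k1 bp
theorem rel : S_rel := t_rel aq pl t_Me ptt t_cond hdq k1
theorem low : S_low := t_low k2 k1 bp t_Me hdq

/-- the unconditional lower bound for the sum over the nonprincipal characters -/
theorem lower_chars : ∀ κ ε : ℝ, 0 < κ → 0 < ε → ∃ q0 : ℕ,
    ∀ (q : ℕ) [NeZero q], q0 ≤ q →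
      ENNReal.ofReal (((1 / κ - 1) / 2 - ε) * (Real.log q ^ 2 * q.totient)) ≤
        ∑ χ ∈ NT q, ∫⁻ u in Ioi (1 : ℝ), ENNReal.ofReal (‖psi χ u‖ ^ 2 *
          u ^ (-2 - 2 * κ / Real.log q)) := t_Pn rel low

end Pool.Agent.NH13.UV.Fin1
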