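import Pool.Agent.NH13.UV.Stm

/-!
Project UV, part 21: finiteness of the integrals from the upper bounds in the windows.
-/

set_option autoImplicit false

open Complex MeasureTheory Filter Topology Set

namespace Pool.Agent.NH13.UV

namespace Fn

lemma psiAP_nn (x : ℝ) (q a : ℕ) : 0 ≤ psiAP x q a :=
  Finset.sum_nonneg (fun _ _ => ArithmeticFunction.vonMangoldt_nonneg)

lemma psiAP_mono {x y : ℝ} (h : x ≤ y) (q a : ℕ) : psiAP x q a ≤ psiAP y q a := by
  unfold psiAP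
  apply Finset.sum_le_sum_of_subset_of_nonneg
  · apply Finset.filter_subset_filter
    exact Finset.Icc_subset_Icc_right (Nat.floor_mono h)
  · intro _ _ _
    exact ArithmeticFunction.vonMangoldt_nonneg

lemma psiAP_meas (q a : ℕ) : Measurable (fun x => psiAP x q a) := by
  have h : (fun x : ℝ => psiAP x q a) = (fun n : ℕ => ∑ m ∈ (Finset.Icc 1 n).filter
      (fun m => m % q = a), ArithmeticFunction.vonMangoldt m) ∘ (fun x : ℝ => ⌊x⌋₊) := rfl
  rw [h]
  exact (measurable_from_top).comp Nat.measurable_floor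

lemma VV_nn (x : ℝ) (q : ℕ) : 0 ≤ VV x q := Finset.sum_nonneg (fun _ _ => sq_nonneg _)

lemma VV_meas (q : ℕ) : Measurable (fun x => VV x q) := by
  unfold VV
  apply Finset.measurable_fun_sum
  intro a _
  exact ((psiAP_meas q a).sub (measurable_id.div_const _)).pow_const 2

lemma VV_bd (q : ℕ) (X : ℝ) : ∃ M : ℝ, 0 ≤ M ∧ ∀ x, 0 ≤ x → x ≤ X → VV x q ≤ M := by
  refine ⟨∑ a ∈ (Finset.range q).filter (fun a => a.Coprime q),
    (psiAP X q a + X / q.totient) ^ 2, Finset.sum_nonneg (fun _ _ => sq_nonneg _), ?_⟩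
  intro x hx hxX
  unfold VV
  apply Finset.sum_le_sum
  intro a _
  have h1 := psiAP_nn x q a
  have h2 := psiAP_mono hxX q a
  have h3 : 0 ≤ x / (q.totient : ℝ) := by positivity
  have h4 : x / (q.totient : ℝ) ≤ X / q.totient := by gcongr
  apply sq_le_sq'
  · linarith
  · linarith

/-- the window integral as a Lebesgue integral -/
lemma win (q : ℕ) (hq : 2 ≤ q) (b : ℝ) (hb : 1 ≤ b) :
    ∫⁻ x in Ioc (q : ℝ) ((q : ℝ) ^ b), ENNReal.ofReal (VV x q / x ^ 2) =
      ENNReal.ofReal (Wv q 1 b * ((b - 1) * Real.log q ^ 2)) ∨ b = 1 := by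
  rcases eq_or_lt_of_le hb with h | h
  · exact Or.inr h.symm
  left
  have hq1 : (1 : ℝ) < q := by exact_mod_cast (by omega : 1 < q)
  have hq0 : (0 : ℝ) < q := by linarith
  have hle : (q : ℝ) ≤ (q : ℝ) ^ b := by
    calc (q : ℝ) = (q : ℝ) ^ (1 : ℝ) := (Real.rpow_one _).symm
      _ ≤ (q : ℝ) ^ b := Real.rpow_le_rpow_of_exponent_le hq1.le hb
  have hlog : 0 < Real.log q := Real.log_pos hq1
  unfold Wv
  rw [div_mul_cancel₀ _ (by
    have : 0 < (b - 1) * Real.log q ^ 2 := mul_pos (by linarith) (by positivity)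
    exact this.ne'), Real.rpow_one, intervalIntegral.integral_of_le hle]
  obtain ⟨M, hM0, hM⟩ := VV_bd q ((q : ℝ) ^ b)
  rw [ofReal_integral_eq_lintegral_ofReal]
  · apply Measure.integrableOn_of_bounded (M := M)
    · simp
    · exact ((VV_meas q).div (measurable_id.pow_const 2)).aestronglyMeasurable
    · rw [ae_restrict_iff' measurableSet_Ioc]
      refine Eventually.of_forall (fun x hx => ?_)
      have hx1 : 1 < x := lt_trans hq1 hx.1
      rw [Real.norm_of_nonneg (div_nonneg (VV_nn x q) (by positivity))]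
      rw [div_le_iff₀ (by positivity)]
      have h1 := hM x (by linarith) hx.2
      have h2 : 1 ≤ x ^ 2 := by nlinarith
      nlinarith
  · exact Eventually.of_forall (fun x => div_nonneg (VV_nn x q) (sq_nonneg x))

lemma tail (C : ℝ) (hC : 0 ≤ C) (η : ℝ) (hη : 0 < η) :
    ∫⁻ x in Ioi (1 : ℝ), ENNReal.ofReal (C * (Real.log x + 1) ^ 2 * x ^ (-2 - η)) < ⊤ := by
  have h1 : IntegrableOn (fun x : ℝ => C * 25 * x ^ (-(3 / 2) : ℝ)) (Ioi 1) :=
    (integrableOn_Ioi_rpow_of_lt (by norm_num) one_pos).const_mul (C * 25)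
  refine lt_of_le_of_lt (lintegral_mono_ae ?_) h1.lintegral_lt_top
  refine (ae_restrict_iff' measurableSet_Ioi).2 (Eventually.of_forall (fun x hx => ?_))
  have hx1 : (1 : ℝ) < x := hx
  have hx0 : 0 < x := by linarith
  apply ENNReal.ofReal_le_ofReal
  have h2 : Real.log x ≤ 4 * x ^ (1 / 4 : ℝ) := by
    have := Real.log_le_rpow_div hx0.le (show (0 : ℝ) < 1 / 4 by norm_num)
    linarith
  have h3 : 1 ≤ x ^ (1 / 4 : ℝ) := Real.one_le_rpow hx1.le (by norm_num)
  have h4 : 0 ≤ Real.log x := Real.log_nonneg hx1.le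
  have h5 : (Real.log x + 1) ^ 2 ≤ 25 * x ^ (1 / 2 : ℝ) := by
    calc (Real.log x + 1) ^ 2 ≤ (5 * x ^ (1 / 4 : ℝ)) ^ 2 := by gcongr; linarith
      _ = 25 * x ^ (1 / 2 : ℝ) := by
          rw [mul_pow, ← Real.rpow_natCast (x ^ (1 / 4 : ℝ)) 2, ← Real.rpow_mul hx0.le]
          norm_num
  have h6 : x ^ (1 / 2 : ℝ) * x ^ (-2 - η) ≤ x ^ (-(3 / 2) : ℝ) := by
    rw [← Real.rpow_add hx0]
    apply Real.rpow_le_rpow_of_exponent_le hx1.le
    linarith
  calc C * (Real.log x + 1) ^ 2 * x ^ (-2 - η)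
      ≤ C * (25 * x ^ (1 / 2 : ℝ)) * x ^ (-2 - η) := by gcongr
    _ = C * 25 * (x ^ (1 / 2 : ℝ) * x ^ (-2 - η)) := by ring
    _ ≤ C * 25 * x ^ (-(3 / 2) : ℝ) := by gcongr

/-- one window -/
lemma one (b η : ℝ) (hb : 2 ≤ b) (hη : 0 < η) (hbη : 5 ≤ η * (b / 2)) (Q : ℕ) (hQ : 2 ≤ Q)
    (hW : Wv Q 1 b ≤ 2) :
    ∫⁻ x in Ioc ((Q : ℝ) ^ (b / 2)) ((Q : ℝ) ^ b),
      ENNReal.ofReal (2 * Q * VV x Q * x ^ (-2 - η)) ≤ ENNReal.ofReal (4 * (b - 1) / Q ^ 2) := by
  have hQ1 : (1 : ℝ) < Q := by exact_mod_cast (by omega : 1 < Q)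
  have hQ0 : (0 : ℝ) < Q := by linarith
  have hlog : 0 < Real.log Q := Real.log_pos hQ1
  have hle : (Q : ℝ) ≤ (Q : ℝ) ^ (b / 2) := by
    calc (Q : ℝ) = (Q : ℝ) ^ (1 : ℝ) := (Real.rpow_one _).symm
      _ ≤ (Q : ℝ) ^ (b / 2) := Real.rpow_le_rpow_of_exponent_le hQ1.le (by linarith)
  have hfac : ((Q : ℝ) ^ (b / 2)) ^ (-η) ≤ (Q : ℝ) ^ (-5 : ℝ) := by
    rw [← Real.rpow_mul hQ0.le]
    apply Real.rpow_le_rpow_of_exponent_le hQ1.le
    linarith
  have hQ5 : (Q : ℝ) ^ (-5 : ℝ) = 1 / (Q : ℝ) ^ 5 := by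
    rw [Real.rpow_neg hQ0.le, one_div]
    norm_cast
  have hwin := (win Q hQ b (by linarith)).resolve_right (by linarith)
  calc ∫⁻ x in Ioc ((Q : ℝ) ^ (b / 2)) ((Q : ℝ) ^ b),
        ENNReal.ofReal (2 * Q * VV x Q * x ^ (-2 - η))
      ≤ ∫⁻ x in Ioc ((Q : ℝ) ^ (b / 2)) ((Q : ℝ) ^ b),
          ENNReal.ofReal (2 * Q * (1 / (Q : ℝ) ^ 5)) * ENNReal.ofReal (VV x Q / x ^ 2) := by
        refine lintegral_mono_ae ?_
        refine (ae_restrict_iff' measurableSet_Ioc).2 (Eventually.of_forall (fun x hx => ?_))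
        have hxQ : (Q : ℝ) < x := lt_of_le_of_lt hle hx.1
        have hx0 : 0 < x := by linarith
        rw [← ENNReal.ofReal_mul (by positivity)]
        apply ENNReal.ofReal_le_ofReal
        have e1 : x ^ (-2 - η) = (1 / x ^ 2) * x ^ (-η) := by
          rw [sub_eq_add_neg, Real.rpow_add hx0, Real.rpow_neg hx0.le, one_div]
          norm_cast
        have e2 : x ^ (-η) ≤ ((Q : ℝ) ^ (b / 2)) ^ (-η) := by
          apply Real.rpow_le_rpow_of_nonpos _ hx.1.le (by linarith)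
          positivity
        have e3 : x ^ (-η) ≤ 1 / (Q : ℝ) ^ 5 := by
          rw [← hQ5]; exact e2.trans hfac
        have e4 := VV_nn x Q
        calc 2 * Q * VV x Q * x ^ (-2 - η) = 2 * Q * VV x Q * (1 / x ^ 2) * x ^ (-η) := by
              rw [e1]; ring
          _ ≤ 2 * Q * VV x Q * (1 / x ^ 2) * (1 / (Q : ℝ) ^ 5) := by gcongr
          _ = 2 * Q * (1 / (Q : ℝ) ^ 5) * (VV x Q / x ^ 2) := by ring
    _ ≤ ∫⁻ x in Ioc (Q : ℝ) ((Q : ℝ) ^ b),
          ENNReal.ofReal (2 * Q * (1 / (Q : ℝ) ^ 5)) * ENNReal.ofReal (VV x Q / x ^ 2) :=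
        lintegral_mono_set (Ioc_subset_Ioc_left hle)
    _ = ENNReal.ofReal (2 * Q * (1 / (Q : ℝ) ^ 5)) *
          ENNReal.ofReal (Wv Q 1 b * ((b - 1) * Real.log Q ^ 2)) := by
        have hm : Measurable (fun x : ℝ => ENNReal.ofReal (VV x Q / x ^ 2)) :=
          ((VV_meas Q).div (measurable_id.pow_const 2)).ennreal_ofReal
        rw [lintegral_const_mul _ hm, hwin]
    _ = ENNReal.ofReal (2 * Q * (1 / (Q : ℝ) ^ 5) *
          (Wv Q 1 b * ((b - 1) * Real.log Q ^ 2))) := by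
        rw [← ENNReal.ofReal_mul (by positivity)]
    _ ≤ ENNReal.ofReal (4 * (b - 1) / Q ^ 2) := by
        apply ENNReal.ofReal_le_ofReal
        have e1 : Real.log Q ≤ Q := by
          have := Real.log_le_sub_one_of_pos hQ0
          linarith
        have hb1 : 0 ≤ b - 1 := by linarith
        calc 2 * Q * (1 / (Q : ℝ) ^ 5) * (Wv Q 1 b * ((b - 1) * Real.log Q ^ 2))
            ≤ 2 * Q * (1 / (Q : ℝ) ^ 5) * (2 * ((b - 1) * (Q : ℝ) ^ 2)) := by gcongr
          _ = 4 * (b - 1) / Q ^ 2 := by field_simp; ring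

end Fn

open Fn in
/-- UV-21 -/
theorem t_fin (h : S_ref) : S_fin := by
  classical
  intro hU q hq η hη
  -- the parameter `b`
  obtain ⟨b, hb2, hbη⟩ : ∃ b : ℝ, 2 ≤ b ∧ 5 ≤ η * (b / 2) := by
    refine ⟨2 + 10 / η, by have : 0 < 10 / η := by positivity
                           linarith, ?_⟩
    have : η * ((2 + 10 / η) / 2) = η + 5 := by field_simp; ring
    rw [this]; linarith
  obtain ⟨Q0, hQ0⟩ := eventually_atTop.1 (hU 1 b le_rfl (by linarith) 1 one_pos)
  -- the moduli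
  obtain ⟨j0, hj0⟩ : ∃ j0 : ℕ, Q0 ≤ 2 ^ j0 ∧ 2 ≤ 2 ^ j0 := by
    refine ⟨Q0 + 1, ?_, ?_⟩
    · exact (Nat.lt_two_pow_self).le.trans (Nat.pow_le_pow_right (by norm_num) (by omega))
    · calc 2 = 2 ^ 1 := rfl
        _ ≤ 2 ^ (Q0 + 1) := Nat.pow_le_pow_right (by norm_num) (by omega)
  set Q : ℕ → ℕ := fun j => q * 2 ^ (j0 + j) with hQdef
  have hQge : ∀ j, 2 ^ j0 * 2 ^ j ≤ Q j := by
    intro j
    rw [hQdef, ← pow_add]
    exact Nat.le_mul_of_pos_left _ (by omega)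
  have hQ2 : ∀ j, 2 ≤ Q j := fun j => by
    have h1 := hQge j
    have h2 : 1 ≤ 2 ^ j := Nat.one_le_two_pow
    calc 2 ≤ 2 ^ j0 * 1 := by rw [mul_one]; exact hj0.2
      _ ≤ 2 ^ j0 * 2 ^ j := Nat.mul_le_mul_left _ h2
      _ ≤ Q j := h1
  have hQQ0 : ∀ j, Q0 ≤ Q j := fun j => by
    have h1 := hQge j
    have h2 : 1 ≤ 2 ^ j := Nat.one_le_two_pow
    calc Q0 ≤ 2 ^ j0 * 1 := by rw [mul_one]; exact hj0.1
      _ ≤ 2 ^ j0 * 2 ^ j := Nat.mul_le_mul_left _ h2
      _ ≤ Q j := h1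
  have hQj : ∀ j, 2 ^ j ≤ Q j := fun j => by
    have h1 := hQge j
    have h2 : 1 ≤ 2 ^ j0 := Nat.one_le_two_pow
    calc 2 ^ j = 1 * 2 ^ j := (one_mul _).symm
      _ ≤ 2 ^ j0 * 2 ^ j := Nat.mul_le_mul_right _ h2
      _ ≤ Q j := h1
  have hQs : ∀ j, Q (j + 1) = 2 * Q j := fun j => by
    rw [hQdef]
    show q * 2 ^ (j0 + (j + 1)) = 2 * (q * 2 ^ (j0 + j))
    rw [← add_assoc, pow_succ]; ring
  have hW : ∀ j, Wv (Q j) 1 b ≤ 2 := fun j => by
    have := hQ0 (Q j) (hQQ0 j)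
    linarith
  have hQr : ∀ j, (2 : ℝ) ≤ Q j := fun j => by exact_mod_cast hQ2 j
  obtain ⟨X0, hX0⟩ : ∃ X0 : ℝ, X0 = (Q 0 : ℝ) ^ (b / 2) := ⟨_, rfl⟩
  have hX1 : 1 ≤ X0 := by
    rw [hX0]
    exact Real.one_le_rpow (by have := hQr 0; linarith) (by linarith)
  -- the covering
  have hcov : ∀ x : ℝ, X0 < x → ∃ j, (Q j : ℝ) ^ (b / 2) < x ∧ x ≤ (Q j : ℝ) ^ b := by
    intro x hx
    have hex : ∃ j, x ≤ (Q (j + 1) : ℝ) ^ (b / 2) := by
      obtain ⟨n, hn⟩ := exists_nat_ge x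
      refine ⟨n, ?_⟩
      have h1 : (n : ℝ) ≤ Q (n + 1) := by
        have : n ≤ Q (n + 1) :=
          ((Nat.lt_two_pow_self).le.trans (Nat.pow_le_pow_right (by norm_num)
            (Nat.le_succ n))).trans (hQj (n + 1))
        exact_mod_cast this
      have h2 : (1 : ℝ) ≤ Q (n + 1) := by have := hQr (n + 1); linarith
      calc x ≤ Q (n + 1) := hn.trans h1
        _ = (Q (n + 1) : ℝ) ^ (1 : ℝ) := (Real.rpow_one _).symm
        _ ≤ (Q (n + 1) : ℝ) ^ (b / 2) := Real.rpow_le_rpow_of_exponent_le h2 (by linarith)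
    refine ⟨Nat.find hex, ?_, ?_⟩
    · rcases Nat.eq_zero_or_pos (Nat.find hex) with h0 | h0
      · rw [h0, ← hX0]; exact hx
      · have h1 := Nat.find_min hex (m := Nat.find hex - 1) (by omega)
        rw [not_le, Nat.sub_add_cancel h0] at h1
        exact h1
    · refine (Nat.find_spec hex).trans ?_
      rw [hQs]
      have h1 := hQr (Nat.find hex)
      have h2 : ((2 * Q (Nat.find hex) : ℕ) : ℝ) ≤ (Q (Nat.find hex) : ℝ) ^ (2 : ℝ) := by
        rw [Real.rpow_two]; push_cast; nlinarith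
      calc ((2 * Q (Nat.find hex) : ℕ) : ℝ) ^ (b / 2)
          ≤ ((Q (Nat.find hex) : ℝ) ^ (2 : ℝ)) ^ (b / 2) :=
            Real.rpow_le_rpow (by positivity) h2 (by linarith)
        _ = (Q (Nat.find hex) : ℝ) ^ b := by
            rw [← Real.rpow_mul (by linarith)]
            congr 1; ring
  -- the pointwise bound
  set g : ℕ → ℝ → ENNReal := fun j => (Ioc ((Q j : ℝ) ^ (b / 2)) ((Q j : ℝ) ^ b)).indicator
    (fun x => ENNReal.ofReal (2 * Q j * VV x (Q j) * x ^ (-2 - η))) with hg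
  have hgm : ∀ j, Measurable (g j) := fun j =>
    (((measurable_const.mul (VV_meas (Q j))).mul
      (measurable_id.pow_const _)).ennreal_ofReal).indicator measurableSet_Ioc
  have hpt : ∀ x ∈ Ioi X0, ENNReal.ofReal (VV x q * x ^ (-2 - η)) ≤
      (∑' j, g j x) + ENNReal.ofReal (2 * q * (Real.log x + 1) ^ 2 * x ^ (-2 - η)) := by
    intro x hx
    obtain ⟨j, hj1, hj2⟩ := hcov x hx
    have hx1 : 1 < x := lt_of_le_of_lt hX1 hx
    have hx0 : 0 < x := by linarith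
    have hlx : 0 ≤ Real.log x := Real.log_nonneg hx1.le
    have h1 := h q hq (j0 + j) x hx1.le
    have hpow : 0 ≤ x ^ (-2 - η) := Real.rpow_nonneg hx0.le _
    have hphi : ((q * 2 ^ (j0 + j) : ℕ).totient : ℝ) / q.totient ≤ Q j := by
      have h2 : (1 : ℝ) ≤ q.totient := by
        exact_mod_cast Nat.totient_pos.2 (by omega)
      have h3 : ((q * 2 ^ (j0 + j) : ℕ).totient : ℝ) ≤ Q j := by
        exact_mod_cast Nat.totient_le _
      rw [div_le_iff₀ (by linarith)]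
      nlinarith [(Nat.cast_nonneg (Q j) : (0 : ℝ) ≤ Q j)]
    have hphi2 : (q.totient : ℝ) ≤ q := by exact_mod_cast Nat.totient_le q
    have h4 : VV x q ≤ 2 * Q j * VV x (Q j) + 2 * q * (Real.log x + 1) ^ 2 := by
      have hVV := VV_nn x (q * 2 ^ (j0 + j))
      calc VV x q ≤ 2 * ((q * 2 ^ (j0 + j) : ℕ).totient / q.totient) * VV x (q * 2 ^ (j0 + j)) +
            2 * q.totient * (Real.log x + 1) ^ 2 := h1
        _ ≤ 2 * Q j * VV x (Q j) + 2 * q * (Real.log x + 1) ^ 2 := by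
            gcongr
    calc ENNReal.ofReal (VV x q * x ^ (-2 - η))
        ≤ ENNReal.ofReal (2 * Q j * VV x (Q j) * x ^ (-2 - η) +
            2 * q * (Real.log x + 1) ^ 2 * x ^ (-2 - η)) := by
          apply ENNReal.ofReal_le_ofReal
          calc VV x q * x ^ (-2 - η)
              ≤ (2 * Q j * VV x (Q j) + 2 * q * (Real.log x + 1) ^ 2) * x ^ (-2 - η) := by gcongr
            _ = _ := by ring
      _ = ENNReal.ofReal (2 * Q j * VV x (Q j) * x ^ (-2 - η)) +
            ENNReal.ofReal (2 * q * (Real.log x + 1) ^ 2 * x ^ (-2 - η)) := by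
          have hVV := VV_nn x (Q j)
          exact ENNReal.ofReal_add (by positivity) (by positivity)
      _ ≤ _ := by
          gcongr
          have : g j x = ENNReal.ofReal (2 * Q j * VV x (Q j) * x ^ (-2 - η)) := by
            rw [hg]
            exact Set.indicator_of_mem (show x ∈ Ioc _ _ from ⟨hj1, hj2⟩) _
          rw [← this]
          exact ENNReal.le_tsum j
  -- the two parts
  have hsplit : Ioi (1 : ℝ) = Ioc 1 X0 ∪ Ioi X0 := (Ioc_union_Ioi_eq_Ioi hX1).symm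
  unfold IV
  rw [hsplit]
  refine lt_of_le_of_lt (lintegral_union_le _ _ _) (ENNReal.add_lt_top.2 ⟨?_, ?_⟩)
  · obtain ⟨M, hM0, hM⟩ := VV_bd q X0
    calc ∫⁻ x in Ioc 1 X0, ENNReal.ofReal (VV x q * x ^ (-2 - η))
        ≤ ∫⁻ _ in Ioc 1 X0, ENNReal.ofReal M := by
          refine lintegral_mono_ae ?_
          refine (ae_restrict_iff' measurableSet_Ioc).2 (Eventually.of_forall (fun x hx => ?_))
          apply ENNReal.ofReal_le_ofReal
          have h1 := hM x (by linarith [hx.1]) hx.2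
          have h2 : x ^ (-2 - η) ≤ 1 := Real.rpow_le_one_of_one_le_of_nonpos hx.1.le (by linarith)
          have h3 : 0 ≤ x ^ (-2 - η) := Real.rpow_nonneg (by linarith [hx.1]) _
          calc VV x q * x ^ (-2 - η) ≤ M * 1 := by gcongr
            _ = M := mul_one M
      _ < ⊤ := by
          rw [lintegral_const]
          apply ENNReal.mul_lt_top ENNReal.ofReal_lt_top
          simp
  · calc ∫⁻ x in Ioi X0, ENNReal.ofReal (VV x q * x ^ (-2 - η))
        ≤ ∫⁻ x in Ioi X0, ((∑' j, g j x) +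
            ENNReal.ofReal (2 * q * (Real.log x + 1) ^ 2 * x ^ (-2 - η))) := by
          refine lintegral_mono_ae ?_
          exact (ae_restrict_iff' measurableSet_Ioi).2 (Eventually.of_forall hpt)
      _ = (∫⁻ x in Ioi X0, ∑' j, g j x) +
            ∫⁻ x in Ioi X0, ENNReal.ofReal (2 * q * (Real.log x + 1) ^ 2 * x ^ (-2 - η)) := by
          rw [lintegral_add_left (Measurable.tsum hgm)]
      _ ≤ (∑' j, ENNReal.ofReal (4 * (b - 1) * (1 / 2 : ℝ) ^ j)) +
            ∫⁻ x in Ioi (1 : ℝ),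
              ENNReal.ofReal (2 * q * (Real.log x + 1) ^ 2 * x ^ (-2 - η)) := by
          refine add_le_add ?_ (lintegral_mono_set (Ioi_subset_Ioi hX1))
          rw [lintegral_tsum (fun j => (hgm j).aemeasurable)]
          apply ENNReal.tsum_le_tsum
          intro j
          calc ∫⁻ x in Ioi X0, g j x ≤ ∫⁻ x, g j x := setLIntegral_le_lintegral _ _
            _ = ∫⁻ x in Ioc ((Q j : ℝ) ^ (b / 2)) ((Q j : ℝ) ^ b),
                  ENNReal.ofReal (2 * Q j * VV x (Q j) * x ^ (-2 - η)) :=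
                lintegral_indicator measurableSet_Ioc _
            _ ≤ ENNReal.ofReal (4 * (b - 1) / (Q j : ℝ) ^ 2) :=
                one b η hb2 hη hbη (Q j) (hQ2 j) (hW j)
            _ ≤ ENNReal.ofReal (4 * (b - 1) * (1 / 2 : ℝ) ^ j) := by
                apply ENNReal.ofReal_le_ofReal
                have h1 : (2 : ℝ) ^ j ≤ Q j := by exact_mod_cast hQj j
                have h2 := hQr j
                have h3 : (2 : ℝ) ^ j ≤ (Q j : ℝ) ^ 2 := by nlinarith
                rw [one_div, inv_pow, ← div_eq_mul_inv]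
                have hb1 : 0 ≤ 4 * (b - 1) := by linarith
                gcongr
      _ < ⊤ := by
          refine ENNReal.add_lt_top.2 ⟨?_, tail (2 * q) (by positivity) η hη⟩
          apply Summable.tsum_ofReal_lt_top
          exact (summable_geometric_of_lt_one (by norm_num) (by norm_num)).mul_left _

end Pool.Agent.NH13.UV
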