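import Pool.Agent.NH13.UV.Stm

/-!
# Plan UV, GG: the variance and the characters
-/

set_option autoImplicit false

open Complex MeasureTheory Filter Topology Set

namespace Pool.Agent.NH13.UV.GGh

open Pool.Agent.NH13.UV

theorem meas_psi {q : ℕ} (χ : DirichletCharacter ℂ q) : Measurable (fun u : ℝ => psi χ u) := by
  have h : (fun u : ℝ => psi χ u) = (fun N : ℕ => ∑ n ∈ Finset.Icc 1 N,
      (ArithmeticFunction.vonMangoldt n : ℂ) * χ (n : ZMod q)) ∘ (fun u : ℝ => ⌊u⌋₊) := rfl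
  rw [h]
  exact (measurable_of_countable _).comp Nat.measurable_floor

/-- The integrand of a character. -/
noncomputable def gA {q : ℕ} (χ : DirichletCharacter ℂ q) (e : ℝ) (u : ℝ) : ℝ :=
  ‖psi χ u‖ ^ 2 * u ^ e

/-- The integrand of the principal character. -/
noncomputable def gP (q : ℕ) (e : ℝ) (u : ℝ) : ℝ :=
  ‖psi (1 : DirichletCharacter ℂ q) u - u‖ ^ 2 * u ^ e

theorem meas_gA {q : ℕ} (χ : DirichletCharacter ℂ q) (e : ℝ) : Measurable (gA χ e) :=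
  ((meas_psi χ).norm.pow_const 2).mul (measurable_id.pow_const e)

theorem meas_gP (q : ℕ) (e : ℝ) : Measurable (gP q e) :=
  (((meas_psi (1 : DirichletCharacter ℂ q)).sub
    Complex.measurable_ofReal).norm.pow_const 2).mul (measurable_id.pow_const e)

theorem gA_nn {q : ℕ} (χ : DirichletCharacter ℂ q) (e : ℝ) {u : ℝ} (hu : 0 ≤ u) : 0 ≤ gA χ e u :=
  mul_nonneg (sq_nonneg _) (Real.rpow_nonneg hu e)

theorem gP_nn (q : ℕ) (e : ℝ) {u : ℝ} (hu : 0 ≤ u) : 0 ≤ gP q e u :=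
  mul_nonneg (sq_nonneg _) (Real.rpow_nonneg hu e)

/-- The decomposition of the integral. -/
theorem decomp (hV : S_V) (q : ℕ) [NeZero q] (η : ℝ) :
    ENNReal.ofReal (q.totient : ℝ) * IV q η =
      (∫⁻ u in Ioi (1 : ℝ), ENNReal.ofReal (gP q (-2 - η) u)) +
        ∑ χ ∈ NT q, ∫⁻ u in Ioi (1 : ℝ), ENNReal.ofReal (gA χ (-2 - η) u) := by
  unfold IV
  rw [← lintegral_const_mul' _ _ ENNReal.ofReal_ne_top,
    ← lintegral_finsetSum _ (fun χ _ => (meas_gA χ _).ennreal_ofReal),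
    ← lintegral_add_left (meas_gP q _).ennreal_ofReal]
  refine setLIntegral_congr_fun measurableSet_Ioi fun u hu => ?_
  have hu0 : (0 : ℝ) ≤ u := le_trans zero_le_one (le_of_lt hu)
  change ENNReal.ofReal (q.totient : ℝ) * ENNReal.ofReal (VV u q * u ^ (-2 - η)) =
    ENNReal.ofReal (gP q (-2 - η) u) + ∑ χ ∈ NT q, ENNReal.ofReal (gA χ (-2 - η) u)
  rw [← ENNReal.ofReal_mul (Nat.cast_nonneg _),
    ← ENNReal.ofReal_sum_of_nonneg (fun χ _ => gA_nn χ _ hu0),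
    ← ENNReal.ofReal_add (gP_nn q _ hu0) (Finset.sum_nonneg fun χ _ => gA_nn χ _ hu0)]
  congr 1
  rw [← mul_assoc, hV q u, add_mul, Finset.sum_mul]
  rfl

/-- The common denominator. -/
noncomputable def DD (q : ℕ) : ℝ := Real.log q ^ 2 * q.totient

theorem DD_pos {q : ℕ} (hq : 2 ≤ q) : 0 < DD q := by
  have h1 : (0 : ℝ) < Real.log q := Real.log_pos (by exact_mod_cast hq)
  have h2 : (0 : ℝ) < q.totient := by
    exact_mod_cast Nat.totient_pos.2 (by omega)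
  exact mul_pos (pow_pos h1 2) h2

theorem log_sq_pos {q : ℕ} (hq : 2 ≤ q) : (0 : ℝ) < Real.log q ^ 2 :=
  pow_pos (Real.log_pos (by exact_mod_cast hq)) 2

theorem Gv_mul (hV : S_V) (q : ℕ) [NeZero q] (hq : 2 ≤ q) (κ : ℝ) :
    Gv q κ * ENNReal.ofReal (DD q) =
      (∫⁻ u in Ioi (1 : ℝ), ENNReal.ofReal (gP q (-2 - 2 * κ / Real.log q) u)) +
        ∑ χ ∈ NT q, ∫⁻ u in Ioi (1 : ℝ),
          ENNReal.ofReal (gA χ (-2 - 2 * κ / Real.log q) u) := by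
  rw [← decomp hV]
  unfold Gv DD
  have h1 := log_sq_pos hq
  rw [ENNReal.ofReal_mul h1.le, ← mul_assoc, ENNReal.div_mul_cancel, mul_comm]
  · exact (ENNReal.ofReal_pos.2 h1).ne'
  · exact ENNReal.ofReal_ne_top

theorem IV_lt {q : ℕ} {κ : ℝ} (h : Gv q κ < ⊤) : IV q (2 * κ / Real.log q) < ⊤ := by
  rw [lt_top_iff_ne_top] at h ⊢
  intro h1
  apply h
  unfold Gv
  rw [h1]
  exact ENNReal.top_div_of_ne_top ENNReal.ofReal_ne_top

theorem fin (hV : S_V) (q : ℕ) [NeZero q] {κ : ℝ} (h : Gv q κ < ⊤) : Fi q κ := by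
  intro χ hχ
  have h1 := IV_lt h
  have h2 : ENNReal.ofReal (q.totient : ℝ) * IV q (2 * κ / Real.log q) < ⊤ :=
    ENNReal.mul_lt_top ENNReal.ofReal_lt_top h1
  rw [decomp hV] at h2
  refine lt_of_le_of_lt ?_ h2
  refine le_trans ?_ le_add_self
  exact Finset.single_le_sum (f := fun χ : DirichletCharacter ℂ q => ∫⁻ u in Ioi (1 : ℝ),
    ENNReal.ofReal (gA χ (-2 - 2 * κ / Real.log q) u)) (fun _ _ => bot_le) hχ

theorem int_eq {q : ℕ} (χ : DirichletCharacter ℂ q) (e : ℝ)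
    (h : (∫⁻ u in Ioi (1 : ℝ), ENNReal.ofReal (gA χ e u)) < ⊤) :
    ENNReal.ofReal (∫ u in Ioi (1 : ℝ), gA χ e u) =
      ∫⁻ u in Ioi (1 : ℝ), ENNReal.ofReal (gA χ e u) := by
  have h1 : 0 ≤ᵐ[volume.restrict (Ioi (1 : ℝ))] gA χ e := by
    refine (ae_restrict_iff' measurableSet_Ioi).2 (Eventually.of_forall fun u hu => ?_)
    exact gA_nn χ e (le_trans zero_le_one (le_of_lt hu))
  rw [integral_eq_lintegral_of_nonneg_ae h1 (meas_gA χ e).aestronglyMeasurable,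
    ENNReal.ofReal_toReal h.ne]

theorem int_nn {q : ℕ} (χ : DirichletCharacter ℂ q) (e : ℝ) :
    0 ≤ ∫ u in Ioi (1 : ℝ), gA χ e u :=
  setIntegral_nonneg measurableSet_Ioi fun _ hu =>
    gA_nn χ e (le_trans zero_le_one (le_of_lt hu))

theorem Gn_eq (q : ℕ) [NeZero q] (κ : ℝ) : Gn q κ =
    1 / DD q * ∑ χ ∈ NT q, ∫ u in Ioi (1 : ℝ), gA χ (-2 - 2 * κ / Real.log q) u := rfl

theorem Gn_nn (q : ℕ) [NeZero q] (hq : 2 ≤ q) (κ : ℝ) : 0 ≤ Gn q κ := by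
  rw [Gn_eq]
  exact mul_nonneg (one_div_pos.2 (DD_pos hq)).le (Finset.sum_nonneg fun χ _ => int_nn χ _)

theorem Gn_mul (hV : S_V) (q : ℕ) [NeZero q] (hq : 2 ≤ q) {κ : ℝ} (h : Gv q κ < ⊤) :
    ENNReal.ofReal (Gn q κ) * ENNReal.ofReal (DD q) =
      ∑ χ ∈ NT q, ∫⁻ u in Ioi (1 : ℝ),
          ENNReal.ofReal (gA χ (-2 - 2 * κ / Real.log q) u) := by
  have hf := fin hV q h
  have hD := DD_pos hq
  rw [← ENNReal.ofReal_mul (Gn_nn q hq κ), Gn_eq]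
  have h1 : 1 / DD q * (∑ χ ∈ NT q, ∫ u in Ioi (1 : ℝ),
      gA χ (-2 - 2 * κ / Real.log q) u) * DD q =
      ∑ χ ∈ NT q, ∫ u in Ioi (1 : ℝ), gA χ (-2 - 2 * κ / Real.log q) u := by
    field_simp
  rw [h1, ENNReal.ofReal_sum_of_nonneg (fun χ _ => int_nn χ _)]
  exact Finset.sum_congr rfl fun χ hχ => int_eq χ _ (hf χ hχ)

end Pool.Agent.NH13.UV.GGh

namespace Pool.Agent.NH13.UV

open GGh

theorem t_GG (hV : S_V) (hP : S_prin) : S_GG := by
  have key : ∀ (q : ℕ), 2 ≤ q → ∀ x y : ENNReal,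
      x * ENNReal.ofReal (DD q) ≤ y * ENNReal.ofReal (DD q) → x ≤ y := by
    intro q hq x y h
    have h0 : ENNReal.ofReal (DD q) ≠ 0 := (ENNReal.ofReal_pos.2 (DD_pos hq)).ne'
    have h1 := ENNReal.div_le_div_right h (ENNReal.ofReal (DD q))
    rwa [ENNReal.mul_div_cancel_right h0 ENNReal.ofReal_ne_top,
      ENNReal.mul_div_cancel_right h0 ENNReal.ofReal_ne_top] at h1
  refine ⟨?_, ?_⟩
  · intro q _ hq κ _ h
    refine ⟨fin hV q h, key q hq _ _ ?_⟩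
    rw [Gn_mul hV q hq h, Gv_mul hV q hq]
    exact le_add_self
  · intro hB κ ε hκ hε
    obtain ⟨q0, hq0⟩ := hP hB κ ε hκ hε
    refine ⟨max q0 2, fun q _ hq h => ?_⟩
    have hq2 : 2 ≤ q := le_trans (le_max_right _ _) hq
    refine key q hq2 _ _ ?_
    have h1 := hq0 q (le_trans (le_max_left _ _) hq)
    rw [Gv_mul hV q hq2, ENNReal.ofReal_add (Gn_nn q hq2 κ) hε.le, add_mul,
      Gn_mul hV q hq2 h, ← ENNReal.ofReal_mul hε.le, add_comm]
    exact add_le_add le_rfl h1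

end Pool.Agent.NH13.UV
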