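import Pool.Agent.NH13.UV.Stm

/-!
# UV-6: comparison of two lines, zeros on the imaginary axis
-/

set_option autoImplicit false

open Complex MeasureTheory Filter Topology Set
open scoped ComplexConjugate

namespace Pool.Agent.NH13.UV

namespace K339

/-- the real part of a term -/
lemma term_re {a : ℂ} (ha : a.re = 0) (x t : ℝ) :
    (1 / (pt x t - a)).re = x / (x ^ 2 + (t - a.im) ^ 2) := by
  have h1 : (pt x t - a).re = x := by
    unfold pt
    simp [ha]
  have h2 : (pt x t - a).im = t - a.im := by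
    unfold pt
    simp
  rw [one_div, Complex.inv_re, Complex.normSq_apply, h1, h2]
  congr 1
  ring

lemma term_le {x X : ℝ} (hx : 0 < x) (hX : x ≤ X) (u : ℝ) :
    x / (x ^ 2 + u ^ 2) ≤ X / x * (X / (X ^ 2 + u ^ 2)) := by
  have hX0 : 0 < X := hx.trans_le hX
  rw [div_mul_div_comm, div_le_div_iff₀ (by positivity) (by positivity)]
  have h1 : x ^ 2 ≤ X ^ 2 := pow_le_pow_left₀ hx.le hX 2
  nlinarith [mul_le_mul_of_nonneg_right h1 (sq_nonneg u)]

lemma wt_le {x X : ℝ} (hx : 0 < x) (hX : x ≤ X) (t : ℝ) :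
    wt x t ≤ ((1 / 2 + X) / (1 / 2 + x)) ^ 2 * wt X t := by
  have hX0 : 0 < X := hx.trans_le hX
  unfold wt
  rw [div_pow, div_mul_div_comm, div_le_div_iff₀ (by positivity) (by positivity)]
  have h1 : (1 / 2 + x) ^ 2 ≤ (1 / 2 + X) ^ 2 := pow_le_pow_left₀ (by linarith) (by linarith) 2
  nlinarith [mul_le_mul_of_nonneg_right h1 (sq_nonneg t)]

end K339

open K339 in
theorem t_K3 : S_K3 := by
  intro B ι a m hB x X hx hX t
  have hX0 : 0 < X := hx.trans_le hX
  have ha : ∀ i, (a i).re = 0 := fun i => abs_nonpos_iff.1 (hB.strip i)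
  have hp : ∀ y : ℝ, (pt y t).re = y := by
    intro y
    unfold pt
    simp
  have s1 := hB.re (pt x t) (by rw [hp]; exact hx)
  have s2 := hB.re (pt X t) (by rw [hp]; exact hX0)
  have h1 : 0 ≤ (B (pt x t)).re := s1.nonneg fun i => by
    rw [term_re (ha i)]
    positivity
  have h2 : (B (pt x t)).re ≤ X / x * (B (pt X t)).re := by
    refine hasSum_le (fun i => ?_) s1 (s2.mul_left (X / x))
    rw [term_re (ha i), term_re (ha i)]
    have h3 := mul_le_mul_of_nonneg_left (term_le hx hX (t - (a i).im)) (Nat.cast_nonneg (m i) : (0:ℝ) ≤ m i)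
    linarith
  have h3 : (B (pt x t)).re ^ 2 ≤ (X / x * (B (pt X t)).re) ^ 2 := pow_le_pow_left₀ h1 h2 2
  have h4 := wt_le hx hX t
  have h5 : 0 ≤ wt x t := by
    unfold wt
    positivity
  calc (B (pt x t)).re ^ 2 * wt x t
      ≤ (X / x * (B (pt X t)).re) ^ 2 * (((1 / 2 + X) / (1 / 2 + x)) ^ 2 * wt X t) :=
        mul_le_mul h3 h4 h5 (sq_nonneg _)
    _ = _ := by ring

end Pool.Agent.NH13.UV
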