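import Pool.Agent.NH13.UV.Stm

/-!
# Plan UV, UV-32: the unconditional lower bound (helper51)
-/

set_option autoImplicit false

open Complex MeasureTheory Filter Topology Set
open scoped ComplexConjugate

namespace Pool.Agent.NH13.UV

namespace PP

lemma VV_nonneg (x : ℝ) (q : ℕ) : 0 ≤ VV x q := Finset.sum_nonneg fun _ _ => sq_nonneg _

lemma IV_anti (q : ℕ) {η η' : ℝ} (h : η ≤ η') : IV q η' ≤ IV q η := by
  unfold IV
  refine setLIntegral_mono' measurableSet_Ioi fun x hx => ?_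
  have hx1 : (1 : ℝ) ≤ x := le_of_lt hx
  exact ENNReal.ofReal_le_ofReal (mul_le_mul_of_nonneg_left
    (Real.rpow_le_rpow_of_exponent_le hx1 (by linarith)) (VV_nonneg x q))

lemma Gv_anti {q : ℕ} (hq : 1 ≤ q) {κ κ' : ℝ} (h : κ ≤ κ') : Gv q κ' ≤ Gv q κ := by
  unfold Gv
  refine ENNReal.div_le_div_right (IV_anti q ?_) _
  have hL : 0 ≤ Real.log q := Real.log_natCast_nonneg q
  exact div_le_div_of_nonneg_right (by linarith) hL

end PP

open PP in
/-- UV-32 -/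
theorem t_P (hr : S_rel) (hl : S_low) (hG : S_GG) : S_P := by
  intro κ ε hκ hε
  set κ1 : ℝ := κ * (1 + ε * κ) with hκ1
  have hεκ : 0 < ε * κ := mul_pos hε hκ
  have hlt : κ < κ1 := by
    rw [hκ1]
    nlinarith
  have hκ1p : 0 < κ1 := hκ.trans hlt
  have hinv1 : 1 / κ - ε ≤ 1 / κ1 := by
    rw [hκ1, div_sub' hκ.ne', div_le_div_iff₀ hκ (mul_pos hκ (by linarith))]
    nlinarith [mul_pos hκ (mul_pos hεκ hεκ)]
  have hinv2 : 1 / κ1 ≤ 1 / κ := one_div_le_one_div_of_le hκ hlt.le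
  have hden : 0 < 2 + 1 / κ := by positivity
  set e : ℝ := min (1 / 2) (ε / (2 + 1 / κ)) with he
  have he0 : 0 < e := lt_min (by norm_num) (div_pos hε hden)
  have he1 : e ≤ 1 / 2 := min_le_left _ _
  have he2 : e * (2 + 1 / κ) ≤ ε := by
    have h1 : e ≤ ε / (2 + 1 / κ) := min_le_right _ _
    rwa [le_div_iff₀ hden] at h1
  obtain ⟨q0, hq0⟩ := hr κ1 e hκ1p he0
  obtain ⟨q1, hq1⟩ := hl κ1 e hκ1p he0
  filter_upwards [eventually_ge_atTop (max (max q0 q1) 2)] with q hq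
  have hq0' : q0 ≤ q := (le_max_left _ _).trans ((le_max_left _ _).trans hq)
  have hq1' : q1 ≤ q := (le_max_right _ _).trans ((le_max_left _ _).trans hq)
  have hq2 : 2 ≤ q := (le_max_right _ _).trans hq
  haveI : NeZero q := ⟨by omega⟩
  by_cases hT : Gv q κ = ⊤
  · rw [hT]
    exact le_top
  have hT' : Gv q κ < ⊤ := lt_top_iff_ne_top.2 hT
  have hmono : Gv q κ1 ≤ Gv q κ := Gv_anti (by omega) hlt.le
  have hF := (hG.1 q hq2 κ hκ hT').1
  have hex : ∃ κ' : ℝ, 0 < κ' ∧ κ' < κ1 ∧ Fi q κ' := ⟨κ, hκ, hlt, hF⟩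
  have h1 := (abs_le.1 (hq0 q hq0' hex)).1
  have h2 := hq1 q hq1' hex
  have h3 := (hG.1 q hq2 κ1 hκ1p (hmono.trans_lt hT')).2
  refine le_trans (ENNReal.ofReal_le_ofReal ?_) (h3.trans hmono)
  have h4 : (1 - e) * (1 / κ1 - e) ≤ (1 - e) * Ir q κ1 :=
    mul_le_mul_of_nonneg_left h2 (by linarith)
  have h5 : e * (1 / κ1) ≤ e * (1 / κ) := mul_le_mul_of_nonneg_left hinv2 he0.le
  nlinarith [sq_nonneg e]

end Pool.Agent.NH13.UV
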