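import Pool.Agent.NH13.UV.Stm
import Pool.Agent.NH13.Classes

/-!
# UV-23: the principal character under the Riemann hypothesis
-/

set_option autoImplicit false

open Complex MeasureTheory Filter Topology Set

namespace Pool.Agent.NH13.UV

namespace Prin

lemma psi_one (u : ℝ) : psi (1 : DirichletCharacter ℂ 1) u = (Chebyshev.psi u : ℂ) := by
  unfold psi Chebyshev.psi
  push_cast
  refine Finset.sum_congr (by ext n; simp [Nat.one_le_iff_ne_zero, Nat.pos_iff_ne_zero]) fun n _ => ?_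
  rw [MulChar.one_apply (isUnit_of_subsingleton _), mul_one]

lemma pd {q : ℕ} [NeZero q] {u : ℝ} (hu : 1 ≤ u) :
    ‖psi (1 : DirichletCharacter ℂ q) u - u‖ ≤
      |Chebyshev.psi u - u| + 2 * Real.log q * Real.log u := by
  have h1 := Pool.Agent.NH13.psi_diff (one_dvd q) (1 : DirichletCharacter ℂ 1) hu
  rw [DirichletCharacter.changeLevel_one] at h1
  have h2 : Pool.Agent.NH13.psi (1 : DirichletCharacter ℂ 1) u = (Chebyshev.psi u : ℂ) := psi_one u
  have h3 : Pool.Agent.NH13.psi (1 : DirichletCharacter ℂ q) u =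
      psi (1 : DirichletCharacter ℂ q) u := rfl
  rw [h2, h3] at h1
  have h4 : psi (1 : DirichletCharacter ℂ q) u - u =
      ((Chebyshev.psi u - u : ℝ) : ℂ) - ((Chebyshev.psi u : ℂ) - psi (1 : DirichletCharacter ℂ q) u) := by
    push_cast
    ring
  rw [h4]
  refine (norm_sub_le _ _).trans ?_
  rw [Complex.norm_real, Real.norm_eq_abs]
  linarith

lemma chb {C : ℝ} (hC : 0 < C)
    (h : ∀ x : ℝ, 2 ≤ x → |Chebyshev.psi x - x| ≤ C * (Real.sqrt x * Real.log x ^ 2))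
    {u : ℝ} (hu : 1 ≤ u) :
    |Chebyshev.psi u - u| ≤ (C + 2) * (Real.sqrt u * (1 + Real.log u) ^ 2) := by
  have hl : 0 ≤ Real.log u := Real.log_nonneg hu
  have hs : 0 ≤ Real.sqrt u := Real.sqrt_nonneg _
  rcases le_or_gt 2 u with h2 | h2
  · refine (h u h2).trans ?_
    have h3 : Real.log u ^ 2 ≤ (1 + Real.log u) ^ 2 := by
      apply pow_le_pow_left₀ hl
      linarith
    have h4 : Real.sqrt u * Real.log u ^ 2 ≤ Real.sqrt u * (1 + Real.log u) ^ 2 :=
      mul_le_mul_of_nonneg_left h3 hs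
    have h5 : 0 ≤ Real.sqrt u * Real.log u ^ 2 := by positivity
    exact mul_le_mul (by linarith) h4 h5 (by linarith)
  · rw [Chebyshev.psi_eq_zero_of_lt_two h2, zero_sub, abs_neg, abs_of_nonneg (by linarith)]
    have h3 : Real.sqrt u * Real.sqrt u = u := Real.mul_self_sqrt (by linarith)
    have h4 : Real.sqrt u ≤ 2 := by nlinarith
    have h5 : u ≤ 2 * Real.sqrt u := by nlinarith
    have h6 : 1 ≤ (1 + Real.log u) ^ 2 := by nlinarith
    have h7 : Real.sqrt u ≤ Real.sqrt u * (1 + Real.log u) ^ 2 := by nlinarith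
    have h8 : 0 ≤ Real.sqrt u * (1 + Real.log u) ^ 2 := by positivity
    nlinarith

/-- the pointwise bound -/
lemma pw {C : ℝ} (hC : 0 < C)
    (h : ∀ x : ℝ, 2 ≤ x → |Chebyshev.psi x - x| ≤ C * (Real.sqrt x * Real.log x ^ 2))
    {q : ℕ} [NeZero q] {u η : ℝ} (hu : 1 ≤ u) (hη : 0 < η) (hη1 : η ≤ 1) :
    ‖psi (1 : DirichletCharacter ℂ q) u - u‖ ^ 2 * u ^ (-2 - η) ≤
      (2 * (C + 2) ^ 2 + 8 * Real.log q ^ 2) * 65536 / η ^ 4 * u ^ (-1 - η / 2) := by
  have hu0 : 0 < u := by linarith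
  have hl : 0 ≤ Real.log u := Real.log_nonneg hu
  have hs : 0 ≤ Real.sqrt u := Real.sqrt_nonneg _
  have hL : 0 ≤ Real.log q := Real.log_natCast_nonneg _
  have h1 := (pd (q := q) hu).trans (add_le_add_left (chb hC h hu) _)
  -- `1 + log u ≤ 16 / η * u ^ (η / 8)`
  have h2 : 1 + Real.log u ≤ 16 / η * u ^ (η / 8) := by
    have h3 : Real.log u ≤ u ^ (η / 8) / (η / 8) := Real.log_le_rpow_div hu0.le (by linarith)
    have h4 : 1 ≤ u ^ (η / 8) := Real.one_le_rpow hu (by linarith)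
    have h5 : (1 : ℝ) ≤ 8 / η * u ^ (η / 8) := by
      have : 1 ≤ 8 / η := by rw [le_div_iff₀ hη]; linarith
      nlinarith
    have h6 : u ^ (η / 8) / (η / 8) = 8 / η * u ^ (η / 8) := by field_simp
    have h7 : 16 / η * u ^ (η / 8) = 8 / η * u ^ (η / 8) + 8 / η * u ^ (η / 8) := by ring
    linarith
  have h3 : (1 + Real.log u) ^ 4 ≤ 65536 / η ^ 4 * u ^ (η / 2) := by
    calc (1 + Real.log u) ^ 4 ≤ (16 / η * u ^ (η / 8)) ^ 4 := pow_le_pow_left₀ (by linarith) h2 4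
      _ = 65536 / η ^ 4 * (u ^ (η / 8)) ^ 4 := by rw [mul_pow, div_pow]; norm_num
      _ = 65536 / η ^ 4 * u ^ (η / 2) := by
          rw [← Real.rpow_natCast (u ^ (η / 8)) 4, ← Real.rpow_mul hu0.le]
          congr 2
          push_cast
          ring
  have h4 : ‖psi (1 : DirichletCharacter ℂ q) u - u‖ ^ 2 ≤
      (2 * (C + 2) ^ 2 + 8 * Real.log q ^ 2) * (u * (1 + Real.log u) ^ 4) := by
    have h5 : Real.log u ≤ Real.sqrt u * (1 + Real.log u) ^ 2 := by
      have h6 : 1 ≤ Real.sqrt u := Real.one_le_sqrt.2 hu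
      have h7 : Real.log u ≤ (1 + Real.log u) ^ 2 := by nlinarith
      have h8 : 0 ≤ (1 + Real.log u) ^ 2 := by positivity
      nlinarith
    have h6 : ‖psi (1 : DirichletCharacter ℂ q) u - u‖ ≤
        ((C + 2) + 2 * Real.log q) * (Real.sqrt u * (1 + Real.log u) ^ 2) := by
      refine h1.trans ?_
      have h7 := mul_le_mul_of_nonneg_left h5 (show 0 ≤ 2 * Real.log q by linarith)
      linarith
    have h7 : (Real.sqrt u * (1 + Real.log u) ^ 2) ^ 2 = u * (1 + Real.log u) ^ 4 := by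
      rw [mul_pow, Real.sq_sqrt hu0.le]
      ring
    calc ‖psi (1 : DirichletCharacter ℂ q) u - u‖ ^ 2
        ≤ (((C + 2) + 2 * Real.log q) * (Real.sqrt u * (1 + Real.log u) ^ 2)) ^ 2 :=
          pow_le_pow_left₀ (norm_nonneg _) h6 2
      _ = ((C + 2) + 2 * Real.log q) ^ 2 * (u * (1 + Real.log u) ^ 4) := by rw [mul_pow, h7]
      _ ≤ _ := by
          refine mul_le_mul_of_nonneg_right ?_ (by positivity)
          nlinarith [sq_nonneg ((C + 2) - 2 * Real.log q)]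
  have h5 : 0 < u ^ (-2 - η) := Real.rpow_pos_of_pos hu0 _
  calc ‖psi (1 : DirichletCharacter ℂ q) u - u‖ ^ 2 * u ^ (-2 - η)
      ≤ ((2 * (C + 2) ^ 2 + 8 * Real.log q ^ 2) * (u * (65536 / η ^ 4 * u ^ (η / 2)))) *
          u ^ (-2 - η) := by
        refine mul_le_mul_of_nonneg_right (h4.trans ?_) h5.le
        refine mul_le_mul_of_nonneg_left ?_ (by positivity)
        exact mul_le_mul_of_nonneg_left h3 hu0.le
    _ = (2 * (C + 2) ^ 2 + 8 * Real.log q ^ 2) * 65536 / η ^ 4 *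
          (u ^ (1 : ℝ) * u ^ (η / 2) * u ^ (-2 - η)) := by
        rw [Real.rpow_one]
        ring
    _ = _ := by
        rw [← Real.rpow_add hu0, ← Real.rpow_add hu0]
        congr 2
        ring

/-- the integral -/
lemma intg {η : ℝ} (hη : 0 < η) {K : ℝ} (hK : 0 ≤ K) :
    ∫⁻ u in Ioi (1 : ℝ), ENNReal.ofReal (K * u ^ (-1 - η / 2)) = ENNReal.ofReal (K * (2 / η)) := by
  have h1 : IntegrableOn (fun u : ℝ => K * u ^ (-1 - η / 2)) (Ioi 1) :=
    (integrableOn_Ioi_rpow_of_lt (by linarith) one_pos).const_mul K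
  rw [← ofReal_integral_eq_lintegral_ofReal h1]
  · congr 1
    rw [integral_const_mul, integral_Ioi_rpow_of_lt (by linarith) one_pos, Real.one_rpow]
    congr 1
    have : -1 - η / 2 + 1 = -(η / 2) := by ring
    rw [this]
    field_simp
  · refine (ae_restrict_mem measurableSet_Ioi).mono fun u hu => ?_
    have : 0 < u := lt_trans one_pos hu
    show 0 ≤ K * u ^ (-1 - η / 2)
    positivity

end Prin

open Prin in
/-- UV-23: the principal character -/
theorem t_prin : S_prin := by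
  rintro ⟨C, hC, hpsi⟩ κ ε hκ hε
  obtain ⟨c, hc, htot⟩ := Pool.Agent.NH13.tot_lower
  obtain ⟨K, hK⟩ : ∃ K : ℝ, K = (2 * (C + 2) ^ 2 + 8) * 4096 / κ ^ 5 := ⟨_, rfl⟩
  have hK0 : 0 < K := by rw [hK]; positivity
  -- `K log ^ 6 q ≤ ε c q`
  have hev : ∀ᶠ q : ℕ in atTop, K * Real.log q ^ 6 ≤ ε * c * q := by
    have h1 := (Real.isLittleO_pow_log_id_atTop (n := 6)).def (show 0 < ε * c / K by positivity)
    have h2 := tendsto_natCast_atTop_atTop (R := ℝ) |>.eventually h1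
    refine h2.mono fun q hq => ?_
    rw [Real.norm_eq_abs, Real.norm_eq_abs, id, abs_of_nonneg (by positivity : (0 : ℝ) ≤ q)] at hq
    have h3 := (le_abs_self _).trans hq
    have h4 := mul_le_mul_of_nonneg_left h3 hK0.le
    have h5 : K * (ε * c / K * (q : ℝ)) = ε * c * q := by field_simp
    linarith
  have hev2 : ∀ᶠ q : ℕ in atTop, 2 * κ ≤ Real.log q :=
    (Real.tendsto_log_atTop.comp tendsto_natCast_atTop_atTop).eventually (eventually_ge_atTop _)
  obtain ⟨q1, hq1⟩ := eventually_atTop.1 (hev.and hev2)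
  refine ⟨max 16 q1, fun q _ hq => ?_⟩
  have hq16 : 16 ≤ q := (le_max_left _ _).trans hq
  obtain ⟨hA, hB⟩ := hq1 q ((le_max_right _ _).trans hq)
  obtain ⟨L, hL⟩ : ∃ L : ℝ, L = Real.log q := ⟨_, rfl⟩
  have hL2 : (5 : ℝ) / 2 ≤ L := by
    have h1 : Real.log 16 ≤ Real.log q := Real.log_le_log (by norm_num) (by exact_mod_cast hq16)
    have h2 : Real.log 16 = 4 * Real.log 2 := by
      rw [show (16 : ℝ) = 2 ^ 4 by norm_num, Real.log_pow]
      norm_num
    have h3 := Real.log_two_gt_d9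
    rw [hL]
    linarith
  have hL0 : 0 < L := by linarith
  obtain ⟨η, hη⟩ : ∃ η : ℝ, η = 2 * κ / L := ⟨_, rfl⟩
  have hη0 : 0 < η := by rw [hη]; positivity
  have hη1 : η ≤ 1 := by
    rw [hη, div_le_one hL0, hL]
    exact hB
  have hKq : 0 ≤ (2 * (C + 2) ^ 2 + 8 * Real.log q ^ 2) * 65536 / η ^ 4 := by positivity
  have h1 : ∫⁻ u in Ioi (1 : ℝ), ENNReal.ofReal (‖psi (1 : DirichletCharacter ℂ q) u - u‖ ^ 2 *
      u ^ (-2 - 2 * κ / Real.log q)) ≤
      ∫⁻ u in Ioi (1 : ℝ), ENNReal.ofReal ((2 * (C + 2) ^ 2 + 8 * Real.log q ^ 2) * 65536 / η ^ 4 *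
        u ^ (-1 - η / 2)) := by
    refine setLIntegral_mono_ae' measurableSet_Ioi (Filter.Eventually.of_forall fun u hu => ?_)
    refine ENNReal.ofReal_le_ofReal ?_
    rw [← hL, ← hη, hL]
    exact pw hC hpsi (le_of_lt hu) hη0 hη1
  refine h1.trans ?_
  rw [intg hη0 hKq]
  refine ENNReal.ofReal_le_ofReal ?_
  rw [← hL] at hA ⊢
  -- the constant
  have h2 : (2 * (C + 2) ^ 2 + 8 * L ^ 2) * 65536 / η ^ 4 * (2 / η) =
      (2 * (C + 2) ^ 2 + 8 * L ^ 2) * 4096 / κ ^ 5 * L ^ 5 := by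
    rw [hη]
    field_simp
    norm_num
  have h3 : (2 * (C + 2) ^ 2 + 8 * L ^ 2) ≤ (2 * (C + 2) ^ 2 + 8) * L ^ 2 := by
    have h4 : 1 ≤ L ^ 2 := by nlinarith
    have h5 : 0 ≤ 2 * (C + 2) ^ 2 := by positivity
    nlinarith
  have h4 : (2 * (C + 2) ^ 2 + 8 * L ^ 2) * 4096 / κ ^ 5 * L ^ 5 ≤ K * L ^ 7 := by
    rw [hK]
    calc (2 * (C + 2) ^ 2 + 8 * L ^ 2) * 4096 / κ ^ 5 * L ^ 5
        ≤ ((2 * (C + 2) ^ 2 + 8) * L ^ 2) * 4096 / κ ^ 5 * L ^ 5 := by gcongr
      _ = _ := by ring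
  rw [h2]
  refine h4.trans ?_
  -- the totient
  have h5 := htot q hq16
  rw [← hL] at h5
  have hlL : 0 < Real.log L := Real.log_pos (by linarith)
  have hlL2 : Real.log L ≤ L := (Real.log_le_sub_one_of_pos hL0).trans (by linarith)
  have hq0 : (0 : ℝ) < q := by exact_mod_cast (by omega : 0 < q)
  have h6 : c * q / L ≤ c * q / Real.log L := by gcongr
  have h7 : c * q / L ≤ (q.totient : ℝ) := h6.trans h5
  have h8 : K * L ^ 7 ≤ ε * (L ^ 2 * (c * q / L)) := by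
    have h9 : ε * (L ^ 2 * (c * q / L)) = (ε * c * q) * L := by field_simp
    rw [h9]
    calc K * L ^ 7 = (K * L ^ 6) * L := by ring
      _ ≤ _ := mul_le_mul_of_nonneg_right hA hL0.le
  refine h8.trans ?_
  gcongr

end Pool.Agent.NH13.UV
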