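import Pool.Agent.NH13.UV.Stm
import Pool.Agent.NH10.SV.RHu

/-!
# UV-22: the Riemann hypothesis from a finite mean square
-/

set_option autoImplicit false

open Complex MeasureTheory Filter Topology Set
open scoped ComplexConjugate

namespace Pool.Agent.NH13.UV

namespace rhf

/-- the error term -/
noncomputable def E (x : ℝ) : ℝ := Chebyshev.psi x - x

theorem VV_one (x : ℝ) : VV x 1 = E x ^ 2 := by
  unfold VV psiAP E Chebyshev.psi
  have h1 : (Finset.range 1).filter (fun a => a.Coprime 1) = {0} := by
    ext a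
    simp
  rw [h1, Finset.sum_singleton, Nat.totient_one, Nat.cast_one, div_one]
  congr 2
  refine Finset.sum_congr ?_ fun _ _ => rfl
  ext n
  simp only [Finset.mem_filter, Finset.mem_Icc, Finset.mem_Ioc, Nat.mod_one, and_true]
  omega

theorem E_meas : Measurable E := by
  unfold E
  exact Pool.Agent.NH10.SV.psi_meas.sub measurable_id

theorem E_le {x : ℝ} (hx : 0 ≤ x) : |E x| ≤ 7 * x := by
  unfold E
  have h1 := Pool.Agent.NH10.SV.psi_le6 hx
  have h2 := Chebyshev.psi_nonneg x
  rw [abs_le]
  constructor <;> linarith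

/-- the normalised square -/
noncomputable def G (x : ℝ) : ℝ := E x ^ 2 / x ^ 2

theorem G_meas : Measurable G := by
  unfold G
  have := E_meas
  fun_prop

theorem G_nonneg (x : ℝ) : 0 ≤ G x := by unfold G; positivity

theorem G_le {x : ℝ} (hx : 0 < x) : G x ≤ 49 := by
  unfold G
  rw [div_le_iff₀ (by positivity), ← sq_abs]
  calc |E x| ^ 2 ≤ (7 * x) ^ 2 := pow_le_pow_left₀ (abs_nonneg _) (E_le hx.le) 2
    _ = _ := by ring

theorem ii_of {f : ℝ → ℝ} {c a b : ℝ} (hf : Measurable f) (ha : 0 < a) (hab : a ≤ b)
    (h : ∀ x, 0 < x → ‖f x‖ ≤ c) : IntervalIntegrable f volume a b := by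
  rw [intervalIntegrable_iff_integrableOn_Ioc_of_le hab]
  refine Measure.integrableOn_of_bounded (M := c) measure_Ioc_lt_top.ne
    hf.aestronglyMeasurable ?_
  refine (ae_restrict_mem measurableSet_Ioc).mono fun x hx => h x (ha.trans hx.1)

theorem G_ii {a b : ℝ} (ha : 0 < a) (hab : a ≤ b) : IntervalIntegrable G volume a b :=
  ii_of (c := 49) G_meas ha hab fun x hx => by
    rw [Real.norm_of_nonneg (G_nonneg x)]
    exact G_le hx

end rhf

open rhf in
theorem t_RH : S_RH := by
  intro h
  refine Pool.Agent.NH10.SV.RH_of_growth ?_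
  intro ε hε
  have hfin := h ε hε
  unfold IV at hfin
  simp only [VV_one] at hfin
  set w : ℝ → ℝ := fun x => E x ^ 2 * x ^ (-2 - ε) with hw
  have hwm : Measurable w := by
    have := E_meas
    rw [hw]
    fun_prop
  have hw0 : ∀ x ∈ Ioi (1 : ℝ), 0 ≤ w x := by
    intro x hx
    have hx0 : 0 < x := lt_trans one_pos hx
    rw [hw]
    positivity
  have hwi : IntegrableOn w (Ioi 1) := by
    refine ⟨hwm.aestronglyMeasurable, ?_⟩
    rw [hasFiniteIntegral_iff_ofReal]
    · exact hfin
    · exact (ae_restrict_mem measurableSet_Ioi).mono fun x hx => hw0 x hx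
  set C0 := ∫ x in Ioi (1 : ℝ), w x with hC0
  have hC0n : 0 ≤ C0 := setIntegral_nonneg measurableSet_Ioi hw0
  refine ⟨4 * (4 ^ ε * C0) + 1, 1, by positivity, le_rfl, fun X hX => ?_⟩
  have hX0 : 0 < X := by linarith
  -- the pointwise bound
  have h1 : ∫ x in X..(2 * X), Pool.Agent.NH10.SV.Hx x ^ 2 / x ^ 2 ≤
      ∫ x in X..(2 * X), (8 * G (2 * x) + 2 * G x) := by
    have hG2 : IntervalIntegrable (fun x => G (2 * x)) volume X (2 * X) :=
      ii_of (c := 49) (G_meas.comp (measurable_const.mul measurable_id)) hX0 (by linarith)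
        fun x hx => by
        rw [Real.norm_of_nonneg (G_nonneg _)]
        exact G_le (by linarith)
    have hH : IntervalIntegrable (fun x => Pool.Agent.NH10.SV.Hx x ^ 2 / x ^ 2) volume X
        (2 * X) := by
      have hm := Pool.Agent.NH10.SV.Hx_meas
      refine ii_of (c := 400) (by fun_prop) hX0 (by linarith) fun x hx => ?_
      rw [Real.norm_of_nonneg (by positivity)]
      exact Pool.Agent.NH10.SV.Hx_q hx
    refine intervalIntegral.integral_mono_on (by linarith) hH
      ((hG2.const_mul 8).add ((G_ii hX0 (by linarith)).const_mul 2)) ?_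
    intro x hx
    have hx0 : 0 < x := by linarith [hx.1]
    have e1 : Pool.Agent.NH10.SV.Hx x = E (2 * x) - E x := by
      unfold Pool.Agent.NH10.SV.Hx E
      ring
    unfold G
    rw [e1, div_le_iff₀ (by positivity)]
    have e2 : (8 * (E (2 * x) ^ 2 / (2 * x) ^ 2) + 2 * (E x ^ 2 / x ^ 2)) * x ^ 2 =
        2 * E (2 * x) ^ 2 + 2 * E x ^ 2 := by
      field_simp
      ring
    rw [e2]
    nlinarith [sq_nonneg (E (2 * x) + E x)]
  have h2 : ∫ x in X..(2 * X), (8 * G (2 * x) + 2 * G x) =
      4 * (∫ x in (2 * X)..(4 * X), G x) + 2 * ∫ x in X..(2 * X), G x := by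
    have hG2 : IntervalIntegrable (fun x => G (2 * x)) volume X (2 * X) :=
      ii_of (c := 49) (G_meas.comp (measurable_const.mul measurable_id)) hX0 (by linarith)
        fun x hx => by
        rw [Real.norm_of_nonneg (G_nonneg _)]
        exact G_le (by linarith)
    rw [intervalIntegral.integral_add (hG2.const_mul 8) ((G_ii hX0 (by linarith)).const_mul 2),
      intervalIntegral.integral_const_mul, intervalIntegral.integral_const_mul,
      intervalIntegral.integral_comp_mul_left G two_ne_zero, smul_eq_mul,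
      show (2 : ℝ) * (2 * X) = 4 * X by ring]
    ring
  have h3 : (∫ x in X..(2 * X), G x) + (∫ x in (2 * X)..(4 * X), G x) =
      ∫ x in X..(4 * X), G x :=
    intervalIntegral.integral_add_adjacent_intervals (G_ii hX0 (by linarith))
      (G_ii (by linarith) (by linarith))
  have h4 : 0 ≤ ∫ x in X..(2 * X), G x :=
    intervalIntegral.integral_nonneg (by linarith) fun x _ => G_nonneg x
  have h5 : ∫ x in X..(4 * X), G x ≤ (4 * X) ^ ε * C0 := by
    rw [intervalIntegral.integral_of_le (by linarith), hC0, ← integral_const_mul]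
    have hsub : Ioc X (4 * X) ⊆ Ioi (1 : ℝ) := fun x hx => lt_of_le_of_lt hX hx.1
    calc ∫ x in Ioc X (4 * X), G x ≤ ∫ x in Ioc X (4 * X), (4 * X) ^ ε * w x := by
          refine setIntegral_mono_on ?_ ((hwi.mono_set hsub).const_mul _) measurableSet_Ioc ?_
          · rw [← intervalIntegrable_iff_integrableOn_Ioc_of_le (by linarith)]
            exact G_ii hX0 (by linarith)
          · intro x hx
            have hx0 : 0 < x := hX0.trans hx.1
            have e1 : w x = G x * x ^ (-ε) := by
              rw [hw]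
              unfold G
              have : x ^ (-2 - ε) = x ^ (-ε) / x ^ 2 := by
                rw [show (-2 - ε : ℝ) = -ε - 2 by ring, Real.rpow_sub hx0]
                congr 1
                rw [← Real.rpow_natCast]
                norm_num
              simp only [this]
              ring
            have e2 : 1 ≤ (4 * X) ^ ε * x ^ (-ε) := by
              rw [Real.rpow_neg hx0.le, ← div_eq_mul_inv, one_le_div (by positivity)]
              exact Real.rpow_le_rpow hx0.le hx.2 hε.le
            rw [e1]
            have e3 := mul_le_mul_of_nonneg_left e2 (G_nonneg x)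
            linarith
      _ ≤ ∫ x in Ioi (1 : ℝ), (4 * X) ^ ε * w x := by
          refine setIntegral_mono_set (hwi.const_mul _) ?_ (Eventually.of_forall hsub)
          refine (ae_restrict_mem measurableSet_Ioi).mono fun x hx => ?_
          exact mul_nonneg (by positivity) (hw0 x hx)
  have h6 : (4 * X) ^ ε = 4 ^ ε * X ^ ε := Real.mul_rpow (by norm_num) hX0.le
  have h7 : 0 < X ^ ε := Real.rpow_pos_of_pos hX0 ε
  calc _ ≤ _ := h1
    _ = _ := h2
    _ ≤ 4 * ((4 * X) ^ ε * C0) := by linarith
    _ = 4 * (4 ^ ε * C0) * X ^ ε := by rw [h6]; ring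
    _ ≤ _ := by nlinarith

end Pool.Agent.NH13.UV
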