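import Pool.Agent.NH13.UV.Stm

/-!
# UV-20: a modulus and its multiples by powers of two
-/

set_option autoImplicit false

open Finset ArithmeticFunction

namespace Pool.Agent.NH13.UV

namespace Rf

open scoped Classical

/-- sum of `Λ` over a class -/
noncomputable def A (N q : ℕ) (u : ZMod q) : ℝ :=
  ∑ n ∈ (Icc 1 N).filter (fun n : ℕ => (n : ZMod q) = u), vonMangoldt n

theorem VV_eq (x : ℝ) (q : ℕ) [NeZero q] :
    VV x q = ∑ u : (ZMod q)ˣ, (A ⌊x⌋₊ q (u : ZMod q) - x / q.totient) ^ 2 := by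
  have hq : 0 < q := Nat.pos_of_ne_zero (NeZero.ne q)
  unfold VV
  refine Finset.sum_bij (fun a ha => ZMod.unitOfCoprime a (mem_filter.1 ha).2) ?_ ?_ ?_ ?_
  · intro a ha
    exact mem_univ _
  · intro a ha b hb hab
    have h1 := congrArg (fun u : (ZMod q)ˣ => (u : ZMod q)) hab
    simp only [ZMod.coe_unitOfCoprime] at h1
    rw [ZMod.natCast_eq_natCast_iff'] at h1
    have ha' := mem_range.1 (mem_filter.1 ha).1
    have hb' := mem_range.1 (mem_filter.1 hb).1
    rwa [Nat.mod_eq_of_lt ha', Nat.mod_eq_of_lt hb'] at h1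
  · intro u _
    refine ⟨(u : ZMod q).val, mem_filter.2 ⟨mem_range.2 (ZMod.val_lt _),
      ZMod.val_coe_unit_coprime u⟩, ?_⟩
    apply Units.ext
    rw [ZMod.coe_unitOfCoprime, ZMod.natCast_zmod_val]
  · intro a ha
    have ha' := mem_range.1 (mem_filter.1 ha).1
    congr 2
    unfold psiAP A
    apply Finset.sum_congr _ (fun _ _ => rfl)
    apply Finset.filter_congr
    intro n _
    rw [ZMod.coe_unitOfCoprime, ZMod.natCast_eq_natCast_iff', Nat.mod_eq_of_lt ha']

/-- the powers of two -/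
theorem pow_two_sum (N : ℕ) (hN : 1 ≤ N) :
    ∑ n ∈ (Icc 1 (Nat.log 2 N)).image (fun k => 2 ^ k), vonMangoldt n ≤ Real.log N := by
  rw [Finset.sum_image (by
    intro a _ b _ hab
    exact Nat.pow_right_injective (le_refl 2) hab)]
  have h1 : ∀ k ∈ Icc 1 (Nat.log 2 N), vonMangoldt (2 ^ k) = Real.log 2 := by
    intro k hk
    rw [vonMangoldt_apply_pow (by have := (mem_Icc.1 hk).1; omega),
      vonMangoldt_apply_prime Nat.prime_two]
    norm_num
  rw [Finset.sum_congr rfl h1, Finset.sum_const, Nat.card_Icc, nsmul_eq_mul, Nat.add_sub_cancel]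
  rw [← Real.log_pow]
  apply Real.log_le_log (by positivity)
  have := Nat.pow_log_le_self 2 (show N ≠ 0 by omega)
  exact_mod_cast this

/-- the contribution of the non-reduced classes -/
theorem err (N q j : ℕ) (hN : 1 ≤ N) [NeZero q] (u : (ZMod q)ˣ) :
    ∑ n ∈ (Icc 1 N).filter (fun n : ℕ => (n : ZMod q) = u ∧ ¬ n.Coprime (q * 2 ^ j)),
      vonMangoldt n ≤ Real.log N := by
  refine le_trans ?_ (pow_two_sum N hN)
  rw [← Finset.sum_filter_ne_zero]
  apply Finset.sum_le_sum_of_subset_of_nonneg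
  · intro n hn
    rw [mem_filter, mem_filter, mem_Icc] at hn
    obtain ⟨⟨⟨h1, h2⟩, h3, h4⟩, h5⟩ := hn
    have hcop : n.Coprime q := by
      rw [← ZMod.isUnit_iff_coprime, h3]
      exact u.isUnit
    have h6 : ¬ n.Coprime (2 ^ j) := fun h => h4 (Nat.Coprime.mul_right hcop h)
    have h7 : 2 ∣ n := by
      by_contra h
      apply h6
      apply Nat.Coprime.pow_right
      exact ((Nat.Prime.coprime_iff_not_dvd Nat.prime_two).2 h).symm
    rw [vonMangoldt_ne_zero_iff] at h5
    rw [mem_image]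
    rw [isPrimePow_nat_iff] at h5
    obtain ⟨p, k, hp, hk, rfl⟩ := h5
    have h8 : 2 ∣ p := Nat.prime_two.dvd_of_dvd_pow h7
    have h9 : 2 = p := (Nat.prime_dvd_prime_iff_eq Nat.prime_two hp).1 h8
    subst h9
    refine ⟨k, mem_Icc.2 ⟨hk, ?_⟩, rfl⟩
    exact Nat.le_log_of_pow_le (by norm_num) h2
  · intro n _ _
    exact vonMangoldt_nonneg


/-- the fibres of the reduction of the units -/
theorem fib (q Q : ℕ) [NeZero q] [NeZero Q] (h : q ∣ Q) (u : (ZMod q)ˣ) :
    ((univ.filter (fun g : (ZMod Q)ˣ => ZMod.unitsMap h g = u)).card : ℝ) * q.totient =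
      Q.totient := by
  have hs : ∀ v : (ZMod q)ˣ, v ∈ Set.range (ZMod.unitsMap h) := fun v =>
    ZMod.unitsMap_surjective h v
  have h1 : ∀ v : (ZMod q)ˣ,
      (univ.filter (fun g : (ZMod Q)ˣ => ZMod.unitsMap h g = v)).card =
      (univ.filter (fun g : (ZMod Q)ˣ => ZMod.unitsMap h g = u)).card := fun v =>
    MonoidHom.card_fiber_eq_of_mem_range (ZMod.unitsMap h) (hs v) (hs u)
  have h2 : (univ : Finset (ZMod Q)ˣ).card =
      ∑ v : (ZMod q)ˣ, (univ.filter (fun g : (ZMod Q)ˣ => ZMod.unitsMap h g = v)).card :=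
    Finset.card_eq_sum_card_fiberwise (fun g _ => mem_univ _)
  rw [Finset.sum_congr rfl (fun v _ => h1 v), Finset.sum_const, smul_eq_mul, Finset.card_univ,
    Finset.card_univ, ZMod.card_units_eq_totient, ZMod.card_units_eq_totient] at h2
  rw [h2]
  push_cast
  ring

/-- splitting of the sum over a class -/
theorem split (N q Q : ℕ) [NeZero q] [NeZero Q] (h : q ∣ Q) (u : (ZMod q)ˣ) :
    A N q u = ∑ g ∈ univ.filter (fun g : (ZMod Q)ˣ => ZMod.unitsMap h g = u), A N Q (g : ZMod Q) +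
      ∑ n ∈ (Icc 1 N).filter (fun n : ℕ => (n : ZMod q) = u ∧ ¬ n.Coprime Q),
        vonMangoldt n := by
  have h1 : ∑ g ∈ univ.filter (fun g : (ZMod Q)ˣ => ZMod.unitsMap h g = u), A N Q (g : ZMod Q) =
      ∑ n ∈ (Icc 1 N).filter (fun n : ℕ => (n : ZMod q) = u ∧ n.Coprime Q), vonMangoldt n := by
    unfold A
    rw [← Finset.sum_biUnion]
    · apply Finset.sum_congr _ (fun _ _ => rfl)
      ext n
      simp only [mem_biUnion, mem_filter, mem_univ, true_and]
      constructor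
      · rintro ⟨g, hg, hn, hng⟩
        refine ⟨hn, ?_, ?_⟩
        · rw [← hg, ZMod.unitsMap_val, ← hng]
          exact (ZMod.cast_natCast h n).symm
        · rw [← ZMod.isUnit_iff_coprime, hng]
          exact g.isUnit
      · rintro ⟨hn, hu, hc⟩
        refine ⟨ZMod.unitOfCoprime n hc, ?_, hn, ?_⟩
        · apply Units.ext
          rw [ZMod.unitsMap_val, ZMod.coe_unitOfCoprime, ← hu]
          exact ZMod.cast_natCast h n
        · rw [ZMod.coe_unitOfCoprime]
    · intro g _ g' _ hgg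
      rw [Function.onFun, Finset.disjoint_left]
      intro n hn hn'
      apply hgg
      apply Units.ext
      rw [← (mem_filter.1 hn).2, ← (mem_filter.1 hn').2]
  rw [h1]
  unfold A
  rw [← Finset.sum_filter_add_sum_filter_not ((Icc 1 N).filter (fun n : ℕ => (n : ZMod q) = u))
    (fun n => n.Coprime Q), Finset.filter_filter, Finset.filter_filter]

end Rf

theorem t_ref : S_ref := by
  classical
  intro q hq j x hx
  have hq0 : q ≠ 0 := by omega
  have hQ0 : q * 2 ^ j ≠ 0 := by positivity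
  have i1 : NeZero q := ⟨hq0⟩
  have i2 : NeZero (q * 2 ^ j) := ⟨hQ0⟩
  obtain ⟨Q, hQ⟩ : ∃ Q, Q = q * 2 ^ j := ⟨_, rfl⟩
  have hdv : q ∣ Q := hQ ▸ Dvd.intro _ rfl
  set N : ℕ := ⌊x⌋₊ with hNdef
  have hN : 1 ≤ N := by
    rw [hNdef, Nat.one_le_floor_iff]
    exact hx
  have i3 : NeZero Q := by rw [hQ]; exact i2
  rw [← hQ, Rf.VV_eq, Rf.VV_eq]
  have hφ : (0 : ℝ) < q.totient := by exact_mod_cast Nat.totient_pos.2 (by omega)
  have hΦ : (0 : ℝ) < Q.totient := by
    exact_mod_cast Nat.totient_pos.2 (Nat.pos_of_ne_zero (NeZero.ne Q))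
  set r : ℝ := (Q.totient : ℝ) / q.totient with hr
  have hr0 : 0 < r := div_pos hΦ hφ
  have hlogN : Real.log N ≤ Real.log x + 1 := by
    have h1 : (N : ℝ) ≤ x := Nat.floor_le (by linarith)
    have h2 : Real.log N ≤ Real.log x := Real.log_le_log (by exact_mod_cast hN) h1
    linarith
  have hlogN0 : 0 ≤ Real.log N := Real.log_natCast_nonneg N
  -- one class
  have key : ∀ u : (ZMod q)ˣ, (Rf.A N q (u : ZMod q) - x / q.totient) ^ 2 ≤
      2 * r * ∑ g ∈ univ.filter (fun g : (ZMod Q)ˣ => ZMod.unitsMap hdv g = u),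
        (Rf.A N Q (g : ZMod Q) - x / Q.totient) ^ 2 + 2 * (Real.log x + 1) ^ 2 := by
    intro u
    set F := univ.filter (fun g : (ZMod Q)ˣ => ZMod.unitsMap hdv g = u) with hF
    set E := ∑ n ∈ (Icc 1 N).filter (fun n : ℕ => (n : ZMod q) = u ∧ ¬ n.Coprime Q),
        vonMangoldt n with hE
    have hc : (F.card : ℝ) = r := by
      have := Rf.fib q Q hdv u
      rw [hr, eq_div_iff hφ.ne']
      exact this
    have e1 : Rf.A N q (u : ZMod q) - x / q.totient =
        ∑ g ∈ F, (Rf.A N Q (g : ZMod Q) - x / Q.totient) + E := by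
      rw [Rf.split N q Q hdv u, Finset.sum_sub_distrib, Finset.sum_const, nsmul_eq_mul, hc]
      have : r * (x / Q.totient) = x / q.totient := by
        rw [hr]
        field_simp
      rw [this]
      ring
    have hE1 : E ≤ Real.log N := by
      have := Rf.err N q j hN u
      rw [← hQ] at this
      exact this
    have hE0 : 0 ≤ E := Finset.sum_nonneg (fun n _ => vonMangoldt_nonneg)
    have hE2 : E ^ 2 ≤ (Real.log x + 1) ^ 2 := pow_le_pow_left₀ hE0 (hE1.trans hlogN) 2
    have hcs : (∑ g ∈ F, (Rf.A N Q (g : ZMod Q) - x / Q.totient)) ^ 2 ≤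
        r * ∑ g ∈ F, (Rf.A N Q (g : ZMod Q) - x / Q.totient) ^ 2 := by
      rw [← hc]
      exact sq_sum_le_card_mul_sum_sq
    rw [e1]
    set a := ∑ g ∈ F, (Rf.A N Q (g : ZMod Q) - x / Q.totient) with ha
    have : (a + E) ^ 2 ≤ 2 * a ^ 2 + 2 * E ^ 2 := by nlinarith [sq_nonneg (a - E)]
    nlinarith
  refine (Finset.sum_le_sum (fun u _ => key u)).trans ?_
  rw [Finset.sum_add_distrib, ← Finset.mul_sum, Finset.sum_fiberwise, Finset.sum_const,
    Finset.card_univ, ZMod.card_units_eq_totient, nsmul_eq_mul]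
  have : (q.totient : ℝ) * (2 * (Real.log x + 1) ^ 2) =
      2 * q.totient * (Real.log x + 1) ^ 2 := by ring
  rw [this]

end Pool.Agent.NH13.UV
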