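import Pool.Agent.NH13.UV.Stm
import Pool.Agent.Cov.PNT
import Pool.Agent.H95R2.Leh.Tot

/-!
# Plan UV, job UV-19: the range `x ≤ q`
-/

set_option autoImplicit false

open MeasureTheory Filter Topology Set

namespace Pool.Agent.NH13.UV

open ArithmeticFunction (vonMangoldt)

namespace sm

/-- the sum of the squares of `Λ` -/
noncomputable def S2 (x : ℝ) : ℝ := ∑ n ∈ Finset.Icc 1 ⌊x⌋₊, vonMangoldt n ^ 2

theorem psi_eq (x : ℝ) : Chebyshev.psi x = ∑ n ∈ Finset.Icc 1 ⌊x⌋₊, vonMangoldt n := by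
  unfold Chebyshev.psi
  refine Finset.sum_congr ?_ fun _ _ => rfl
  ext n
  simp [Nat.succ_le_iff]

theorem lam_le {x : ℝ} (hx : 1 ≤ x) {n : ℕ} (hn : n ∈ Finset.Icc 1 ⌊x⌋₊) :
    vonMangoldt n ≤ Real.log x := by
  obtain ⟨h1, h2⟩ := Finset.mem_Icc.1 hn
  have h3 : (n : ℝ) ≤ x := (Nat.cast_le.2 h2).trans (Nat.floor_le (by linarith))
  exact ArithmeticFunction.vonMangoldt_le_log.trans
    (Real.log_le_log (by exact_mod_cast h1) h3)

theorem S2_le {x : ℝ} (hx : 1 ≤ x) : S2 x ≤ Real.log x * Chebyshev.psi x := by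
  unfold S2
  rw [psi_eq, Finset.mul_sum]
  refine Finset.sum_le_sum fun n hn => ?_
  rw [sq]
  exact mul_le_mul_of_nonneg_right (lam_le hx hn) ArithmeticFunction.vonMangoldt_nonneg

theorem S2_ge {x η : ℝ} (hx : 1 ≤ x) (h0 : 0 ≤ η) (h1 : η ≤ 1) :
    (1 - η) * Real.log x * (Chebyshev.theta x - Chebyshev.theta (x ^ (1 - η))) ≤ S2 x := by
  have hx0 : 0 < x := by linarith
  have hyx : x ^ (1 - η) ≤ x := by
    calc x ^ (1 - η) ≤ x ^ (1 : ℝ) := Real.rpow_le_rpow_of_exponent_le hx (by linarith)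
      _ = x := Real.rpow_one x
  have hy0 : 0 < x ^ (1 - η) := Real.rpow_pos_of_pos hx0 _
  have e : Chebyshev.theta x - Chebyshev.theta (x ^ (1 - η)) =
      ∑ p ∈ (Finset.Ioc ⌊x ^ (1 - η)⌋₊ ⌊x⌋₊).filter Nat.Prime, Real.log p := by
    unfold Chebyshev.theta
    rw [Finset.sum_filter, Finset.sum_filter, Finset.sum_filter,
      ← Finset.sum_Ioc_consecutive _ (Nat.zero_le _) (Nat.floor_le_floor hyx)]
    ring
  rw [e, Finset.mul_sum]
  unfold S2
  refine (Finset.sum_le_sum (g := fun n => vonMangoldt n ^ 2) fun p hp => ?_).trans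
    (Finset.sum_le_sum_of_subset_of_nonneg ?_ fun n _ _ => sq_nonneg _)
  · obtain ⟨h2, h3⟩ := Finset.mem_filter.1 hp
    obtain ⟨h4, h5⟩ := Finset.mem_Ioc.1 h2
    have h6 : x ^ (1 - η) < p := (Nat.floor_lt hy0.le).1 h4
    have h7 : (1 - η) * Real.log x ≤ Real.log p := by
      rw [← Real.log_rpow hx0]
      exact Real.log_le_log hy0 h6.le
    show _ ≤ vonMangoldt p ^ 2
    rw [ArithmeticFunction.vonMangoldt_apply_prime h3, sq]
    exact mul_le_mul_of_nonneg_right h7 (Real.log_natCast_nonneg p)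
  · intro n hn
    obtain ⟨h2, h3⟩ := Finset.mem_filter.1 hn
    obtain ⟨h4, h5⟩ := Finset.mem_Ioc.1 h2
    exact Finset.mem_Icc.2 ⟨by omega, h5⟩

theorem S2_asymp {ε : ℝ} (hε : 0 < ε) : ∃ X0 : ℝ, 1 ≤ X0 ∧ ∀ x : ℝ, X0 ≤ x →
    |S2 x - x * Real.log x| ≤ ε * (x * Real.log x) := by
  obtain ⟨η, hη0, hη1, hη2⟩ : ∃ η : ℝ, 0 < η ∧ η ≤ ε / 3 ∧ η ≤ 1 / 2 :=
    ⟨min (ε / 3) (1 / 2), by positivity, min_le_left _ _, min_le_right _ _⟩
  have e1 : ∀ᶠ x : ℝ in atTop, Chebyshev.psi x / x < 1 + η :=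
    Pool.Agent.Cov.PNT.psi_div_tendsto.eventually_lt_const (by linarith)
  have e2 : ∀ᶠ x : ℝ in atTop, 1 - η < Chebyshev.theta x / x :=
    Pool.Agent.Cov.PNT.theta_div_tendsto.eventually_const_lt (by linarith)
  have e3 : ∀ᶠ x : ℝ in atTop, Real.log 4 * x ^ (-η) < η := by
    have h1 : Tendsto (fun x : ℝ => Real.log 4 * x ^ (-η)) atTop (𝓝 (Real.log 4 * 0)) :=
      (tendsto_rpow_neg_atTop hη0).const_mul _
    rw [mul_zero] at h1
    exact h1.eventually_lt_const hη0
  obtain ⟨X, hX⟩ := eventually_atTop.1 ((e1.and e2).and e3)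
  refine ⟨max X 1, le_max_right _ _, fun x hx => ?_⟩
  obtain ⟨⟨h1, h2⟩, h3⟩ := hX x ((le_max_left _ _).trans hx)
  have hx1 : 1 ≤ x := (le_max_right _ _).trans hx
  have hx0 : 0 < x := by linarith
  have hl : 0 ≤ Real.log x := Real.log_nonneg hx1
  rw [div_lt_iff₀ hx0] at h1
  rw [lt_div_iff₀ hx0] at h2
  have h4 : Chebyshev.theta (x ^ (1 - η)) ≤ η * x := by
    have h5 := Chebyshev.theta_le_log4_mul_x (x := x ^ (1 - η)) (by positivity)
    have h6 : x ^ (1 - η) = x ^ (-η) * x := by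
      rw [show 1 - η = -η + 1 by ring, Real.rpow_add hx0, Real.rpow_one]
    have h7 : Real.log 4 * x ^ (1 - η) = (Real.log 4 * x ^ (-η)) * x := by rw [h6]; ring
    rw [h7] at h5
    exact h5.trans (mul_le_mul_of_nonneg_right h3.le hx0.le)
  have h10 : 0 ≤ x * Real.log x := by positivity
  rw [abs_le]
  constructor
  · have h7 := S2_ge hx1 hη0.le (by linarith)
    have h8 : (1 - 2 * η) * x ≤ Chebyshev.theta x - Chebyshev.theta (x ^ (1 - η)) := by linarith
    have h9 : (1 - η) * Real.log x * ((1 - 2 * η) * x) ≤ S2 x :=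
      (mul_le_mul_of_nonneg_left h8 (mul_nonneg (by linarith) hl)).trans h7
    have h11 : (1 - 3 * η) * (x * Real.log x) ≤ (1 - η) * Real.log x * ((1 - 2 * η) * x) := by
      have : (1 - η) * Real.log x * ((1 - 2 * η) * x) - (1 - 3 * η) * (x * Real.log x) =
        2 * η ^ 2 * (x * Real.log x) := by ring
      have h12 : 0 ≤ 2 * η ^ 2 * (x * Real.log x) := by positivity
      linarith
    have h13 : 3 * η * (x * Real.log x) ≤ ε * (x * Real.log x) :=
      mul_le_mul_of_nonneg_right (by linarith) h10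
    linarith
  · have h7 := S2_le hx1
    have h8 : Real.log x * Chebyshev.psi x ≤ Real.log x * ((1 + η) * x) :=
      mul_le_mul_of_nonneg_left h1.le hl
    have h13 : η * (x * Real.log x) ≤ ε * (x * Real.log x) :=
      mul_le_mul_of_nonneg_right (by linarith) h10
    linarith

theorem nc1 (q N : ℕ) (hq : 1 ≤ q) :
    ∑ n ∈ (Finset.Icc 1 N).filter (fun n => ¬ n.Coprime q), vonMangoldt n ≤
      Nat.log 2 N * Real.log q := by
  classical
  have h1 : ∑ n ∈ (Finset.Icc 1 N).filter (fun n => ¬ n.Coprime q), vonMangoldt n ≤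
      ∑ n ∈ (q.primeFactors ×ˢ Finset.Icc 1 (Nat.log 2 N)).image (fun t => t.1 ^ t.2),
        vonMangoldt n := by
    rw [← Finset.sum_filter_ne_zero ((Finset.Icc 1 N).filter (fun n => ¬ n.Coprime q))]
    refine Finset.sum_le_sum_of_subset_of_nonneg ?_ fun n _ _ =>
      ArithmeticFunction.vonMangoldt_nonneg
    intro n hn
    obtain ⟨h2, h3⟩ := Finset.mem_filter.1 hn
    obtain ⟨h4, h5⟩ := Finset.mem_filter.1 h2
    obtain ⟨h6, h7⟩ := Finset.mem_Icc.1 h4
    obtain ⟨p, k, hp, hk, rfl⟩ := (isPrimePow_nat_iff n).1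
      (ArithmeticFunction.vonMangoldt_ne_zero_iff.1 h3)
    refine Finset.mem_image.2 ⟨(p, k), Finset.mem_product.2 ⟨?_, ?_⟩, rfl⟩
    · refine Nat.mem_primeFactors.2 ⟨hp, ?_, by omega⟩
      by_contra h8
      exact h5 (Nat.Coprime.pow_left k ((Nat.Prime.coprime_iff_not_dvd hp).2 h8))
    · refine Finset.mem_Icc.2 ⟨hk, Nat.le_log_of_pow_le (by norm_num) ?_⟩
      exact (Nat.pow_le_pow_left hp.two_le k).trans h7
  refine h1.trans ?_
  rw [Finset.sum_image, Finset.sum_product]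
  · have h2 : ∀ p ∈ q.primeFactors, ∑ k ∈ Finset.Icc 1 (Nat.log 2 N),
        vonMangoldt ((p, k).1 ^ (p, k).2) = Nat.log 2 N * Real.log p := by
      intro p hp
      have hpp := Nat.prime_of_mem_primeFactors hp
      rw [Finset.sum_congr rfl (fun k hk => by
        show vonMangoldt (p ^ k) = Real.log p
        rw [ArithmeticFunction.vonMangoldt_apply_pow (by
          have := (Finset.mem_Icc.1 hk).1
          omega), ArithmeticFunction.vonMangoldt_apply_prime hpp]), Finset.sum_const,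
        Nat.card_Icc, nsmul_eq_mul]
      simp
    rw [Finset.sum_congr rfl h2, ← Finset.mul_sum]
    refine mul_le_mul_of_nonneg_left ?_ (Nat.cast_nonneg _)
    rw [← Real.log_prod (fun p hp => by
      have := (Nat.prime_of_mem_primeFactors hp).pos
      positivity)]
    refine Real.log_le_log (Finset.prod_pos fun p hp => by
      have := (Nat.prime_of_mem_primeFactors hp).pos
      positivity) ?_
    have h3 := Nat.le_of_dvd hq (Nat.prod_primeFactors_dvd q)
    rw [← Nat.cast_prod]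
    exact Nat.cast_le.2 h3
  · rintro ⟨p, k⟩ h3 ⟨p', k'⟩ h4 h5
    obtain ⟨h6, h7⟩ := Finset.mem_product.1 h3
    obtain ⟨h8, h9⟩ := Finset.mem_product.1 h4
    have h10 := (Nat.prime_of_mem_primeFactors h6).pow_inj' (Nat.prime_of_mem_primeFactors h8)
      (by have := (Finset.mem_Icc.1 h7).1; exact Nat.pos_iff_ne_zero.1 this)
      (by have := (Finset.mem_Icc.1 h9).1; exact Nat.pos_iff_ne_zero.1 this) h5
    exact Prod.ext h10.1 h10.2

theorem nc2 {x : ℝ} (hx : 1 ≤ x) (q : ℕ) (hq : 1 ≤ q) :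
    ∑ n ∈ (Finset.Icc 1 ⌊x⌋₊).filter (fun n => ¬ n.Coprime q), vonMangoldt n ^ 2 ≤
      Real.log x ^ 2 / Real.log 2 * Real.log q := by
  have hl : 0 ≤ Real.log x := Real.log_nonneg hx
  have hl2 : 0 < Real.log 2 := Real.log_pos (by norm_num)
  have hN : 1 ≤ ⌊x⌋₊ := Nat.le_floor (by exact_mod_cast hx)
  have h1 : ∑ n ∈ (Finset.Icc 1 ⌊x⌋₊).filter (fun n => ¬ n.Coprime q), vonMangoldt n ^ 2 ≤
      Real.log x * ∑ n ∈ (Finset.Icc 1 ⌊x⌋₊).filter (fun n => ¬ n.Coprime q), vonMangoldt n := by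
    rw [Finset.mul_sum]
    refine Finset.sum_le_sum fun n hn => ?_
    rw [sq]
    exact mul_le_mul_of_nonneg_right (lam_le hx (Finset.mem_filter.1 hn).1)
      ArithmeticFunction.vonMangoldt_nonneg
  have h2 : (Nat.log 2 ⌊x⌋₊ : ℝ) ≤ Real.log x / Real.log 2 := by
    rw [le_div_iff₀ hl2, ← Real.log_pow]
    refine Real.log_le_log (by positivity) ?_
    have h3 : 2 ^ Nat.log 2 ⌊x⌋₊ ≤ ⌊x⌋₊ := Nat.pow_log_le_self 2 (by omega)
    have h4 : ((2 : ℝ) ^ Nat.log 2 ⌊x⌋₊) ≤ (⌊x⌋₊ : ℝ) := by exact_mod_cast h3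
    exact h4.trans (Nat.floor_le (by linarith))
  have h3 := nc1 q ⌊x⌋₊ hq
  have h4 : (0 : ℝ) ≤ Real.log q := Real.log_natCast_nonneg q
  calc _ ≤ _ := h1
    _ ≤ Real.log x * (Nat.log 2 ⌊x⌋₊ * Real.log q) := mul_le_mul_of_nonneg_left h3 hl
    _ ≤ Real.log x * (Real.log x / Real.log 2 * Real.log q) :=
      mul_le_mul_of_nonneg_left (mul_le_mul_of_nonneg_right h2 h4) hl
    _ = _ := by ring

theorem psiAP_small {x : ℝ} (hx : 1 ≤ x) {q a : ℕ} (hxq : x ≤ q) (ha0 : 1 ≤ a) (ha : a < q) :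
    psiAP x q a = if a ∈ Finset.Icc 1 ⌊x⌋₊ then vonMangoldt a else 0 := by
  have hN : ⌊x⌋₊ ≤ q := by
    have h := Nat.floor_le_floor hxq
    rwa [Nat.floor_natCast] at h
  unfold psiAP
  rw [Finset.sum_filter, Finset.sum_congr rfl (g := fun n => if n = a then vonMangoldt n else 0),
    Finset.sum_ite_eq']
  intro n hn
  obtain ⟨h1, h2⟩ := Finset.mem_Icc.1 hn
  have h3 : n % q = a ↔ n = a := by
    rcases Nat.lt_or_ge n q with h4 | h4
    · rw [Nat.mod_eq_of_lt h4]
    · have h5 : n = q := le_antisymm (h2.trans hN) h4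
      rw [h5, Nat.mod_self]
      constructor
      · intro h
        omega
      · intro h
        omega
  simp only [h3]

theorem redSum {x : ℝ} {q : ℕ} (hq : 2 ≤ q) (hxq : x ≤ q) (f : ℕ → ℝ) :
    ∑ a ∈ (Finset.range q).filter (fun a => a.Coprime q),
      (if a ∈ Finset.Icc 1 ⌊x⌋₊ then f a else 0) =
    ∑ n ∈ (Finset.Icc 1 ⌊x⌋₊).filter (fun n => n.Coprime q), f n := by
  have hN : ⌊x⌋₊ ≤ q := by
    have h := Nat.floor_le_floor hxq
    rwa [Nat.floor_natCast] at h
  rw [← Finset.sum_filter]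
  refine Finset.sum_congr ?_ fun _ _ => rfl
  ext n
  simp only [Finset.mem_filter, Finset.mem_range, Finset.mem_Icc]
  constructor
  · rintro ⟨⟨h1, h2⟩, h3⟩
    exact ⟨h3, h2⟩
  · rintro ⟨h1, h2⟩
    refine ⟨⟨?_, h2⟩, h1⟩
    rcases Nat.lt_or_ge n q with h4 | h4
    · exact h4
    · have h5 : n = q := le_antisymm (h1.2.trans hN) h4
      rw [h5, Nat.coprime_self] at h2
      omega

theorem VV_small {x : ℝ} (hx : 1 ≤ x) {q : ℕ} (hq : 2 ≤ q) (hxq : x ≤ q) :
    VV x q = ∑ n ∈ (Finset.Icc 1 ⌊x⌋₊).filter (fun n => n.Coprime q), vonMangoldt n ^ 2 -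
      2 * (x / q.totient) *
        ∑ n ∈ (Finset.Icc 1 ⌊x⌋₊).filter (fun n => n.Coprime q), vonMangoldt n +
      x / q.totient * x := by
  have hφ : 0 < q.totient := Nat.totient_pos.2 (by omega)
  have hφ0 : (0 : ℝ) < q.totient := by exact_mod_cast hφ
  have hcard : ((Finset.range q).filter (fun a => a.Coprime q)).card = q.totient := by
    rw [Nat.totient_eq_card_coprime]
    congr 1
    ext a
    simp only [Finset.mem_filter, Nat.coprime_comm]
  have ha : ∀ a ∈ (Finset.range q).filter (fun a => a.Coprime q), 1 ≤ a ∧ a < q := by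
    intro a ha
    obtain ⟨h1, h2⟩ := Finset.mem_filter.1 ha
    refine ⟨?_, Finset.mem_range.1 h1⟩
    by_contra h3
    have h4 : a = 0 := by omega
    rw [h4, Nat.coprime_zero_left] at h2
    omega
  unfold VV
  have e1 : ∀ a ∈ (Finset.range q).filter (fun a => a.Coprime q),
      (psiAP x q a - x / q.totient) ^ 2 =
        (if a ∈ Finset.Icc 1 ⌊x⌋₊ then vonMangoldt a ^ 2 else 0) -
        2 * (x / q.totient) * (if a ∈ Finset.Icc 1 ⌊x⌋₊ then vonMangoldt a else 0) +
        (x / q.totient) ^ 2 := by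
    intro a ha'
    rw [psiAP_small hx hxq (ha a ha').1 (ha a ha').2]
    split_ifs <;> ring
  rw [Finset.sum_congr rfl e1, Finset.sum_add_distrib, Finset.sum_sub_distrib, ← Finset.mul_sum,
    redSum hq hxq, redSum hq hxq, Finset.sum_const, hcard, nsmul_eq_mul]
  congr 1
  field_simp

theorem ev_log {K δ : ℝ} (hK : 0 < K) (hδ : 0 < δ) :
    ∀ᶠ u : ℝ in atTop, K * (1 + Real.log (1 + u)) ≤ δ * u := by
  have h1 : Tendsto (fun u : ℝ => 1 + u) atTop atTop := tendsto_atTop_add_const_left _ _ tendsto_id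
  have h2 := h1.eventually (Real.isLittleO_log_id_atTop.bound (show 0 < δ / (4 * K) by positivity))
  filter_upwards [h2, eventually_ge_atTop (1 : ℝ), eventually_ge_atTop ((4 * K + δ) / δ)] with u h3
    h4 h5
  rw [Real.norm_eq_abs, Real.norm_eq_abs, id, abs_of_nonneg (show 0 ≤ 1 + u by linarith)] at h3
  have h6 := (le_abs_self _).trans h3
  have h7 : K * Real.log (1 + u) ≤ δ / 4 * (1 + u) := by
    have := mul_le_mul_of_nonneg_left h6 hK.le
    calc K * Real.log (1 + u) ≤ K * (δ / (4 * K) * (1 + u)) := this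
      _ = δ / 4 * (1 + u) := by field_simp
  rw [div_le_iff₀ hδ] at h5
  nlinarith

end sm

open sm in
theorem t_small : S_small := by
  intro ε hε
  obtain ⟨X0, hX0, hS⟩ := S2_asymp (show 0 < ε / 3 by positivity)
  obtain ⟨C2, hC2, htot⟩ := Pool.Agent.H95R2.Leh.tot_lower
  have hl2 : 0 < Real.log 2 := Real.log_pos (by norm_num)
  obtain ⟨X1, hX1⟩ := eventually_atTop.1 ((Real.isLittleO_pow_log_id_atTop (n := 2)).bound
    (show 0 < ε / 3 * Real.log 2 by positivity))
  set X : ℝ := max X0 X1 with hX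
  have hXX0 : X0 ≤ X := le_max_left _ _
  have hXX1 : X1 ≤ X := le_max_right _ _
  set C : ℝ := Real.log 4 + 4 with hC
  have hC0 : 0 < C := by
    have : 0 ≤ Real.log 4 := Real.log_nonneg (by norm_num)
    rw [hC]
    linarith
  have ht : Tendsto (fun q : ℕ => Real.log q) atTop atTop :=
    Real.tendsto_log_atTop.comp tendsto_natCast_atTop_atTop
  have e1 := ht.eventually (ev_log (show 0 < (2 * C + 1) * C2 by positivity)
    (show 0 < ε / 3 by positivity))
  have e2 := ht.eventually (eventually_ge_atTop (3 / ε * ((C + 1) * Real.log X)))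
  obtain ⟨q0, hq0⟩ := eventually_atTop.1 ((e1.and e2).and (eventually_ge_atTop 2))
  refine ⟨q0, fun q hq x hx hxq => ?_⟩
  obtain ⟨⟨h1, h2⟩, h3⟩ := hq0 q hq
  have hq1 : 1 ≤ q := by omega
  have hx0 : 0 < x := by linarith
  have hlx : 0 ≤ Real.log x := Real.log_nonneg hx
  have hlq : Real.log x ≤ Real.log q := Real.log_le_log hx0 hxq
  have hlq0 : 0 ≤ Real.log q := hlx.trans hlq
  have hφ : 0 < q.totient := Nat.totient_pos.2 (by omega)
  have hφ0 : (0 : ℝ) < q.totient := by exact_mod_cast hφ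
  set P2 : ℝ := ∑ n ∈ (Finset.Icc 1 ⌊x⌋₊).filter (fun n => n.Coprime q), vonMangoldt n ^ 2 with hP2
  set P1 : ℝ := ∑ n ∈ (Finset.Icc 1 ⌊x⌋₊).filter (fun n => n.Coprime q), vonMangoldt n with hP1
  set F : ℝ := x / q.totient with hF
  have hF0 : 0 ≤ F := by positivity
  have hFb : F ≤ C2 * (1 + Real.log (1 + Real.log q)) :=
    (div_le_div_of_nonneg_right hxq hφ0.le).trans (htot q hq1)
  have hP10 : 0 ≤ P1 := Finset.sum_nonneg fun _ _ => ArithmeticFunction.vonMangoldt_nonneg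
  have hP1x : P1 ≤ C * x := by
    refine le_trans ?_ (Chebyshev.psi_le_const_mul_self hx0.le)
    rw [psi_eq]
    exact Finset.sum_le_sum_of_subset_of_nonneg (Finset.filter_subset _ _) fun _ _ _ =>
      ArithmeticFunction.vonMangoldt_nonneg
  have hV : VV x q = P2 - 2 * F * P1 + F * x := VV_small hx h3 hxq
  have hsplit : P2 + ∑ n ∈ (Finset.Icc 1 ⌊x⌋₊).filter (fun n => ¬ n.Coprime q),
      vonMangoldt n ^ 2 = S2 x := Finset.sum_filter_add_sum_filter_not _ _ _
  set Nc : ℝ := ∑ n ∈ (Finset.Icc 1 ⌊x⌋₊).filter (fun n => ¬ n.Coprime q), vonMangoldt n ^ 2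
    with hNc
  have hNc0 : 0 ≤ Nc := Finset.sum_nonneg fun _ _ => sq_nonneg _
  have hP20 : 0 ≤ P2 := Finset.sum_nonneg fun _ _ => sq_nonneg _
  -- the first error
  have hE1 : (2 * C + 1) * F * x ≤ ε / 3 * (x * Real.log q) := by
    have h4 : (2 * C + 1) * F ≤ ε / 3 * Real.log q := by
      calc (2 * C + 1) * F ≤ (2 * C + 1) * (C2 * (1 + Real.log (1 + Real.log q))) :=
            mul_le_mul_of_nonneg_left hFb (by positivity)
        _ = (2 * C + 1) * C2 * (1 + Real.log (1 + Real.log q)) := by ring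
        _ ≤ _ := h1
    calc (2 * C + 1) * F * x ≤ ε / 3 * Real.log q * x := mul_le_mul_of_nonneg_right h4 hx0.le
      _ = _ := by ring
  have hE2 : F * P1 ≤ C * F * x := by
    calc F * P1 ≤ F * (C * x) := mul_le_mul_of_nonneg_left hP1x hF0
      _ = _ := by ring
  have hE3 : 0 ≤ F * P1 := mul_nonneg hF0 hP10
  have hE4 : 0 ≤ F * x := mul_nonneg hF0 hx0.le
  have hE5 : 0 ≤ C * F * x := by positivity
  have hmain : |P2 - x * Real.log x| ≤ ε * 2 / 3 * (x * Real.log q) := by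
    rcases le_or_gt X x with h5 | h5
    · have h6 := hS x (hXX0.trans h5)
      have h7 := hX1 x (hXX1.trans h5)
      rw [Real.norm_eq_abs, Real.norm_eq_abs, id, abs_of_nonneg hx0.le,
        abs_of_nonneg (sq_nonneg _)] at h7
      have h8 : Nc ≤ ε / 3 * (x * Real.log q) := by
        refine (nc2 hx q hq1).trans ?_
        have h9 : Real.log x ^ 2 / Real.log 2 ≤ ε / 3 * x := by
          rw [div_le_iff₀ hl2]
          linarith
        calc _ ≤ ε / 3 * x * Real.log q := mul_le_mul_of_nonneg_right h9 hlq0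
          _ = _ := by ring
      have h9 : ε / 3 * (x * Real.log x) ≤ ε / 3 * (x * Real.log q) :=
        mul_le_mul_of_nonneg_left (mul_le_mul_of_nonneg_left hlq hx0.le) (by positivity)
      rw [abs_le] at h6 ⊢
      constructor <;> linarith [h6.1, h6.2]
    · have h6 : Real.log x ≤ Real.log X := Real.log_le_log hx0 h5.le
      have h7 : P2 ≤ Real.log X * (C * x) := by
        have h8 := S2_le hx
        have h9 := Chebyshev.psi_le_const_mul_self hx0.le
        have h10 := Chebyshev.psi_nonneg x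
        calc P2 ≤ S2 x := by linarith
          _ ≤ _ := h8
          _ ≤ Real.log X * Chebyshev.psi x := mul_le_mul_of_nonneg_right h6 h10
          _ ≤ Real.log X * (C * x) := mul_le_mul_of_nonneg_left h9 (hlx.trans h6)
      have h8 : x * Real.log x ≤ Real.log X * x := by
        rw [mul_comm]
        exact mul_le_mul_of_nonneg_right h6 hx0.le
      have h9 : (C + 1) * Real.log X ≤ ε / 3 * Real.log q := by
        have := mul_le_mul_of_nonneg_left h2 (show 0 ≤ ε / 3 by positivity)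
        calc _ = ε / 3 * (3 / ε * ((C + 1) * Real.log X)) := by field_simp
          _ ≤ _ := this
      have h10 : Real.log X * (C * x) + Real.log X * x ≤ ε / 3 * (x * Real.log q) := by
        calc _ = (C + 1) * Real.log X * x := by ring
          _ ≤ ε / 3 * Real.log q * x := mul_le_mul_of_nonneg_right h9 hx0.le
          _ = _ := by ring
      have h11 : 0 ≤ x * Real.log x := by positivity
      have h12 : 0 ≤ Real.log X * (C * x) := mul_nonneg (hlx.trans h6) (by positivity)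
      have h13 : 0 ≤ Real.log X * x := mul_nonneg (hlx.trans h6) hx0.le
      have h14 : 0 ≤ x * Real.log q := by positivity
      have h15 : 0 ≤ ε / 3 * (x * Real.log q) := by positivity
      rw [abs_le]
      constructor <;> linarith
  rw [hV]
  rw [abs_le] at hmain ⊢
  constructor <;> linarith [hmain.1, hmain.2]

end Pool.Agent.NH13.UV
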