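import Pool.Agent.NH13.UV.Stm

/-!
# UV-34: from the upper bound in the windows to the asymptotic formula
-/

set_option autoImplicit false

open MeasureTheory Filter Topology Set

namespace Pool.Agent.NH13.UV

namespace T1

lemma fint {f : ℕ → ℝ → ℝ} (hf : Fam f) (q : ℕ) {a b : ℝ} (ha : 0 ≤ a) (hab : a ≤ b) :
    IntervalIntegrable (f q) volume a b := by
  obtain ⟨M, hM⟩ := hf.loc q b
  rw [intervalIntegrable_iff_integrableOn_Icc_of_le hab]
  refine Measure.integrableOn_of_bounded (M := M) measure_Icc_lt_top.ne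
    (hf.meas q).aestronglyMeasurable ?_
  refine (ae_restrict_iff' measurableSet_Icc).2 (Eventually.of_forall fun u hu => ?_)
  rw [Real.norm_of_nonneg (hf.nn q u)]
  exact hM u ⟨ha.trans hu.1, hu.2⟩

lemma gint {f : ℕ → ℝ → ℝ} (hf : Fam f) (q : ℕ) {a b : ℝ} (ha : 0 ≤ a) (hab : a ≤ b) (κ : ℝ) :
    IntervalIntegrable (fun u => Real.exp (-2 * κ * u) * f q u) volume a b :=
  (fint hf q ha hab).continuousOn_mul (by fun_prop)

lemma eint (κ a b : ℝ) : IntervalIntegrable (fun u => Real.exp (-2 * κ * u)) volume a b :=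
  (by fun_prop : Continuous fun u : ℝ => Real.exp (-2 * κ * u)).intervalIntegrable _ _

lemma e_anti {κ : ℝ} (hκ : 0 < κ) {u v : ℝ} (h : u ≤ v) :
    Real.exp (-2 * κ * v) ≤ Real.exp (-2 * κ * u) := by
  apply Real.exp_le_exp.2
  nlinarith

lemma e_le_one {κ : ℝ} (hκ : 0 < κ) {u : ℝ} (h : 0 ≤ u) : Real.exp (-2 * κ * u) ≤ 1 := by
  apply Real.exp_le_one_iff.2
  nlinarith

/-- the upper bound with the exponential weight -/
lemma cells {f : ℕ → ℝ → ℝ} (hf : Fam f)
    (H3 : ∀ a b : ℝ, 1 ≤ a → a < b → ∀ ε : ℝ, 0 < ε →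
      ∀ᶠ q in atTop, ∫ u in a..b, f q u ≤ b - a + ε)
    {κ : ℝ} (hκ : 0 < κ) {c d : ℝ} (hc : 1 ≤ c) (hcd : c ≤ d) {ε : ℝ} (hε : 0 < ε) :
    ∀ᶠ q in atTop, ∫ u in c..d, Real.exp (-2 * κ * u) * f q u ≤
      (∫ u in c..d, Real.exp (-2 * κ * u)) + ε := by
  rcases eq_or_lt_of_le hcd with rfl | hlt
  · exact Eventually.of_forall fun q => by
      rw [intervalIntegral.integral_same, intervalIntegral.integral_same]
      linarith
  obtain ⟨n, hn⟩ := exists_nat_gt (2 * (d - c) / ε)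
  have hn0 : (0 : ℝ) < n := lt_trans (div_pos (by linarith) hε) hn
  obtain ⟨h, hh⟩ : ∃ h : ℝ, h = (d - c) / n := ⟨_, rfl⟩
  have hh0 : 0 < h := by rw [hh]; exact div_pos (by linarith) hn0
  have hh2 : h ≤ ε / 2 := by
    rw [div_lt_iff₀ hε] at hn
    rw [hh, div_le_iff₀ hn0]
    linarith
  obtain ⟨x, hx⟩ : ∃ x : ℕ → ℝ, x = fun i : ℕ => c + (i : ℝ) * h := ⟨_, rfl⟩
  have hx1 : ∀ i, x (i + 1) = x i + h := by
    intro i
    rw [hx]
    push_cast
    ring
  have hxc : ∀ i, c ≤ x i := by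
    intro i
    rw [hx]
    have : 0 ≤ (i : ℝ) * h := by positivity
    show c ≤ c + i * h
    linarith
  have hxn : x n = d := by
    rw [hx, hh]
    show c + n * ((d - c) / n) = d
    field_simp
    ring
  have hx0 : x 0 = c := by
    rw [hx]
    simp
  have hev : ∀ᶠ q in atTop, ∀ i ∈ Finset.range n,
      ∫ u in (x i)..(x (i + 1)), f q u ≤ h + ε / (2 * n) := by
    rw [Filter.eventually_all_finset]
    intro i _
    have := H3 (x i) (x (i + 1)) (hc.trans (hxc i)) (by rw [hx1]; linarith) (ε / (2 * n))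
      (by positivity)
    filter_upwards [this] with q hq
    rw [hx1] at hq ⊢
    linarith
  filter_upwards [hev] with q hq
  have hle : ∀ i, x i ≤ x (i + 1) := fun i => by rw [hx1]; linarith
  have h0 : ∀ i, 0 ≤ x i := fun i => by have := hxc i; linarith
  rw [← hx0, ← hxn, ← intervalIntegral.sum_integral_adjacent_intervals
    (fun i _ => gint hf q (h0 i) (hle i) κ),
    ← intervalIntegral.sum_integral_adjacent_intervals (fun i _ => eint κ _ _)]
  have hcell : ∀ i ∈ Finset.range n, ∫ u in (x i)..(x (i + 1)), Real.exp (-2 * κ * u) * f q u ≤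
      (∫ u in (x i)..(x (i + 1)), Real.exp (-2 * κ * u)) +
        ((Real.exp (-2 * κ * x i) - Real.exp (-2 * κ * x (i + 1))) * h + ε / (2 * n)) := by
    intro i hi
    have h1 : ∫ u in (x i)..(x (i + 1)), Real.exp (-2 * κ * u) * f q u ≤
        Real.exp (-2 * κ * x i) * ∫ u in (x i)..(x (i + 1)), f q u := by
      rw [← intervalIntegral.integral_const_mul]
      refine intervalIntegral.integral_mono_on (hle i) (gint hf q (h0 i) (hle i) κ)
        ((fint hf q (h0 i) (hle i)).const_mul _) fun u hu => ?_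
      exact mul_le_mul_of_nonneg_right (e_anti hκ hu.1) (hf.nn q u)
    have h2 : Real.exp (-2 * κ * x (i + 1)) * h ≤
        ∫ u in (x i)..(x (i + 1)), Real.exp (-2 * κ * u) := by
      have h3 : ∫ u in (x i)..(x (i + 1)), Real.exp (-2 * κ * x (i + 1)) =
          Real.exp (-2 * κ * x (i + 1)) * h := by
        rw [intervalIntegral.integral_const, smul_eq_mul, hx1]
        ring
      rw [← h3]
      exact intervalIntegral.integral_mono_on (hle i) (by simp) (eint κ _ _)
        fun u hu => e_anti hκ hu.2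
    have h4 : Real.exp (-2 * κ * x i) * ∫ u in (x i)..(x (i + 1)), f q u ≤
        Real.exp (-2 * κ * x i) * h + ε / (2 * n) := by
      have h5 := mul_le_mul_of_nonneg_left (hq i hi) (Real.exp_pos (-2 * κ * x i)).le
      have h6 : Real.exp (-2 * κ * x i) * (ε / (2 * n)) ≤ 1 * (ε / (2 * n)) :=
        mul_le_mul_of_nonneg_right (e_le_one hκ (h0 i)) (by positivity)
      linarith
    linarith
  refine (Finset.sum_le_sum hcell).trans ?_
  rw [Finset.sum_add_distrib, Finset.sum_add_distrib, ← Finset.sum_mul,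
    Finset.sum_range_sub' (fun i => Real.exp (-2 * κ * x i)) n, Finset.sum_const,
    Finset.card_range, nsmul_eq_mul]
  have h1 : (n : ℝ) * (ε / (2 * n)) = ε / 2 := by field_simp
  have h2 : (Real.exp (-2 * κ * x 0) - Real.exp (-2 * κ * x n)) * h ≤ 1 * h := by
    refine mul_le_mul_of_nonneg_right ?_ hh0.le
    have := e_le_one hκ (h0 0)
    have := Real.exp_pos (-2 * κ * x n)
    linarith
  rw [h1]
  linarith

/-- cutting the Laplace transform -/
lemma LT_le {f : ℕ → ℝ → ℝ} (hf : Fam f) (q : ℕ) {κ U : ℝ} (hκ : 0 < κ) (hU : 0 ≤ U) :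
    LT (f q) κ ≤ ENNReal.ofReal (∫ u in (0 : ℝ)..U, Real.exp (-2 * κ * u) * f q u) +
      ENNReal.ofReal (Real.exp (-κ * U)) * LT (f q) (κ / 2) := by
  unfold LT
  rw [← Ioc_union_Ioi_eq_Ioi hU]
  refine (lintegral_union_le _ _ _).trans (add_le_add ?_ ?_)
  · rw [intervalIntegral.integral_of_le hU]
    refine (ofReal_integral_eq_lintegral_ofReal ?_ ?_).ge
    · exact (intervalIntegrable_iff_integrableOn_Ioc_of_le hU).1 (gint hf q le_rfl hU κ)
    · exact Eventually.of_forall fun u => mul_nonneg (Real.exp_pos _).le (hf.nn q u)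
  · rw [Ioc_union_Ioi_eq_Ioi hU, ← lintegral_const_mul' _ _ ENNReal.ofReal_ne_top]
    refine le_trans ?_ (lintegral_mono_set (Ioi_subset_Ioi hU))
    refine setLIntegral_mono' measurableSet_Ioi fun u hu => ?_
    rw [← ENNReal.ofReal_mul (Real.exp_pos _).le]
    refine ENNReal.ofReal_le_ofReal ?_
    rw [← mul_assoc, ← Real.exp_add]
    refine mul_le_mul_of_nonneg_right (Real.exp_le_exp.2 ?_) (hf.nn q u)
    have hu' : U < u := hu
    nlinarith

/-- the explicit integrals -/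
lemma expl {κ : ℝ} (hκ : 0 < κ) (hκ2 : κ ≤ 1 / 2) {U : ℝ} (hU : 1 ≤ U) :
    (∫ u in (0 : ℝ)..1, Real.exp (-2 * κ * u) * u) + (∫ u in (1 : ℝ)..U, Real.exp (-2 * κ * u)) ≤
      (1 / κ - 1) / 2 + κ := by
  have h1 : ∫ u in (0 : ℝ)..1, Real.exp (-2 * κ * u) * u =
      -(1 / (2 * κ) + 1 / (4 * κ ^ 2)) * Real.exp (-2 * κ) + 1 / (4 * κ ^ 2) := by
    have hd : ∀ u ∈ uIcc (0 : ℝ) 1, HasDerivAt
        (fun u : ℝ => -(u / (2 * κ) + 1 / (4 * κ ^ 2)) * Real.exp (-2 * κ * u))
        (Real.exp (-2 * κ * u) * u) u := by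
      intro u _
      have e1 : HasDerivAt (fun u : ℝ => Real.exp (-2 * κ * u))
          (Real.exp (-2 * κ * u) * (-2 * κ)) u := by
        have := ((hasDerivAt_id u).const_mul (-2 * κ)).exp
        simpa using this
      have e2 : HasDerivAt (fun u : ℝ => -(u / (2 * κ) + 1 / (4 * κ ^ 2))) (-(1 / (2 * κ))) u :=
        (((hasDerivAt_id u).div_const (2 * κ)).add_const (1 / (4 * κ ^ 2))).neg
      have := e2.mul e1
      refine this.congr_deriv ?_
      field_simp
      ring
    rw [intervalIntegral.integral_eq_sub_of_hasDerivAt hd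
      ((by fun_prop : Continuous fun u : ℝ => Real.exp (-2 * κ * u) * u).intervalIntegrable _ _)]
    rw [mul_one, mul_zero, Real.exp_zero]
    ring
  have h2 : ∫ u in (1 : ℝ)..U, Real.exp (-2 * κ * u) =
      Real.exp (-2 * κ) / (2 * κ) - Real.exp (-2 * κ * U) / (2 * κ) := by
    have hd : ∀ u ∈ uIcc (1 : ℝ) U, HasDerivAt
        (fun u : ℝ => -(Real.exp (-2 * κ * u) / (2 * κ))) (Real.exp (-2 * κ * u)) u := by
      intro u _
      have e1 : HasDerivAt (fun u : ℝ => Real.exp (-2 * κ * u))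
          (Real.exp (-2 * κ * u) * (-2 * κ)) u := by
        have := ((hasDerivAt_id u).const_mul (-2 * κ)).exp
        simpa using this
      refine ((e1.div_const (2 * κ)).neg).congr_deriv ?_
      field_simp
    rw [intervalIntegral.integral_eq_sub_of_hasDerivAt hd (eint κ _ _), mul_one]
    ring
  have h3 : 1 - Real.exp (-2 * κ) ≤ 2 * κ - 2 * κ ^ 2 + 4 * κ ^ 3 := by
    have h4 := Real.exp_bound (x := -2 * κ) (n := 3) (by
      rw [abs_le]
      constructor <;> linarith) (by norm_num)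
    have h5 : |(-2 * κ)| = 2 * κ := by
      rw [abs_of_nonpos (by linarith)]
      ring
    rw [h5, Finset.sum_range_succ, Finset.sum_range_succ, Finset.sum_range_one] at h4
    norm_num [Nat.factorial] at h4
    have h6 := (abs_le.1 h4).1
    have h7 : 0 ≤ κ ^ 3 := by positivity
    have h8 : -2 * κ = -(2 * κ) := by ring
    have h9 : (2 * κ) ^ 3 = 8 * κ ^ 3 := by ring
    rw [h9] at h6
    rw [h8]
    linarith
  have h4 : 0 < Real.exp (-2 * κ * U) / (2 * κ) := by positivity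
  have h5 : (1 - Real.exp (-2 * κ)) / (4 * κ ^ 2) ≤ (1 / κ - 1) / 2 + κ := by
    rw [div_le_iff₀ (by positivity)]
    have h6 : ((1 / κ - 1) / 2 + κ) * (4 * κ ^ 2) = 2 * κ - 2 * κ ^ 2 + 4 * κ ^ 3 := by
      field_simp
      ring
    rw [h6]
    exact h3
  have h6 : (∫ u in (0 : ℝ)..1, Real.exp (-2 * κ * u) * u) +
      (∫ u in (1 : ℝ)..U, Real.exp (-2 * κ * u)) =
      (1 - Real.exp (-2 * κ)) / (4 * κ ^ 2) - Real.exp (-2 * κ * U) / (2 * κ) := by
    rw [h1, h2]
    field_simp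
    ring
  rw [h6]
  linarith

/-- the beginning -/
lemma start {f : ℕ → ℝ → ℝ} (hf : Fam f) {κ : ℝ} (hκ : 0 < κ) {ε : ℝ} (hε : 0 < ε) :
    ∀ᶠ q in atTop, ∫ u in (0 : ℝ)..1, Real.exp (-2 * κ * u) * f q u ≤
      (∫ u in (0 : ℝ)..1, Real.exp (-2 * κ * u) * u) + ε := by
  filter_upwards [hf.small ε hε] with q hq
  have hc : Continuous fun u : ℝ => Real.exp (-2 * κ * u) * u := by fun_prop
  have h1 : ∫ u in (0 : ℝ)..1, Real.exp (-2 * κ * u) * f q u ≤
      ∫ u in (0 : ℝ)..1, (Real.exp (-2 * κ * u) * u + ε) := by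
    refine intervalIntegral.integral_mono_on zero_le_one (gint hf q le_rfl zero_le_one κ)
      ((hc.add continuous_const).intervalIntegrable _ _) fun u hu => ?_
    have h2 := (abs_le.1 (hq u hu)).2
    have h3 := e_le_one hκ hu.1
    have h4 := Real.exp_pos (-2 * κ * u)
    have h5 : Real.exp (-2 * κ * u) * f q u ≤ Real.exp (-2 * κ * u) * (u + ε) :=
      mul_le_mul_of_nonneg_left (by linarith) h4.le
    have h6 : Real.exp (-2 * κ * u) * ε ≤ 1 * ε := mul_le_mul_of_nonneg_right h3 hε.le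
    linarith
  rw [intervalIntegral.integral_add (hc.intervalIntegrable _ _)
    (continuous_const.intervalIntegrable _ _), intervalIntegral.integral_const] at h1
  simpa using h1

/-- the lower bound -/
lemma lower {f : ℕ → ℝ → ℝ} (hf : Fam f)
    (H1 : ∃ C : ℝ, ∀ κ : ℝ, 0 < κ → κ ≤ 1 →
      ∀ᶠ q in atTop, LT (f q) κ ≤ ENNReal.ofReal (C / κ ^ 2))
    (H2 : ∀ κ ε : ℝ, 0 < κ → 0 < ε →
      ∀ᶠ q in atTop, ENNReal.ofReal ((1 / κ - 1) / 2 - ε) ≤ LT (f q) κ)
    (H3 : ∀ a b : ℝ, 1 ≤ a → a < b → ∀ ε : ℝ, 0 < ε →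
      ∀ᶠ q in atTop, ∫ u in a..b, f q u ≤ b - a + ε)
    {a b : ℝ} (ha : 1 ≤ a) (hab : a < b) {e : ℝ} (he : 0 < e) :
    ∀ᶠ q in atTop, b - a - e ≤ ∫ u in a..b, f q u := by
  obtain ⟨C, hC⟩ := H1
  have hb0 : 0 < b := by linarith
  obtain ⟨κ, hκ0, hκ2, hκe, hκb⟩ : ∃ κ : ℝ, 0 < κ ∧ κ ≤ 1 / 2 ∧ κ ≤ e / 8 ∧
      (b - a) * (2 * κ * b) ≤ e / 8 := by
    have hP : 0 < 1 + 2 * b * (b - a) := by
      have : 0 < b - a := by linarith
      positivity
    refine ⟨min (1 / 2) (e / (8 * (1 + 2 * b * (b - a)))), by positivity, min_le_left _ _, ?_, ?_⟩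
    · refine (min_le_right _ _).trans ?_
      refine div_le_div_of_nonneg_left he.le (by norm_num) ?_
      have : 0 < b - a := by linarith
      nlinarith [mul_pos hb0 this]
    · have h1 : min (1 / 2) (e / (8 * (1 + 2 * b * (b - a)))) ≤ e / (8 * (1 + 2 * b * (b - a))) :=
        min_le_right _ _
      have h2 : 0 < b - a := by linarith
      calc (b - a) * (2 * min (1 / 2) (e / (8 * (1 + 2 * b * (b - a)))) * b)
          = (2 * b * (b - a)) * min (1 / 2) (e / (8 * (1 + 2 * b * (b - a)))) := by ring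
        _ ≤ (2 * b * (b - a)) * (e / (8 * (1 + 2 * b * (b - a)))) :=
            mul_le_mul_of_nonneg_left h1 (by positivity)
        _ ≤ (1 + 2 * b * (b - a)) * (e / (8 * (1 + 2 * b * (b - a)))) :=
            mul_le_mul_of_nonneg_right (by linarith) (by positivity)
        _ = e / 8 := by field_simp
  obtain ⟨K, hK0, hK⟩ : ∃ K : ℝ, 0 ≤ K ∧ C / (κ / 2) ^ 2 ≤ K :=
    ⟨max 0 (C / (κ / 2) ^ 2), le_max_left _ _, le_max_right _ _⟩
  obtain ⟨U, hUb, hU⟩ : ∃ U : ℝ, b ≤ U ∧ Real.exp (-κ * U) * K ≤ e / 8 := by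
    have h1 : Tendsto (fun U : ℝ => Real.exp (-κ * U) * K) atTop (𝓝 (0 * K)) := by
      refine Tendsto.mul_const _ (Real.tendsto_exp_atBot.comp ?_)
      exact tendsto_id.const_mul_atTop_of_neg (by linarith)
    rw [zero_mul] at h1
    have h2 : ∀ᶠ U : ℝ in atTop, Real.exp (-κ * U) * K ≤ e / 8 :=
      (h1.eventually (gt_mem_nhds (show (0 : ℝ) < e / 8 by linarith))).mono fun _ h => h.le
    obtain ⟨U, h3, h4⟩ := (h2.and (eventually_ge_atTop b)).exists
    exact ⟨U, h4, h3⟩
  filter_upwards [start hf hκ0 (show 0 < e / 8 by linarith),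
    cells hf H3 hκ0 le_rfl ha (show 0 < e / 8 by linarith),
    cells hf H3 hκ0 (ha.trans hab.le) hUb (show 0 < e / 8 by linarith),
    hC (κ / 2) (by linarith) (by linarith), H2 κ (e / 8) hκ0 (by linarith)] with q h1 h2 h3 h4 h5
  have hU1 : 1 ≤ U := by linarith
  have i1 := gint hf q le_rfl zero_le_one κ
  have i2 := gint hf q zero_le_one ha κ
  have i3 := gint hf q (zero_le_one.trans ha) hab.le κ
  have i4 := gint hf q hb0.le hUb κ
  have hsplit : ∫ u in (0 : ℝ)..U, Real.exp (-2 * κ * u) * f q u =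
      (∫ u in (0 : ℝ)..1, Real.exp (-2 * κ * u) * f q u) +
      (∫ u in (1 : ℝ)..a, Real.exp (-2 * κ * u) * f q u) +
      (∫ u in a..b, Real.exp (-2 * κ * u) * f q u) +
      (∫ u in b..U, Real.exp (-2 * κ * u) * f q u) := by
    rw [intervalIntegral.integral_add_adjacent_intervals i1 i2,
      intervalIntegral.integral_add_adjacent_intervals (i1.trans i2) i3,
      intervalIntegral.integral_add_adjacent_intervals ((i1.trans i2).trans i3) i4]
  have hsplit' : ∫ u in (1 : ℝ)..U, Real.exp (-2 * κ * u) =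
      (∫ u in (1 : ℝ)..a, Real.exp (-2 * κ * u)) + (∫ u in a..b, Real.exp (-2 * κ * u)) +
      (∫ u in b..U, Real.exp (-2 * κ * u)) := by
    rw [intervalIntegral.integral_add_adjacent_intervals (eint κ _ _) (eint κ _ _),
      intervalIntegral.integral_add_adjacent_intervals (eint κ _ _) (eint κ _ _)]
  have hmid : ∫ u in a..b, Real.exp (-2 * κ * u) * f q u ≤ ∫ u in a..b, f q u := by
    refine intervalIntegral.integral_mono_on hab.le i3 (fint hf q (by linarith) hab.le)
      fun u hu => ?_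
    exact mul_le_of_le_one_left (hf.nn q u) (e_le_one hκ0 (by linarith [hu.1]))
  have hlow : (b - a) - e / 8 ≤ ∫ u in a..b, Real.exp (-2 * κ * u) := by
    have h6 : ∫ u in a..b, (1 - 2 * κ * b) ≤ ∫ u in a..b, Real.exp (-2 * κ * u) := by
      refine intervalIntegral.integral_mono_on hab.le (by simp) (eint κ _ _) fun u hu => ?_
      have h7 := Real.add_one_le_exp (-2 * κ * u)
      have h8 : 2 * κ * u ≤ 2 * κ * b := mul_le_mul_of_nonneg_left hu.2 (by linarith)
      linarith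
    rw [intervalIntegral.integral_const, smul_eq_mul] at h6
    have h9 : (b - a) * (1 - 2 * κ * b) = (b - a) - (b - a) * (2 * κ * b) := by ring
    rw [h9] at h6
    linarith
  have hreal : (1 / κ - 1) / 2 - e / 8 ≤
      (∫ u in (0 : ℝ)..U, Real.exp (-2 * κ * u) * f q u) + e / 8 := by
    have h6 : ENNReal.ofReal ((1 / κ - 1) / 2 - e / 8) ≤
        ENNReal.ofReal ((∫ u in (0 : ℝ)..U, Real.exp (-2 * κ * u) * f q u) + e / 8) := by
      refine h5.trans ((LT_le hf q hκ0 (by linarith : 0 ≤ U)).trans ?_)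
      rw [ENNReal.ofReal_add ?_ (by linarith)]
      · refine add_le_add le_rfl ?_
        refine (mul_le_mul' le_rfl h4).trans ?_
        rw [← ENNReal.ofReal_mul (Real.exp_pos _).le]
        refine ENNReal.ofReal_le_ofReal (le_trans ?_ hU)
        exact mul_le_mul_of_nonneg_left hK (Real.exp_pos _).le
      · exact intervalIntegral.integral_nonneg (by linarith) fun u _ =>
          mul_nonneg (Real.exp_pos _).le (hf.nn q u)
    refine (ENNReal.ofReal_le_ofReal_iff ?_).1 h6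
    have : 0 ≤ ∫ u in (0 : ℝ)..U, Real.exp (-2 * κ * u) * f q u :=
      intervalIntegral.integral_nonneg (by linarith) fun u _ =>
        mul_nonneg (Real.exp_pos _).le (hf.nn q u)
    linarith
  have hex := expl hκ0 hκ2 hU1
  rw [hsplit'] at hex
  rw [hsplit] at hreal
  linarith

end T1

/-- **UV-34** -/
theorem t_T1 : S_T1 := by
  intro f hf H1 H2 H3 a b ha hab
  rw [Metric.tendsto_nhds]
  intro e he
  filter_upwards [H3 a b ha hab (e / 2) (by linarith),
    T1.lower hf H1 H2 H3 ha hab (show 0 < e / 2 by linarith)] with q h1 h2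
  rw [Real.dist_eq, abs_lt]
  constructor <;> linarith

end Pool.Agent.NH13.UV
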