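import Pool.Agent.NH13.UV.Stm

/-!
# Plan UV: from the Laplace transforms to the windows
-/

set_option autoImplicit false

open MeasureTheory Filter Topology Set

namespace Pool.Agent.NH13.UV

namespace T368

/-- the variable `e^(-2u)` -/
noncomputable def yy (u : ℝ) : ℝ := Real.exp (-2 * u)

lemma yy_pos (u : ℝ) : 0 < yy u := Real.exp_pos _

lemma yy_mem {u : ℝ} (hu : u ∈ Ioi (0 : ℝ)) : yy u ∈ Icc (0 : ℝ) 1 :=
  ⟨(yy_pos u).le, Real.exp_le_one_iff.2 (by have := mem_Ioi.1 hu; linarith)⟩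

lemma yy_cont : Continuous yy := by
  unfold yy
  fun_prop

lemma yy_le {u v : ℝ} : yy u ≤ yy v ↔ v ≤ u := by
  unfold yy
  rw [Real.exp_le_exp]
  constructor <;> intro h <;> linarith

lemma yy_lt {u v : ℝ} : yy u < yy v ↔ v < u := by
  unfold yy
  rw [Real.exp_lt_exp]
  constructor <;> intro h <;> linarith

lemma int_mul {h : ℝ → ℝ} (hi : IntegrableOn h (Ioi 0)) {g : ℝ → ℝ} (hg : Continuous g) :
    IntegrableOn (fun u => h u * g (yy u)) (Ioi 0) := by
  obtain ⟨C, hC⟩ := (isCompact_Icc (a := (0 : ℝ)) (b := 1)).exists_bound_of_continuousOn hg.continuousOn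
  refine Integrable.mul_bdd (c := C) hi ((hg.comp yy_cont).aestronglyMeasurable) ?_
  rw [ae_restrict_iff' measurableSet_Ioi]
  exact Eventually.of_forall fun u hu => hC _ (yy_mem hu)

/-- weak convergence -/
theorem wk {h : ℕ → ℝ → ℝ} {h0 : ℝ → ℝ} (hn : ∀ q u, 0 ≤ h q u) (h0n : ∀ u ∈ Ioi (0 : ℝ), 0 ≤ h0 u)
    (hi : ∀ᶠ q in atTop, IntegrableOn (h q) (Ioi 0)) (h0i : IntegrableOn h0 (Ioi 0))
    (hm : ∀ n : ℕ, Tendsto (fun q => ∫ u in Ioi (0 : ℝ), h q u * yy u ^ n) atTop
      (𝓝 (∫ u in Ioi (0 : ℝ), h0 u * yy u ^ n))) (g : ℝ → ℝ) (hg : Continuous g) :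
    Tendsto (fun q => ∫ u in Ioi (0 : ℝ), h q u * g (yy u)) atTop
      (𝓝 (∫ u in Ioi (0 : ℝ), h0 u * g (yy u))) := by
  have hp : ∀ p : Polynomial ℝ, Tendsto (fun q => ∫ u in Ioi (0 : ℝ), h q u * p.eval (yy u)) atTop
      (𝓝 (∫ u in Ioi (0 : ℝ), h0 u * p.eval (yy u))) := by
    intro p
    induction p using Polynomial.induction_on' with
    | add p r ihp ihr =>
      have h1 := ihp.add ihr
      have e0 : ∫ u in Ioi (0 : ℝ), h0 u * (p + r).eval (yy u) =
          (∫ u in Ioi (0 : ℝ), h0 u * p.eval (yy u)) + ∫ u in Ioi (0 : ℝ), h0 u * r.eval (yy u) := by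
        rw [← integral_add (int_mul h0i p.continuous) (int_mul h0i r.continuous)]
        refine integral_congr_ae (Eventually.of_forall fun u => ?_)
        simp only [Polynomial.eval_add]
        ring
      rw [e0]
      refine h1.congr' ?_
      filter_upwards [hi] with q hq
      rw [← integral_add (int_mul hq p.continuous) (int_mul hq r.continuous)]
      refine integral_congr_ae (Eventually.of_forall fun u => ?_)
      simp only [Polynomial.eval_add]
      ring
    | monomial n c =>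
      have h1 := (hm n).const_mul c
      have e : ∀ k : ℝ → ℝ, ∫ u in Ioi (0 : ℝ), k u * (Polynomial.monomial n c).eval (yy u) =
          c * ∫ u in Ioi (0 : ℝ), k u * yy u ^ n := by
        intro k
        rw [← integral_const_mul]
        refine integral_congr_ae (Eventually.of_forall fun u => ?_)
        simp only [Polynomial.eval_monomial]
        ring
      simp only [e]
      exact h1
  -- the mass
  have hm0 := hm 0
  simp only [pow_zero, mul_one] at hm0
  obtain ⟨m, hmm⟩ : ∃ m, m = ∫ u in Ioi (0 : ℝ), h0 u := ⟨_, rfl⟩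
  have hm_nn : 0 ≤ m := by
    rw [hmm]
    exact setIntegral_nonneg measurableSet_Ioi h0n
  rw [← hmm] at hm0
  rw [Metric.tendsto_atTop]
  intro ε hε
  obtain ⟨δ, hδ, hδε⟩ : ∃ δ : ℝ, 0 < δ ∧ δ * (2 * m + 2) < ε :=
    ⟨ε / (2 * (2 * m + 2)), by positivity, by
      have : 0 < 2 * m + 2 := by linarith
      rw [div_mul_eq_mul_div, div_lt_iff₀ (by positivity)]
      nlinarith⟩
  obtain ⟨p, hpg⟩ := exists_polynomial_near_of_continuousOn 0 1 g hg.continuousOn δ hδ
  -- the difference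
  have hdiff : ∀ k : ℝ → ℝ, (∀ u ∈ Ioi (0 : ℝ), 0 ≤ k u) → IntegrableOn k (Ioi 0) →
      |(∫ u in Ioi (0 : ℝ), k u * g (yy u)) - ∫ u in Ioi (0 : ℝ), k u * p.eval (yy u)| ≤
        δ * ∫ u in Ioi (0 : ℝ), k u := by
    intro k hk hki
    rw [← integral_sub (int_mul hki hg) (int_mul hki p.continuous), ← integral_const_mul]
    rw [← Real.norm_eq_abs]
    refine norm_integral_le_of_norm_le (hki.const_mul δ) ?_
    rw [ae_restrict_iff' measurableSet_Ioi]
    refine Eventually.of_forall fun u hu => ?_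
    have h1 := hpg _ (yy_mem hu)
    have h2 := hk u hu
    rw [← mul_sub, norm_mul, Real.norm_eq_abs, Real.norm_eq_abs, abs_of_nonneg h2, mul_comm,
      abs_sub_comm]
    exact mul_le_mul_of_nonneg_right h1.le h2
  have h1 := (Metric.tendsto_atTop.1 (hp p)) δ hδ
  have h2 := (Metric.tendsto_atTop.1 hm0) 1 one_pos
  obtain ⟨N1, h1⟩ := h1
  obtain ⟨N2, h2⟩ := h2
  obtain ⟨N3, h3⟩ := eventually_atTop.1 hi
  refine ⟨max N1 (max N2 N3), fun q hq => ?_⟩
  have a1 := h1 q ((le_max_left _ _).trans hq)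
  have a2 := h2 q (((le_max_left _ _).trans (le_max_right _ _)).trans hq)
  have a3 := h3 q (((le_max_right _ _).trans (le_max_right _ _)).trans hq)
  rw [Real.dist_eq] at a1 a2 ⊢
  have b1 := hdiff (h q) (fun u _ => hn q u) a3
  have b2 := hdiff h0 h0n h0i
  rw [← hmm] at b2
  have b3 : ∫ u in Ioi (0 : ℝ), h q u ≤ m + 1 := by
    have := abs_lt.1 a2
    linarith
  have b4 : δ * ∫ u in Ioi (0 : ℝ), h q u ≤ δ * (m + 1) := mul_le_mul_of_nonneg_left b3 hδ.le
  have c1 := abs_le.1 b1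
  have c2 := abs_le.1 b2
  have c3 := abs_lt.1 a1
  rw [abs_lt]
  constructor <;> nlinarith

/-- the limit density -/
noncomputable def FF (u : ℝ) : ℝ := min u 1

lemma FF_cont : Continuous FF := continuous_id.min continuous_const

/-- the Laplace transform of the limit -/
theorem lap {κ : ℝ} (hκ : 0 < κ) : IntegrableOn (fun u => Real.exp (-2 * κ * u) * FF u) (Ioi 0) ∧
    ∫ u in Ioi (0 : ℝ), Real.exp (-2 * κ * u) * FF u = (1 - Real.exp (-2 * κ)) / (4 * κ ^ 2) := by
  have hneg : -2 * κ < 0 := by linarith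
  have i1 : IntegrableOn (fun u => Real.exp (-2 * κ * u) * FF u) (Ioc 0 1) := by
    refine (Continuous.integrableOn_Icc ?_).mono_set Ioc_subset_Icc_self
    exact (by fun_prop : Continuous fun u : ℝ => Real.exp (-2 * κ * u)).mul FF_cont
  have e2 : ∀ u ∈ Ioi (1 : ℝ), Real.exp (-2 * κ * u) * FF u = Real.exp (-2 * κ * u) := by
    intro u hu
    unfold FF
    rw [min_eq_right (mem_Ioi.1 hu).le, mul_one]
  have i2 : IntegrableOn (fun u => Real.exp (-2 * κ * u) * FF u) (Ioi 1) := by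
    refine (integrableOn_congr_fun e2 measurableSet_Ioi).2 ?_
    exact integrableOn_exp_mul_Ioi hneg 1
  have hU : Ioc (0 : ℝ) 1 ∪ Ioi 1 = Ioi 0 := Ioc_union_Ioi_eq_Ioi zero_le_one
  refine ⟨by rw [← hU]; exact i1.union i2, ?_⟩
  rw [← hU, setIntegral_union (Ioc_disjoint_Ioi le_rfl) measurableSet_Ioi i1 i2,
    setIntegral_congr_fun measurableSet_Ioi e2, integral_exp_mul_Ioi hneg,
    ← intervalIntegral.integral_of_le zero_le_one]
  have hd : ∀ u ∈ uIcc (0 : ℝ) 1, HasDerivAt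
      (fun u : ℝ => -(u / (2 * κ) + 1 / (4 * κ ^ 2)) * Real.exp (-2 * κ * u))
      (Real.exp (-2 * κ * u) * FF u) u := by
    intro u hu
    rw [uIcc_of_le zero_le_one] at hu
    have hF : FF u = u := min_eq_left hu.2
    rw [hF]
    have d1 : HasDerivAt (fun u : ℝ => -(u / (2 * κ) + 1 / (4 * κ ^ 2))) (-(1 / (2 * κ))) u := by
      exact (((hasDerivAt_id u).div_const (2 * κ)).add_const _).neg
    have d2 : HasDerivAt (fun u : ℝ => Real.exp (-2 * κ * u)) (Real.exp (-2 * κ * u) * (-2 * κ)) u := by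
      have := ((hasDerivAt_id u).const_mul (-2 * κ)).exp
      simpa using this
    refine (d1.mul d2).congr_deriv ?_
    field_simp
    ring
  rw [intervalIntegral.integral_eq_sub_of_hasDerivAt hd ?_]
  · rw [mul_one, mul_zero, Real.exp_zero]
    field_simp
    ring
  · refine Continuous.intervalIntegrable ?_ _ _
    exact (by fun_prop : Continuous fun u : ℝ => Real.exp (-2 * κ * u)).mul FF_cont

/-- a trapezoid -/
noncomputable def tr (y0 y1 y2 y3 y : ℝ) : ℝ :=
  max 0 (min 1 (min ((y - y0) / (y1 - y0)) ((y3 - y) / (y3 - y2))))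

lemma tr_cont (y0 y1 y2 y3 : ℝ) : Continuous (tr y0 y1 y2 y3) := by
  unfold tr
  fun_prop

lemma tr_nn (y0 y1 y2 y3 y : ℝ) : 0 ≤ tr y0 y1 y2 y3 y := le_max_left _ _

lemma tr_le (y0 y1 y2 y3 y : ℝ) : tr y0 y1 y2 y3 y ≤ 1 := max_le zero_le_one (min_le_left _ _)

lemma tr_one {y0 y1 y2 y3 y : ℝ} (h0 : y0 < y1) (h2 : y2 < y3) (h : y1 ≤ y) (h' : y ≤ y2) :
    tr y0 y1 y2 y3 y = 1 := by
  unfold tr
  have a1 : 1 ≤ (y - y0) / (y1 - y0) := by
    rw [le_div_iff₀ (by linarith)]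
    linarith
  have a2 : 1 ≤ (y3 - y) / (y3 - y2) := by
    rw [le_div_iff₀ (by linarith)]
    linarith
  rw [min_eq_left (le_min a1 a2), max_eq_right zero_le_one]

lemma tr_zero {y0 y1 y2 y3 y : ℝ} (h0 : y0 < y1) (h2 : y2 < y3) (h : y ≤ y0 ∨ y3 ≤ y) :
    tr y0 y1 y2 y3 y = 0 := by
  unfold tr
  refine max_eq_left ((min_le_right _ _).trans ?_)
  rcases h with h | h
  · exact (min_le_left _ _).trans (div_nonpos_of_nonpos_of_nonneg (by linarith) (by linarith))
  · exact (min_le_right _ _).trans (div_nonpos_of_nonpos_of_nonneg (by linarith) (by linarith))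

/-- the test function -/
noncomputable def gt (y0 y1 y2 y3 y : ℝ) : ℝ := tr y0 y1 y2 y3 y / max y y0

lemma gt_cont {y0 y1 y2 y3 : ℝ} (h : 0 < y0) : Continuous (gt y0 y1 y2 y3) := by
  unfold gt
  refine (tr_cont _ _ _ _).div (by fun_prop) fun y => ?_
  have := le_max_right y y0
  linarith

lemma gt_eq {y0 y1 y2 y3 : ℝ} (h0 : y0 < y1) (h2 : y2 < y3) {y : ℝ} (hy : 0 < y) :
    y * gt y0 y1 y2 y3 y = tr y0 y1 y2 y3 y := by
  unfold gt
  rcases le_or_gt y y0 with h1 | h1
  · rw [tr_zero h0 h2 (Or.inl h1)]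
    simp
  · rw [max_eq_left h1.le]
    field_simp

/-- the integrals of a function against the trapezoids -/
theorem sq {k : ℝ → ℝ} (hk : ∀ u ∈ Ioi (0 : ℝ), 0 ≤ k u) {c0 c1 c2 c3 : ℝ} (h0 : 0 < c0)
    (h01 : c0 < c1) (h12 : c1 ≤ c2) (h23 : c2 < c3)
    (hi : IntegrableOn (fun u => k u * tr (yy c3) (yy c2) (yy c1) (yy c0) (yy u)) (Ioi 0)) :
    ∫ u in c1..c2, k u ≤ ∫ u in Ioi (0 : ℝ), k u * tr (yy c3) (yy c2) (yy c1) (yy c0) (yy u) := by
  have e : ∫ u in c1..c2, k u =
      ∫ u in Ioc c1 c2, k u * tr (yy c3) (yy c2) (yy c1) (yy c0) (yy u) := by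
    rw [intervalIntegral.integral_of_le h12]
    refine setIntegral_congr_fun measurableSet_Ioc fun u hu => ?_
    rw [tr_one (yy_lt.2 h23) (yy_lt.2 h01) (yy_le.2 hu.2) (yy_le.2 hu.1.le), mul_one]
  rw [e]
  refine setIntegral_mono_set hi ?_ (Eventually.of_forall fun u hu => ?_)
  · rw [EventuallyLE, ae_restrict_iff' measurableSet_Ioi]
    exact Eventually.of_forall fun u hu => mul_nonneg (hk u hu) (tr_nn _ _ _ _ _)
  · have h1 : c1 < u := hu.1
    show (0 : ℝ) < u
    linarith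

theorem sq' {k : ℝ → ℝ} (hk : ∀ u ∈ Ioi (0 : ℝ), 0 ≤ k u) {c0 c1 c2 c3 : ℝ} (h0 : 0 < c0)
    (h01 : c0 < c1) (h12 : c1 ≤ c2) (h23 : c2 < c3)
    (hi : IntegrableOn (fun u => k u * tr (yy c3) (yy c2) (yy c1) (yy c0) (yy u)) (Ioi 0))
    (hki : IntegrableOn k (Ioc c0 c3)) :
    ∫ u in Ioi (0 : ℝ), k u * tr (yy c3) (yy c2) (yy c1) (yy c0) (yy u) ≤ ∫ u in c0..c3, k u := by
  have hsub : Ioc c0 c3 ⊆ Ioi (0 : ℝ) := fun u hu => mem_Ioi.2 (by have := hu.1; linarith)
  have e : ∫ u in Ioi (0 : ℝ), k u * tr (yy c3) (yy c2) (yy c1) (yy c0) (yy u) =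
      ∫ u in Ioc c0 c3, k u * tr (yy c3) (yy c2) (yy c1) (yy c0) (yy u) := by
    refine setIntegral_eq_of_subset_of_forall_sdiff_eq_zero measurableSet_Ioi hsub fun u hu => ?_
    have h : yy u ≤ yy c3 ∨ yy c0 ≤ yy u := by
      rw [yy_le, yy_le]
      by_contra hc
      push Not at hc
      exact hu.2 ⟨hc.2, hc.1.le⟩
    rw [tr_zero (yy_lt.2 h23) (yy_lt.2 h01) h, mul_zero]
  rw [e, intervalIntegral.integral_of_le (by linarith)]
  refine setIntegral_mono_on (hi.mono_set hsub) hki measurableSet_Ioc fun u hu => ?_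
  have h1 := hk u (hsub hu)
  have h2 := tr_le (yy c3) (yy c2) (yy c1) (yy c0) (yy u)
  nlinarith

lemma conv (k : ℝ → ℝ) {c0 c1 c2 c3 : ℝ} (h01 : c0 < c1) (h23 : c2 < c3) :
    (fun u => yy u * k u * gt (yy c3) (yy c2) (yy c1) (yy c0) (yy u)) =
      fun u => k u * tr (yy c3) (yy c2) (yy c1) (yy c0) (yy u) := by
  funext u
  rw [← gt_eq (yy_lt.2 h23) (yy_lt.2 h01) (yy_pos u)]
  ring

lemma pw (n : ℕ) (u t : ℝ) : yy u * t * yy u ^ n = Real.exp (-2 * ((n : ℝ) + 1) * u) * t := by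
  unfold yy
  rw [← Real.exp_nat_mul, mul_right_comm, ← Real.exp_add]
  congr 2
  ring

end T368

open T368

theorem t_T3 : S_T3 := by
  intro f hf hL a b ha hab
  have hmeas : ∀ (q : ℕ) (κ : ℝ), Measurable fun u => Real.exp (-2 * κ * u) * f q u := by
    intro q κ
    exact (by fun_prop : Continuous fun u : ℝ => Real.exp (-2 * κ * u)).measurable.mul (hf.meas q)
  have hnn : ∀ (q : ℕ) (κ : ℝ) (u : ℝ), 0 ≤ Real.exp (-2 * κ * u) * f q u := fun q κ u =>
    mul_nonneg (Real.exp_pos _).le (hf.nn q u)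
  have hfin : ∀ κ : ℝ, 0 < κ → ∀ᶠ q in atTop,
      IntegrableOn (fun u => Real.exp (-2 * κ * u) * f q u) (Ioi 0) := by
    intro κ hκ
    filter_upwards [(hL κ hκ).eventually_lt_const ENNReal.ofReal_lt_top] with q hq
    refine ⟨(hmeas q κ).aestronglyMeasurable, ?_⟩
    rw [hasFiniteIntegral_iff_ofReal (Eventually.of_forall fun u => hnn q κ u)]
    exact hq
  have hi : ∀ᶠ q in atTop, IntegrableOn (fun u => yy u * f q u) (Ioi 0) := by
    filter_upwards [hfin 1 one_pos] with q hq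
    simpa [yy] using hq
  have h0i : IntegrableOn (fun u => yy u * FF u) (Ioi 0) := by
    have := (lap one_pos).1
    simpa [yy] using this
  have hFnn : ∀ u ∈ Ioi (0 : ℝ), 0 ≤ FF u := fun u hu => le_min (mem_Ioi.1 hu).le zero_le_one
  have hm : ∀ n : ℕ, Tendsto (fun q => ∫ u in Ioi (0 : ℝ), yy u * f q u * yy u ^ n) atTop
      (𝓝 (∫ u in Ioi (0 : ℝ), yy u * FF u * yy u ^ n)) := by
    intro n
    have hκ : (0 : ℝ) < (n : ℝ) + 1 := by positivity
    simp only [pw]
    rw [(lap hκ).2]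
    have h1 := (ENNReal.tendsto_toReal ENNReal.ofReal_ne_top).comp (hL _ hκ)
    have h2 : 0 ≤ (1 - Real.exp (-2 * ((n : ℝ) + 1))) / (4 * ((n : ℝ) + 1) ^ 2) := by
      have : Real.exp (-2 * ((n : ℝ) + 1)) ≤ 1 := Real.exp_le_one_iff.2 (by linarith)
      exact div_nonneg (by linarith) (by positivity)
    rw [ENNReal.toReal_ofReal h2] at h1
    refine h1.congr fun q => ?_
    rw [integral_eq_lintegral_of_nonneg_ae (Eventually.of_forall fun u => hnn q _ u)
      (hmeas q _).aestronglyMeasurable]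
    rfl
  have hw := wk (h := fun q u => yy u * f q u) (h0 := fun u => yy u * FF u)
    (fun q u => mul_nonneg (yy_pos u).le (hf.nn q u))
    (fun u hu => mul_nonneg (yy_pos u).le (hFnn u hu)) hi h0i hm
  have hFint : ∀ c d : ℝ, 1 ≤ c → c ≤ d → ∫ u in c..d, FF u = d - c := by
    intro c d hc hcd
    have : ∫ u in c..d, FF u = ∫ _ in c..d, (1 : ℝ) := by
      refine intervalIntegral.integral_congr fun u hu => ?_
      rw [uIcc_of_le hcd] at hu
      exact min_eq_right (hc.trans hu.1)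
    rw [this]
    simp
  rw [Metric.tendsto_atTop]
  intro ε hε
  obtain ⟨η, hη, h1, h2, h3⟩ : ∃ η : ℝ, 0 < η ∧ η ≤ ε / 8 ∧ η ≤ (b - a) / 4 ∧ η ≤ 1 / 4 :=
    ⟨min (ε / 8) (min ((b - a) / 4) (1 / 4)),
      lt_min (by linarith) (lt_min (by linarith) (by norm_num)), min_le_left _ _,
      (min_le_right _ _).trans (min_le_left _ _), (min_le_right _ _).trans (min_le_right _ _)⟩
  -- the upper trapezoid
  have hu := hw (gt (yy (b + η)) (yy b) (yy a) (yy (a - η))) (gt_cont (yy_pos _))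
  have hl := hw (gt (yy b) (yy (b - η)) (yy (a + η)) (yy a)) (gt_cont (yy_pos _))
  simp only [conv _ (show a - η < a by linarith) (show b < b + η by linarith)] at hu
  simp only [conv _ (show a < a + η by linarith) (show b - η < b by linarith)] at hl
  have hiu : ∀ k : ℝ → ℝ, IntegrableOn (fun u => yy u * k u) (Ioi 0) → IntegrableOn
      (fun u => k u * tr (yy (b + η)) (yy b) (yy a) (yy (a - η)) (yy u)) (Ioi 0) := by
    intro k hk
    rw [← conv _ (show a - η < a by linarith) (show b < b + η by linarith)]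
    exact int_mul hk (gt_cont (yy_pos _))
  have hil : ∀ k : ℝ → ℝ, IntegrableOn (fun u => yy u * k u) (Ioi 0) → IntegrableOn
      (fun u => k u * tr (yy b) (yy (b - η)) (yy (a + η)) (yy a) (yy u)) (Ioi 0) := by
    intro k hk
    rw [← conv _ (show a < a + η by linarith) (show b - η < b by linarith)]
    exact int_mul hk (gt_cont (yy_pos _))
  have hU : ∫ u in Ioi (0 : ℝ), FF u * tr (yy (b + η)) (yy b) (yy a) (yy (a - η)) (yy u) ≤
      b - a + 2 * η := by
    have g1 := sq' (k := FF) hFnn (c0 := a - η) (c1 := a) (c2 := b) (c3 := b + η) (by linarith)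
      (by linarith) hab.le (by linarith) (hiu FF h0i)
      ((FF_cont.integrableOn_Icc).mono_set Ioc_subset_Icc_self)
    have g2 : ∫ u in (a - η)..(b + η), FF u ≤ ∫ _ in (a - η)..(b + η), (1 : ℝ) := by
      refine intervalIntegral.integral_mono_on (by linarith) (FF_cont.intervalIntegrable _ _)
        (continuous_const.intervalIntegrable _ _) fun u _ => min_le_right _ _
    have g3 : ∫ _ in (a - η)..(b + η), (1 : ℝ) = b - a + 2 * η := by
      simp
      ring
    linarith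
  have hLo : b - a - 2 * η ≤
      ∫ u in Ioi (0 : ℝ), FF u * tr (yy b) (yy (b - η)) (yy (a + η)) (yy a) (yy u) := by
    have g1 := sq (k := FF) hFnn (c0 := a) (c1 := a + η) (c2 := b - η) (c3 := b) (by linarith)
      (by linarith) (by linarith) (by linarith) (hil FF h0i)
    rw [hFint _ _ (by linarith) (by linarith)] at g1
    linarith
  obtain ⟨N1, k1⟩ := (Metric.tendsto_atTop.1 hu) (ε / 4) (by linarith)
  obtain ⟨N2, k2⟩ := (Metric.tendsto_atTop.1 hl) (ε / 4) (by linarith)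
  obtain ⟨N3, k3⟩ := eventually_atTop.1 hi
  refine ⟨max N1 (max N2 N3), fun q hq => ?_⟩
  have m1 := k1 q ((le_max_left _ _).trans hq)
  have m2 := k2 q (((le_max_left _ _).trans (le_max_right _ _)).trans hq)
  have m3 := k3 q (((le_max_right _ _).trans (le_max_right _ _)).trans hq)
  rw [Real.dist_eq, abs_lt] at m1 m2
  have hq0 : ∀ u ∈ Ioi (0 : ℝ), 0 ≤ f q u := fun u _ => hf.nn q u
  have hfi : IntegrableOn (f q) (Ioc a b) := by
    obtain ⟨M, hM⟩ := hf.loc q b
    refine Measure.integrableOn_of_bounded (M := M) (by simp) (hf.meas q).aestronglyMeasurable ?_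
    rw [ae_restrict_iff' measurableSet_Ioc]
    refine Eventually.of_forall fun u hu => ?_
    rw [Real.norm_eq_abs, abs_of_nonneg (hf.nn q u)]
    exact hM u ⟨by have := hu.1; linarith, hu.2⟩
  have n1 := sq (k := f q) hq0 (c0 := a - η) (c1 := a) (c2 := b) (c3 := b + η) (by linarith)
    (by linarith) hab.le (by linarith) (hiu _ m3)
  have n2 := sq' (k := f q) hq0 (c0 := a) (c1 := a + η) (c2 := b - η) (c3 := b) (by linarith)
    (by linarith) (by linarith) (by linarith) (hil _ m3) hfi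
  rw [Real.dist_eq, abs_lt]
  constructor <;> linarith [m1.1, m1.2, m2.1, m2.2]

end Pool.Agent.NH13.UV
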