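import Pool.Agent.NH13.UV.Stm

/-! UV-18: Parseval over the characters. -/

set_option autoImplicit false

open Complex MeasureTheory Filter Topology Set
open scoped ComplexConjugate

namespace Pool.Agent.NH13.UV

namespace Vc

open ArithmeticFunction (vonMangoldt)

lemma sum_zmod {q : ℕ} [NeZero q] {M : Type*} [AddCommMonoid M] (g : ℕ → M) :
    ∑ a : ZMod q, g a.val = ∑ n ∈ Finset.range q, g n := by
  have h : (Finset.univ : Finset (ZMod q)) = (Finset.range q).image (fun n : ℕ => (n : ZMod q)) := by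
    ext a
    simp only [Finset.mem_univ, Finset.mem_image, Finset.mem_range, true_iff]
    exact ⟨a.val, ZMod.val_lt a, ZMod.natCast_zmod_val a⟩
  rw [h, Finset.sum_image]
  · apply Finset.sum_congr rfl
    intro n hn
    rw [Finset.mem_range] at hn
    rw [ZMod.val_cast_of_lt hn]
  · intro a ha b hb hab
    rw [Finset.mem_coe, Finset.mem_range] at ha hb
    have := congrArg ZMod.val hab
    rwa [ZMod.val_cast_of_lt ha, ZMod.val_cast_of_lt hb] at this

lemma psi_classes {q : ℕ} [NeZero q] (χ : DirichletCharacter ℂ q) (x : ℝ) :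
    psi χ x = ∑ a : ZMod q, χ a * ((psiAP x q a.val : ℝ) : ℂ) := by
  unfold psi psiAP
  rw [← Finset.sum_fiberwise_of_maps_to (g := fun n : ℕ => (n : ZMod q))
    (t := (Finset.univ : Finset (ZMod q))) (fun _ _ => Finset.mem_univ _)]
  apply Finset.sum_congr rfl
  intro a _
  push_cast
  rw [Finset.mul_sum]
  have h : (Finset.Icc 1 ⌊x⌋₊).filter (fun n : ℕ => (n : ZMod q) = a) =
      (Finset.Icc 1 ⌊x⌋₊).filter (fun n => n % q = a.val) := by
    apply Finset.filter_congr
    intro n _
    constructor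
    · intro h; rw [← h, ZMod.val_natCast]
    · intro h
      have : ((n % q : ℕ) : ZMod q) = (a.val : ZMod q) := by rw [h]
      rwa [ZMod.natCast_mod, ZMod.natCast_zmod_val] at this
  rw [← h]
  apply Finset.sum_congr rfl
  intro n hn
  rw [(Finset.mem_filter.mp hn).2, mul_comm]

lemma conj_chi {q : ℕ} [NeZero q] (χ : DirichletCharacter ℂ q) {b : ZMod q} (hb : IsUnit b) :
    conj (χ b) = χ b⁻¹ := by
  obtain ⟨u, rfl⟩ := hb
  have h1 : ‖χ (u : ZMod q)‖ = 1 := χ.unit_norm_eq_one u
  have h2 : χ ((u : ZMod q)⁻¹) * χ (u : ZMod q) = 1 := by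
    rw [← map_mul, ZMod.inv_mul_of_unit _ u.isUnit, map_one]
  rw [← Complex.inv_eq_conj h1]
  exact (eq_inv_of_mul_eq_one_left h2).symm

/-- Parseval's identity -/
theorem pars {q : ℕ} [NeZero q] (C : ZMod q → ℂ) (hC : ∀ a, ¬ IsUnit a → C a = 0) :
    ∑ χ : DirichletCharacter ℂ q, ‖∑ a, χ a * C a‖ ^ 2 = q.totient * ∑ a, ‖C a‖ ^ 2 := by
  classical
  have h1 : ∀ χ : DirichletCharacter ℂ q, ((‖∑ a, χ a * C a‖ ^ 2 : ℝ) : ℂ) =
      ∑ a, ∑ b, (C a * conj (C b)) * (χ b⁻¹ * χ a) := by
    intro χ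
    push_cast
    rw [← Complex.mul_conj', map_sum, Finset.sum_mul_sum]
    refine Finset.sum_congr rfl fun a _ => Finset.sum_congr rfl fun b _ => ?_
    by_cases hb : IsUnit b
    · rw [map_mul, conj_chi χ hb]
      ring
    · rw [hC b hb]
      simp
  have h2 : ((∑ χ : DirichletCharacter ℂ q, ‖∑ a, χ a * C a‖ ^ 2 : ℝ) : ℂ) =
      ((q.totient * ∑ a, ‖C a‖ ^ 2 : ℝ) : ℂ) := by
    rw [Complex.ofReal_sum, Finset.sum_congr rfl fun χ _ => h1 χ, Finset.sum_comm]
    push_cast
    rw [Finset.mul_sum]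
    refine Finset.sum_congr rfl fun a _ => ?_
    rw [Finset.sum_comm]
    rw [Finset.sum_eq_single a]
    · by_cases ha : IsUnit a
      · rw [← Finset.mul_sum, DirichletCharacter.sum_char_inv_mul_char_eq ℂ ha, if_pos rfl,
          Complex.mul_conj']
        ring
      · rw [hC a ha]
        simp
    · intro b _ hb
      by_cases hbu : IsUnit b
      · rw [← Finset.mul_sum, DirichletCharacter.sum_char_inv_mul_char_eq ℂ hbu, if_neg hb, mul_zero]
      · rw [hC b hbu]
        simp
    · intro h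
      exact absurd (Finset.mem_univ _) h
  exact_mod_cast h2

end Vc

open Vc in
theorem t_V : S_V := by
  classical
  intro q _ x
  let C : ZMod q → ℂ := fun a => if a.val.Coprime q then
    ((psiAP x q a.val - x / q.totient : ℝ) : ℂ) else 0
  have hcop : ∀ a : ZMod q, IsUnit a ↔ a.val.Coprime q := by
    intro a
    have := ZMod.isUnit_iff_coprime a.val q
    rwa [ZMod.natCast_zmod_val] at this
  have hC : ∀ a, ¬ IsUnit a → C a = 0 := fun a ha => by
    simp only [C]
    rw [if_neg fun h => ha ((hcop a).2 h)]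
  have h2 : ∀ χ : DirichletCharacter ℂ q, ∀ a : ZMod q, χ a * C a =
      χ a * ((psiAP x q a.val : ℝ) : ℂ) - χ a * ((x / q.totient : ℝ) : ℂ) := by
    intro χ a
    simp only [C]
    split_ifs with h
    · push_cast; ring
    · have : χ a = 0 := MulChar.map_nonunit _ fun hu => h ((hcop a).1 hu)
      rw [this]; ring
  have h3 : ∀ χ : DirichletCharacter ℂ q, ∑ a, χ a * C a =
      psi χ x - (∑ a : ZMod q, χ a) * ((x / q.totient : ℝ) : ℂ) := by
    intro χ
    rw [Finset.sum_congr rfl fun a _ => h2 χ a, Finset.sum_sub_distrib, ← Finset.sum_mul,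
      psi_classes]
  have hV : ∑ a : ZMod q, ‖C a‖ ^ 2 = VV x q := by
    unfold VV
    rw [Finset.sum_filter]
    have := sum_zmod (q := q) (fun a : ℕ => if a.Coprime q then
      (psiAP x q a - x / q.totient) ^ 2 else 0)
    rw [← this]
    apply Finset.sum_congr rfl
    intro a _
    simp only [C]
    split_ifs with h
    · rw [norm_real, Real.norm_eq_abs, sq_abs]
    · simp
  have hs1 : ∑ a : ZMod q, (1 : DirichletCharacter ℂ q) a = (q.totient : ℂ) := by
    rw [MulChar.sum_one_eq_card_units, ZMod.card_units_eq_totient]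
  have hφ : (q.totient : ℂ) ≠ 0 := by
    have : 0 < q.totient := Nat.totient_pos.2 (NeZero.pos q)
    exact_mod_cast this.ne'
  rw [← hV, ← pars C hC]
  have hun : (Finset.univ : Finset (DirichletCharacter ℂ q)) = insert 1 (NT q) := by
    ext χ
    simp only [Finset.mem_univ, Finset.mem_insert, mem_NT, true_iff]
    exact em _
  rw [hun, Finset.sum_insert (by rw [mem_NT]; simp)]
  congr 1
  · rw [h3, hs1]
    congr 3
    push_cast
    field_simp
  · refine Finset.sum_congr rfl fun χ hχ => ?_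
    rw [h3, MulChar.sum_eq_zero_of_ne_one (mem_NT.1 hχ), zero_mul, sub_zero]

end Pool.Agent.NH13.UV
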