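import Pool.Agent.NH13.UV.Fin1
import Pool.Agent.NH13.UV.Asm
import Pool.Agent.NH13.UV.Bd
import Pool.Agent.NH13.UV.Cv
import Pool.Agent.NH13.UV.Dbl
import Pool.Agent.NH13.UV.Fa
import Pool.Agent.NH13.UV.Fn
import Pool.Agent.NH13.UV.GG
import Pool.Agent.NH13.UV.K3
import Pool.Agent.NH13.UV.PP
import Pool.Agent.NH13.UV.Pr
import Pool.Agent.NH13.UV.RHf
import Pool.Agent.NH13.UV.Rf
import Pool.Agent.NH13.UV.Sm
import Pool.Agent.NH13.UV.T1
import Pool.Agent.NH13.UV.T2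
import Pool.Agent.NH13.UV.T3
import Pool.Agent.NH13.UV.Vc
import Pool.Agent.NH13.LV.PsB

/-!
# Plan UV: the main theorem
-/

set_option autoImplicit false

open Complex MeasureTheory Filter Topology Set

namespace Pool.Agent.NH13.UV.Fin2

theorem gg : S_GG := t_GG t_V t_prin
theorem pp : S_P := t_P Fin1.rel Fin1.low gg
theorem fam : S_fam := t_fam t_small
theorem dbl : S_dbl := t_dbl t_K3 Fin1.k1 Fin1.hdq
theorem bd : S_bd := t_bd Fin1.rel dbl gg t_cv fam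
theorem fin : S_fin := t_fin t_ref

/-- everything together -/
theorem main :
    (∀ δ ε : ℝ, 0 < δ → 0 < ε → ∀ᶠ q : ℕ in atTop, ENNReal.ofReal (1 - δ - ε) ≤ Mv q δ) ∧
    (Asy ↔ Upp) ∧ (Asy ↔ Abe) ∧ (Asy → GRHall) :=
  Asm.main t_cv fam bd t_Me gg t_RH (fun h => LV.t_psi h) fin pp t_T1 t_T2 t_T3

end Pool.Agent.NH13.UV.Fin2
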