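import Pool.Agent.NH13.UV.Stm
import Pool.Agent.H153R4.Pl

/-!
# UV-17: Plancherel's theorem for `ψ(u, χ)`
-/

set_option autoImplicit false

open Complex MeasureTheory Filter Topology Set
open scoped ComplexConjugate FourierTransform

namespace Pool.Agent.NH13.UV

namespace PlP

lemma exp_image : Real.exp '' (Ioi 0) = Ioi 1 := by
  ext u
  constructor
  · rintro ⟨v, hv, rfl⟩
    exact Real.one_lt_exp_iff.2 hv
  · intro hu
    have h0 : (0 : ℝ) < u := lt_trans one_pos hu
    exact ⟨Real.log u, Real.log_pos hu, Real.exp_log h0⟩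

lemma int_exp {E : Type*} [NormedAddCommGroup E] [NormedSpace ℝ E] (G : ℝ → E) :
    ∫ u in Ioi (1 : ℝ), G u = ∫ v in Ioi (0 : ℝ), Real.exp v • G (Real.exp v) := by
  rw [← exp_image, integral_image_eq_integral_abs_deriv_smul measurableSet_Ioi
    (fun x _ => (Real.hasDerivAt_exp x).hasDerivWithinAt) Real.exp_injective.injOn]
  refine integral_congr_ae (Filter.Eventually.of_forall fun v => ?_)
  simp only [Real.abs_exp]

lemma intble_exp {E : Type*} [NormedAddCommGroup E] [NormedSpace ℝ E] (G : ℝ → E) :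
    IntegrableOn G (Ioi (1 : ℝ)) ↔
      IntegrableOn (fun v => Real.exp v • G (Real.exp v)) (Ioi (0 : ℝ)) := by
  rw [← exp_image, integrableOn_image_iff_integrableOn_abs_deriv_smul measurableSet_Ioi
    (fun x _ => (Real.hasDerivAt_exp x).hasDerivWithinAt) Real.exp_injective.injOn]
  simp only [Real.abs_exp]

lemma meas_psi {q : ℕ} (χ : DirichletCharacter ℂ q) : Measurable (psi χ) := by
  have h : psi χ = (fun n : ℕ => ∑ n ∈ Finset.Icc 1 n,
      (ArithmeticFunction.vonMangoldt n : ℂ) * χ (n : ZMod q)) ∘ (fun x : ℝ => ⌊x⌋₊) := rfl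
  rw [h]
  exact (measurable_from_top).comp Nat.measurable_floor

lemma cexp_cpow (v : ℝ) (s : ℂ) :
    (Real.exp v : ℂ) * ((Real.exp v : ℝ) : ℂ) ^ (-s - 1) = Complex.exp (-s * v) := by
  have h0 : ((Real.exp v : ℝ) : ℂ) ≠ 0 := by
    exact_mod_cast (Real.exp_pos v).ne'
  rw [Complex.cpow_def_of_ne_zero h0, ← Complex.ofReal_log (Real.exp_pos v).le, Real.log_exp,
    Complex.ofReal_exp, ← Complex.exp_add]
  congr 1
  ring

/-- Plancherel's theorem with integrals -/
lemma planch (g : ℝ → ℂ) (h1 : Integrable g) (h2 : MemLp g 2) :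
    Continuous (𝓕 g) ∧ Integrable (fun ξ : ℝ => ‖𝓕 g ξ‖ ^ 2) ∧
      ∫ ξ : ℝ, ‖𝓕 g ξ‖ ^ 2 = ∫ v : ℝ, ‖g v‖ ^ 2 := by
  have hp := Pool.Agent.H153R4.plancherel g h1 h2
  have hcont : Continuous (𝓕 g) := by
    have := VectorFourier.fourierIntegral_continuous (L := innerₗ ℝ) Real.continuous_fourierChar
      continuous_inner h1
    exact this
  have he : ∀ z : ℂ, ‖z‖ₑ ^ 2 = ENNReal.ofReal (‖z‖ ^ 2) := by
    intro z
    rw [ENNReal.ofReal_pow (norm_nonneg z), ofReal_norm]
  simp only [he] at hp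
  have hg2 : Integrable (fun v : ℝ => ‖g v‖ ^ 2) :=
    (memLp_two_iff_integrable_sq_norm h1.aestronglyMeasurable).1 h2
  have hfin : ∫⁻ v : ℝ, ENNReal.ofReal (‖g v‖ ^ 2) < ⊤ :=
    (hasFiniteIntegral_iff_ofReal (Filter.Eventually.of_forall fun v => sq_nonneg _)).1 hg2.2
  have hi : Integrable (fun ξ : ℝ => ‖𝓕 g ξ‖ ^ 2) := by
    refine ⟨(hcont.norm.pow 2).aestronglyMeasurable, ?_⟩
    rw [hasFiniteIntegral_iff_ofReal (Filter.Eventually.of_forall fun v => sq_nonneg _), hp]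
    exact hfin
  refine ⟨hcont, hi, ?_⟩
  rw [integral_eq_lintegral_of_nonneg_ae (Filter.Eventually.of_forall fun v => sq_nonneg _)
    hi.aestronglyMeasurable,
    integral_eq_lintegral_of_nonneg_ae (Filter.Eventually.of_forall fun v => sq_nonneg _)
    hg2.aestronglyMeasurable, hp]

end PlP

open PlP

theorem t_Pl (h : S_Me) : S_Pl := by
  intro q _ χ hχ x0 hx0 hfin x hx
  have hme := h q χ hχ x0 hx0 hfin
  -- (a)
  have ha : IntegrableOn (fun u : ℝ => ‖psi χ u‖ ^ 2 * u ^ (-2 - 2 * x)) (Ioi 1) := by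
    refine ⟨?_, ?_⟩
    · refine Measurable.aestronglyMeasurable ?_
      exact ((meas_psi χ).norm.pow_const 2).mul (measurable_id.pow_const _)
    · rw [hasFiniteIntegral_iff_ofReal]
      · refine lt_of_le_of_lt (setLIntegral_mono' measurableSet_Ioi ?_) hfin
        intro u hu
        have hu1 : (1 : ℝ) ≤ u := le_of_lt hu
        refine ENNReal.ofReal_le_ofReal (mul_le_mul_of_nonneg_left ?_ (sq_nonneg _))
        exact Real.rpow_le_rpow_of_exponent_le hu1 (by linarith)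
      · rw [Filter.EventuallyLE, ae_restrict_iff' measurableSet_Ioi]
        refine Filter.Eventually.of_forall fun u hu => ?_
        have hu0 : (0 : ℝ) ≤ u := le_trans zero_le_one (le_of_lt hu)
        exact mul_nonneg (sq_nonneg _) (Real.rpow_nonneg hu0 _)
  set σ : ℝ := 1 / 2 + x with hσ
  set g : ℝ → ℂ := (Ioi (0 : ℝ)).indicator
    (fun v => psi χ (Real.exp v) * Complex.exp (-(σ : ℂ) * v)) with hg
  have hpt : ∀ t : ℝ, (1 / 2 + pt x t : ℂ) = (σ : ℂ) + t * I := by
    intro t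
    rw [pt, hσ]
    push_cast
    ring
  have hs : ∀ t : ℝ, 1 / 2 + x0 < ((σ : ℂ) + t * I).re := by
    intro t
    simp [hσ]
    exact hx
  -- the integrands after the change of variables
  have hsm : ∀ (s : ℂ) (v : ℝ), Real.exp v • (psi χ (Real.exp v) *
      ((Real.exp v : ℝ) : ℂ) ^ (-s - 1)) = psi χ (Real.exp v) * Complex.exp (-s * v) := by
    intro s v
    rw [← cexp_cpow, Complex.real_smul]
    ring
  have h1 : Integrable g := by
    rw [hg, integrable_indicator_iff measurableSet_Ioi]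
    have h3 := (hme ((σ : ℂ) + (0 : ℝ) * I) (hs 0)).1
    rw [intble_exp] at h3
    simp only [hsm] at h3
    simpa using h3
  have hnorm : ∀ v : ℝ, ‖psi χ (Real.exp v) * Complex.exp (-(σ : ℂ) * v)‖ ^ 2 =
      Real.exp v • (‖psi χ (Real.exp v)‖ ^ 2 * (Real.exp v) ^ (-2 - 2 * x)) := by
    intro v
    rw [norm_mul, mul_pow, Complex.norm_exp, smul_eq_mul, ← Real.exp_mul, ← Real.exp_nat_mul,
      mul_comm (Real.exp v), mul_assoc, ← Real.exp_add]
    congr 2
    simp [hσ]
    ring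
  have hg2 : ∀ v : ℝ, ‖g v‖ ^ 2 = (Ioi (0 : ℝ)).indicator (fun v =>
      Real.exp v • (‖psi χ (Real.exp v)‖ ^ 2 * (Real.exp v) ^ (-2 - 2 * x))) v := by
    intro v
    by_cases hv : v ∈ Ioi (0 : ℝ)
    · rw [hg, indicator_of_mem hv, indicator_of_mem hv, hnorm]
    · rw [hg, indicator_of_notMem hv, indicator_of_notMem hv]
      simp
  have h2 : MemLp g 2 := by
    rw [memLp_two_iff_integrable_sq_norm h1.aestronglyMeasurable]
    simp only [hg2]
    rw [integrable_indicator_iff measurableSet_Ioi, ← intble_exp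
      (fun u : ℝ => ‖psi χ u‖ ^ 2 * u ^ (-2 - 2 * x))]
    exact ha
  obtain ⟨hcont, hi, hint⟩ := planch g h1 h2
  -- the Fourier transform
  have hF : ∀ t : ℝ, 𝓕 g (t / (2 * Real.pi)) =
      ∫ u in Ioi (1 : ℝ), psi χ u * (u : ℂ) ^ (-((σ : ℂ) + t * I) - 1) := by
    intro t
    rw [int_exp]
    simp only [hsm]
    rw [Real.fourier_eq', ← integral_indicator measurableSet_Ioi]
    refine integral_congr_ae (Filter.Eventually.of_forall fun v => ?_)
    by_cases hv : v ∈ Ioi (0 : ℝ)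
    · simp only [hg]
      rw [indicator_of_mem hv, indicator_of_mem hv, smul_eq_mul]
      rw [mul_left_comm, ← Complex.exp_add]
      congr 2
      have hpi : (Real.pi : ℂ) ≠ 0 := by exact_mod_cast Real.pi_ne_zero
      have e : (inner ℝ v (t / (2 * Real.pi)) : ℝ) = t / (2 * Real.pi) * v := by simp
      rw [e]
      push_cast
      field_simp
      ring
    · simp only [hg]
      rw [indicator_of_notMem hv, indicator_of_notMem hv, smul_zero]
  have hH : ∀ t : ℝ, ‖LD χ (1 / 2 + pt x t)‖ ^ 2 * wt x t =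
      ‖𝓕 g (t / (2 * Real.pi))‖ ^ 2 := by
    intro t
    rw [hpt, (hme _ (hs t)).2.2, hF t, norm_mul, norm_neg, mul_pow, wt]
    have e : ‖(σ : ℂ) + t * I‖ ^ 2 = (1 / 2 + x) ^ 2 + t ^ 2 := by
      rw [Complex.sq_norm, Complex.normSq_add_mul_I, hσ]
    have hx' : 0 < x := hx0.trans hx
    have e2 : (1 / 2 + x) ^ 2 + t ^ 2 ≠ 0 := by positivity
    rw [e]
    generalize (1 / 2 + x) ^ 2 + t ^ 2 = A at e2 ⊢
    generalize ‖∫ u in Ioi (1 : ℝ), psi χ u * (u : ℂ) ^ (-((σ : ℂ) + t * I) - 1)‖ = B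
    field_simp
  have hpi2 : (2 * Real.pi : ℝ) ≠ 0 := by positivity
  refine ⟨ha, ?_, ?_⟩
  · simp only [hH]
    exact hi.comp_div hpi2
  · simp only [hH]
    rw [Measure.integral_comp_div (fun ξ => ‖𝓕 g ξ‖ ^ 2) (2 * Real.pi), hint]
    simp only [hg2]
    rw [integral_indicator measurableSet_Ioi, int_exp
      (fun u : ℝ => ‖psi χ u‖ ^ 2 * u ^ (-2 - 2 * x))]
    rw [smul_eq_mul, abs_of_pos (by positivity)]
    field_simp

end Pool.Agent.NH13.UV
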