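import Pool.Agent.NH13.UV.Stm

/-!
UV-35: from the windows to the Laplace transforms.
-/

set_option autoImplicit false

open MeasureTheory Filter Topology Set

namespace Pool.Agent.NH13.UV.LapW

theorem tendsto_of_eps {u : ℕ → ENNReal} {L : ℝ}
    (h : ∀ ε : ℝ, 0 < ε → ∀ᶠ q in atTop,
      ENNReal.ofReal (L - ε) ≤ u q ∧ u q ≤ ENNReal.ofReal (L + ε)) :
    Tendsto u atTop (𝓝 (ENNReal.ofReal L)) := by
  rw [tendsto_order]
  constructor
  · intro a ha
    have h1 : Tendsto (fun ε : ℝ => ENNReal.ofReal (L - ε)) (𝓝[>] 0)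
        (𝓝 (ENNReal.ofReal L)) := by
      have h2 : Tendsto (fun ε : ℝ => L - ε) (𝓝[>] 0) (𝓝 L) := by
        have h3 : Tendsto (fun ε : ℝ => L - ε) (𝓝 0) (𝓝 (L - 0)) :=
          tendsto_const_nhds.sub tendsto_id
        rw [sub_zero] at h3
        exact h3.mono_left nhdsWithin_le_nhds
      exact (ENNReal.continuous_ofReal.tendsto L).comp h2
    obtain ⟨ε, h4, h5⟩ := ((h1.eventually (lt_mem_nhds ha)).and
      self_mem_nhdsWithin).exists
    filter_upwards [h ε h5] with q hq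
    exact lt_of_lt_of_le h4 hq.1
  · intro a ha
    have h1 : Tendsto (fun ε : ℝ => ENNReal.ofReal (L + ε)) (𝓝[>] 0)
        (𝓝 (ENNReal.ofReal L)) := by
      have h2 : Tendsto (fun ε : ℝ => L + ε) (𝓝[>] 0) (𝓝 L) := by
        have h3 : Tendsto (fun ε : ℝ => L + ε) (𝓝 0) (𝓝 (L + 0)) :=
          tendsto_const_nhds.add tendsto_id
        rw [add_zero] at h3
        exact h3.mono_left nhdsWithin_le_nhds
      exact (ENNReal.continuous_ofReal.tendsto L).comp h2
    obtain ⟨ε, h4, h5⟩ := ((h1.eventually (gt_mem_nhds ha)).and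
      self_mem_nhdsWithin).exists
    filter_upwards [h ε h5] with q hq
    exact lt_of_le_of_lt hq.2 h4

theorem intOn {f : ℝ → ℝ} (hm : Measurable f) (hn : ∀ u, 0 ≤ f u) {a b M : ℝ}
    (hM : ∀ u ∈ Icc a b, f u ≤ M) : IntegrableOn f (Icc a b) := by
  refine Measure.integrableOn_of_bounded (M := M) ?_ hm.aestronglyMeasurable ?_
  · rw [Real.volume_Icc]
    exact ENNReal.ofReal_ne_top
  · refine (ae_restrict_iff' measurableSet_Icc).2 (Eventually.of_forall ?_)
    intro u hu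
    rw [Real.norm_of_nonneg (hn u)]
    exact hM u hu

theorem cont_g (κ : ℝ) : Continuous (fun u : ℝ => Real.exp (-2 * κ * u)) := by
  fun_prop

theorem anti_g {κ : ℝ} (hκ : 0 < κ) {u v : ℝ} (h : u ≤ v) :
    Real.exp (-2 * κ * v) ≤ Real.exp (-2 * κ * u) := by
  apply Real.exp_le_exp.2
  nlinarith

theorem cell {h : ℝ → ℝ} (hn : ∀ u, 0 ≤ h u) {κ : ℝ} (hκ : 0 < κ) {a b : ℝ}
    (hab : a ≤ b) (hi : IntegrableOn h (Icc a b)) :
    Real.exp (-2 * κ * b) * ∫ u in a..b, h u ≤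
        ∫ u in a..b, Real.exp (-2 * κ * u) * h u ∧
      ∫ u in a..b, Real.exp (-2 * κ * u) * h u ≤
        Real.exp (-2 * κ * a) * ∫ u in a..b, h u := by
  have h1 : IntervalIntegrable h volume a b :=
    (intervalIntegrable_iff_integrableOn_Icc_of_le hab).2 hi
  have h2 : IntervalIntegrable (fun u => Real.exp (-2 * κ * u) * h u)
      volume a b :=
    (intervalIntegrable_iff_integrableOn_Icc_of_le hab).2
      (hi.continuousOn_mul (cont_g κ).continuousOn isCompact_Icc)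
  rw [← intervalIntegral.integral_const_mul, ← intervalIntegral.integral_const_mul]
  constructor
  · refine intervalIntegral.integral_mono_on hab (h1.const_mul _) h2
      fun u hu => ?_
    exact mul_le_mul_of_nonneg_right (anti_g hκ hu.2) (hn u)
  · refine intervalIntegral.integral_mono_on hab h2 (h1.const_mul _)
      fun u hu => ?_
    exact mul_le_mul_of_nonneg_right (anti_g hκ hu.1) (hn u)

/-- the two sums -/
theorem cells {h : ℝ → ℝ} (hn : ∀ u, 0 ≤ h u) {κ : ℝ} (hκ : 0 < κ) {d : ℝ}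
    (hd : 0 ≤ d) (N : ℕ)
    (hi : ∀ a b : ℝ, 1 ≤ a → IntegrableOn h (Icc a b)) :
    ∑ k ∈ Finset.range N, Real.exp (-2 * κ * (1 + ((k + 1 : ℕ) : ℝ) * d)) *
        ∫ u in (1 + (k : ℝ) * d)..(1 + ((k + 1 : ℕ) : ℝ) * d), h u ≤
        ∫ u in (1 : ℝ)..(1 + (N : ℝ) * d), Real.exp (-2 * κ * u) * h u ∧
      ∫ u in (1 : ℝ)..(1 + (N : ℝ) * d), Real.exp (-2 * κ * u) * h u ≤
        ∑ k ∈ Finset.range N, Real.exp (-2 * κ * (1 + (k : ℝ) * d)) *
        ∫ u in (1 + (k : ℝ) * d)..(1 + ((k + 1 : ℕ) : ℝ) * d), h u := by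
  have hstep (k : ℕ) : 1 + (k : ℝ) * d ≤ 1 + ((k + 1 : ℕ) : ℝ) * d := by
    push_cast
    nlinarith
  have hone (k : ℕ) : (1 : ℝ) ≤ 1 + (k : ℝ) * d := by
    have : 0 ≤ (k : ℝ) * d := by positivity
    linarith
  have h1 : ∑ k ∈ Finset.range N,
      ∫ u in (1 + (k : ℝ) * d)..(1 + ((k + 1 : ℕ) : ℝ) * d),
        Real.exp (-2 * κ * u) * h u =
      ∫ u in (1 + ((0 : ℕ) : ℝ) * d)..(1 + (N : ℝ) * d),
        Real.exp (-2 * κ * u) * h u := by
    refine intervalIntegral.sum_integral_adjacent_intervals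
      (a := fun k : ℕ => 1 + (k : ℝ) * d) fun k _ => ?_
    exact (intervalIntegrable_iff_integrableOn_Icc_of_le (hstep k)).2
      ((hi _ _ (hone k)).continuousOn_mul (cont_g κ).continuousOn
        isCompact_Icc)
  rw [Nat.cast_zero, zero_mul, add_zero] at h1
  rw [← h1]
  constructor
  · exact Finset.sum_le_sum fun k _ =>
      (cell hn hκ (hstep k) (hi _ _ (hone k))).1
  · exact Finset.sum_le_sum fun k _ =>
      (cell hn hκ (hstep k) (hi _ _ (hone k))).2

/-- convergence on `[1, U]` -/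
theorem conv_one {f : ℕ → ℝ → ℝ} (hF : Fam f)
    (hw : ∀ a b : ℝ, 1 ≤ a → a < b →
      Tendsto (fun q => ∫ u in a..b, f q u) atTop (𝓝 (b - a)))
    {κ : ℝ} (hκ : 0 < κ) {U : ℝ} (hU : 1 < U) {ε : ℝ} (hε : 0 < ε) :
    ∀ᶠ q in atTop, |(∫ u in (1 : ℝ)..U, Real.exp (-2 * κ * u) * f q u) -
      ∫ u in (1 : ℝ)..U, Real.exp (-2 * κ * u)| ≤ ε := by
  obtain ⟨N, hN⟩ := exists_nat_gt ((U - 1) / (ε / 2))
  have hU1 : 0 < U - 1 := by linarith
  have hNpos : (0 : ℝ) < N := lt_trans (by positivity) hN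
  obtain ⟨d, hd⟩ : ∃ d : ℝ, d = (U - 1) / N := ⟨_, rfl⟩
  have hd0 : 0 < d := by rw [hd]; positivity
  have hNd : 1 + (N : ℝ) * d = U := by
    rw [hd]
    field_simp
    ring
  have hde : d ≤ ε / 2 := by
    rw [hd, div_le_iff₀ hNpos]
    rw [div_lt_iff₀ (by positivity)] at hN
    linarith
  have hfi (q : ℕ) (a b : ℝ) (ha : 1 ≤ a) : IntegrableOn (f q) (Icc a b) := by
    obtain ⟨M, hM⟩ := hF.loc q b
    exact intOn (hF.meas q) (hF.nn q) fun u hu =>
      hM u ⟨by linarith [hu.1], hu.2⟩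
  have hone (a b : ℝ) (_ : 1 ≤ a) : IntegrableOn (fun _ : ℝ => (1 : ℝ))
      (Icc a b) := integrableOn_const (by
        rw [Real.volume_Icc]
        exact ENNReal.ofReal_ne_top)
  have hcell (k : ℕ) : Tendsto (fun q =>
      ∫ u in (1 + (k : ℝ) * d)..(1 + ((k + 1 : ℕ) : ℝ) * d), f q u) atTop
      (𝓝 d) := by
    have h1 := hw (1 + (k : ℝ) * d) (1 + ((k + 1 : ℕ) : ℝ) * d) (by
      have : 0 ≤ (k : ℝ) * d := by positivity
      linarith) (by
        push_cast
        nlinarith)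
    have h2 : 1 + ((k + 1 : ℕ) : ℝ) * d - (1 + (k : ℝ) * d) = d := by
      push_cast
      ring
    rwa [h2] at h1
  have hlow : Tendsto (fun q => ∑ k ∈ Finset.range N,
      Real.exp (-2 * κ * (1 + ((k + 1 : ℕ) : ℝ) * d)) *
        ∫ u in (1 + (k : ℝ) * d)..(1 + ((k + 1 : ℕ) : ℝ) * d), f q u) atTop
      (𝓝 (∑ k ∈ Finset.range N,
        Real.exp (-2 * κ * (1 + ((k + 1 : ℕ) : ℝ) * d)) * d)) :=
    tendsto_finsetSum _ fun k _ => (hcell k).const_mul _
  have hup : Tendsto (fun q => ∑ k ∈ Finset.range N,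
      Real.exp (-2 * κ * (1 + (k : ℝ) * d)) *
        ∫ u in (1 + (k : ℝ) * d)..(1 + ((k + 1 : ℕ) : ℝ) * d), f q u) atTop
      (𝓝 (∑ k ∈ Finset.range N,
        Real.exp (-2 * κ * (1 + (k : ℝ) * d)) * d)) :=
    tendsto_finsetSum _ fun k _ => (hcell k).const_mul _
  have h1 := cells (h := fun _ => (1 : ℝ)) (fun _ => zero_le_one) hκ hd0.le N hone
  rw [hNd] at h1
  have hint (k : ℕ) : (∫ _ in (1 + (k : ℝ) * d)..(1 + ((k + 1 : ℕ) : ℝ) * d),
      (1 : ℝ)) = d := by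
    rw [intervalIntegral.integral_const, smul_eq_mul, mul_one]
    push_cast
    ring
  simp only [hint, mul_one] at h1
  have htel : ∑ k ∈ Finset.range N, Real.exp (-2 * κ * (1 + (k : ℝ) * d)) * d -
      ∑ k ∈ Finset.range N,
        Real.exp (-2 * κ * (1 + ((k + 1 : ℕ) : ℝ) * d)) * d ≤ ε / 2 := by
    rw [← Finset.sum_sub_distrib]
    have h2 : ∑ k ∈ Finset.range N,
        (Real.exp (-2 * κ * (1 + (k : ℝ) * d)) * d -
          Real.exp (-2 * κ * (1 + ((k + 1 : ℕ) : ℝ) * d)) * d) =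
        Real.exp (-2 * κ * (1 + ((0 : ℕ) : ℝ) * d)) * d -
          Real.exp (-2 * κ * (1 + (N : ℝ) * d)) * d :=
      Finset.sum_range_sub' (fun k : ℕ =>
        Real.exp (-2 * κ * (1 + (k : ℝ) * d)) * d) N
    rw [h2]
    have h3 : Real.exp (-2 * κ * (1 + ((0 : ℕ) : ℝ) * d)) ≤ 1 := by
      rw [Real.exp_le_one_iff, Nat.cast_zero, zero_mul, add_zero]
      linarith
    have h4 : 0 ≤ Real.exp (-2 * κ * (1 + (N : ℝ) * d)) * d := by positivity
    have h5 : Real.exp (-2 * κ * (1 + ((0 : ℕ) : ℝ) * d)) * d ≤ 1 * d :=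
      mul_le_mul_of_nonneg_right h3 hd0.le
    exact (sub_le_self _ h4).trans (h5.trans (by linarith))
  filter_upwards [hlow.eventually (lt_mem_nhds (sub_lt_self _ (half_pos hε))),
    hup.eventually (gt_mem_nhds (lt_add_of_pos_right _ (half_pos hε)))]
    with q h2 h3
  have h4 := cells (hF.nn q) hκ hd0.le N (hfi q)
  rw [hNd] at h4
  rw [abs_le]
  constructor
  · linarith [h4.1, h1.2]
  · linarith [h4.2, h1.1]

/-- convergence on `[0, 1]` -/
theorem conv_zero {f : ℕ → ℝ → ℝ} (hF : Fam f) {κ : ℝ} (hκ : 0 < κ) {ε : ℝ}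
    (hε : 0 < ε) :
    ∀ᶠ q in atTop, |(∫ u in (0 : ℝ)..1, Real.exp (-2 * κ * u) * f q u) -
      ∫ u in (0 : ℝ)..1, Real.exp (-2 * κ * u) * u| ≤ ε := by
  filter_upwards [hF.small ε hε] with q hq
  obtain ⟨M, hM⟩ := hF.loc q 1
  have h1 : IntegrableOn (f q) (Icc 0 1) := intOn (hF.meas q) (hF.nn q) hM
  have h2 : IntervalIntegrable (fun u => Real.exp (-2 * κ * u) * f q u)
      volume 0 1 :=
    (intervalIntegrable_iff_integrableOn_Icc_of_le zero_le_one).2
      (h1.continuousOn_mul (cont_g κ).continuousOn isCompact_Icc)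
  have h3 : IntervalIntegrable (fun u => Real.exp (-2 * κ * u) * u)
      volume 0 1 := ((cont_g κ).mul continuous_id).intervalIntegrable _ _
  rw [← intervalIntegral.integral_sub h2 h3]
  have h4 := intervalIntegral.norm_integral_le_of_norm_le_const
    (a := (0 : ℝ)) (b := 1) (C := ε)
    (f := fun u => Real.exp (-2 * κ * u) * f q u - Real.exp (-2 * κ * u) * u)
    (fun u hu => by
      rw [uIoc_of_le zero_le_one] at hu
      rw [← mul_sub, norm_mul, Real.norm_of_nonneg (Real.exp_pos _).le,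
        Real.norm_eq_abs]
      have h5 := hq u ⟨hu.1.le, hu.2⟩
      have h6 : Real.exp (-2 * κ * u) ≤ 1 := by
        rw [Real.exp_le_one_iff]
        nlinarith [hu.1]
      calc Real.exp (-2 * κ * u) * |f q u - u| ≤ 1 * ε :=
            mul_le_mul h6 h5 (abs_nonneg _) zero_le_one
        _ = ε := one_mul ε)
  rw [sub_zero, abs_one, mul_one] at h4
  exact h4

/-- the integral of `u e^{-2κu}` -/
theorem int_zero {κ : ℝ} (hκ : 0 < κ) :
    ∫ u in (0 : ℝ)..1, Real.exp (-2 * κ * u) * u =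
      (1 - Real.exp (-2 * κ)) / (4 * κ ^ 2) - Real.exp (-2 * κ) / (2 * κ) := by
  have h1 : ∀ u ∈ uIcc (0 : ℝ) 1, HasDerivAt
      (fun u : ℝ => -(u / (2 * κ) + 1 / (4 * κ ^ 2)) * Real.exp (-2 * κ * u))
      (Real.exp (-2 * κ * u) * u) u := by
    intro u _
    have h2 : HasDerivAt (fun u : ℝ => Real.exp (-2 * κ * u))
        (Real.exp (-2 * κ * u) * (-2 * κ * 1)) u :=
      ((hasDerivAt_id u).const_mul (-2 * κ)).exp
    have h3 : HasDerivAt (fun u : ℝ => -(u / (2 * κ) + 1 / (4 * κ ^ 2)))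
        (-(1 / (2 * κ))) u :=
      (((hasDerivAt_id u).div_const (2 * κ)).add_const _).neg
    have h4 := h3.mul h2
    refine h4.congr_deriv ?_
    field_simp
    ring
  rw [intervalIntegral.integral_eq_sub_of_hasDerivAt h1
    (((cont_g κ).mul continuous_id).intervalIntegrable _ _)]
  rw [mul_one, mul_zero, Real.exp_zero]
  field_simp
  ring

theorem int_one {κ : ℝ} (hκ : 0 < κ) (U : ℝ) :
    ∫ u in (1 : ℝ)..U, Real.exp (-2 * κ * u) =
      Real.exp (-2 * κ) / (2 * κ) - Real.exp (-2 * κ * U) / (2 * κ) := by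
  have h1 : ∀ u ∈ uIcc (1 : ℝ) U, HasDerivAt
      (fun u : ℝ => -(1 / (2 * κ)) * Real.exp (-2 * κ * u))
      (Real.exp (-2 * κ * u)) u := by
    intro u _
    have h2 : HasDerivAt (fun u : ℝ => Real.exp (-2 * κ * u))
        (Real.exp (-2 * κ * u) * (-2 * κ * 1)) u :=
      ((hasDerivAt_id u).const_mul (-2 * κ)).exp
    refine (h2.const_mul (-(1 / (2 * κ)))).congr_deriv ?_
    field_simp
  rw [intervalIntegral.integral_eq_sub_of_hasDerivAt h1
    ((cont_g κ).intervalIntegrable _ _), mul_one]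
  ring

/-- the tail -/
theorem tail {f : ℝ → ℝ} (hn : ∀ u, 0 ≤ f u) {κ k₁ : ℝ} (h1 : k₁ ≤ κ)
    {U : ℝ} (hU : 0 ≤ U) :
    ∫⁻ u in Ioi U, ENNReal.ofReal (Real.exp (-2 * κ * u) * f u) ≤
      ENNReal.ofReal (Real.exp (-2 * (κ - k₁) * U)) * LT f k₁ := by
  calc ∫⁻ u in Ioi U, ENNReal.ofReal (Real.exp (-2 * κ * u) * f u)
      ≤ ∫⁻ u in Ioi U, ENNReal.ofReal (Real.exp (-2 * (κ - k₁) * U)) *
          ENNReal.ofReal (Real.exp (-2 * k₁ * u) * f u) := by
        refine setLIntegral_mono' measurableSet_Ioi fun u hu => ?_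
        rw [← ENNReal.ofReal_mul (Real.exp_pos _).le]
        refine ENNReal.ofReal_le_ofReal ?_
        rw [← mul_assoc]
        refine mul_le_mul_of_nonneg_right ?_ (hn u)
        rw [← Real.exp_add]
        refine Real.exp_le_exp.2 ?_
        have h2 : U < u := hu
        nlinarith
    _ = ENNReal.ofReal (Real.exp (-2 * (κ - k₁) * U)) *
          ∫⁻ u in Ioi U, ENNReal.ofReal (Real.exp (-2 * k₁ * u) * f u) :=
        lintegral_const_mul' _ _ ENNReal.ofReal_ne_top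
    _ ≤ ENNReal.ofReal (Real.exp (-2 * (κ - k₁) * U)) * LT f k₁ := by
        refine mul_le_mul_right ?_ _
        exact lintegral_mono_set (Ioi_subset_Ioi hU)

end Pool.Agent.NH13.UV.LapW

namespace Pool.Agent.NH13.UV

open LapW

theorem t_T2 : S_T2 := by
  intro f hF hC hw κ hκ
  obtain ⟨C, hC⟩ := hC
  refine tendsto_of_eps fun ε hε => ?_
  obtain ⟨k₁, hk₁⟩ : ∃ k₁ : ℝ, k₁ = min κ 1 / 2 := ⟨_, rfl⟩
  have hk0 : 0 < k₁ := by
    rw [hk₁]
    have : 0 < min κ 1 := lt_min hκ one_pos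
    linarith
  have hk1 : k₁ ≤ 1 := by
    rw [hk₁]
    linarith [min_le_right κ 1]
  have hk2 : k₁ ≤ κ / 2 := by
    rw [hk₁]
    linarith [min_le_left κ 1]
  have hlim : Tendsto (fun U : ℝ => Real.exp (-(κ * U))) atTop (𝓝 0) :=
    Real.tendsto_exp_neg_atTop_nhds_zero.comp
      (tendsto_id.const_mul_atTop hκ)
  have hl1 : Tendsto (fun U : ℝ => Real.exp (-(κ * U)) * (|C| / k₁ ^ 2)) atTop
      (𝓝 0) := by
    have := hlim.mul_const (|C| / k₁ ^ 2)
    rwa [zero_mul] at this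
  have hl2 : Tendsto (fun U : ℝ => Real.exp (-(κ * U)) * (1 / (2 * κ))) atTop
      (𝓝 0) := by
    have := hlim.mul_const (1 / (2 * κ))
    rwa [zero_mul] at this
  have hε4 : 0 < ε / 4 := by linarith
  obtain ⟨U, ⟨hU1, hU2⟩, hU3⟩ := (((hl1.eventually (gt_mem_nhds hε4)).and
    (hl2.eventually (gt_mem_nhds hε4))).and (eventually_gt_atTop (1 : ℝ))).exists
  filter_upwards [hC k₁ hk0 hk1, conv_zero hF hκ hε4,
    conv_one hF hw hκ hU3 hε4] with q hq1 hq2 hq3
  rw [int_zero hκ] at hq2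
  rw [int_one hκ U] at hq3
  obtain ⟨M, hM⟩ := hF.loc q U
  have hU0 : (0 : ℝ) ≤ U := by linarith
  have hi : IntegrableOn (f q) (Icc 0 U) := intOn (hF.meas q) (hF.nn q) hM
  have hig : IntegrableOn (fun u => Real.exp (-2 * κ * u) * f q u) (Icc 0 U) :=
    hi.continuousOn_mul (cont_g κ).continuousOn isCompact_Icc
  have hsplit : LT (f q) κ =
      ENNReal.ofReal (∫ u in (0 : ℝ)..U, Real.exp (-2 * κ * u) * f q u) +
        ∫⁻ u in Ioi U, ENNReal.ofReal (Real.exp (-2 * κ * u) * f q u) := by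
    rw [LT, ← Ioc_union_Ioi_eq_Ioi hU0,
      lintegral_union measurableSet_Ioi (Ioc_disjoint_Ioi le_rfl),
      intervalIntegral.integral_of_le hU0,
      ofReal_integral_eq_lintegral_ofReal (hig.mono_set Ioc_subset_Icc_self)]
    exact Eventually.of_forall fun u =>
      mul_nonneg (Real.exp_pos _).le (hF.nn q u)
  have hadd : (∫ u in (0 : ℝ)..U, Real.exp (-2 * κ * u) * f q u) =
      (∫ u in (0 : ℝ)..1, Real.exp (-2 * κ * u) * f q u) +
        ∫ u in (1 : ℝ)..U, Real.exp (-2 * κ * u) * f q u := by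
    refine (intervalIntegral.integral_add_adjacent_intervals ?_ ?_).symm
    · exact (intervalIntegrable_iff_integrableOn_Icc_of_le zero_le_one).2
        (hig.mono_set (Icc_subset_Icc_right hU3.le))
    · exact (intervalIntegrable_iff_integrableOn_Icc_of_le hU3.le).2
        (hig.mono_set (Icc_subset_Icc_left zero_le_one))
  have htail := tail (hF.nn q) (show k₁ ≤ κ by linarith) hU0
  have hexp : Real.exp (-2 * (κ - k₁) * U) ≤ Real.exp (-(κ * U)) := by
    apply Real.exp_le_exp.2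
    nlinarith
  have hexp2 : Real.exp (-2 * κ * U) ≤ Real.exp (-(κ * U)) := by
    apply Real.exp_le_exp.2
    nlinarith
  have ht : ∫⁻ u in Ioi U, ENNReal.ofReal (Real.exp (-2 * κ * u) * f q u) ≤
      ENNReal.ofReal (ε / 4) := by
    refine htail.trans ?_
    calc ENNReal.ofReal (Real.exp (-2 * (κ - k₁) * U)) * LT (f q) k₁
        ≤ ENNReal.ofReal (Real.exp (-(κ * U))) *
            ENNReal.ofReal (|C| / k₁ ^ 2) := by
          refine mul_le_mul' (ENNReal.ofReal_le_ofReal hexp) (hq1.trans ?_)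
          refine ENNReal.ofReal_le_ofReal ?_
          gcongr
          exact le_abs_self C
      _ = ENNReal.ofReal (Real.exp (-(κ * U)) * (|C| / k₁ ^ 2)) :=
          (ENNReal.ofReal_mul (Real.exp_pos _).le).symm
      _ ≤ ENNReal.ofReal (ε / 4) := ENNReal.ofReal_le_ofReal hU1.le
  have he : 0 ≤ Real.exp (-2 * κ * U) / (2 * κ) := by positivity
  have he2 : Real.exp (-2 * κ * U) / (2 * κ) ≤ ε / 4 := by
    refine le_trans ?_ hU2.le
    rw [mul_one_div]
    gcongr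
  rw [abs_le] at hq2 hq3
  rw [hsplit, hadd]
  constructor
  · refine le_trans (ENNReal.ofReal_le_ofReal ?_) le_self_add
    linarith [hq2.1, hq3.1]
  · calc ENNReal.ofReal ((∫ u in (0 : ℝ)..1, Real.exp (-2 * κ * u) * f q u) +
          ∫ u in (1 : ℝ)..U, Real.exp (-2 * κ * u) * f q u) +
          ∫⁻ u in Ioi U, ENNReal.ofReal (Real.exp (-2 * κ * u) * f q u)
        ≤ ENNReal.ofReal ((∫ u in (0 : ℝ)..1, Real.exp (-2 * κ * u) * f q u) +
          ∫ u in (1 : ℝ)..U, Real.exp (-2 * κ * u) * f q u) +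
          ENNReal.ofReal (ε / 4) := add_le_add le_rfl ht
      _ = ENNReal.ofReal ((∫ u in (0 : ℝ)..1, Real.exp (-2 * κ * u) * f q u) +
          (∫ u in (1 : ℝ)..U, Real.exp (-2 * κ * u) * f q u) + ε / 4) := by
          rw [← ENNReal.ofReal_add ?_ hε4.le]
          rw [← hadd]
          refine intervalIntegral.integral_nonneg hU0 fun u _ =>
            mul_nonneg (Real.exp_pos _).le (hF.nn q u)
      _ ≤ _ := by
          refine ENNReal.ofReal_le_ofReal ?_
          linarith [hq2.2, hq3.2]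

end Pool.Agent.NH13.UV
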